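import Pool.Agent.H369R2.AbsDefs

/-! # Approximate eigenvectors -/

open Filter
open scoped Topology

namespace Pool.Agent.H369R2

variable {V : Type*} [SeminormedAddCommGroup V] [InnerProductSpace ℂ V]

namespace Abs1

theorem re_comm (u v : V) : (inner ℂ u v).re = (inner ℂ v u).re := by
  rw [← inner_conj_symm v u, Complex.conj_re]

theorem normsq (u : V) : ‖u‖ ^ 2 = (inner ℂ u u).re := by
  have := inner_self_eq_norm_sq (𝕜 := ℂ) u
  exact this.symm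

theorem ray_smul (A : Module.End ℂ V) (t : ℝ) (u : V) :
    (inner ℂ (A ((t : ℂ) • u)) ((t : ℂ) • u)).re = t ^ 2 * (inner ℂ (A u) u).re := by
  rw [map_smul, inner_smul_left, inner_smul_right, Complex.conj_ofReal, ← mul_assoc, ← Complex.ofReal_mul,
    Complex.re_ofReal_mul]
  ring

theorem ray_le (A : Module.End ℂ V) (hA : ∀ u, ‖A u‖ ≤ ‖u‖) (u : V) :
    |(inner ℂ (A u) u).re| ≤ ‖u‖ ^ 2 := by
  calc |(inner ℂ (A u) u).re| ≤ ‖inner ℂ (A u) u‖ := Complex.abs_re_le_norm _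
    _ ≤ ‖A u‖ * ‖u‖ := norm_inner_le_norm _ _
    _ ≤ ‖u‖ * ‖u‖ := by gcongr; exact hA u
    _ = ‖u‖ ^ 2 := by ring

/-- the key inequality -/
theorem key (A : Module.End ℂ V) (hsym : ∀ u v, inner ℂ (A u) v = inner ℂ u (A v))
    (hA : ∀ u, ‖A u‖ ≤ ‖u‖) (W : Submodule ℂ V) (hW : ∀ u ∈ W, A u ∈ W) (l : ℝ) (hl : l ≤ 1)
    (hb : ∀ u ∈ W, (inner ℂ (A u) u).re ≤ l * ‖u‖ ^ 2) (u : V) (hu : u ∈ W) :
    ‖A u - (l : ℂ) • u‖ ^ 2 ≤ 2 * (l * ‖u‖ ^ 2 - (inner ℂ (A u) u).re) := by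
  set v := A u - (l : ℂ) • u with hv
  have hvW : v ∈ W := W.sub_mem (hW u hu) (W.smul_mem _ hu)
  have h1 := hb (u + (((1 / 2 : ℝ)) : ℂ) • v) (W.add_mem hu (W.smul_mem _ hvW))
  have h2 := ray_le A hA v
  rw [abs_le] at h2
  have e1 : ‖u + (((1 / 2 : ℝ)) : ℂ) • v‖ ^ 2 = ‖u‖ ^ 2 + (inner ℂ u v).re + 1 / 4 * ‖v‖ ^ 2 := by
    rw [normsq, inner_add_left, inner_add_right, inner_add_right, inner_smul_left, inner_smul_right,
      inner_smul_left, inner_smul_right, Complex.conj_ofReal]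
    simp only [Complex.add_re, Complex.re_ofReal_mul]
    rw [re_comm v u, ← normsq, ← normsq]
    ring
  have e2 : (inner ℂ (A (u + (((1 / 2 : ℝ)) : ℂ) • v)) (u + (((1 / 2 : ℝ)) : ℂ) • v)).re =
      (inner ℂ (A u) u).re + (inner ℂ (A u) v).re + 1 / 4 * (inner ℂ (A v) v).re := by
    rw [map_add, map_smul, inner_add_left, inner_add_right, inner_add_right, inner_smul_left,
      inner_smul_right, inner_smul_left, inner_smul_right, Complex.conj_ofReal]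
    simp only [Complex.add_re, Complex.re_ofReal_mul]
    rw [hsym v u, re_comm v (A u)]
    ring
  have e3 : (inner ℂ (A u) v).re - l * (inner ℂ u v).re = ‖v‖ ^ 2 := by
    have : ‖v‖ ^ 2 = (inner ℂ (A u - (l : ℂ) • u) v).re := by rw [← hv]; exact normsq v
    rw [this, inner_sub_left, inner_smul_left, Complex.conj_ofReal, Complex.sub_re, Complex.re_ofReal_mul]
  rw [e1, e2] at h1
  have h3 : l * ‖v‖ ^ 2 ≤ 1 * ‖v‖ ^ 2 := by gcongr
  nlinarith

end Abs1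

open Abs1

/-- If a symmetric contraction takes a value `> c` of the Rayleigh quotient on an invariant subspace,
there are approximate eigenvectors in this subspace for the supremum `l` of the Rayleigh quotient.
(`B = l - A ≥ 0`, `‖B‖ ≤ 2`, so `‖B u‖² ≤ 2 ⟪B u, u⟫` by Cauchy-Schwarz for the form `⟪B ·, ·⟫`.) -/
theorem approx_eig (A : Module.End ℂ V) (hsym : ∀ u v, inner ℂ (A u) v = inner ℂ u (A v))
    (hA : ∀ u, ‖A u‖ ≤ ‖u‖) (W : Submodule ℂ V) (hW : ∀ u ∈ W, A u ∈ W) (c : ℝ) (hc : 0 ≤ c)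
    (hne : ∃ u ∈ W, c * ‖u‖ ^ 2 < (inner ℂ (A u) u).re) :
    ∃ l : ℝ, c < l ∧ l ≤ 1 ∧ ∃ u : ℕ → V, (∀ n, u n ∈ W ∧ ‖u n‖ = 1) ∧
      Tendsto (fun n => ‖A (u n) - (l : ℂ) • u n‖) atTop (𝓝 0) := by
  have hunit : ∀ u ∈ W, ‖u‖ ≠ 0 → ∃ v ∈ W, ‖v‖ = 1 ∧
      (inner ℂ (A v) v).re = (inner ℂ (A u) u).re / ‖u‖ ^ 2 := by
    intro u hu hu0
    refine ⟨((‖u‖⁻¹ : ℝ) : ℂ) • u, W.smul_mem _ hu, ?_, ?_⟩
    · rw [norm_smul, Complex.norm_real, norm_inv, norm_norm, inv_mul_cancel₀ hu0]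
    · rw [ray_smul]
      field_simp
  set S : Set ℝ := {r | ∃ u ∈ W, ‖u‖ = 1 ∧ (inner ℂ (A u) u).re = r} with hS
  have hbdd : BddAbove S := by
    refine ⟨1, ?_⟩
    rintro r ⟨u, _, hu1, rfl⟩
    have := ray_le A hA u
    rw [hu1] at this
    rw [abs_le] at this
    linarith [this.2]
  obtain ⟨u0, hu0, hlt⟩ := hne
  have hu00 : ‖u0‖ ≠ 0 := by
    intro h
    have := ray_le A hA u0
    rw [abs_le, h] at this
    rw [h] at hlt
    norm_num at this hlt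
    linarith
  obtain ⟨v0, hv0, hv01, hv0r⟩ := hunit u0 hu0 hu00
  have hmem : (inner ℂ (A v0) v0).re ∈ S := ⟨v0, hv0, hv01, rfl⟩
  have hcl : c < sSup S := by
    refine lt_of_lt_of_le ?_ (le_csSup hbdd hmem)
    rw [hv0r, lt_div_iff₀ (by positivity)]
    exact hlt
  have hl1 : sSup S ≤ 1 := by
    apply csSup_le ⟨_, hmem⟩
    rintro r ⟨u, _, hu1, rfl⟩
    have := ray_le A hA u
    rw [hu1] at this
    rw [abs_le] at this
    linarith [this.2]
  have hb : ∀ u ∈ W, (inner ℂ (A u) u).re ≤ sSup S * ‖u‖ ^ 2 := by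
    intro u hu
    rcases eq_or_ne ‖u‖ 0 with h | h
    · have := ray_le A hA u
      rw [abs_le, h] at this
      rw [h]
      norm_num at this ⊢
      linarith
    · obtain ⟨v, hv, hv1, hvr⟩ := hunit u hu h
      have : (inner ℂ (A v) v).re ≤ sSup S := le_csSup hbdd ⟨v, hv, hv1, rfl⟩
      rw [hvr, div_le_iff₀ (by positivity)] at this
      exact this
  refine ⟨sSup S, hcl, hl1, ?_⟩
  have hseq : ∀ n : ℕ, ∃ u ∈ W, ‖u‖ = 1 ∧ sSup S - 1 / ((n : ℝ) + 1) < (inner ℂ (A u) u).re := by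
    intro n
    obtain ⟨r, ⟨u, hu, hu1, rfl⟩, hr⟩ := exists_lt_of_lt_csSup ⟨_, hmem⟩
      (show sSup S - 1 / ((n : ℝ) + 1) < sSup S by
        have : (0 : ℝ) < 1 / ((n : ℝ) + 1) := by positivity
        linarith)
    exact ⟨u, hu, hu1, hr⟩
  choose u hu hu1 hur using hseq
  refine ⟨u, fun n => ⟨hu n, hu1 n⟩, ?_⟩
  have hsq : Tendsto (fun n => ‖A (u n) - ((sSup S : ℝ) : ℂ) • u n‖ ^ 2) atTop (𝓝 0) := by
    have hlim : Tendsto (fun n : ℕ => 2 * (1 / ((n : ℝ) + 1))) atTop (𝓝 (2 * 0)) :=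
      tendsto_one_div_add_atTop_nhds_zero_nat.const_mul 2
    rw [mul_zero] at hlim
    refine squeeze_zero (fun n => by positivity) (fun n => ?_) hlim
    have := key A hsym hA W hW (sSup S) hl1 hb (u n) (hu n)
    rw [hu1 n] at this
    have := hur n
    linarith
  have := (Real.continuous_sqrt.tendsto 0).comp hsq
  rw [Real.sqrt_zero] at this
  refine this.congr fun n => ?_
  rw [Function.comp_apply, Real.sqrt_sq (norm_nonneg _)]

end Pool.Agent.H369R2
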