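import Pool.Agent.H369R2.AbsDefs

/-! # Averages over finite subgroups -/

open Filter CongruenceSubgroup ModularGroup
open scoped MatrixGroups Topology ComplexConjugate

namespace Pool.Agent.H369R2

section
variable {G V : Type*} [Group G] [AddCommGroup V] [Module ℂ V]

theorem avg_apply (ρ : G →* Module.End ℂ V) (H : Subgroup G) [Finite H] (v : V) :
    avg ρ H v = (Nat.card H : ℂ)⁻¹ • ∑ᶠ h : H, ρ h v := by
  have := Fintype.ofFinite H
  unfold avg
  rw [finsum_eq_sum_of_fintype, finsum_eq_sum_of_fintype, LinearMap.smul_apply, LinearMap.sum_apply]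

theorem rho_avg (ρ : G →* Module.End ℂ V) (H : Subgroup G) [Finite H] {h : G} (hh : h ∈ H) (v : V) :
    ρ h (avg ρ H v) = avg ρ H v := by
  have := Fintype.ofFinite H
  rw [avg_apply, finsum_eq_sum_of_fintype, map_smul, map_sum]
  congr 1
  apply Fintype.sum_equiv (Equiv.mulLeft (⟨h, hh⟩ : H))
  intro x
  simp [map_mul]

theorem avg_rho (ρ : G →* Module.End ℂ V) (H : Subgroup G) [Finite H] {h : G} (hh : h ∈ H) (v : V) :
    avg ρ H (ρ h v) = avg ρ H v := by
  have := Fintype.ofFinite H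
  rw [avg_apply, avg_apply, finsum_eq_sum_of_fintype, finsum_eq_sum_of_fintype]
  congr 1
  apply Fintype.sum_equiv (Equiv.mulRight (⟨h, hh⟩ : H))
  intro x
  simp [map_mul]

theorem avg_of_fixed (ρ : G →* Module.End ℂ V) (H : Subgroup G) [Finite H] (v : V)
    (h : ∀ h ∈ H, ρ h v = v) : avg ρ H v = v := by
  have := Fintype.ofFinite H
  have e : ∑ x : H, ρ (x : G) v = ∑ _x : H, v := Finset.sum_congr rfl (fun x _ => h x x.2)
  rw [avg_apply, finsum_eq_sum_of_fintype, e,
    Finset.sum_const, Finset.card_univ, ← Nat.card_eq_fintype_card, ← Nat.cast_smul_eq_nsmul ℂ,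
    smul_smul, inv_mul_cancel₀, one_smul]
  exact_mod_cast Nat.card_pos.ne'

theorem avg_idem (ρ : G →* Module.End ℂ V) (H : Subgroup G) [Finite H] (v : V) :
    avg ρ H (avg ρ H v) = avg ρ H v :=
  avg_of_fixed ρ H _ fun _ hh => rho_avg ρ H hh v

theorem avg_comm_of_comm (ρ : G →* Module.End ℂ V) (H : Subgroup G) [Finite H] (A : Module.End ℂ V)
    (hA : ∀ g v, ρ g (A v) = A (ρ g v)) (v : V) : avg ρ H (A v) = A (avg ρ H v) := by
  have := Fintype.ofFinite H
  rw [avg_apply, avg_apply, finsum_eq_sum_of_fintype, finsum_eq_sum_of_fintype, map_smul, map_sum]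
  simp only [hA]

/-- averages over normal subgroups are central -/
theorem avg_comm_rho (ρ : G →* Module.End ℂ V) (H : Subgroup G) [Finite H] [hn : H.Normal] (g : G) (v : V) :
    avg ρ H (ρ g v) = ρ g (avg ρ H v) := by
  have := Fintype.ofFinite H
  rw [avg_apply, avg_apply, finsum_eq_sum_of_fintype, finsum_eq_sum_of_fintype, map_smul, map_sum]
  congr 1
  apply Fintype.sum_equiv (MulAut.conjNormal (H := H) g⁻¹).toEquiv
  intro x
  have e : ((MulAut.conjNormal (H := H) g⁻¹ x : H) : G) = g⁻¹ * x * g := by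
    rw [MulAut.conjNormal_apply, inv_inv]
  simp only [MulEquiv.toEquiv_eq_coe, EquivLike.coe_coe]
  rw [e, ← Module.End.mul_apply, ← Module.End.mul_apply, ← map_mul, ← map_mul]
  congr 2
  group

theorem avg_comm_avg (ρ : G →* Module.End ℂ V) (H H' : Subgroup G) [Finite H] [Finite H'] [H.Normal]
    (v : V) : avg ρ H (avg ρ H' v) = avg ρ H' (avg ρ H v) := by
  have := Fintype.ofFinite H'
  rw [avg_apply ρ H' v, avg_apply ρ H' (avg ρ H v), finsum_eq_sum_of_fintype, finsum_eq_sum_of_fintype,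
    map_smul, map_sum]
  simp only [avg_comm_rho]

end

section
variable {G V : Type*} [Group G] [SeminormedAddCommGroup V] [InnerProductSpace ℂ V]

theorem inner_rho (ρ : G →* Module.End ℂ V) (hρ : ∀ g v, ‖ρ g v‖ = ‖v‖) (g : G) (u v : V) :
    inner ℂ (ρ g u) (ρ g v) = inner ℂ u v := by
  rw [inner_eq_sum_norm_sq_div_four, inner_eq_sum_norm_sq_div_four]
  simp only [← map_add, ← map_sub, ← map_smul, hρ]

theorem avg_symm (ρ : G →* Module.End ℂ V) (hρ : ∀ g v, ‖ρ g v‖ = ‖v‖) (H : Subgroup G) [Finite H]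
    (u v : V) : inner ℂ (avg ρ H u) v = inner ℂ u (avg ρ H v) := by
  have := Fintype.ofFinite H
  rw [avg_apply, avg_apply, finsum_eq_sum_of_fintype, finsum_eq_sum_of_fintype, inner_smul_left,
    inner_smul_right, sum_inner, inner_sum, map_inv₀, Complex.conj_natCast]
  congr 1
  apply Fintype.sum_equiv (Equiv.inv H)
  intro x
  rw [Equiv.inv_apply, ← inner_rho ρ hρ (x : G) u, ← Module.End.mul_apply, ← map_mul, Subgroup.coe_inv,
    mul_inv_cancel, map_one, Module.End.one_apply]

/-- old / new decomposition: a bound for the Rayleigh quotient of `A` on the subspace `W` follows from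
bounds on the fixed vectors of the `H i` in `W` and on the vectors of `W` killed by all `avg ρ (H i)`. -/
theorem gap_of_new (ρ : G →* Module.End ℂ V) (hρ : ∀ g v, ‖ρ g v‖ = ‖v‖) (A : Module.End ℂ V)
    (hsym : ∀ u v, inner ℂ (A u) v = inner ℂ u (A v)) (hA : ∀ g v, ρ g (A v) = A (ρ g v))
    (W : Submodule ℂ V) (hW : ∀ g, ∀ u ∈ W, ρ g u ∈ W) (c : ℝ)
    {ι : Type*} (s : Finset ι) (H : ι → Subgroup G) (hfin : ∀ i, Finite (H i))
    (hnor : ∀ i, (H i).Normal)
    (hold : ∀ i ∈ s, ∀ u ∈ W, (∀ h ∈ H i, ρ h u = u) → (inner ℂ (A u) u).re ≤ c * ‖u‖ ^ 2)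
    (hnew : ∀ u ∈ W, (∀ i ∈ s, avg ρ (H i) u = 0) → (inner ℂ (A u) u).re ≤ c * ‖u‖ ^ 2) :
    ∀ u ∈ W, (inner ℂ (A u) u).re ≤ c * ‖u‖ ^ 2 := by
  classical
  induction s using Finset.induction_on generalizing W with
  | empty => exact fun u hu => hnew u hu (by simp)
  | insert i s hi ih =>
    intro u hu
    have := hfin i
    have := hnor i
    -- the subspace killed by the average
    have hb : ∀ u ∈ W ⊓ LinearMap.ker (avg ρ (H i)), (inner ℂ (A u) u).re ≤ c * ‖u‖ ^ 2 := by
      apply ih (W ⊓ LinearMap.ker (avg ρ (H i)))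
      · intro g v hv
        refine ⟨hW g v hv.1, ?_⟩
        have h2 : avg ρ (H i) v = 0 := hv.2
        show avg ρ (H i) (ρ g v) = 0
        rw [avg_comm_rho, h2, map_zero]
      · intro j hj v hv hfix
        exact hold j (Finset.mem_insert_of_mem hj) v hv.1 hfix
      · intro v hv hall
        apply hnew v hv.1
        intro j hj
        rcases Finset.mem_insert.mp hj with rfl | hj
        · exact hv.2
        · exact hall j hj
    set e := avg ρ (H i) u with he
    have heW : e ∈ W := by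
      have := Fintype.ofFinite (H i)
      rw [he, avg_apply, finsum_eq_sum_of_fintype]
      exact W.smul_mem _ (W.sum_mem fun h _ => hW h u hu)
    have h1 : (inner ℂ (A e) e).re ≤ c * ‖e‖ ^ 2 :=
      hold i (Finset.mem_insert_self _ _) e heW fun h hh => rho_avg ρ (H i) hh u
    have hker : avg ρ (H i) (u - e) = 0 := by
      rw [map_sub, he, avg_idem, sub_self]
    have h2 : (inner ℂ (A (u - e)) (u - e)).re ≤ c * ‖u - e‖ ^ 2 :=
      hb (u - e) ⟨W.sub_mem hu heW, hker⟩
    have o1 : inner ℂ e (u - e) = 0 := by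
      rw [he, avg_symm ρ hρ, ← he, hker, inner_zero_right]
    have o2 : inner ℂ (A e) (u - e) = 0 := by
      rw [he, ← avg_comm_of_comm ρ (H i) A hA, avg_symm ρ hρ, ← he, hker, inner_zero_right]
    have o3 : inner ℂ (A (u - e)) e = 0 := by
      rw [hsym, ← inner_conj_symm, o2, map_zero]
    have e1 : u = e + (u - e) := by abel
    have n1 : ‖u‖ ^ 2 = ‖e‖ ^ 2 + ‖u - e‖ ^ 2 := by
      conv_lhs => rw [e1]
      rw [pow_two, pow_two, pow_two]
      exact norm_add_sq_eq_norm_sq_add_norm_sq_of_inner_eq_zero e (u - e) o1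
    have n2 : (inner ℂ (A u) u).re = (inner ℂ (A e) e).re + (inner ℂ (A (u - e)) (u - e)).re := by
      conv_lhs => rw [e1]
      rw [map_add, inner_add_left, inner_add_right, inner_add_right, o2, o3]
      simp
    rw [n1, n2]
    linarith

end

end Pool.Agent.H369R2
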