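import Mathlib

open UpperHalfPlane MeasureTheory Metric ModularGroup CongruenceSubgroup
open scoped MatrixGroups ENNReal Modular Topology

namespace Pool.Agent.H369R2

namespace S8a

/-- membership of the quotient -/
theorem inv_mul_mem (N : ℕ) (g γ : SL(2, ℤ))
    (h : ∀ i j, ((g i j : ℤ) : ZMod N) = ((γ i j : ℤ) : ZMod N)) : g⁻¹ * γ ∈ Gamma N := by
  rw [Gamma_mem', map_mul, map_inv]
  have : Matrix.SpecialLinearGroup.map (Int.castRingHom (ZMod N)) g =
      Matrix.SpecialLinearGroup.map (Int.castRingHom (ZMod N)) γ := by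
    ext i j
    simpa using h i j
  rw [this, inv_mul_cancel]

/-- `T^(-e) L^e T^(-e)` -/
def Se (e : ℤ) : SL(2, ℤ) := ⟨!![1 - e ^ 2, e ^ 3 - 2 * e; e, 1 - e ^ 2], by
  rw [Matrix.det_fin_two_of]; ring⟩

/-- lower unipotent -/
def Le (e : ℤ) : SL(2, ℤ) := ⟨!![1, 0; e, 1], by rw [Matrix.det_fin_two_of]; ring⟩

theorem Se_eq (e : ℤ) : Se e = T ^ (-e) * Le e * T ^ (-e) := by
  apply Subtype.ext
  rw [Matrix.SpecialLinearGroup.coe_mul, Matrix.SpecialLinearGroup.coe_mul, coe_T_zpow]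
  change !![1 - e ^ 2, e ^ 3 - 2 * e; e, 1 - e ^ 2] = !![1, -e; 0, 1] * !![1, 0; e, 1] * !![1, -e; 0, 1]
  rw [Matrix.mul_fin_two, Matrix.mul_fin_two]
  ext i j
  fin_cases i <;> fin_cases j <;> simp <;> ring

theorem conj_T (h : SL(2, ℤ)) (n : ℤ) : ((h * T ^ n * h⁻¹ : SL(2, ℤ)) : Matrix (Fin 2) (Fin 2) ℤ) =
    !![1 - h 0 0 * h 1 0 * n, (h 0 0) ^ 2 * n; -(h 1 0) ^ 2 * n, 1 + h 0 0 * h 1 0 * n] := by
  have hd : h 0 0 * h 1 1 - h 0 1 * h 1 0 = 1 := by
    have := h.det_coe; rwa [Matrix.det_fin_two] at this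
  ext i j
  fin_cases i <;> fin_cases j <;>
    simp [coe_T_zpow, Matrix.mul_apply, Fin.sum_univ_two, Matrix.adjugate_fin_two] 
  · linear_combination hd
  · ring
  · ring
  · linear_combination hd

theorem conj_mem (G : Subgroup SL(2, ℤ)) (M m : ℕ)
    (hG : ∀ h ∈ Gamma M, h * T ^ (m : ℤ) * h⁻¹ ∈ G) (h : SL(2, ℤ)) (hh : h ∈ Gamma M) (j : ℤ) :
    h * T ^ ((m : ℤ) * j) * h⁻¹ ∈ G := by
  have := G.zpow_mem (hG h hh) j
  rwa [conj_zpow, ← zpow_mul] at this

theorem T_mem (G : Subgroup SL(2, ℤ)) (M m : ℕ)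
    (hG : ∀ h ∈ Gamma M, h * T ^ (m : ℤ) * h⁻¹ ∈ G) (j : ℤ) :
    T ^ ((m : ℤ) * j) ∈ G := by
  have := conj_mem G M m hG 1 (one_mem _) j
  simpa using this

theorem exists_e (a M : ℕ) (h : Nat.Coprime a M) : ∃ e : ℤ, (a : ℤ) ∣ e - 1 ∧ (M : ℤ) ∣ e := by
  have h' : IsCoprime (a : ℤ) (M : ℤ) := Nat.isCoprime_iff_coprime.mpr h
  obtain ⟨u, v, huv⟩ := h'
  refine ⟨v * M, ⟨-u, by linear_combination huv⟩, ⟨v, by ring⟩⟩

theorem Se_mem (M : ℕ) (e : ℤ) (h : (M : ℤ) ∣ e) : Se e ∈ Gamma M := by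
  have : (e : ZMod M) = 0 := by rwa [ZMod.intCast_zmod_eq_zero_iff_dvd e M]
  rw [Gamma_mem]
  simp [Se, this]

theorem Le_mem (M : ℕ) (e : ℤ) (h : (M : ℤ) ∣ e) : Le e ∈ Gamma M := by
  have : (e : ZMod M) = 0 := by rwa [ZMod.intCast_zmod_eq_zero_iff_dvd e M]
  rw [Gamma_mem]
  simp [Le, this]

theorem inf_le (a M : ℕ) (h : Nat.Coprime a M) (γ : SL(2, ℤ)) (h1 : γ ∈ Gamma a) (h2 : γ ∈ Gamma M) :
    γ ∈ Gamma (a * M) := by
  have key : ∀ x : ℤ, (x : ZMod a) = 0 → (x : ZMod M) = 0 → (x : ZMod (a * M)) = 0 := by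
    intro x hx hy
    rw [ZMod.intCast_zmod_eq_zero_iff_dvd] at *
    push_cast
    exact IsCoprime.mul_dvd (Nat.isCoprime_iff_coprime.mpr h) hx hy
  rw [Gamma_mem] at *
  obtain ⟨a1, a2, a3, a4⟩ := h1
  obtain ⟨b1, b2, b3, b4⟩ := h2
  refine ⟨?_, key _ a2 b2, key _ a3 b3, ?_⟩
  · have := key (γ 0 0 - 1) (by push_cast; rw [a1, sub_self]) (by push_cast; rw [b1, sub_self])
    push_cast at this
    exact sub_eq_zero.mp this
  · have := key (γ 1 1 - 1) (by push_cast; rw [a4, sub_self]) (by push_cast; rw [b4, sub_self])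
    push_cast at this
    exact sub_eq_zero.mp this

/-- the case `k = 0` -/
theorem case_zero (q M : ℕ) (hqM : Nat.Coprime q M) (G : Subgroup SL(2, ℤ))
    (hG : ∀ h ∈ Gamma M, h * T ^ (M : ℤ) * h⁻¹ ∈ G) (hG1 : Gamma (q * M) ≤ G) (hG2 : G ≤ Gamma M) :
    Gamma M ≤ G := by
  obtain ⟨e, he1, he2⟩ := exists_e q M hqM
  obtain ⟨e', he'⟩ := he2
  have heM : (M : ℤ) ∣ e := ⟨e', he'⟩
  have heq : ((e : ℤ) : ZMod q) = 1 := by
    have : ((e - 1 : ℤ) : ZMod q) = 0 := by rwa [ZMod.intCast_zmod_eq_zero_iff_dvd]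
    push_cast at this
    exact sub_eq_zero.mp this
  have hidem : ((e : ℤ) : ZMod (q * M)) * e = e := by
    have : ((e * (e - 1) : ℤ) : ZMod (q * M)) = 0 := by
      rw [ZMod.intCast_zmod_eq_zero_iff_dvd]
      push_cast
      rw [mul_comm e]
      exact mul_dvd_mul he1 heM
    push_cast at this
    linear_combination this
  have hTe : ∀ j : ℤ, T ^ (e * j) ∈ G := by
    intro j
    have := T_mem G M M hG (e' * j)
    rwa [← mul_assoc, ← he'] at this
  -- `L^e` is in `G`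
  have hLe : Le e ∈ G := by
    have h1 : Se e * T ^ (-e) * (Se e)⁻¹ ∈ G := by
      have := conj_mem G M M hG (Se e) (Se_mem M e heM) (-e')
      rwa [mul_neg, ← he'] at this
    have h2 : (Se e * T ^ (-e) * (Se e)⁻¹)⁻¹ * Le e ∈ Gamma (q * M) := by
      apply inv_mul_mem
      rw [conj_T]
      intro i j
      fin_cases i <;> fin_cases j <;> simp [Se, Le]
      · linear_combination (-(e : ZMod (q * M)) ^ 2 - e) * hidem
      · linear_combination (-1 : ZMod (q * M)) * (-(e : ZMod (q * M)) ^ 3 - (e : ZMod (q * M)) ^ 2 + e + 1) * hidem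
      · linear_combination ((e : ZMod (q * M)) + 1) * hidem
      · linear_combination (-1 : ZMod (q * M)) * ((e : ZMod (q * M)) ^ 2 + e) * hidem
    have := G.mul_mem h1 (hG1 h2)
    rwa [mul_inv_cancel_left] at this
  have hSe : Se e ∈ G := by
    rw [Se_eq]
    have h1 : T ^ (-e) ∈ G := by
      have := hTe (-1)
      rwa [mul_neg_one] at this
    exact G.mul_mem (G.mul_mem h1 hLe) h1
  have htop : G ⊔ Gamma q = ⊤ := by
    rw [eq_top_iff, ← SpecialLinearGroup.SL2Z_generators, Subgroup.closure_le]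
    rintro x (rfl | rfl)
    · have h1 : (Se e)⁻¹ * S ∈ Gamma q := by
        apply inv_mul_mem
        intro i j
        fin_cases i <;> fin_cases j <;> simp [Se, S, heq] <;> norm_num
      have := Subgroup.mul_mem_sup hSe h1
      rwa [mul_inv_cancel_left] at this
    · have h1 : (T ^ e)⁻¹ * T ∈ Gamma q := by
        apply inv_mul_mem
        intro i j
        rw [coe_T_zpow]
        fin_cases i <;> fin_cases j <;> simp [T, heq]
      have h2 : T ^ e ∈ G := by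
        have := hTe 1
        rwa [mul_one] at this
      have := Subgroup.mul_mem_sup h2 h1
      rwa [mul_inv_cancel_left] at this
  intro γ hγ
  have h1 : γ ∈ ((G ⊔ Gamma q : Subgroup SL(2, ℤ)) : Set SL(2, ℤ)) := by
    rw [htop]; trivial
  have := Gamma_normal q
  rw [Subgroup.mul_normal] at h1
  obtain ⟨g, hg, c, hc, rfl⟩ := Set.mem_mul.mp h1
  have hc2 : c ∈ Gamma M := by
    have := (Gamma M).mul_mem ((Gamma M).inv_mem (hG2 hg)) hγ
    rwa [inv_mul_cancel_left] at this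
  exact G.mul_mem hg (hG1 (inf_le q M hqM c hc hc2))

end S8a

open S8a

/-- S8a: if `q` is a prime not dividing `M`, then `Γ(q^k M)` is generated by `Γ(q^(k+1) M)` and the
conjugates of `T^(q^k M)` by elements of `Γ(M)`. -/
theorem generation (q M k : ℕ) (hq : q.Prime) (hM : ¬ q ∣ M) (hM0 : M ≠ 0) :
    Gamma (q ^ k * M) ≤ Subgroup.closure
      ({x | ∃ h ∈ Gamma M, x = h * T ^ ((q ^ k * M : ℕ) : ℤ) * h⁻¹} ∪
        (Gamma (q ^ (k + 1) * M) : Set SL(2, ℤ))) := by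
  set G := Subgroup.closure
      ({x | ∃ h ∈ Gamma M, x = h * T ^ ((q ^ k * M : ℕ) : ℤ) * h⁻¹} ∪
        (Gamma (q ^ (k + 1) * M) : Set SL(2, ℤ))) with hGdef
  have hG : ∀ h ∈ Gamma M, h * T ^ ((q ^ k * M : ℕ) : ℤ) * h⁻¹ ∈ G := by
    intro h hh
    exact Subgroup.subset_closure (Or.inl ⟨h, hh, rfl⟩)
  have hG1 : Gamma (q ^ (k + 1) * M) ≤ G := by
    intro x hx
    exact Subgroup.subset_closure (Or.inr hx)
  have hqM : Nat.Coprime q M := (Nat.Prime.coprime_iff_not_dvd hq).mpr hM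
  rcases Nat.eq_zero_or_pos k with rfl | hk
  · have hG2 : G ≤ Gamma M := by
      rw [hGdef, Subgroup.closure_le]
      rintro x (⟨h, hh, rfl⟩ | hx)
      · have h1 : T ^ ((q ^ 0 * M : ℕ) : ℤ) ∈ Gamma M := by
          rw [Gamma_mem]
          rw [coe_T_zpow]
          simp
        exact (Gamma M).mul_mem ((Gamma M).mul_mem hh h1) ((Gamma M).inv_mem hh)
      · rw [SetLike.mem_coe, Gamma_mem] at *
        have key : ∀ x y : ℤ, (x : ZMod (q ^ (0 + 1) * M)) = y → (x : ZMod M) = y := by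
          intro x y hxy
          rw [ZMod.intCast_eq_intCast_iff_dvd_sub] at *
          exact dvd_trans (by push_cast; exact Dvd.intro_left _ rfl) hxy
        obtain ⟨h1, h2, h3, h4⟩ := hx
        refine ⟨?_, ?_, ?_, ?_⟩
        · exact_mod_cast key _ 1 (by exact_mod_cast h1)
        · exact_mod_cast key _ 0 (by exact_mod_cast h2)
        · exact_mod_cast key _ 0 (by exact_mod_cast h3)
        · exact_mod_cast key _ 1 (by exact_mod_cast h4)
    rw [pow_zero, one_mul] at hG ⊢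
    rw [zero_add, pow_one] at hG1
    exact case_zero q M hqM G hG hG1 hG2
  · obtain ⟨e, he1, he2⟩ := exists_e q M hqM
    set m : ℕ := q ^ k * M with hm
    have hN : q ^ (k + 1) * M = q * m := by rw [hm]; ring
    rw [hN] at hG1
    intro γ hγ
    -- write `γ = 1 + m X`
    have hdiv : (m : ℤ) ∣ γ 0 0 - 1 ∧ (m : ℤ) ∣ γ 0 1 ∧ (m : ℤ) ∣ γ 1 0 ∧ (m : ℤ) ∣ γ 1 1 - 1 := by
      rw [Gamma_mem] at hγ
      obtain ⟨h1, h2, h3, h4⟩ := hγ
      refine ⟨?_, ?_, ?_, ?_⟩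
      · rw [← ZMod.intCast_zmod_eq_zero_iff_dvd]; push_cast; rw [h1, sub_self]
      · rw [← ZMod.intCast_zmod_eq_zero_iff_dvd]; exact h2
      · rw [← ZMod.intCast_zmod_eq_zero_iff_dvd]; exact h3
      · rw [← ZMod.intCast_zmod_eq_zero_iff_dvd]; push_cast; rw [h4, sub_self]
    obtain ⟨⟨a, ha⟩, ⟨b, hb⟩, ⟨c, hc⟩, ⟨d, hd⟩⟩ := hdiv
    have ha' : γ 0 0 = 1 + m * a := by linear_combination ha
    have hd' : γ 1 1 = 1 + m * d := by linear_combination hd
    have hdet : γ 0 0 * γ 1 1 - γ 0 1 * γ 1 0 = 1 := by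
      have := γ.det_coe; rwa [Matrix.det_fin_two] at this
    -- relations in `ZMod (q m)`
    have hqm : (q : ℤ) ∣ m := by
      rw [hm]
      have : q ∣ q ^ k * M := Dvd.dvd.mul_right (dvd_pow_self q hk.ne') M
      exact_mod_cast this
    have r1 : ((m : ℤ) : ZMod (q * m)) * ((m : ℤ) : ZMod (q * m)) = 0 := by
      have : (((m : ℤ) * m : ℤ) : ZMod (q * m)) = 0 := by
        rw [ZMod.intCast_zmod_eq_zero_iff_dvd]
        push_cast
        exact mul_dvd_mul hqm dvd_rfl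
      push_cast at this ⊢
      exact this
    have r2 : ((m : ℤ) : ZMod (q * m)) * ((e : ℤ) - 1 : ZMod (q * m)) = 0 := by
      have : (((e - 1 : ℤ) * m : ℤ) : ZMod (q * m)) = 0 := by
        rw [ZMod.intCast_zmod_eq_zero_iff_dvd]
        push_cast
        exact mul_dvd_mul he1 dvd_rfl
      push_cast at this ⊢
      linear_combination this
    have r3 : ((m : ℤ) : ZMod (q * m)) * ((a : ℤ) + d : ZMod (q * m)) = 0 := by
      have : (((a + d) * m : ℤ) : ZMod (q * m)) = 0 := by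
        rw [ZMod.intCast_zmod_eq_zero_iff_dvd]
        have : (a + d) * (m : ℤ) = m * m * (b * c - a * d) := by
          rw [ha', hd', hb, hc] at hdet
          linear_combination hdet
        rw [this]
        push_cast
        exact Dvd.dvd.mul_right (mul_dvd_mul hqm dvd_rfl) _
      push_cast at this ⊢
      linear_combination this
    have hg1 : T ^ ((m : ℤ) * (b + a)) ∈ G := T_mem G M m hG _
    have hg2 : Se e * T ^ ((m : ℤ) * (-(c - a))) * (Se e)⁻¹ ∈ G :=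
      conj_mem G M m hG (Se e) (Se_mem M e he2) _
    have hg3 : Le e * T ^ ((m : ℤ) * (-a)) * (Le e)⁻¹ ∈ G :=
      conj_mem G M m hG (Le e) (Le_mem M e he2) _
    set g := T ^ ((m : ℤ) * (b + a)) * (Se e * T ^ ((m : ℤ) * (-(c - a))) * (Se e)⁻¹) *
      (Le e * T ^ ((m : ℤ) * (-a)) * (Le e)⁻¹) with hgdef
    have hg : g ∈ G := G.mul_mem (G.mul_mem hg1 hg2) hg3
    have hfin : g⁻¹ * γ ∈ Gamma (q * m) := by
      apply inv_mul_mem
      rw [hgdef, Matrix.SpecialLinearGroup.coe_mul, Matrix.SpecialLinearGroup.coe_mul, conj_T, conj_T, coe_T_zpow]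
      rw [Matrix.mul_fin_two]
      intro i j
      fin_cases i <;> fin_cases j
      · simp [Se, Le, Matrix.mul_apply, Fin.sum_univ_two, ha']
        push_cast at r1 r2 r3
        generalize (m : ZMod (q * m)) = μ at r1 r2 r3 ⊢
        generalize (e : ZMod (q * m)) = e at r1 r2 r3 ⊢
        generalize (a : ZMod (q * m)) = a at r1 r2 r3 ⊢
        generalize (b : ZMod (q * m)) = b at r1 r2 r3 ⊢
        generalize (c : ZMod (q * m)) = c at r1 r2 r3 ⊢
        generalize (d : ZMod (q * m)) = d at r1 r2 r3 ⊢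
        linear_combination (-(1-e^2)*e^2*(a-c)*a - (b+a)*e^2*(a-c) + (1-e^2)^2*(a-c)*e^2*a + (b+a)*e^2*a + μ*(-(b+a)*e^3*(a-c)*a + (b+a)*(1-e^2)*e^3*(a-c)*a)) * r1 + ((1+e)*e*(a-c)+a) * r2
      · simp [Se, Le, Matrix.mul_apply, Fin.sum_univ_two, hb]
        push_cast at r1 r2 r3
        generalize (m : ZMod (q * m)) = μ at r1 r2 r3 ⊢
        generalize (e : ZMod (q * m)) = e at r1 r2 r3 ⊢
        generalize (a : ZMod (q * m)) = a at r1 r2 r3 ⊢
        generalize (b : ZMod (q * m)) = b at r1 r2 r3 ⊢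
        generalize (c : ZMod (q * m)) = c at r1 r2 r3 ⊢
        generalize (d : ZMod (q * m)) = d at r1 r2 r3 ⊢
        linear_combination ((1-e^2)*e*(a-c)*a + (b+a)*(1-e^2)*e*(a-c) - (1-e^2)^2*(a-c)*e*a - (b+a)*e*a + μ*((b+a)*e^2*(a-c)*a - (b+a)*(1-e^2)*e^2*(a-c)*a)) * r1 + ((e-1)*(1+e)^2*(a-c)) * r2
      · simp [Se, Le, Matrix.mul_apply, Fin.sum_univ_two, hc]
        push_cast at r1 r2 r3
        generalize (m : ZMod (q * m)) = μ at r1 r2 r3 ⊢
        generalize (e : ZMod (q * m)) = e at r1 r2 r3 ⊢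
        generalize (a : ZMod (q * m)) = a at r1 r2 r3 ⊢
        generalize (b : ZMod (q * m)) = b at r1 r2 r3 ⊢
        generalize (c : ZMod (q * m)) = c at r1 r2 r3 ⊢
        generalize (d : ZMod (q * m)) = d at r1 r2 r3 ⊢
        linear_combination (-e^3*(a-c)*a + (1-e^2)*e^3*(a-c)*a) * r1 + ((e+1)*c) * r2
      · simp [Se, Le, Matrix.mul_apply, Fin.sum_univ_two, hd']
        push_cast at r1 r2 r3
        generalize (m : ZMod (q * m)) = μ at r1 r2 r3 ⊢
        generalize (e : ZMod (q * m)) = e at r1 r2 r3 ⊢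
        generalize (a : ZMod (q * m)) = a at r1 r2 r3 ⊢
        generalize (b : ZMod (q * m)) = b at r1 r2 r3 ⊢
        generalize (c : ZMod (q * m)) = c at r1 r2 r3 ⊢
        generalize (d : ZMod (q * m)) = d at r1 r2 r3 ⊢
        linear_combination (e^2*(a-c)*a - (1-e^2)*e^2*(a-c)*a) * r1 + (-(1+e)*e*(a-c) - a) * r2 - r3
    have := G.mul_mem hg (hG1 hfin)
    rwa [mul_inv_cancel_left] at this

end Pool.Agent.H369R2
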