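import Pool.Agent.H369R2.AbsDefs
import Pool.Agent.H369R2.Abs2a
import Pool.Agent.H369R2.S8a

/-! # Primitive components -/

open Filter CongruenceSubgroup ModularGroup
open scoped MatrixGroups Topology ComplexConjugate

namespace Pool.Agent.H369R2

namespace Abs2

theorem gamma_form (A : ℕ) (x : SL(2, ℤ)) (hx : x ∈ Gamma A) :
    ∃ a b c d : ℤ, x 0 0 = 1 + A * a ∧ x 0 1 = A * b ∧ x 1 0 = A * c ∧ x 1 1 = 1 + A * d := by
  rw [Gamma_mem] at hx
  obtain ⟨h1, h2, h3, h4⟩ := hx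
  have k : ∀ z : ℤ, (z : ZMod A) = 0 → ∃ a, z = A * a := by
    intro z hz
    rw [ZMod.intCast_zmod_eq_zero_iff_dvd] at hz
    exact hz
  obtain ⟨a, ha⟩ := k (x 0 0 - 1) (by push_cast; rw [h1, sub_self])
  obtain ⟨b, hb⟩ := k _ h2
  obtain ⟨c, hc⟩ := k _ h3
  obtain ⟨d, hd⟩ := k (x 1 1 - 1) (by push_cast; rw [h4, sub_self])
  exact ⟨a, b, c, d, by linarith, hb, hc, by linarith⟩

theorem comm_mod (A B N : ℕ) (h : N ∣ A * B) (x y : SL(2, ℤ)) (hx : x ∈ Gamma A) (hy : y ∈ Gamma B) :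
    QuotientGroup.mk' (Gamma N) x * QuotientGroup.mk' (Gamma N) y =
      QuotientGroup.mk' (Gamma N) y * QuotientGroup.mk' (Gamma N) x := by
  rw [← map_mul, ← map_mul]
  apply QuotientGroup.eq.mpr
  apply S8a.inv_mul_mem
  obtain ⟨k, hk⟩ := h
  obtain ⟨a, b, c, d, h1, h2, h3, h4⟩ := gamma_form A x hx
  obtain ⟨a', b', c', d', h1', h2', h3', h4'⟩ := gamma_form B y hy
  have hk' : (A : ℤ) * B = N * k := by exact_mod_cast hk
  have key : ∀ z w e : ℤ, z - w = A * B * e → (z : ZMod N) = (w : ZMod N) := by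
    intro z w e hzw
    have h0 : ((z - w : ℤ) : ZMod N) = 0 := by
      rw [ZMod.intCast_zmod_eq_zero_iff_dvd]
      exact ⟨k * e, by rw [hzw, hk']; ring⟩
    push_cast at h0
    exact sub_eq_zero.mp h0
  intro i j
  fin_cases i <;> fin_cases j
  · apply key _ _ (b * c' - b' * c)
    simp only [Matrix.SpecialLinearGroup.coe_mul, Matrix.mul_apply, Fin.sum_univ_two, Fin.zero_eta,
      Fin.mk_one, h1, h2, h3, h4, h1', h2', h3', h4']
    ring
  · apply key _ _ (a * b' + b * d' - a' * b - b' * d)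
    simp only [Matrix.SpecialLinearGroup.coe_mul, Matrix.mul_apply, Fin.sum_univ_two, Fin.zero_eta,
      Fin.mk_one, h1, h2, h3, h4, h1', h2', h3', h4']
    ring
  · apply key _ _ (c * a' + d * c' - c' * a - d' * c)
    simp only [Matrix.SpecialLinearGroup.coe_mul, Matrix.mul_apply, Fin.sum_univ_two, Fin.zero_eta,
      Fin.mk_one, h1, h2, h3, h4, h1', h2', h3', h4']
    ring
  · apply key _ _ (c * b' - c' * b)
    simp only [Matrix.SpecialLinearGroup.coe_mul, Matrix.mul_apply, Fin.sum_univ_two, Fin.zero_eta,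
      Fin.mk_one, h1, h2, h3, h4, h1', h2', h3', h4']
    ring

/-- powers of `T` -/
def tq (N j : ℕ) : GN N := QuotientGroup.mk' (Gamma N) (T ^ j)

theorem tq_add (N i j : ℕ) : tq N (i + j) = tq N i * tq N j := by
  simp only [tq, pow_add, map_mul]

theorem tq_zero (N : ℕ) : tq N 0 = 1 := by
  simp only [tq, pow_zero, map_one]

theorem T_pow_mem (A m : ℕ) (h : A ∣ m) : T ^ m ∈ Gamma A := by
  rw [← zpow_natCast, Gamma_mem]
  have h1 : (T ^ ((m : ℕ) : ℤ)) 0 0 = 1 := by rw [coe_T_zpow]; rfl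
  have h2 : (T ^ ((m : ℕ) : ℤ)) 0 1 = (m : ℤ) := by rw [coe_T_zpow]; rfl
  have h3 : (T ^ ((m : ℕ) : ℤ)) 1 0 = 0 := by rw [coe_T_zpow]; rfl
  have h4 : (T ^ ((m : ℕ) : ℤ)) 1 1 = 1 := by rw [coe_T_zpow]; rfl
  rw [h1, h2, h3, h4]
  refine ⟨by simp, ?_, by simp, by simp⟩
  rw [ZMod.intCast_zmod_eq_zero_iff_dvd]
  exact_mod_cast h

theorem tq_eq_one (N m : ℕ) (h : N ∣ m) : tq N m = 1 :=
  (QuotientGroup.eq_one_iff _).mpr (T_pow_mem N m h)

section
variable {V : Type*} [SeminormedAddCommGroup V] [InnerProductSpace ℂ V] (N : ℕ)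
  (ρ : GN N →* Module.End ℂ V)

theorem rho_mul (g h : GN N) (v : V) : ρ (g * h) v = ρ g (ρ h v) := by
  rw [map_mul, Module.End.mul_apply]

theorem rho_one (v : V) : ρ 1 v = v := by
  rw [map_one, Module.End.one_apply]

theorem eig_def (a : ℤ) (v : V) : eig N ρ a v = (N : ℂ)⁻¹ • ∑ j ∈ Finset.range N,
    Complex.exp (-(2 * Real.pi * Complex.I * a * j / N)) • ρ (tq N j) v := rfl

theorem rho_eig_one [NeZero N] (a : ℤ) (v : V) :
    ρ (tq N 1) (eig N ρ a v) = Complex.exp (2 * Real.pi * Complex.I * a / N) • eig N ρ a v := by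
  have hN : (N : ℂ) ≠ 0 := by exact_mod_cast NeZero.ne N
  set F : ℕ → V := fun j => Complex.exp (-(2 * Real.pi * Complex.I * a * j / N)) • ρ (tq N j) v with hF
  have hF0 : F 0 = v := by
    simp only [hF, tq_zero, rho_one]
    simp
  have hFN : F N = v := by
    simp only [hF, tq_eq_one N N dvd_rfl, rho_one]
    have : -(2 * Real.pi * Complex.I * a * N / N) = ((-a : ℤ) : ℂ) * (2 * Real.pi * Complex.I) := by
      field_simp
      push_cast
      ring
    rw [this, Complex.exp_int_mul_two_pi_mul_I, one_smul]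
  have hshift : ∑ j ∈ Finset.range N, F (j + 1) = ∑ j ∈ Finset.range N, F j := by
    have h1 := Finset.sum_range_succ' F N
    have h2 := Finset.sum_range_succ F N
    rw [h1, hF0, hFN] at h2
    exact add_right_cancel h2
  rw [eig_def, map_smul, map_sum, smul_comm]
  congr 1
  rw [← hshift, Finset.smul_sum]
  apply Finset.sum_congr rfl
  intro j _
  rw [map_smul, ← rho_mul, ← tq_add, smul_smul, ← Complex.exp_add, add_comm 1 j]
  congr 2
  field_simp
  push_cast
  ring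

theorem rho_eig [NeZero N] (a : ℤ) (m : ℕ) (v : V) :
    ρ (tq N m) (eig N ρ a v) = Complex.exp (2 * Real.pi * Complex.I * a * m / N) • eig N ρ a v := by
  have hN : (N : ℂ) ≠ 0 := by exact_mod_cast NeZero.ne N
  induction m with
  | zero => rw [tq_zero, rho_one]; simp
  | succ m ih =>
    rw [tq_add, rho_mul, rho_eig_one, map_smul, ih, smul_smul, ← Complex.exp_add]
    congr 2
    field_simp
    push_cast
    ring

theorem sum_eig [NeZero N] (v : V) : ∑ a ∈ Finset.range N, eig N ρ (a : ℤ) v = v := by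
  have hN : (N : ℂ) ≠ 0 := by exact_mod_cast NeZero.ne N
  have hpos : 0 < N := Nat.pos_of_ne_zero (NeZero.ne N)
  simp only [eig_def]
  rw [← Finset.smul_sum, Finset.sum_comm]
  simp only [← Finset.sum_smul]
  rw [Finset.sum_eq_single_of_mem 0 (Finset.mem_range.mpr hpos)]
  · rw [tq_zero, rho_one, smul_smul]
    simp [hN]
  · intro j hj hj0
    have hj1 : j < N := Finset.mem_range.mp hj
    have : ∑ a ∈ Finset.range N, Complex.exp (-(2 * Real.pi * Complex.I * ((a : ℤ) : ℂ) * j / N)) = 0 := by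
      set ζ : ℂ := Complex.exp (-(2 * Real.pi * Complex.I * j / N)) with hζ
      have h1 : ∀ a ∈ Finset.range N,
          Complex.exp (-(2 * Real.pi * Complex.I * ((a : ℤ) : ℂ) * j / N)) = ζ ^ a := by
        intro a _
        rw [hζ, ← Complex.exp_nat_mul]
        congr 1
        push_cast
        ring
      rw [Finset.sum_congr rfl h1]
      have hζ1 : ζ ≠ 1 := by
        intro h
        rw [hζ, Complex.exp_eq_one_iff] at h
        obtain ⟨n, hn⟩ := h
        have hpi : (2 * Real.pi * Complex.I : ℂ) ≠ 0 := Complex.two_pi_I_ne_zero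
        have h2 : (j : ℂ) = -n * N := by
          field_simp at hn
          linear_combination -hn
        have h3 : (j : ℤ) = -n * N := by exact_mod_cast h2
        have h4 : (N : ℤ) ∣ j := ⟨-n, by rw [h3]; ring⟩
        have h5 : N ∣ j := by exact_mod_cast h4
        exact hj0 (Nat.eq_zero_of_dvd_of_lt h5 hj1)
      have hζN : ζ ^ N = 1 := by
        rw [hζ, ← Complex.exp_nat_mul]
        have : (N : ℂ) * -(2 * Real.pi * Complex.I * j / N) = ((-(j : ℤ) : ℤ) : ℂ) * (2 * Real.pi * Complex.I) := by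
          push_cast
          field_simp
        rw [this, Complex.exp_int_mul_two_pi_mul_I]
      rw [geom_sum_eq hζ1, hζN, sub_self, zero_div]
    rw [this, zero_smul]

/-- the average over the subgroup of order `p` generated by `T^(N/p)` -/
noncomputable def ep (p : ℕ) : Module.End ℂ V := (p : ℂ)⁻¹ • ∑ j ∈ Finset.range p, ρ (tq N (N / p * j))

theorem ep_apply (p : ℕ) (v : V) :
    ep N ρ p v = (p : ℂ)⁻¹ • ∑ j ∈ Finset.range p, ρ (tq N (N / p * j)) v := by
  rw [ep, LinearMap.smul_apply, LinearMap.sum_apply]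

theorem ep_of_fixed (p : ℕ) (hp : 0 < p) (v : V) (h : ∀ j, ρ (tq N (N / p * j)) v = v) :
    ep N ρ p v = v := by
  rw [ep_apply]
  simp only [h]
  rw [Finset.sum_const, Finset.card_range, ← Nat.cast_smul_eq_nsmul ℂ, smul_smul, inv_mul_cancel₀,
    one_smul]
  exact_mod_cast hp.ne'

theorem ep_eig [NeZero N] (p : ℕ) (hp : 0 < p) (hpN : p ∣ N) (a : ℤ) (ha : (p : ℤ) ∣ a) (v : V) :
    ep N ρ p (eig N ρ a v) = eig N ρ a v := by
  have hN : (N : ℂ) ≠ 0 := by exact_mod_cast NeZero.ne N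
  apply ep_of_fixed N ρ p hp
  intro j
  rw [rho_eig]
  obtain ⟨b, rfl⟩ := ha
  obtain ⟨m, rfl⟩ := hpN
  rw [Nat.mul_div_cancel_left m hp]
  have hp' : (p : ℂ) ≠ 0 := by exact_mod_cast hp.ne'
  have hm' : (m : ℂ) ≠ 0 := by
    rintro h
    rw [Nat.cast_mul, h, mul_zero] at hN
    exact hN rfl
  have : 2 * Real.pi * Complex.I * ((p * b : ℤ) : ℂ) * ((m * j : ℕ) : ℂ) / ((p * m : ℕ) : ℂ) =
      ((b * j : ℤ) : ℂ) * (2 * Real.pi * Complex.I) := by
    push_cast
    field_simp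
  rw [this, Complex.exp_int_mul_two_pi_mul_I, one_smul]

theorem rho_ep (p : ℕ) (hpN : p ∣ N) (v : V) : ρ (tq N (N / p)) (ep N ρ p v) = ep N ρ p v := by
  rw [ep_apply, map_smul, map_sum]
  congr 1
  set F : ℕ → V := fun j => ρ (tq N (N / p * j)) v with hF
  have hF0 : F 0 = v := by
    simp only [hF, mul_zero, tq_zero, rho_one]
  have hFN : F p = v := by
    simp only [hF, Nat.div_mul_cancel hpN, tq_eq_one N N dvd_rfl, rho_one]
  have hshift : ∑ j ∈ Finset.range p, F (j + 1) = ∑ j ∈ Finset.range p, F j := by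
    have h1 := Finset.sum_range_succ' F p
    have h2 := Finset.sum_range_succ F p
    rw [h1, hF0, hFN] at h2
    exact add_right_cancel h2
  rw [← hshift]
  apply Finset.sum_congr rfl
  intro j _
  rw [← rho_mul, ← tq_add, hF]
  congr 3
  ring

theorem norm_ep_le (hρ : ∀ g v, ‖ρ g v‖ = ‖v‖) (p : ℕ) (hp : 0 < p) (v : V) :
    ‖ep N ρ p v‖ ≤ ‖v‖ := by
  rw [ep_apply, norm_smul, norm_inv, Complex.norm_natCast]
  have h1 : ‖∑ j ∈ Finset.range p, ρ (tq N (N / p * j)) v‖ ≤ p * ‖v‖ := by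
    refine (norm_sum_le _ _).trans ?_
    simp only [hρ]
    rw [Finset.sum_const, Finset.card_range, nsmul_eq_mul]
  rw [inv_mul_le_iff₀ (by exact_mod_cast hp)]
  exact h1

theorem ep_comm (p : ℕ) (A : Module.End ℂ V) (hA : ∀ j v, A (ρ (tq N (N / p * j)) v) = ρ (tq N (N / p * j)) (A v))
    (v : V) : A (ep N ρ p v) = ep N ρ p (A v) := by
  rw [ep_apply, ep_apply, map_smul, map_sum]
  simp only [hA]

/-- the product of the `1 - e_p` -/
noncomputable def Q : List ℕ → Module.End ℂ V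
  | [] => 1
  | p :: L => (1 - ep N ρ p) * Q L

theorem Q_nil (v : V) : Q N ρ [] v = v := rfl

theorem Q_cons (p : ℕ) (L : List ℕ) (v : V) : Q N ρ (p :: L) v = Q N ρ L v - ep N ρ p (Q N ρ L v) := by
  rw [Q, Module.End.mul_apply, LinearMap.sub_apply, Module.End.one_apply]

theorem Q_comm (L : List ℕ) (A : Module.End ℂ V)
    (hA : ∀ p ∈ L, ∀ j v, A (ρ (tq N (N / p * j)) v) = ρ (tq N (N / p * j)) (A v)) (v : V) :
    A (Q N ρ L v) = Q N ρ L (A v) := by
  induction L with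
  | nil => rfl
  | cons p L ih =>
    have ih' := ih fun q hq => hA q (List.mem_cons_of_mem _ hq)
    rw [Q_cons, Q_cons, map_sub, ep_comm N ρ p A (hA p List.mem_cons_self), ih']

theorem tq_comm (i j : ℕ) (v : V) : ρ (tq N i) (ρ (tq N j) v) = ρ (tq N j) (ρ (tq N i) v) := by
  rw [← rho_mul, ← rho_mul, ← tq_add, ← tq_add, add_comm]

theorem ep_Q (p : ℕ) (L : List ℕ) (v : V) : ep N ρ p (Q N ρ L v) = Q N ρ L (ep N ρ p v) := by
  rw [Q_comm N ρ L (ep N ρ p)]
  intro q _ j w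
  exact (ep_comm N ρ p (ρ (tq N (N / q * j))) (fun i v => tq_comm N ρ _ _ _) w).symm

theorem Q_kill (L : List ℕ) (p : ℕ) (hp : p ∈ L) (w : V) (hw : ep N ρ p w = w) : Q N ρ L w = 0 := by
  induction L with
  | nil => simp at hp
  | cons q L ih =>
    rw [Q_cons]
    rcases List.mem_cons.mp hp with rfl | hp
    · rw [ep_Q, hw, sub_self]
    · rw [ih hp, map_zero, sub_zero]

theorem norm_Q_le (hρ : ∀ g v, ‖ρ g v‖ = ‖v‖) (L : List ℕ) (hL : ∀ p ∈ L, 0 < p) (v : V) :
    ‖Q N ρ L v‖ ≤ 2 ^ L.length * ‖v‖ := by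
  induction L with
  | nil => simp [Q_nil]
  | cons p L ih =>
    rw [Q_cons, List.length_cons, pow_succ]
    have h1 := ih fun q hq => hL q (List.mem_cons_of_mem _ hq)
    have h2 := norm_ep_le N ρ hρ p (hL p List.mem_cons_self) (Q N ρ L v)
    have h3 := norm_sub_le (Q N ρ L v) (ep N ρ p (Q N ρ L v))
    nlinarith

/-- the elements fixing a sequence asymptotically -/
def fixSub (hρ : ∀ g v, ‖ρ g v‖ = ‖v‖) (v : ℕ → V) : Subgroup SL(2, ℤ) where
  carrier := {x | Tendsto (fun n => ‖ρ (QuotientGroup.mk' (Gamma N) x) (v n) - v n‖) atTop (𝓝 0)}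
  mul_mem' := by
    intro x y hx hy
    rw [Set.mem_ofPred_eq] at *
    have hxy := hx.add hy
    rw [add_zero] at hxy
    refine squeeze_zero (fun _ => norm_nonneg _) (fun n => ?_) hxy
    have e : ρ (QuotientGroup.mk' (Gamma N) (x * y)) (v n) - v n =
        (ρ (QuotientGroup.mk' (Gamma N) x) (v n) - v n) +
        ρ (QuotientGroup.mk' (Gamma N) x) (ρ (QuotientGroup.mk' (Gamma N) y) (v n) - v n) := by
      rw [map_mul, rho_mul, map_sub]; abel
    rw [e]
    refine (norm_add_le _ _).trans ?_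
    rw [hρ]
  one_mem' := by
    rw [Set.mem_ofPred_eq]
    simp
  inv_mem' := by
    intro x hx
    rw [Set.mem_ofPred_eq] at *
    refine hx.congr fun n => ?_
    have e : ρ (QuotientGroup.mk' (Gamma N) x) (ρ (QuotientGroup.mk' (Gamma N) x⁻¹) (v n) - v n) =
        v n - ρ (QuotientGroup.mk' (Gamma N) x) (v n) := by
      rw [map_sub, ← rho_mul, ← map_mul, mul_inv_cancel, map_one, rho_one]
    rw [← hρ (QuotientGroup.mk' (Gamma N) x) (ρ (QuotientGroup.mk' (Gamma N) x⁻¹) (v n) - v n), e,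
      norm_sub_rev]

theorem mem_fixSub (hρ : ∀ g v, ‖ρ g v‖ = ‖v‖) (v : ℕ → V) (x : SL(2, ℤ)) : x ∈ fixSub N ρ hρ v ↔
    Tendsto (fun n => ‖ρ (QuotientGroup.mk' (Gamma N) x) (v n) - v n‖) atTop (𝓝 0) := Iff.rfl

instance finite_GN [NeZero N] : Finite (GN N) := Subgroup.finite_quotient_of_finiteIndex

instance normal_HN (M : ℕ) : (HN M N).Normal :=
  Subgroup.Normal.map inferInstance _ (QuotientGroup.mk'_surjective _)

/-- the induction step -/
theorem step [NeZero N] (hρ : ∀ g v, ‖ρ g v‖ = ‖v‖) (u : ℕ → V)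
    (hnew : ∀ p, p.Prime → p ∣ N → ∀ n, avg ρ (HN (N / p) N) (u n) = 0)
    (p : ℕ) (L : List ℕ) (hp : p.Prime) (hpN : p ∣ N) (hpL : p ∉ L) (hL : ∀ q ∈ L, q.Prime ∧ q ∣ N)
    (h : ∀ g : GN N, Tendsto (fun n => ‖Q N ρ (p :: L) (ρ g (u n))‖) atTop (𝓝 0)) (g : GN N) :
    Tendsto (fun n => ‖Q N ρ L (ρ g (u n))‖) atTop (𝓝 0) := by
  have hN0 : N ≠ 0 := NeZero.ne N
  -- the factorisation of `N`
  obtain ⟨e, M, hM, hNe⟩ := Nat.exists_eq_pow_mul_and_not_dvd hN0 p hp.ne_one
  obtain ⟨k, rfl⟩ : ∃ k, e = k + 1 := by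
    cases e with
    | zero => rw [pow_zero, one_mul] at hNe; rw [← hNe] at hM; exact absurd hpN hM
    | succ k => exact ⟨k, rfl⟩
  have hM0 : M ≠ 0 := by
    rintro rfl
    exact hM (dvd_zero _)
  have hNp : N / p = p ^ k * M := by
    rw [hNe, pow_succ, mul_assoc, mul_comm p M, ← mul_assoc, Nat.mul_div_cancel _ hp.pos]
  set v : ℕ → V := fun n => Q N ρ L (ρ g (u n)) with hv
  -- commutation of `Γ(M)` with the operators
  have hcomm : ∀ x ∈ Gamma M, ∀ w : V, ρ (QuotientGroup.mk' (Gamma N) x) (Q N ρ L w) =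
      Q N ρ L (ρ (QuotientGroup.mk' (Gamma N) x) w) := by
    intro x hx w
    apply Q_comm
    intro q hq j w'
    obtain ⟨hqp, hqN⟩ := hL q hq
    have hne : q ≠ p := by rintro rfl; exact hpL hq
    have hqM : q ∣ M := by
      rw [hNe] at hqN
      rcases (Nat.Prime.dvd_mul hqp).mp hqN with h1 | h1
      · exact absurd ((Nat.prime_dvd_prime_iff_eq hqp hp).mp (hqp.dvd_of_dvd_pow h1)) hne
      · exact h1
    rw [← rho_mul, ← rho_mul]
    congr 2
    apply comm_mod M (N / q) N _ x _ hx (T_pow_mem _ _ (dvd_mul_right _ _))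
    obtain ⟨m, hm⟩ := hqM
    refine ⟨m, ?_⟩
    rw [hm, mul_comm q m, mul_assoc, Nat.mul_div_cancel' hqN, mul_comm]
  -- the conjugates of `T^(N/p)` fix `v` asymptotically
  have hconj : ∀ x ∈ Gamma M, x * T ^ ((p ^ k * M : ℕ) : ℤ) * x⁻¹ ∈ fixSub N ρ hρ v := by
    intro x hx
    rw [mem_fixSub]
    have hx' := (Gamma M).inv_mem hx
    have h1 := h (QuotientGroup.mk' (Gamma N) x⁻¹ * g)
    have h2 : Tendsto (fun n => 2 * ‖Q N ρ (p :: L) (ρ (QuotientGroup.mk' (Gamma N) x⁻¹ * g) (u n))‖)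
        atTop (𝓝 0) := by simpa using h1.const_mul 2
    refine squeeze_zero (fun _ => norm_nonneg _) (fun n => ?_) h2
    have e1 : Q N ρ (p :: L) (ρ (QuotientGroup.mk' (Gamma N) x⁻¹ * g) (u n)) =
        ρ (QuotientGroup.mk' (Gamma N) x⁻¹) (v n) -
          ep N ρ p (ρ (QuotientGroup.mk' (Gamma N) x⁻¹) (v n)) := by
      rw [Q_cons, rho_mul, ← hcomm _ hx']
    rw [e1]
    set w := ρ (QuotientGroup.mk' (Gamma N) x⁻¹) (v n) with hw
    have e2 : ρ (QuotientGroup.mk' (Gamma N) x⁻¹)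
        (ρ (QuotientGroup.mk' (Gamma N) (x * T ^ ((p ^ k * M : ℕ) : ℤ) * x⁻¹)) (v n) - v n) =
        ρ (tq N (N / p)) (w - ep N ρ p w) - (w - ep N ρ p w) := by
      have e3 : ρ (QuotientGroup.mk' (Gamma N) x⁻¹)
          (ρ (QuotientGroup.mk' (Gamma N) (x * T ^ ((p ^ k * M : ℕ) : ℤ) * x⁻¹)) (v n)) =
          ρ (tq N (N / p)) w := by
        rw [hw, ← rho_mul, ← rho_mul, ← map_mul, hNp, tq, ← map_mul, ← zpow_natCast T]
        congr 3
        group
      rw [map_sub, e3, map_sub, rho_ep N ρ p hpN, ← hw]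
      abel
    calc ‖ρ (QuotientGroup.mk' (Gamma N) (x * T ^ ((p ^ k * M : ℕ) : ℤ) * x⁻¹)) (v n) - v n‖
        = ‖ρ (tq N (N / p)) (w - ep N ρ p w) - (w - ep N ρ p w)‖ := by
          rw [← e2, hρ]
      _ ≤ ‖ρ (tq N (N / p)) (w - ep N ρ p w)‖ + ‖w - ep N ρ p w‖ := norm_sub_le _ _
      _ = 2 * ‖w - ep N ρ p w‖ := by rw [hρ]; ring
  -- hence `Γ(N/p)` does
  have hle : Gamma (N / p) ≤ fixSub N ρ hρ v := by
    rw [hNp]
    refine (generation p M k hp hM hM0).trans ?_
    rw [Subgroup.closure_le]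
    rintro y (⟨x, hx, rfl⟩ | hy)
    · exact hconj x hx
    · have hy' : y ∈ Gamma N := by rw [hNe]; exact hy
      rw [SetLike.mem_coe, mem_fixSub]
      have : QuotientGroup.mk' (Gamma N) y = 1 := (QuotientGroup.eq_one_iff _).mpr hy'
      simp [this]
  -- the average kills `v n`
  have havg : ∀ n, avg ρ (HN (N / p) N) (v n) = 0 := by
    intro n
    rw [hv]
    simp only
    rw [Q_comm N ρ L (avg ρ (HN (N / p) N)) (fun q _ j w => avg_comm_rho ρ _ _ _), avg_comm_rho,
      hnew p hp hpN, map_zero, map_zero]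
  have := Fintype.ofFinite (HN (N / p) N)
  have hsum : Tendsto (fun n => ∑ y : HN (N / p) N, ‖ρ (y : GN N) (v n) - v n‖) atTop (𝓝 0) := by
    have : (0 : ℝ) = ∑ y : HN (N / p) N, 0 := by simp
    rw [this]
    apply tendsto_finsetSum
    rintro ⟨y, hy⟩ _
    obtain ⟨x, hx, rfl⟩ := hy
    exact hle hx
  refine squeeze_zero (fun _ => norm_nonneg _) (fun n => ?_) hsum
  have hc : (0 : ℝ) < Nat.card (HN (N / p) N) := by exact_mod_cast Nat.card_pos
  have h1 := havg n
  rw [avg_apply, finsum_eq_sum_of_fintype, smul_eq_zero] at h1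
  have h2 : ∑ y : HN (N / p) N, ρ (y : GN N) (v n) = 0 := by
    rcases h1 with h1 | h1
    · exfalso
      rw [inv_eq_zero] at h1
      have : (Nat.card (HN (N / p) N) : ℝ) = 0 := by exact_mod_cast h1
      linarith
    · exact h1
  have h3 : ∑ y : HN (N / p) N, (ρ (y : GN N) (v n) - v n) = -((Nat.card (HN (N / p) N) : ℂ) • v n) := by
    rw [Finset.sum_sub_distrib, h2, Finset.sum_const, Finset.card_univ, ← Nat.card_eq_fintype_card,
      ← Nat.cast_smul_eq_nsmul ℂ, zero_sub]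
  have h4 : (Nat.card (HN (N / p) N) : ℝ) * ‖v n‖ ≤ ∑ y : HN (N / p) N, ‖ρ (y : GN N) (v n) - v n‖ := by
    refine le_trans (le_of_eq ?_) (norm_sum_le _ _)
    rw [h3, norm_neg, norm_smul, Complex.norm_natCast]
  refine le_trans ?_ h4
  have h5 : (1 : ℝ) ≤ Nat.card (HN (N / p) N) := by exact_mod_cast Nat.card_pos
  nlinarith [norm_nonneg (v n)]

end

end Abs2

open Abs2

/-- Primitive components: if `u n` is killed by the averages over all `Γ(N/p)/Γ(N)` and all
primitive `T`-eigencomponents of all translates tend to zero, then `u n` tends to zero.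
(Induction over the primes dividing `N`, uses `generation`, see shared_notes TEAM-G2.) -/
theorem prim_null {V : Type*} [SeminormedAddCommGroup V] [InnerProductSpace ℂ V] (N : ℕ) [NeZero N]
    (ρ : GN N →* Module.End ℂ V) (hρ : ∀ g v, ‖ρ g v‖ = ‖v‖) (u : ℕ → V)
    (hnew : ∀ p, p.Prime → p ∣ N → ∀ n, avg ρ (HN (N / p) N) (u n) = 0)
    (hprim : ∀ g : GN N, ∀ a : ℤ, IsCoprime a (N : ℤ) →
      Tendsto (fun n => ‖eig N ρ a (ρ g (u n))‖) atTop (𝓝 0)) :
    Tendsto (fun n => ‖u n‖) atTop (𝓝 0) := by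
  -- the induction
  have hind : ∀ L : List ℕ, L.Nodup → (∀ q ∈ L, q.Prime ∧ q ∣ N) →
      (∀ g : GN N, Tendsto (fun n => ‖Q N ρ L (ρ g (u n))‖) atTop (𝓝 0)) →
      Tendsto (fun n => ‖u n‖) atTop (𝓝 0) := by
    intro L
    induction L with
    | nil =>
      intro _ _ h
      refine (h 1).congr fun n => ?_
      rw [Q_nil, rho_one]
    | cons p L ih =>
      intro hnd hpr h
      rw [List.nodup_cons] at hnd
      apply ih hnd.2 fun q hq => hpr q (List.mem_cons_of_mem _ hq)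
      obtain ⟨hp, hpN⟩ := hpr p List.mem_cons_self
      exact step N ρ hρ u hnew p L hp hpN hnd.1 (fun q hq => hpr q (List.mem_cons_of_mem _ hq)) h
  apply hind N.primeFactors.toList (Finset.nodup_toList _)
  · intro q hq
    rw [Finset.mem_toList] at hq
    exact ⟨Nat.prime_of_mem_primeFactors hq, Nat.dvd_of_mem_primeFactors hq⟩
  · intro g
    have hterm : ∀ a ∈ Finset.range N,
        Tendsto (fun n => ‖Q N ρ N.primeFactors.toList (eig N ρ (a : ℤ) (ρ g (u n)))‖) atTop (𝓝 0) := by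
      intro a _
      by_cases hco : Nat.Coprime a N
      · have h1 := hprim g a (Nat.isCoprime_iff_coprime.mpr hco)
        have h2 : Tendsto (fun n => 2 ^ N.primeFactors.toList.length * ‖eig N ρ (a : ℤ) (ρ g (u n))‖)
            atTop (𝓝 0) := by simpa using h1.const_mul (2 ^ N.primeFactors.toList.length)
        refine squeeze_zero (fun _ => norm_nonneg _) (fun n => ?_) h2
        apply norm_Q_le N ρ hρ
        intro p hp
        rw [Finset.mem_toList] at hp
        exact (Nat.prime_of_mem_primeFactors hp).pos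
      · obtain ⟨p, hp, hpa, hpN⟩ := Nat.Prime.not_coprime_iff_dvd.mp hco
        have h0 : ∀ n, Q N ρ N.primeFactors.toList (eig N ρ (a : ℤ) (ρ g (u n))) = 0 := by
          intro n
          apply Q_kill N ρ _ p
          · rw [Finset.mem_toList, Nat.mem_primeFactors]
            exact ⟨hp, hpN, NeZero.ne N⟩
          · exact ep_eig N ρ p hp.pos hpN a (by exact_mod_cast hpa) _
        simp only [h0, norm_zero]
        exact tendsto_const_nhds
    have hsum : Tendsto (fun n => ∑ a ∈ Finset.range N,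
        ‖Q N ρ N.primeFactors.toList (eig N ρ (a : ℤ) (ρ g (u n)))‖) atTop (𝓝 0) := by
      have : (0 : ℝ) = ∑ a ∈ Finset.range N, 0 := by simp
      rw [this]
      exact tendsto_finsetSum _ hterm
    refine squeeze_zero (fun _ => norm_nonneg _) (fun n => ?_) hsum
    conv_lhs => rw [← sum_eig N ρ (ρ g (u n)), map_sum]
    exact norm_sum_le _ _

end Pool.Agent.H369R2
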