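import Mathlib

open UpperHalfPlane MeasureTheory Metric ModularGroup CongruenceSubgroup
open scoped MatrixGroups ENNReal Modular Topology

namespace Pool.Agent.H369R2

/-- S8b: torus elements -/
theorem torus (N : ℕ) (a a' : ℤ) (h : (a : ZMod N) * a' = 1) :
    ∃ γ : SL(2, ℤ), (γ 0 0 : ZMod N) = a ∧ (γ 0 1 : ZMod N) = 0 ∧ (γ 1 0 : ZMod N) = 0 ∧
      (γ 1 1 : ZMod N) = a' := by
  refine ⟨⟨!![a * (1 - a * a') + a, -(1 - a * a'); 1 - a * a', a'], ?_⟩, ?_, ?_, ?_, ?_⟩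
  · rw [Matrix.det_fin_two_of]; ring
  · show (((a * (1 - a * a') + a : ℤ)) : ZMod N) = a
    push_cast; rw [h]; ring
  · show (((-(1 - a * a') : ℤ)) : ZMod N) = 0
    push_cast; rw [h]; ring
  · show (((1 - a * a' : ℤ)) : ZMod N) = 0
    push_cast; rw [h]; ring
  · rfl

end Pool.Agent.H369R2
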