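import Pool.Agent.H369R2.Abs2
import Pool.Agent.H369R2.S8b

/-! # Multiplicity of approximate eigenvalues on new vectors -/

open Filter CongruenceSubgroup ModularGroup
open scoped MatrixGroups Topology ComplexConjugate

namespace Pool.Agent.H369R2

namespace Abs3

set_option linter.unusedSectionVars false

section
variable {V : Type*} [SeminormedAddCommGroup V] [InnerProductSpace ℂ V] {N : ℕ} [NeZero N]
  (ρ : GN N →* Module.End ℂ V)

theorem mk_eq_of_map (x y : SL(2, ℤ)) (h : ∀ i j, ((x i j : ℤ) : ZMod N) = (y i j : ZMod N)) :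
    QuotientGroup.mk' (Gamma N) x = QuotientGroup.mk' (Gamma N) y := by
  rw [QuotientGroup.mk'_apply, QuotientGroup.mk'_apply, QuotientGroup.eq]
  have h1 : Matrix.SpecialLinearGroup.map (Int.castRingHom (ZMod N)) x =
      Matrix.SpecialLinearGroup.map (Int.castRingHom (ZMod N)) y := by
    ext i j
    simpa using h i j
  rw [Gamma_mem', map_mul, map_inv, h1, inv_mul_cancel]

theorem T_pow_entries (m : ℕ) : (T ^ m) 0 0 = 1 ∧ (T ^ m) 0 1 = (m : ℤ) ∧ (T ^ m) 1 0 = 0 ∧
    (T ^ m) 1 1 = 1 := by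
  have h : ((T ^ m : SL(2, ℤ)) : Matrix (Fin 2) (Fin 2) ℤ) = !![1, (m : ℤ); 0, 1] := by
    have := coe_T_zpow (m : ℤ)
    rwa [zpow_natCast] at this
  refine ⟨?_, ?_, ?_, ?_⟩ <;> rw [h] <;> rfl

theorem mk_T_N : QuotientGroup.mk' (Gamma N) (T ^ N) = 1 := by
  rw [← map_one (QuotientGroup.mk' (Gamma N))]
  apply mk_eq_of_map
  obtain ⟨h1, h2, h3, h4⟩ := T_pow_entries N
  intro i j
  fin_cases i <;> fin_cases j <;> simp [h1, h2, h3, h4]

/-- `exp (2πi x / N)` -/
noncomputable def ex (N : ℕ) (x : ℤ) : ℂ := Complex.exp (2 * Real.pi * Complex.I * x / N)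

theorem ex_add (x y : ℤ) : ex N (x + y) = ex N x * ex N y := by
  rw [ex, ex, ex, ← Complex.exp_add]
  congr 1
  push_cast
  ring

theorem ex_mul_N (x : ℤ) : ex N (x * N) = 1 := by
  have hN : (N : ℂ) ≠ 0 := by exact_mod_cast NeZero.ne N
  rw [ex, Complex.exp_eq_one_iff]
  refine ⟨x, ?_⟩
  push_cast
  field_simp

theorem ex_zero : ex N 0 = 1 := by simp [ex]

theorem norm_ex (x : ℤ) : ‖ex N x‖ = 1 := by
  rw [ex]
  have : 2 * Real.pi * Complex.I * x / N = ((2 * Real.pi * x / N : ℝ) : ℂ) * Complex.I := by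
    push_cast; ring
  rw [this, Complex.norm_exp_ofReal_mul_I]

theorem ex_inj (x y : ℤ) (h : ex N x = ex N y) : (x : ZMod N) = (y : ZMod N) := by
  have hN : (N : ℂ) ≠ 0 := by exact_mod_cast NeZero.ne N
  rw [ex, ex, Complex.exp_eq_exp_iff_exists_int] at h
  obtain ⟨n, hn⟩ := h
  have h2 : (2 * Real.pi * Complex.I : ℂ) ≠ 0 := Complex.two_pi_I_ne_zero
  have h3 : (x : ℂ) = y + n * N := by
    have : 2 * Real.pi * Complex.I * (x : ℂ) = 2 * Real.pi * Complex.I * (y + n * N) := by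
      field_simp at hn
      linear_combination (2 * Real.pi * Complex.I) * hn
    exact mul_left_cancel₀ h2 this
  have h4 : x = y + n * N := by exact_mod_cast h3
  rw [h4]
  push_cast
  simp

/-- `eig` as a linear map -/
noncomputable def E (a : ℤ) : Module.End ℂ V :=
  (N : ℂ)⁻¹ • ∑ j ∈ Finset.range N, ex N (-(a * j)) • ρ (QuotientGroup.mk' (Gamma N) (T ^ j))

theorem E_apply (a : ℤ) (v : V) : eig N ρ a v = E ρ a v := by
  simp only [eig, E, LinearMap.smul_apply, LinearMap.sum_apply, ex]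
  congr 1
  apply Finset.sum_congr rfl
  intro j _
  congr 2
  push_cast
  ring

theorem norm_E_le (hρ : ∀ g v, ‖ρ g v‖ = ‖v‖) (a : ℤ) (v : V) : ‖E ρ a v‖ ≤ ‖v‖ := by
  have hN : (0 : ℝ) < N := by exact_mod_cast Nat.pos_of_ne_zero (NeZero.ne N)
  simp only [E, LinearMap.smul_apply, LinearMap.sum_apply]
  rw [norm_smul, norm_inv, Complex.norm_natCast, inv_mul_le_iff₀ hN]
  refine (norm_sum_le _ _).trans ?_
  have : ∀ j ∈ Finset.range N,
      ‖ex N (-(a * j)) • ρ (QuotientGroup.mk' (Gamma N) (T ^ j)) v‖ = ‖v‖ := by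
    intro j _
    rw [norm_smul, norm_ex, one_mul, hρ]
  rw [Finset.sum_congr rfl this, Finset.sum_const, Finset.card_range, nsmul_eq_mul]

theorem T_E (a : ℤ) (v : V) :
    ρ (QuotientGroup.mk' (Gamma N) T) (E ρ a v) = ex N a • E ρ a v := by
  simp only [E, LinearMap.smul_apply, LinearMap.sum_apply, map_smul, map_sum]
  rw [smul_comm]
  congr 1
  set f : ℕ → V := fun j => ex N (-(a * j)) • ρ (QuotientGroup.mk' (Gamma N) (T ^ j)) v with hf
  have h1 : ∀ j ∈ Finset.range N, ex N (-(a * j)) •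
      ρ (QuotientGroup.mk' (Gamma N) T) (ρ (QuotientGroup.mk' (Gamma N) (T ^ j)) v) =
      ex N a • f (j + 1) := by
    intro j _
    rw [hf]
    simp only
    rw [smul_smul, ← ex_add, ← Module.End.mul_apply, ← map_mul, ← map_mul, ← pow_succ']
    congr 2
    push_cast
    ring
  rw [Finset.sum_congr rfl h1, ← Finset.smul_sum]
  congr 1
  have h2 : f N = f 0 := by
    rw [hf]
    simp only
    rw [mk_T_N, pow_zero]
    simp only [map_one]
    have h3 : ex N (-(a * N)) = 1 := by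
      rw [← neg_mul]; exact ex_mul_N _
    have h4 : ex N (-(a * ((0 : ℕ) : ℤ))) = 1 := by
      simp [ex]
    rw [h3, h4]
  have h3 := Finset.sum_range_succ f N
  rw [Finset.sum_range_succ', h2] at h3
  exact add_right_cancel h3

theorem T_pow_eig (a : ℤ) (v : V) (hv : ρ (QuotientGroup.mk' (Gamma N) T) v = ex N a • v) (m : ℕ) :
    ρ (QuotientGroup.mk' (Gamma N) (T ^ m)) v = ex N (a * m) • v := by
  induction m with
  | zero => simp [ex]
  | succ m ih =>
    rw [pow_succ, map_mul, map_mul, Module.End.mul_apply, hv, map_smul, ih, smul_smul, ← ex_add]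
    congr 2
    push_cast
    ring

end

end Abs3

open Abs3

/-- Using the torus: `v = eig N ρ a (ρ g (u n))` of norm bounded below along a subsequence; for units
`b` mod `N` the vectors `ρ (t_b) v` are eigenvectors of `T` with eigenvalues `exp (2πi a b^(∓2) / N)`. -/
theorem multiplicity {V : Type*} [SeminormedAddCommGroup V] [InnerProductSpace ℂ V] (N : ℕ) [NeZero N]
    (ρ : GN N →* Module.End ℂ V) (hρ : ∀ g v, ‖ρ g v‖ = ‖v‖) (A : Module.End ℂ V)
    (hA : ∀ g v, ρ g (A v) = A (ρ g v)) (l : ℝ) (u : ℕ → V) (hu : ∀ n, ‖u n‖ = 1)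
    (hnew : ∀ p, p.Prime → p ∣ N → ∀ n, avg ρ (HN (N / p) N) (u n) = 0)
    (hl : Tendsto (fun n => ‖A (u n) - (l : ℂ) • u n‖) atTop (𝓝 0)) (ε : ℝ) (hε : 0 < ε) :
    ∃ v : Fin (Set.range fun u : (ZMod N)ˣ => ((u ^ 2 : (ZMod N)ˣ) : ZMod N)).ncard → V,
      Orthonormal ℂ v ∧ ∀ i, ‖A (v i) - (l : ℂ) • v i‖ ≤ ε := by
  -- step 1: a primitive component which does not tend to zero
  have h1 : ∃ (g : GN N) (a : ℤ), IsCoprime a (N : ℤ) ∧
      ¬ Tendsto (fun n => ‖eig N ρ a (ρ g (u n))‖) atTop (𝓝 0) := by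
    by_contra hc
    push Not at hc
    have h2 := prim_null N ρ hρ u hnew hc
    simp only [hu] at h2
    have := tendsto_nhds_unique h2 tendsto_const_nhds
    norm_num at this
  obtain ⟨g, a, hcop, hnt⟩ := h1
  -- step 2: a good vector
  have h2 : ∃ c : ℝ, 0 < c ∧ ∃ᶠ n in atTop, c ≤ ‖eig N ρ a (ρ g (u n))‖ := by
    by_contra hc
    push Not at hc
    apply hnt
    rw [Metric.tendsto_nhds]
    intro c hc0
    filter_upwards [hc c hc0] with n hn
    rw [Real.dist_eq, sub_zero, abs_of_nonneg (norm_nonneg _)]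
    exact hn
  obtain ⟨c, hc0, hfreq⟩ := h2
  have hev : ∀ᶠ n in atTop, ‖A (u n) - (l : ℂ) • u n‖ < ε * c :=
    hl.eventually_lt_const (mul_pos hε hc0)
  obtain ⟨n, hn1, hn2⟩ := (hfreq.and_eventually hev).exists
  set w : V := E ρ a (ρ g (u n)) with hw
  rw [E_apply] at hn1
  have hAE : ∀ v, A (E ρ a v) = E ρ a (A v) := by
    intro v
    simp only [E, LinearMap.smul_apply, LinearMap.sum_apply, map_smul, map_sum, hA]
  have hAw : ‖A w - (l : ℂ) • w‖ ≤ ε * c := by
    have : A w - (l : ℂ) • w = E ρ a (ρ g (A (u n) - (l : ℂ) • u n)) := by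
      rw [hw, hAE, ← hA, map_sub, map_sub, map_smul, map_smul]
    rw [this]
    exact ((norm_E_le ρ hρ a _).trans_eq (hρ g _)).trans hn2.le
  have hwpos : 0 < ‖w‖ := hc0.trans_le hn1
  set v0 : V := ((‖w‖⁻¹ : ℝ) : ℂ) • w with hv0
  have hv0n : ‖v0‖ = 1 := by
    rw [hv0, norm_smul, Complex.norm_real, norm_inv, norm_norm, inv_mul_cancel₀ hwpos.ne']
  have hAv0 : ‖A v0 - (l : ℂ) • v0‖ ≤ ε := by
    have : A v0 - (l : ℂ) • v0 = ((‖w‖⁻¹ : ℝ) : ℂ) • (A w - (l : ℂ) • w) := by
      rw [hv0, map_smul, smul_sub, smul_comm (l : ℂ)]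
    rw [this, norm_smul, Complex.norm_real, norm_inv, norm_norm, inv_mul_le_iff₀ hwpos]
    calc ‖A w - (l : ℂ) • w‖ ≤ ε * c := hAw
      _ ≤ ε * ‖w‖ := by gcongr
      _ = ‖w‖ * ε := mul_comm _ _
  have hTv0 : ρ (QuotientGroup.mk' (Gamma N) T) v0 = ex N a • v0 := by
    rw [hv0, map_smul, hw, T_E, smul_comm]
  clear_value v0
  -- step 3: the torus
  have htor : ∀ b : (ZMod N)ˣ, ∃ γ : SL(2, ℤ), ρ (QuotientGroup.mk' (Gamma N) T)
      (ρ (QuotientGroup.mk' (Gamma N) γ) v0) =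
      ex N (a * ((((b⁻¹) ^ 2 : (ZMod N)ˣ) : ZMod N).val)) • ρ (QuotientGroup.mk' (Gamma N) γ) v0 := by
    intro b
    obtain ⟨γ, h00, h01, h10, h11⟩ := torus N ((b : ZMod N).val : ℤ) (((b⁻¹ : (ZMod N)ˣ) : ZMod N).val : ℤ)
      (by simp)
    refine ⟨γ, ?_⟩
    set m : ℕ := (((b⁻¹) ^ 2 : (ZMod N)ˣ) : ZMod N).val with hm
    have hcomm : QuotientGroup.mk' (Gamma N) (T * γ) = QuotientGroup.mk' (Gamma N) (γ * T ^ m) := by
      apply mk_eq_of_map
      obtain ⟨t1, t2, t3, t4⟩ := T_pow_entries m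
      obtain ⟨s1, s2, s3, s4⟩ := T_pow_entries 1
      rw [pow_one] at s1 s2 s3 s4
      have hmz : ((m : ℤ) : ZMod N) = ((b⁻¹ : (ZMod N)ˣ) : ZMod N) * ((b⁻¹ : (ZMod N)ˣ) : ZMod N) := by
        rw [hm]
        simp [sq]
      have hbb : (b : ZMod N) * ((b⁻¹ : (ZMod N)ˣ) : ZMod N) = 1 := by
        rw [← Units.val_mul, mul_inv_cancel, Units.val_one]
      have h00' : ((γ 0 0 : ℤ) : ZMod N) = (b : ZMod N) := by rw [h00]; simp
      have h11' : ((γ 1 1 : ℤ) : ZMod N) = ((b⁻¹ : (ZMod N)ˣ) : ZMod N) := by rw [h11]; simp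
      intro i j
      rw [Matrix.SpecialLinearGroup.coe_mul, Matrix.SpecialLinearGroup.coe_mul, Matrix.mul_apply,
        Matrix.mul_apply, Fin.sum_univ_two, Fin.sum_univ_two]
      fin_cases i <;> fin_cases j
      · simp only [Fin.zero_eta, Fin.isValue, s1, s2, t1, t3]
        push_cast
        rw [h10, h01]
        ring
      · simp only [Fin.zero_eta, Fin.isValue, Fin.mk_one, s1, s2, t2, t4]
        push_cast
        rw [h01, h11', h00']
        push_cast at hmz
        rw [hmz]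
        linear_combination (-((b⁻¹ : (ZMod N)ˣ) : ZMod N)) * hbb
      · simp only [Fin.zero_eta, Fin.isValue, Fin.mk_one, s3, s4, t1, t3]
        push_cast
        rw [h10, h11']
        ring
      · simp only [Fin.mk_one, Fin.isValue, s3, s4, t2, t4]
        push_cast
        rw [h01, h10, h11']
        ring
    rw [← Module.End.mul_apply, ← map_mul, ← map_mul, hcomm, map_mul, map_mul,
      Module.End.mul_apply, T_pow_eig ρ a v0 hTv0, map_smul]
  choose γ hγ using htor
  -- step 4: indexing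
  set S : Set (ZMod N) := Set.range fun u : (ZMod N)ˣ => ((u ^ 2 : (ZMod N)ˣ) : ZMod N) with hS
  have hfin : S.Finite := Set.toFinite S
  have hcard : S.ncard = hfin.toFinset.card := Set.ncard_eq_toFinset_card S hfin
  let e : Fin S.ncard ≃ hfin.toFinset := (finCongr hcard).trans hfin.toFinset.equivFin.symm
  have hb : ∀ i, ∃ b : (ZMod N)ˣ, ((b ^ 2 : (ZMod N)ˣ) : ZMod N) = (e i : ZMod N) := by
    intro i
    have := (e i).2
    rw [Set.Finite.mem_toFinset] at this
    exact this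
  choose b hb using hb
  refine ⟨fun i => ρ (QuotientGroup.mk' (Gamma N) (γ (b i))) v0, ?_, ?_⟩
  · rw [orthonormal_iff_ite]
    intro i j
    by_cases hij : i = j
    · subst hij
      rw [if_pos rfl, inner_self_eq_norm_sq_to_K, hρ, hv0n]
      norm_num
    · rw [if_neg hij]
      set vi := ρ (QuotientGroup.mk' (Gamma N) (γ (b i))) v0 with hvi
      set vj := ρ (QuotientGroup.mk' (Gamma N) (γ (b j))) v0 with hvj
      let L : V →ₗᵢ[ℂ] V := ⟨ρ (QuotientGroup.mk' (Gamma N) T), hρ _⟩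
      have hL : inner ℂ (L vi) (L vj) = inner ℂ vi vj := L.inner_map_map vi vj
      have hL1 : L vi = ex N (a * ((((b i)⁻¹) ^ 2 : (ZMod N)ˣ) : ZMod N).val) • vi := hγ (b i)
      have hL2 : L vj = ex N (a * ((((b j)⁻¹) ^ 2 : (ZMod N)ˣ) : ZMod N).val) • vj := hγ (b j)
      rw [hL1, hL2, inner_smul_left, inner_smul_right, ← mul_assoc] at hL
      set x := ex N (a * ((((b i)⁻¹) ^ 2 : (ZMod N)ˣ) : ZMod N).val) with hx
      set y := ex N (a * ((((b j)⁻¹) ^ 2 : (ZMod N)ˣ) : ZMod N).val) with hy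
      by_contra hne
      have h5 : conj x * y = 1 := by
        have : (conj x * y - 1) * inner ℂ vi vj = 0 := by linear_combination hL
        rcases mul_eq_zero.mp this with h | h
        · exact sub_eq_zero.mp h
        · exact absurd h hne
      have h6 : x * conj x = 1 := by
        rw [Complex.mul_conj, Complex.normSq_eq_norm_sq, hx, norm_ex]
        norm_num
      have h7 : x = y := by
        calc x = x * (conj x * y) := by rw [h5, mul_one]
          _ = (x * conj x) * y := by ring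
          _ = y := by rw [h6, one_mul]
      have h8 := ex_inj _ _ h7
      push_cast at h8
      have hau : IsUnit ((a : ZMod N)) := by
        obtain ⟨s, t, hst⟩ := hcop
        have h12 : ((s * a + t * N : ℤ) : ZMod N) = 1 := by rw [hst]; simp
        push_cast at h12
        rw [ZMod.natCast_self, mul_zero, add_zero, mul_comm] at h12
        exact IsUnit.of_mul_eq_one _ h12
      have h9 : (((b i)⁻¹ ^ 2 : (ZMod N)ˣ) : ZMod N) = (((b j)⁻¹ ^ 2 : (ZMod N)ˣ) : ZMod N) := by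
        have := hau.mul_left_cancel h8
        simpa using this
      have h10 : ((b i)⁻¹ ^ 2 : (ZMod N)ˣ) = (b j)⁻¹ ^ 2 := Units.ext h9
      have h11 : (b i) ^ 2 = (b j) ^ 2 := by
        rw [inv_pow, inv_pow] at h10
        exact inv_injective h10
      apply hij
      apply e.injective
      apply Subtype.ext
      rw [← hb i, ← hb j, h11]
  · intro i
    have : A (ρ (QuotientGroup.mk' (Gamma N) (γ (b i))) v0) -
        (l : ℂ) • ρ (QuotientGroup.mk' (Gamma N) (γ (b i))) v0 =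
        ρ (QuotientGroup.mk' (Gamma N) (γ (b i))) (A v0 - (l : ℂ) • v0) := by
      rw [map_sub, map_smul, hA]
    rw [this, hρ]
    exact hAv0

end Pool.Agent.H369R2
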