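import Mathlib

/-! # Finite groups acting on pre-Hilbert spaces: averages and `T`-eigencomponents -/

open CongruenceSubgroup ModularGroup
open scoped MatrixGroups Topology ComplexConjugate

namespace Pool.Agent.H369R2

noncomputable section

section
variable {G V : Type*} [Group G] [AddCommGroup V] [Module ℂ V]

/-- average of the action over a (finite) subgroup -/
def avg (ρ : G →* Module.End ℂ V) (H : Subgroup G) : Module.End ℂ V :=
  (Nat.card H : ℂ)⁻¹ • ∑ᶠ h : H, ρ h

end

instance countable_SL : Countable SL(2, ℤ) := by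
  have : Function.Injective (fun (γ : SL(2, ℤ)) (i j : Fin 2) => γ i j) := by
    intro γ δ h
    ext i j
    exact congrFun (congrFun h i) j
  exact this.countable

instance normal_Gamma (N : ℕ) : (Gamma N).Normal := Gamma_normal N

/-- the finite group `SL(2,ℤ) / Γ(N)` -/
abbrev GN (N : ℕ) : Type := SL(2, ℤ) ⧸ Gamma N

/-- the image of `Γ(M)` in `SL(2,ℤ) / Γ(N)` -/
abbrev HN (M N : ℕ) : Subgroup (GN N) := (Gamma M).map (QuotientGroup.mk' (Gamma N))

/-- the projection to the `exp (2πi a / N)`-eigenspace of `T` -/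
def eig {V : Type*} [AddCommGroup V] [Module ℂ V] (N : ℕ)
    (ρ : GN N →* Module.End ℂ V) (a : ℤ) (v : V) : V :=
  (N : ℂ)⁻¹ • ∑ j ∈ Finset.range N,
    Complex.exp (-(2 * Real.pi * Complex.I * a * j / N)) • ρ (QuotientGroup.mk' (Gamma N) (T ^ j)) v

end

end Pool.Agent.H369R2
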