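import Pool.Agent.H369R2.OpA

/-! # The cusp lemma (helper806) -/

open UpperHalfPlane MeasureTheory Metric ModularGroup CongruenceSubgroup
open scoped MatrixGroups ENNReal Modular Topology NNReal ComplexConjugate

namespace Pool.Agent.H369R2

noncomputable section

namespace Cusp

/-- `PP` for integral matrices -/
def PZ (γ : SL(2, ℤ)) (z : ℍ) : ℝ≥0∞ := ENNReal.ofReal (√((γ • z).im))

lemma PZ_eq (γ : SL(2, ℤ)) : PZ γ = PP (γ : SL(2, ℝ)) := rfl

/-- the supremum of the heights -/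
def HH (z : ℍ) : ℝ≥0∞ := ⨆ γ : SL(2, ℤ), PZ γ z

lemma measurable_HH : Measurable HH := by
  unfold HH
  exact Measurable.iSup fun γ => by rw [PZ_eq]; exact measurable_PP _

lemma HH_smul (δ : SL(2, ℤ)) (z : ℍ) : HH (δ • z) = HH z := by
  unfold HH
  have h : ∀ γ : SL(2, ℤ), PZ γ (δ • z) = PZ (Equiv.mulRight δ γ) z := by
    intro γ
    simp only [PZ, Equiv.coe_mulRight, mul_smul]
  simp_rw [h]
  exact (Equiv.mulRight δ).iSup_comp (g := fun γ => PZ γ z)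

lemma im_eq_of_c_zero {σ : SL(2, ℤ)} (h : σ 1 0 = 0) (y : ℍ) : (σ • y).im = y.im := by
  rw [ModularGroup.im_smul_eq_div_normSq]
  have hdet := Matrix.SpecialLinearGroup.det_coe σ
  rw [Matrix.det_fin_two, h, mul_zero, sub_zero] at hdet
  have hd1 : (σ 1 1) ^ 2 = 1 := by
    have hu : IsUnit (σ 1 1) := IsUnit.of_mul_eq_one _ (by rw [mul_comm]; exact hdet)
    rcases Int.isUnit_iff.mp hu with h | h <;> rw [h] <;> norm_num
  have h1 : Complex.normSq (denom σ y) = 1 := by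
    rw [ModularGroup.denom_apply, h]
    rw [Int.cast_zero, zero_mul, zero_add, Complex.normSq_apply]
    have : ((σ 1 1 : ℤ) : ℝ) ^ 2 = 1 := by exact_mod_cast hd1
    simp
    nlinarith
  rw [h1, div_one]

lemma im_smul_le_inv {σ : SL(2, ℤ)} (h : σ 1 0 ≠ 0) (x : ℍ) : (σ • x).im ≤ 1 / x.im := by
  rw [ModularGroup.im_smul_eq_div_normSq]
  have hx := x.im_pos
  have h1 : x.im ^ 2 ≤ Complex.normSq (denom σ x) := by
    rw [ModularGroup.denom_apply, Complex.normSq_apply]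
    have h2 : (1 : ℝ) ≤ ((σ 1 0 : ℤ) : ℝ) ^ 2 := by
      have : (1 : ℤ) ≤ (σ 1 0) ^ 2 := by
        have := Int.one_le_abs h
        nlinarith [sq_abs (σ 1 0)]
      exact_mod_cast this
    have h3 : (((σ 1 0 : ℤ) : ℂ) * (x : ℂ) + ((σ 1 1 : ℤ) : ℂ)).im = ((σ 1 0 : ℤ) : ℝ) * x.im := by
      simp
    rw [h3]
    have h4 : x.im ^ 2 ≤ ((σ 1 0 : ℤ) : ℝ) ^ 2 * x.im ^ 2 := by nlinarith [sq_nonneg x.im]
    nlinarith [mul_self_nonneg (((σ 1 0 : ℤ) : ℂ) * (x : ℂ) + ((σ 1 1 : ℤ) : ℂ)).re]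
  have h2 : 0 < Complex.normSq (denom σ x) := lt_of_lt_of_le (by positivity) h1
  rw [div_le_div_iff₀ h2 hx]
  nlinarith

/-- the height function of a cusp is unique -/
lemma im_unique {γ γ' : SL(2, ℤ)} {w : ℍ} (h : 1 < (γ • w).im) (h' : 1 < (γ' • w).im) (z : ℍ) :
    (γ • z).im = (γ' • z).im := by
  have h1 : (γ' * γ⁻¹) 1 0 = 0 := by
    by_contra hc
    have h2 := im_smul_le_inv hc (γ • w)
    rw [← mul_smul, inv_mul_cancel_right] at h2
    have h3 : 1 / (γ • w).im < 1 := by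
      rw [div_lt_one (by linarith)]; exact h
    linarith
  have h2 := im_eq_of_c_zero h1 (γ • z)
  rw [← mul_smul, inv_mul_cancel_right] at h2
  exact h2.symm

lemma HH_eq {γ : SL(2, ℤ)} {z : ℍ} (h : 1 < (γ • z).im) : HH z = PZ γ z := by
  refine le_antisymm (iSup_le fun γ' => ?_) (le_iSup (fun γ => PZ γ z) γ)
  unfold PZ
  apply ENNReal.ofReal_le_ofReal
  apply Real.sqrt_le_sqrt
  rcases lt_or_ge 1 (γ' • z).im with h' | h'
  · exact (im_unique h' h z).le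
  · exact h'.trans h.le

lemma Ap_PZ (R : ℝ) (γ : SL(2, ℤ)) (z : ℍ) : Ap R (PZ γ) z = rhoE R * PZ γ z := by
  rw [PZ_eq, Ap_PP]

lemma PZ_ne_zero (γ : SL(2, ℤ)) (z : ℍ) : PZ γ z ≠ 0 := by rw [PZ_eq]; exact PP_ne_zero _ z
lemma PZ_ne_top (γ : SL(2, ℤ)) (z : ℍ) : PZ γ z ≠ ∞ := by rw [PZ_eq]; exact PP_ne_top _ z

lemma im_near {γ : SL(2, ℤ)} {z w : ℍ} {R Y₀ Y₁ : ℝ} (h1 : Y₀ * Real.exp R ≤ Y₁)
    (hz : Y₁ < (γ • z).im) (hd : dist z w ≤ R) : Y₀ < (γ • w).im := by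
  have h2 := im_le_im_mul_exp_dist (γ • z) (γ • w)
  rw [dist_smul_int] at h2
  have h3 : (γ • z).im ≤ (γ • w).im * Real.exp R :=
    h2.trans (mul_le_mul_of_nonneg_left (Real.exp_le_exp.2 hd) (γ • w).im_pos.le)
  have h4 : Y₀ * Real.exp R < (γ • w).im * Real.exp R := by linarith
  exact lt_of_mul_lt_mul_right h4 (Real.exp_pos R).le

lemma bz_eq_zero {R : ℝ} {z w : ℍ} (h : ¬ dist z w ≤ R) : bz R z w = 0 := by
  unfold bz
  rw [Set.indicator_of_notMem, mul_zero]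
  rwa [mem_closedBall, dist_comm]

lemma ind_smul (Y : ℝ) (δ : SL(2, ℤ)) (z : ℍ) :
    (cuspRegion Y).indicator (1 : ℍ → ℝ≥0∞) (δ • z) = (cuspRegion Y).indicator 1 z := by
  by_cases h : z ∈ cuspRegion Y
  · rw [Set.indicator_of_mem h, Set.indicator_of_mem ((cuspRegion_smul Y δ z).2 h)]
    rfl
  · rw [Set.indicator_of_notMem h,
      Set.indicator_of_notMem (fun h' => h ((cuspRegion_smul Y δ z).1 h'))]

/-- weighted Cauchy-Schwarz -/
lemma cs_weight {α : Type*} [MeasurableSpace α] (μ : Measure α) {k f h : α → ℝ≥0∞}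
    (hk : Measurable k) (hf : Measurable f) (hh : Measurable h)
    (h0 : ∀ x, k x ≠ 0 → h x ≠ 0) (ht : ∀ x, k x ≠ 0 → h x ≠ ∞) :
    (∫⁻ x, k x * f x ∂μ) ^ 2 ≤ (∫⁻ x, k x * h x ∂μ) * ∫⁻ x, k x * (f x ^ 2 * (h x)⁻¹) ∂μ := by
  have hpq : (2 : ℝ).HolderConjugate 2 := Real.HolderConjugate.two_two
  have hm1 : Measurable (fun x => k x * h x) := hk.mul hh
  have hm2 : Measurable (fun x => k x * (f x ^ 2 * (h x)⁻¹)) :=
    hk.mul ((hf.pow_const 2).mul hh.inv)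
  have h1 := ENNReal.lintegral_mul_le_Lp_mul_Lq μ hpq
    (f := fun x => (k x * h x) ^ (1 / 2 : ℝ)) (g := fun x => (k x * (f x ^ 2 * (h x)⁻¹)) ^ (1 / 2 : ℝ))
    (hm1.pow_const _).aemeasurable (hm2.pow_const _).aemeasurable
  have h2 : ∀ x, ((fun x => (k x * h x) ^ (1 / 2 : ℝ)) *
      (fun x => (k x * (f x ^ 2 * (h x)⁻¹)) ^ (1 / 2 : ℝ))) x = k x * f x := by
    intro x
    simp only [Pi.mul_apply]
    rw [← ENNReal.mul_rpow_of_nonneg _ _ (by norm_num : (0 : ℝ) ≤ 1 / 2)]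
    by_cases hk0 : k x = 0
    · simp [hk0]
    · have e1 : k x * h x * (k x * (f x ^ 2 * (h x)⁻¹)) = (k x * f x) ^ 2 := by
        calc k x * h x * (k x * (f x ^ 2 * (h x)⁻¹)) = (k x * f x) ^ 2 * (h x * (h x)⁻¹) := by ring
          _ = (k x * f x) ^ 2 := by rw [ENNReal.mul_inv_cancel (h0 x hk0) (ht x hk0), mul_one]
      rw [e1, ← ENNReal.rpow_natCast, ← ENNReal.rpow_mul]
      norm_num
  have h3 : ∀ y : ℝ≥0∞, (y ^ (1 / 2 : ℝ)) ^ (2 : ℝ) = y := by
    intro y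
    rw [← ENNReal.rpow_mul]
    norm_num
  rw [lintegral_congr h2] at h1
  simp only [h3] at h1
  calc (∫⁻ x, k x * f x ∂μ) ^ 2 ≤ ((∫⁻ x, k x * h x ∂μ) ^ (1 / 2 : ℝ) *
      (∫⁻ x, k x * (f x ^ 2 * (h x)⁻¹) ∂μ) ^ (1 / 2 : ℝ)) ^ 2 := by gcongr
    _ = _ := by
      rw [mul_pow, ← ENNReal.rpow_natCast, ← ENNReal.rpow_natCast, ← ENNReal.rpow_mul,
        ← ENNReal.rpow_mul]
      norm_num

end Cusp

open Cusp in
theorem cusp_lemma {R : ℝ} (hR : 0 < R) {Y₀ Y₁ : ℝ} (h0 : 1 ≤ Y₀) (h1 : Y₀ * Real.exp R ≤ Y₁)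
    (N : ℕ) {f : ℍ → ℝ≥0∞} (hf : Measurable f) (hi : ∀ γ ∈ Gamma N, ∀ z, f (γ • z) = f z) :
    ∫⁻ z in cuspRegion Y₁, (Ap R f z) ^ 2 ∂(nu N) ≤
      rhoE R ^ 2 * ∫⁻ z in cuspRegion Y₀, (f z) ^ 2 ∂(nu N) := by
  have hY1 : 1 < Y₁ := by
    have : 1 < Real.exp R := Real.one_lt_exp_iff.mpr hR
    nlinarith
  set C₁ := cuspRegion Y₁ with hC₁
  set C₀ := cuspRegion Y₀ with hC₀
  have hm1 : MeasurableSet C₁ := measurableSet_cuspRegion Y₁
  have hm0 : MeasurableSet C₀ := measurableSet_cuspRegion Y₀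
  let Ψ : ℍ → ℍ → ℝ≥0∞ := fun z w =>
    C₁.indicator 1 z * HH z * bz R z w * (f w ^ 2 * (HH w)⁻¹) * C₀.indicator 1 w
  have hΨm : Measurable (Function.uncurry Ψ) := by
    have e : Function.uncurry Ψ = fun p : ℍ × ℍ =>
      C₁.indicator 1 p.1 * HH p.1 * bz R p.1 p.2 * (f p.2 ^ 2 * (HH p.2)⁻¹) * C₀.indicator 1 p.2 :=
      rfl
    rw [e]
    have m1 : Measurable (fun p : ℍ × ℍ => C₁.indicator (1 : ℍ → ℝ≥0∞) p.1) :=
      (measurable_one.indicator hm1).comp measurable_fst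
    have m2 : Measurable (fun p : ℍ × ℍ => C₀.indicator (1 : ℍ → ℝ≥0∞) p.2) :=
      (measurable_one.indicator hm0).comp measurable_snd
    have m3 : Measurable (fun p : ℍ × ℍ => HH p.1) := measurable_HH.comp measurable_fst
    have m4 : Measurable (fun p : ℍ × ℍ => HH p.2) := measurable_HH.comp measurable_snd
    have m5 : Measurable (fun p : ℍ × ℍ => f p.2) := hf.comp measurable_snd
    exact (((m1.mul m3).mul (measurable_bz2 R)).mul ((m5.pow_const 2).mul m4.inv)).mul m2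
  have hΨi : ∀ δ ∈ Gamma N, ∀ z w, Ψ (δ • z) (δ • w) = Ψ z w := by
    intro δ hδ z w
    simp only [Ψ]
    rw [HH_smul, HH_smul, bz_smul, hi δ hδ]
    have e1 : C₁.indicator (1 : ℍ → ℝ≥0∞) (δ • z) = C₁.indicator 1 z := ind_smul Y₁ δ z
    have e2 : C₀.indicator (1 : ℍ → ℝ≥0∞) (δ • w) = C₀.indicator 1 w := ind_smul Y₀ δ w
    rw [e1, e2]
  -- the pointwise estimate
  have hpt : ∀ z ∈ C₁, (Ap R f z) ^ 2 ≤ rhoE R * ∫⁻ w, Ψ z w := by
    rintro z ⟨γ, hγ⟩
    have hnear : ∀ w, bz R z w ≠ 0 → Y₀ < (γ • w).im := by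
      intro w hw
      refine im_near h1 hγ ?_
      by_contra hc
      exact hw (bz_eq_zero hc)
    have hcs := cs_weight volume (k := bz R z) (f := f) (h := HH) (measurable_bz R z) hf
      measurable_HH (fun w hw => by rw [HH_eq (h0.trans_lt (hnear w hw))]; exact PZ_ne_zero γ w)
      (fun w hw => by rw [HH_eq (h0.trans_lt (hnear w hw))]; exact PZ_ne_top γ w)
    rw [← Ap_eq hR] at hcs
    refine hcs.trans ?_
    have e1 : ∫⁻ w, bz R z w * HH w = rhoE R * HH z := by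
      rw [HH_eq (hY1.trans hγ), ← Ap_PZ, Ap_eq hR]
      apply lintegral_congr
      intro w
      by_cases hw : bz R z w = 0
      · rw [hw, zero_mul, zero_mul]
      · rw [HH_eq (h0.trans_lt (hnear w hw))]
    have e2 : ∫⁻ w, Ψ z w = HH z * ∫⁻ w, bz R z w * (f w ^ 2 * (HH w)⁻¹) := by
      have hm : Measurable (fun w => bz R z w * (f w ^ 2 * (HH w)⁻¹)) :=
        (measurable_bz R z).mul ((hf.pow_const 2).mul measurable_HH.inv)
      rw [← lintegral_const_mul _ hm]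
      apply lintegral_congr
      intro w
      have hz1 : C₁.indicator (1 : ℍ → ℝ≥0∞) z = 1 := Set.indicator_of_mem (show z ∈ C₁ from ⟨γ, hγ⟩) _
      simp only [Ψ, hz1]
      by_cases hw : bz R z w = 0
      · rw [hw]; simp
      · have hw0 : C₀.indicator (1 : ℍ → ℝ≥0∞) w = 1 :=
          Set.indicator_of_mem (show w ∈ C₀ from ⟨γ, hnear w hw⟩) _
        rw [hw0]; ring
    rw [e1, e2, mul_assoc]
  have hpt2 : ∀ z, ∫⁻ w, Ψ w z ≤ rhoE R * (C₀.indicator (fun z => f z ^ 2) z) := by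
    intro z
    by_cases hz : z ∈ C₀
    · obtain ⟨γ, hγ⟩ := hz
      have e0 : ∀ w, Ψ w z ≤ (f z ^ 2 * (HH z)⁻¹) * (bz R z w * PZ γ w) := by
        intro w
        simp only [Ψ]
        by_cases hw : w ∈ C₁
        · by_cases hb : bz R w z = 0
          · rw [hb]; simp
          · obtain ⟨γ', hγ'⟩ := hw
            have hd : dist w z ≤ R := by
              by_contra hc
              exact hb (bz_eq_zero hc)
            have h2 := im_near h1 hγ' hd
            have h3 : HH w = PZ γ w := by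
              rw [HH_eq (hY1.trans hγ')]
              unfold PZ
              rw [im_unique (h0.trans_lt h2) (h0.trans_lt hγ) w]
            rw [h3, bz_symm R w z]
            have h4 : C₁.indicator (1 : ℍ → ℝ≥0∞) w ≤ 1 :=
              Set.indicator_apply_le' (fun _ => le_rfl) (fun _ => zero_le)
            have h5 : C₀.indicator (1 : ℍ → ℝ≥0∞) z ≤ 1 :=
              Set.indicator_apply_le' (fun _ => le_rfl) (fun _ => zero_le)
            calc C₁.indicator 1 w * PZ γ w * bz R z w * (f z ^ 2 * (HH z)⁻¹) * C₀.indicator 1 z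
                ≤ 1 * PZ γ w * bz R z w * (f z ^ 2 * (HH z)⁻¹) * 1 := by gcongr
              _ = _ := by ring
        · rw [Set.indicator_of_notMem hw]; simp
      refine (lintegral_mono e0).trans ?_
      have hmP : Measurable (PZ γ) := by rw [PZ_eq]; exact measurable_PP _
      have hm : Measurable (fun w => bz R z w * PZ γ w) := (measurable_bz R z).mul hmP
      rw [lintegral_const_mul _ hm, ← Ap_eq hR, Ap_PZ, Set.indicator_of_mem (show z ∈ C₀ from ⟨γ, hγ⟩),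
        HH_eq (h0.trans_lt hγ)]
      calc f z ^ 2 * (PZ γ z)⁻¹ * (rhoE R * PZ γ z)
          = rhoE R * f z ^ 2 * ((PZ γ z)⁻¹ * PZ γ z) := by ring
        _ ≤ rhoE R * f z ^ 2 := by
          rw [ENNReal.inv_mul_cancel (PZ_ne_zero γ z) (PZ_ne_top γ z), mul_one]
    · have : ∀ w, Ψ w z = 0 := by
        intro w
        simp only [Ψ]
        rw [Set.indicator_of_notMem hz, mul_zero]
      simp [this]
  have hΨm2 : Measurable (fun z => ∫⁻ w, Ψ z w) := hΨm.lintegral_prod_right' (ν := volume)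
  calc ∫⁻ z in C₁, (Ap R f z) ^ 2 ∂(nu N)
      ≤ ∫⁻ z in C₁, (rhoE R * ∫⁻ w, Ψ z w) ∂(nu N) := setLIntegral_mono' hm1 hpt
    _ ≤ ∫⁻ z, (rhoE R * ∫⁻ w, Ψ z w) ∂(nu N) := setLIntegral_le_lintegral _ _
    _ = rhoE R * ∫⁻ z, (∫⁻ w, Ψ z w) ∂(nu N) :=
        lintegral_const_mul _ hΨm2
    _ = rhoE R * ∫⁻ z, (∫⁻ w, Ψ w z) ∂(nu N) := by rw [nu_swap N hΨm hΨi]
    _ ≤ rhoE R * ∫⁻ z, rhoE R * (C₀.indicator (fun z => f z ^ 2) z) ∂(nu N) := by
        gcongr with z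
        exact hpt2 z
    _ = rhoE R ^ 2 * ∫⁻ z in C₀, (f z) ^ 2 ∂(nu N) := by
        rw [lintegral_const_mul _ ((hf.pow_const 2).indicator hm0), lintegral_indicator hm0]
        ring

/-- `ρ ≤ 1/4` for `R ≥ 250` (from `rhoE_le`) -/
theorem rhoE_small {R : ℝ} (hR : 250 ≤ R) : rhoE R ≤ 1 / 4 := by
  refine (rhoE_le (by linarith)).trans ?_
  have h1 : 46 * R * Real.exp (-(R / 2)) ≤ 1 / 4 := by
    have h2 := Real.pow_div_factorial_le_exp (R / 2) (by linarith) 3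
    rw [Real.exp_neg]
    have h3 : (0 : ℝ) < Real.exp (R / 2) := Real.exp_pos _
    rw [← div_eq_mul_inv, div_le_iff₀ h3]
    have h4 : (Nat.factorial 3 : ℝ) = 6 := by norm_num [Nat.factorial]
    rw [h4] at h2
    have h5 : 46 * R ≤ 1 / 4 * ((R / 2) ^ 3 / 6) := by
      have : 250 ^ 2 * R ≤ R ^ 3 := by
        have : (250 : ℝ) ^ 2 ≤ R ^ 2 := by gcongr
        nlinarith
      nlinarith
    linarith
  have h2 : (1 / 4 : ℝ≥0∞) = ENNReal.ofReal (1 / 4) := by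
    rw [ENNReal.ofReal_div_of_pos (by norm_num)]
    norm_num
  rw [h2]
  exact ENNReal.ofReal_le_ofReal h1

/-- complex version -/
theorem cusp_lemma_AL {R : ℝ} (hR : 250 ≤ R) {N : ℕ} [NeZero N] (u : BN N) :
    ∫ z in cuspRegion (Real.exp R), ‖(AL N R u : ℍ → ℂ) z‖ ^ 2 ∂(nu N) ≤ (1 / 16) * ‖u‖ ^ 2 := by
  have hR0 : 0 < R := by linarith
  have hu := BN.meas u
  set f : ℍ → ℝ≥0∞ := fun z => ‖(u : ℍ → ℂ) z‖ₑ with hf
  have hfm : Measurable f := hu.enorm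
  have hcl := cusp_lemma hR0 (le_refl 1) (by rw [one_mul] : 1 * Real.exp R ≤ Real.exp R) N hfm
    (fun γ hγ z => by simp only [hf]; rw [BN.inv u γ hγ z])
  have hAp : ∀ z, ‖(AL N R u : ℍ → ℂ) z‖ₑ ≤ Ap R f z := by
    intro z
    rw [AL_apply]
    unfold Av Ap
    rw [enorm_smul]
    have e1 : ‖(bv R)⁻¹‖ₑ = (ENNReal.ofReal (bv R))⁻¹ := by
      rw [Real.enorm_of_nonneg (inv_nonneg.mpr (bv_nonneg R)), ENNReal.ofReal_inv_of_pos (bv_pos hR0)]
    rw [e1]
    gcongr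
    exact enorm_integral_le_lintegral_enorm _
  obtain ⟨C, hC⟩ := BN.bdd (AL N R u)
  have hint : Integrable (fun z => ‖(AL N R u : ℍ → ℂ) z‖ ^ 2) ((nu N).restrict
      (cuspRegion (Real.exp R))) := by
    refine Integrable.of_bound (C := C ^ 2)
      ((BN.meas (AL N R u)).norm.pow_const 2).aestronglyMeasurable (.of_forall fun z => ?_)
    rw [norm_pow, norm_norm]
    exact pow_le_pow_left₀ (norm_nonneg _) (hC z) 2
  obtain ⟨D, hD⟩ := BN.bdd u
  have hint2 : Integrable (fun z => ‖(u : ℍ → ℂ) z‖ ^ 2) (nu N) := by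
    refine Integrable.of_bound (C := D ^ 2)
      (hu.norm.pow_const 2).aestronglyMeasurable (.of_forall fun z => ?_)
    rw [norm_pow, norm_norm]
    exact pow_le_pow_left₀ (norm_nonneg _) (hD z) 2
  have key : ENNReal.ofReal (∫ z in cuspRegion (Real.exp R), ‖(AL N R u : ℍ → ℂ) z‖ ^ 2 ∂(nu N)) ≤
      ENNReal.ofReal ((1 / 16) * ‖u‖ ^ 2) := by
    rw [ofReal_integral_eq_lintegral_ofReal hint (.of_forall fun z => by positivity)]
    have e0 : ∀ x : ℂ, ENNReal.ofReal (‖x‖ ^ 2) = ‖x‖ₑ ^ 2 := by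
      intro x
      rw [ENNReal.ofReal_pow (norm_nonneg _), ofReal_norm]
    calc ∫⁻ z in cuspRegion (Real.exp R), ENNReal.ofReal (‖(AL N R u : ℍ → ℂ) z‖ ^ 2) ∂(nu N)
        ≤ ∫⁻ z in cuspRegion (Real.exp R), (Ap R f z) ^ 2 ∂(nu N) := by
          apply lintegral_mono
          intro z
          simp only [e0]
          gcongr
          exact hAp z
      _ ≤ rhoE R ^ 2 * ∫⁻ z in cuspRegion 1, (f z) ^ 2 ∂(nu N) := hcl
      _ ≤ (1 / 4) ^ 2 * ∫⁻ z, (f z) ^ 2 ∂(nu N) := by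
          gcongr
          · exact rhoE_small hR
          · exact Measure.restrict_le_self
      _ = ENNReal.ofReal ((1 / 16) * ‖u‖ ^ 2) := by
          rw [BN.norm_sq, ENNReal.ofReal_mul (by norm_num),
            ofReal_integral_eq_lintegral_ofReal hint2 (.of_forall fun z => by positivity)]
          have e2 : ((1 / 4 : ℝ≥0∞)) ^ 2 = ENNReal.ofReal (1 / 16) := by
            rw [show (1 / 16 : ℝ) = (4⁻¹) ^ 2 by norm_num, ENNReal.ofReal_pow (by norm_num),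
              ENNReal.ofReal_inv_of_pos (by norm_num)]
            norm_num
          rw [e2]
          congr 1
          apply lintegral_congr
          intro z
          rw [e0]
  rwa [ENNReal.ofReal_le_ofReal_iff (by positivity)] at key

end

end Pool.Agent.H369R2
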