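import Mathlib

/-!
# Basic definitions (helper369, MP_db315d_nt)

Averaging over hyperbolic balls, the measure `nu N` representing (twice) the area of `Γ(N)\ℍ`,
and projective notions on `ℂ × ℂ`.
-/

open UpperHalfPlane MeasureTheory Metric ModularGroup CongruenceSubgroup
open scoped MatrixGroups ENNReal Modular Topology

namespace Pool.Agent.H369R2

noncomputable section

/-- The area of a hyperbolic ball of radius `R`. -/
def bv (R : ℝ) : ℝ := (volume (closedBall (UpperHalfPlane.I : ℍ) R)).toReal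

/-- Averaging over the hyperbolic ball of radius `R`. -/
def Av {E : Type*} [NormedAddCommGroup E] [NormedSpace ℝ E] (R : ℝ) (f : ℍ → E) (z : ℍ) : E :=
  (bv R)⁻¹ • ∫ w in closedBall z R, f w

/-- Averaging for nonnegative functions. -/
def Ap (R : ℝ) (f : ℍ → ℝ≥0∞) (z : ℍ) : ℝ≥0∞ :=
  (ENNReal.ofReal (bv R))⁻¹ * ∫⁻ w in closedBall z R, f w

/-- The measure on `ℍ` obtained by adding the hyperbolic areas of the translates of the open
fundamental domain of `SL(2,ℤ)` under representatives of `SL(2,ℤ) / Γ(N)`. -/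
def nu (N : ℕ) : Measure ℍ :=
  Measure.sum fun g : SL(2, ℤ) ⧸ Gamma N => (volume.restrict 𝒟ᵒ).map (fun z => g.out • z)

/-- invariance under `Γ(N)` -/
def Inv {E : Type*} (N : ℕ) (f : ℍ → E) : Prop := ∀ γ ∈ Gamma N, ∀ z : ℍ, f (γ • z) = f z

/-- The Poincare inequality with constant `κ` for the averaging operator of radius `R` and all
levels. -/
def HasGap (R κ : ℝ) : Prop :=
  ∀ N : ℕ, N ≠ 0 → ∀ u : ℍ → ℝ, Measurable u → (∃ C, ∀ z, |u z| ≤ C) → Inv N u →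
    (∫ z, u z ∂(nu N) = 0) →
    κ * ∫ z, (u z) ^ 2 ∂(nu N) ≤ ∫ z, Av R (fun w => (u z - u w) ^ 2) z ∂(nu N)

/-! ### Projective notions -/

/-- determinant of two vectors -/
def wd (x y : ℂ × ℂ) : ℂ := x.1 * y.2 - x.2 * y.1

/-- squared hermitian norm -/
def nq (x : ℂ × ℂ) : ℝ := ‖x.1‖ ^ 2 + ‖x.2‖ ^ 2

/-- hermitian product -/
def hm (x y : ℂ × ℂ) : ℂ := (starRingEnd ℂ) x.1 * y.1 + (starRingEnd ℂ) x.2 * y.2

/-- squared chordal distance of the lines spanned by `x` and `y` -/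
def ch (x y : ℂ × ℂ) : ℝ := ‖wd x y‖ ^ 2 / (nq x * nq y)

/-- the hermitian form which scales the line of `p` by `r` and the orthogonal line by `r⁻¹` -/
def hr (p : ℂ × ℂ) (r : ℝ) (x : ℂ × ℂ) : ℝ := r * ‖hm p x‖ ^ 2 + r⁻¹ * ‖wd p x‖ ^ 2

/-- squared chordal distance with respect to `hr p r` -/
def qr (p : ℂ × ℂ) (r : ℝ) (x y : ℂ × ℂ) : ℝ := ‖wd x y‖ ^ 2 / (hr p r x * hr p r y)

/-- the potential `log (hr p r x / nq x)` -/
def fr (p : ℂ × ℂ) (r : ℝ) (x : ℂ × ℂ) : ℝ := Real.log (hr p r x / nq x)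

/-- `g` is a local holomorphic lift of the map `[X]` to the projective line at `z` -/
def IsLift (X : ℍ → ℂ × ℂ) (z : ℍ) (g : ℂ → ℂ × ℂ) : Prop :=
  AnalyticAt ℂ g (z : ℂ) ∧ g z ≠ 0 ∧ ∀ᶠ w : ℍ in 𝓝 z, wd (X w) (g w) = 0

/-- `X` represents a holomorphic map from `ℍ` to the projective line -/
def ProjHol (X : ℍ → ℂ × ℂ) : Prop := (∀ z, X z ≠ 0) ∧ ∀ z, ∃ g, IsLift X z g

/-- critical point of the map `[X]` -/
def IsCrit (X : ℍ → ℂ × ℂ) (z : ℍ) : Prop := ∃ g, IsLift X z g ∧ wd (g z) (deriv g z) = 0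

end

end Pool.Agent.H369R2
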