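import Pool.Agent.H369R2.Op
import Pool.Agent.H369R2.AbsDefs

/-! # Operators on `BN N`: averaging and the group action -/

open UpperHalfPlane MeasureTheory Metric ModularGroup CongruenceSubgroup
open scoped MatrixGroups ENNReal Modular Topology NNReal ComplexConjugate

set_option linter.unusedSimpArgs false

namespace Pool.Agent.H369R2

noncomputable section

/-- the union of all horoballs of height `Y` -/
def cuspRegion (Y : ℝ) : Set ℍ := {z | ∃ γ : SL(2, ℤ), Y < (γ • z).im}

lemma measurableSet_cuspRegion (Y : ℝ) : MeasurableSet (cuspRegion Y) := by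
  have : cuspRegion Y = ⋃ γ : SL(2, ℤ), {z : ℍ | Y < (γ • z).im} := by
    ext z; simp [cuspRegion]
  rw [this]
  refine MeasurableSet.iUnion fun γ => ?_
  exact (isOpen_lt continuous_const (continuous_im.comp (cont_smul_int γ))).measurableSet

lemma cuspRegion_smul (Y : ℝ) (γ : SL(2, ℤ)) (z : ℍ) : γ • z ∈ cuspRegion Y ↔ z ∈ cuspRegion Y := by
  constructor
  · rintro ⟨δ, hδ⟩
    exact ⟨δ * γ, by rwa [mul_smul]⟩
  · rintro ⟨δ, hδ⟩
    exact ⟨δ * γ⁻¹, by rwa [mul_smul, inv_smul_smul]⟩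

section avg
variable {E : Type*} [NormedAddCommGroup E] [NormedSpace ℝ E]

lemma measurable_Av_complex {R : ℝ} {f : ℍ → ℂ} (hf : Measurable f) : Measurable (Av R f) := by
  unfold Av
  refine Measurable.const_smul ?_ _
  have h1 : (fun z : ℍ => ∫ w in closedBall z R, f w) =
      fun z : ℍ => ∫ w, Set.indicator {p : ℍ × ℍ | dist p.2 p.1 ≤ R} (fun p => f p.2) (z, w) := by
    ext z
    rw [← integral_indicator isClosed_closedBall.measurableSet]
    congr 1
  rw [h1]
  have h2 : Measurable (Set.indicator {p : ℍ × ℍ | dist p.2 p.1 ≤ R} (fun p => f p.2)) := by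
    refine (hf.comp measurable_snd).indicator ?_
    exact (isClosed_le (continuous_snd.dist continuous_fst) continuous_const).measurableSet
  exact (h2.stronglyMeasurable.integral_prod_right' (ν := (volume : Measure ℍ))).measurable

lemma integrableOn_ball {R : ℝ} {f : ℍ → ℂ} (hf : Measurable f) {C : ℝ} (hC : ∀ z, ‖f z‖ ≤ C)
    (z : ℍ) : IntegrableOn f (closedBall z R) := by
  refine Measure.integrableOn_of_bounded (M := C) (vol_ball_ne_top R z) hf.aestronglyMeasurable ?_
  exact .of_forall hC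

lemma norm_Av_le {R : ℝ} {f : ℍ → E} {C : ℝ} (hC : ∀ z, ‖f z‖ ≤ C) (z : ℍ) :
    ‖Av R f z‖ ≤ C := by
  have hC0 : 0 ≤ C := (norm_nonneg _).trans (hC z)
  unfold Av
  rw [norm_smul]
  have h1 : ‖∫ w in closedBall z R, f w‖ ≤ C * bv R := by
    have := norm_setIntegral_le_of_norm_le_const (f := f) (s := closedBall z R) (C := C)
      (μ := volume) (vol_ball_ne_top R z).lt_top (fun w _ => hC w)
    refine this.trans_eq ?_
    rw [Measure.real, vol_eq, ENNReal.toReal_ofReal (bv_nonneg R)]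
  rw [norm_inv, Real.norm_of_nonneg (bv_nonneg R)]
  rcases (bv_nonneg R).eq_or_lt with h | h
  · rw [← h]; simpa using hC0
  · rw [inv_mul_le_iff₀ h]; linarith

end avg

/-- the averaging operator -/
def AL (N : ℕ) (R : ℝ) : BN N →ₗ[ℂ] BN N where
  toFun u := ⟨Av R (u : ℍ → ℂ), measurable_Av_complex (BN.meas u),
    ⟨_, fun z => norm_Av_le (BN.bdd u).choose_spec z⟩, Av_inv (BN.inv u)⟩
  map_add' u v := by
    ext z
    obtain ⟨C, hC⟩ := BN.bdd u
    obtain ⟨D, hD⟩ := BN.bdd v
    simp only [Submodule.coe_add, Pi.add_apply, Av]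
    rw [integral_add (integrableOn_ball (BN.meas u) hC z) (integrableOn_ball (BN.meas v) hD z),
      smul_add]
  map_smul' c u := by
    ext z
    simp only [Submodule.coe_smul, Pi.smul_apply, Av, RingHom.id_apply]
    rw [integral_smul, smul_comm]

@[simp] lemma AL_apply (N : ℕ) (R : ℝ) (u : BN N) : ((AL N R u : BN N) : ℍ → ℂ) = Av R (u : ℍ → ℂ) := rfl

/-- the action of `SL(2,ℤ)` -/
def act0 (N : ℕ) : SL(2, ℤ) →* Module.End ℂ (BN N) where
  toFun γ :=
    { toFun := fun u => ⟨fun z => (u : ℍ → ℂ) (γ⁻¹ • z),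
        (BN.meas u).comp (cont_smul_int γ⁻¹).measurable,
        ⟨_, fun z => (BN.bdd u).choose_spec _⟩, by
          intro δ hδ z
          have h1 : γ⁻¹ * δ * γ ∈ Gamma N := by
            have := (Gamma_normal N).conj_mem δ hδ γ⁻¹
            simpa using this
          have h2 : γ⁻¹ • δ • z = (γ⁻¹ * δ * γ) • γ⁻¹ • z := by
            simp only [← mul_smul]; congr 1; group
          show (u : ℍ → ℂ) (γ⁻¹ • δ • z) = _
          rw [h2, BN.inv u _ h1]⟩
      map_add' := fun u v => by ext z; simp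
      map_smul' := fun c u => by ext z; simp }
  map_one' := by ext u z; simp
  map_mul' γ δ := by ext u z; simp [mul_smul]

lemma act0_apply (N : ℕ) (γ : SL(2, ℤ)) (u : BN N) (z : ℍ) :
    ((act0 N γ u : BN N) : ℍ → ℂ) z = (u : ℍ → ℂ) (γ⁻¹ • z) := rfl

lemma act0_Gamma (N : ℕ) (γ : SL(2, ℤ)) (hγ : γ ∈ Gamma N) : act0 N γ = 1 := by
  ext u z
  rw [act0_apply, BN.inv u _ (inv_mem hγ)]
  rfl

/-- the action of `SL(2,ℤ) / Γ(N)` -/
def act (N : ℕ) : GN N →* Module.End ℂ (BN N) :=
  QuotientGroup.lift (Gamma N) (act0 N) (fun γ hγ => act0_Gamma N γ hγ)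

@[simp] lemma act_mk (N : ℕ) (γ : SL(2, ℤ)) : act N (QuotientGroup.mk' (Gamma N) γ) = act0 N γ := rfl

/-- the averaging operator commutes with the action -/
lemma act_AL (N : ℕ) (R : ℝ) (g : GN N) (u : BN N) : act N g (AL N R u) = AL N R (act N g u) := by
  obtain ⟨γ, rfl⟩ := QuotientGroup.mk'_surjective (Gamma N) g
  ext z
  rw [act_mk, act0_apply, AL_apply, AL_apply, Av_smul_int]
  rfl

end

end Pool.Agent.H369R2
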