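import Mathlib

/-!
# Definitions for the statement of MP_db315d_nt
-/

open UpperHalfPlane
open scoped MatrixGroups Manifold

namespace Pool.Agent.H369R2

/-- The ring of holomorphic functions on the upper half plane. -/
def Hol : Subring (ℍ → ℂ) where
  carrier := {f | MDifferentiable 𝓘(ℂ) 𝓘(ℂ) f}
  mul_mem' {a b} ha hb := by
    have : (a * b : ℍ → ℂ) = fun z => a z * b z := rfl
    simp only [Set.mem_ofPred_eq] at *
    exact ha.mul hb
  one_mem' := mdifferentiable_const
  add_mem' {a b} ha hb := by
    simp only [Set.mem_ofPred_eq] at *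
    exact ha.add hb
  zero_mem' := mdifferentiable_const
  neg_mem' {a} ha := by
    simp only [Set.mem_ofPred_eq] at *
    exact ha.neg

/-- The field of meromorphic functions on the upper half plane, as the ring of fractions of the
ring (an integral domain) of holomorphic functions. -/
abbrev Mer : Type := FractionRing Hol

/-- constant functions -/
noncomputable def cst (c : ℂ) : Mer := algebraMap Hol Mer ⟨fun _ => c, mdifferentiable_const⟩

/-- A modular form as holomorphic function. -/
def ofForm {Γ : Subgroup (GL (Fin 2) ℝ)} {k : ℤ} (a : ModularForm Γ k) : Hol := ⟨a, a.holo'⟩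

/-- `φ` is a modular function for `Γ`: the quotient of two modular forms of the same weight. -/
def IsModularFunction (Γ : Subgroup SL(2, ℤ)) (φ : Mer) : Prop :=
  ∃ (k : ℤ) (a b : ModularForm (Γ : Subgroup (GL (Fin 2) ℝ)) k), b ≠ 0 ∧
    φ * algebraMap Hol Mer (ofForm b) = algebraMap Hol Mer (ofForm a)

/-- `F` is the function field of a smooth projective geometrically irreducible curve over `K`. -/
def IsCurveField (K F : Type) [Field K] [Field F] [Algebra K F] : Prop :=
  (∃ x : F, Transcendental K x ∧ FiniteDimensional (IntermediateField.adjoin K {x}) F) ∧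
    ∀ y : F, IsAlgebraic K y → ∃ a : K, algebraMap K F a = y

/-- There is a surjective morphism from `X_Γ` to (some complex conjugate of) the curve with function
field `F`. -/
def Dominates (Γ : Subgroup SL(2, ℤ)) (F : Type) [Field F] : Prop :=
  ∃ φ : F →+* Mer, (∀ y, IsModularFunction Γ (φ y)) ∧ ∃ y, ∀ c : ℂ, φ y ≠ cst c

/-- The smallest congruence subgroup containing `Γ`. -/
def congruenceClosure (Γ : Subgroup SL(2, ℤ)) : Subgroup SL(2, ℤ) :=
  sInf {Δ | CongruenceSubgroup.IsCongruenceSubgroup Δ ∧ Γ ≤ Δ}

/-- The congruence defect. -/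
noncomputable def congruenceDefect (Γ : Subgroup SL(2, ℤ)) : ℕ := Γ.relIndex (congruenceClosure Γ)

end Pool.Agent.H369R2
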