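import Pool.Agent.H369R2.Defs

/-! # Geometry: invariance of the averaging operators -/

open UpperHalfPlane MeasureTheory Metric ModularGroup CongruenceSubgroup
open scoped MatrixGroups ENNReal Modular Topology

namespace Pool.Agent.H369R2

noncomputable section

lemma mp_real (g : SL(2, ℝ)) : MeasurePreserving (fun z : ℍ => g • z) :=
  measurePreserving_smul (Matrix.SpecialLinearGroup.mapGL ℝ g) (volume : Measure ℍ)

lemma mp_int (g : SL(2, ℤ)) : MeasurePreserving (fun z : ℍ => g • z) :=
  measurePreserving_smul (Matrix.SpecialLinearGroup.mapGL ℝ g) (volume : Measure ℍ)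

lemma dist_smul_int (g : SL(2, ℤ)) (z w : ℍ) : dist (g • z) (g • w) = dist z w := by
  have : ∀ u : ℍ, g • u = ((g : SL(2, ℝ)) • u) := fun u => by
    rfl
  rw [this, this, dist_smul]

lemma cont_smul_int (g : SL(2, ℤ)) : Continuous (fun z : ℍ => g • z) :=
  (Isometry.of_dist_eq (dist_smul_int g)).continuous

lemma me_int (g : SL(2, ℤ)) : MeasurableEmbedding (fun z : ℍ => g • z) := by
  refine (Topology.IsClosedEmbedding.measurableEmbedding ?_)
  exact (Isometry.of_dist_eq (dist_smul_int g)).isClosedEmbedding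

lemma me_real (g : SL(2, ℝ)) : MeasurableEmbedding (fun z : ℍ => g • z) := by
  refine (Topology.IsClosedEmbedding.measurableEmbedding ?_)
  exact (isometry_smul ℍ g).isClosedEmbedding

lemma vol_ball (R : ℝ) (z : ℍ) : volume (closedBall z R) = volume (closedBall (I : ℍ) R) := by
  obtain ⟨g, rfl⟩ := MulAction.exists_smul_eq SL(2, ℝ) I z
  have h := (mp_real g).measure_preimage (isClosed_closedBall (x := g • I) (ε := R)).measurableSet.nullMeasurableSet
  rw [← h]
  congr 1
  ext w
  simp only [Set.mem_preimage, mem_closedBall, dist_smul]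

lemma vol_ball_ne_top (R : ℝ) (z : ℍ) : volume (closedBall z R) ≠ ∞ :=
  (isCompact_closedBall z R).measure_lt_top.ne

lemma vol_eq (R : ℝ) (z : ℍ) : volume (closedBall z R) = ENNReal.ofReal (bv R) := by
  rw [vol_ball, bv, ENNReal.ofReal_toReal (vol_ball_ne_top R I)]

lemma bv_nonneg (R : ℝ) : 0 ≤ bv R := ENNReal.toReal_nonneg

instance : Measure.IsOpenPosMeasure (volume : Measure ℍ) := by
  refine ⟨fun U hU hne h0 => ?_⟩
  rw [volume_eq_lintegral] at h0
  have hU' : IsOpen (UpperHalfPlane.coe '' U) := isOpenEmbedding_coe.isOpenMap U hU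
  rw [setLIntegral_eq_zero_iff hU'.measurableSet] at h0
  · have h1 : ∀ᵐ z : ℂ, z ∉ UpperHalfPlane.coe '' U := by
      filter_upwards [h0] with z hz hzU
      have := hz hzU
      obtain ⟨w, hw, rfl⟩ := hzU
      have h2 := w.im_pos
      simp at this
      exact absurd this h2.ne'
    have h2 : volume (UpperHalfPlane.coe '' U) = 0 := by
      rw [ae_iff] at h1
      convert h1 using 2
      ext z
      simp
    exact (hU'.measure_pos volume (hne.image _)).ne' h2
  · fun_prop

lemma bv_pos {R : ℝ} (hR : 0 < R) : 0 < bv R := by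
  rw [bv, ENNReal.toReal_pos_iff]
  refine ⟨?_, (vol_ball_ne_top R I).lt_top⟩
  exact measure_closedBall_pos volume I hR

section inv

variable {E : Type*} [NormedAddCommGroup E] [NormedSpace ℝ E]

lemma lint_ball_smul_real (R : ℝ) (g : SL(2, ℝ)) (f : ℍ → ℝ≥0∞) (z : ℍ) :
    ∫⁻ w in closedBall (g • z) R, f w = ∫⁻ w in closedBall z R, f (g • w) := by
  have h := (mp_real g).setLIntegral_comp_preimage_emb (me_real g) f (closedBall (g • z) R)
  rw [← h]
  congr 2
  ext w
  simp only [Set.mem_preimage, mem_closedBall, dist_smul]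

lemma Ap_smul_real (R : ℝ) (g : SL(2, ℝ)) (f : ℍ → ℝ≥0∞) (z : ℍ) :
    Ap R f (g • z) = Ap R (fun w => f (g • w)) z := by
  simp only [Ap, lint_ball_smul_real]

lemma lint_ball_smul_int (R : ℝ) (g : SL(2, ℤ)) (f : ℍ → ℝ≥0∞) (z : ℍ) :
    ∫⁻ w in closedBall (g • z) R, f w = ∫⁻ w in closedBall z R, f (g • w) := by
  have h := (mp_int g).setLIntegral_comp_preimage_emb (me_int g) f (closedBall (g • z) R)
  rw [← h]
  congr 2
  ext w
  simp only [Set.mem_preimage, mem_closedBall, dist_smul_int]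

lemma Ap_smul_int (R : ℝ) (g : SL(2, ℤ)) (f : ℍ → ℝ≥0∞) (z : ℍ) :
    Ap R f (g • z) = Ap R (fun w => f (g • w)) z := by
  simp only [Ap, lint_ball_smul_int]

lemma int_ball_smul_int (R : ℝ) (g : SL(2, ℤ)) (f : ℍ → E) (z : ℍ) :
    ∫ w in closedBall (g • z) R, f w = ∫ w in closedBall z R, f (g • w) := by
  have h := (mp_int g).setIntegral_preimage_emb (me_int g) f (closedBall (g • z) R)
  rw [← h]
  congr 2
  ext w
  simp only [Set.mem_preimage, mem_closedBall, dist_smul_int]

lemma Av_smul_int (R : ℝ) (g : SL(2, ℤ)) (f : ℍ → E) (z : ℍ) :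
    Av R f (g • z) = Av R (fun w => f (g • w)) z := by
  simp only [Av, int_ball_smul_int]

lemma Av_inv {N : ℕ} {R : ℝ} {f : ℍ → E} (hf : Inv N f) : Inv N (Av R f) := by
  intro γ hγ z
  rw [Av_smul_int]
  congr 1
  ext w
  exact hf γ hγ w

end inv

end

end Pool.Agent.H369R2
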