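import Pool.Agent.H369R2.G1

/-! # The functions `√Im (g z)` and the constant `ρ` -/

open UpperHalfPlane MeasureTheory Metric ModularGroup CongruenceSubgroup
open scoped MatrixGroups ENNReal Modular Topology

set_option linter.unusedSimpArgs false

namespace Pool.Agent.H369R2

noncomputable section

/-- the affine matrix with `aff w • z = im w * z + re w` -/
def aff (w : ℍ) : SL(2, ℝ) :=
  ⟨!![√w.im, w.re / √w.im; 0, (√w.im)⁻¹], by
    have : √w.im ≠ 0 := (Real.sqrt_pos.2 w.im_pos).ne'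
    simp [Matrix.det_fin_two, this]⟩

lemma coe_aff (w z : ℍ) : ((aff w • z : ℍ) : ℂ) = w.im * z + w.re := by
  have h : (√w.im : ℂ) ≠ 0 := by exact_mod_cast (Real.sqrt_pos.2 w.im_pos).ne'
  have h2 : (√w.im : ℂ) * √w.im = w.im := by
    exact_mod_cast Real.mul_self_sqrt w.im_pos.le
  rw [coe_specialLinearGroup_apply]
  have e00 : (aff w) 0 0 = √w.im := rfl
  have e01 : (aff w) 0 1 = w.re / √w.im := rfl
  have e10 : (aff w) 1 0 = 0 := rfl
  have e11 : (aff w) 1 1 = (√w.im)⁻¹ := rfl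
  simp only [e00, e01, e10, e11, Algebra.algebraMap_self, RingHom.id_apply,
    Complex.ofReal_zero, zero_mul, zero_add, Complex.ofReal_div, Complex.ofReal_inv]
  rw [div_inv_eq_mul, add_mul, div_mul_cancel₀ _ h, mul_right_comm, h2]

lemma im_aff (w z : ℍ) : (aff w • z).im = w.im * z.im := by
  have := congrArg Complex.im (coe_aff w z)
  simpa using this

lemma aff_I (w : ℍ) : aff w • (I : ℍ) = w := by
  ext
  rw [coe_aff]
  apply Complex.ext <;> simp

/-- square root of the imaginary part of `g z` -/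
def PP (g : SL(2, ℝ)) (z : ℍ) : ℝ≥0∞ := ENNReal.ofReal (√((g • z).im))

lemma measurable_im : Measurable (fun z : ℍ => z.im) := continuous_im.measurable

lemma measurable_PP (g : SL(2, ℝ)) : Measurable (PP g) := by
  unfold PP
  exact (continuous_im.comp (isometry_smul ℍ g).continuous).measurable.sqrt.ennreal_ofReal

/-- the eigenvalue -/
def rhoE (R : ℝ) : ℝ≥0∞ := Ap R (PP 1) I

lemma Ap_const_mul (R : ℝ) (c : ℝ≥0∞) {f : ℍ → ℝ≥0∞} (hf : Measurable f) (z : ℍ) :
    Ap R (fun w => c * f w) z = c * Ap R f z := by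
  unfold Ap
  rw [lintegral_const_mul _ hf]
  ring

lemma Ap_PP (R : ℝ) (g : SL(2, ℝ)) (z : ℍ) : Ap R (PP g) z = rhoE R * PP g z := by
  have h1 : PP g = fun w => PP 1 (g • w) := by
    ext w; simp [PP]
  rw [h1, ← Ap_smul_real]
  set w := g • z with hw
  have h2 : Ap R (PP 1) w = Ap R (PP 1) (aff w • I) := by rw [aff_I]
  rw [h2, Ap_smul_real]
  have h3 : (fun ζ => PP 1 (aff w • ζ)) = fun ζ => PP 1 w * PP 1 ζ := by
    ext ζ
    simp only [PP, one_smul, im_aff]
    rw [Real.sqrt_mul w.im_pos.le, ENNReal.ofReal_mul (Real.sqrt_nonneg _)]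
  rw [h3, Ap_const_mul _ _ (measurable_PP 1)]
  simp only [rhoE, aff_I]
  ring

lemma PP_ne_zero (g : SL(2, ℝ)) (z : ℍ) : PP g z ≠ 0 := by
  simp only [PP, ne_eq, ENNReal.ofReal_eq_zero, not_le]
  exact Real.sqrt_pos.2 (g • z).im_pos

lemma PP_ne_top (g : SL(2, ℝ)) (z : ℍ) : PP g z ≠ ∞ := ENNReal.ofReal_ne_top

/-- comparison of `PP g` at nearby points -/
lemma PP_le (g : SL(2, ℝ)) {z w : ℍ} {R : ℝ} (h : dist z w ≤ R) :
    PP g z ≤ ENNReal.ofReal (Real.exp (R / 2)) * PP g w := by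
  simp only [PP]
  rw [← ENNReal.ofReal_mul (Real.exp_pos _).le]
  apply ENNReal.ofReal_le_ofReal
  have h1 := im_le_im_mul_exp_dist (g • z) (g • w)
  rw [dist_smul] at h1
  have h2 : (g • z).im ≤ (g • w).im * Real.exp R :=
    h1.trans (mul_le_mul_of_nonneg_left (Real.exp_le_exp.2 h) (g • w).im_pos.le)
  calc √(g • z).im ≤ √((g • w).im * Real.exp R) := Real.sqrt_le_sqrt h2
    _ = Real.exp (R / 2) * √(g • w).im := by
      rw [Real.sqrt_mul (g • w).im_pos.le, mul_comm]
      congr 1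
      rw [show Real.exp R = Real.exp (R / 2) ^ 2 by rw [← Real.exp_nat_mul]; congr 1; push_cast; ring]
      exact Real.sqrt_sq (Real.exp_pos _).le

/-- rotation by the angle `θ` -/
def rotM (θ : ℝ) : SL(2, ℝ) :=
  ⟨!![Real.cos θ, -Real.sin θ; Real.sin θ, Real.cos θ], by
    simp [Matrix.det_fin_two]
    nlinarith [Real.sin_sq_add_cos_sq θ]⟩

lemma coe_rot (θ : ℝ) (z : ℍ) : ((rotM θ • z : ℍ) : ℂ) =
    ((Real.cos θ : ℂ) * z + ((-Real.sin θ : ℝ) : ℂ)) / ((Real.sin θ : ℂ) * z + Real.cos θ) := by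
  rw [coe_specialLinearGroup_apply]
  rfl

lemma rot_denom (θ : ℝ) (z : ℍ) : (Real.sin θ : ℂ) * z + Real.cos θ ≠ 0 := by
  intro h
  have h1 := congrArg Complex.re h
  have h2 := congrArg Complex.im h
  simp only [Complex.add_re, Complex.mul_re, Complex.ofReal_re, Complex.ofReal_im, zero_mul,
    sub_zero, Complex.zero_re, Complex.add_im, Complex.mul_im, add_zero, Complex.zero_im, coe_im,
    coe_re, mul_eq_zero] at h1 h2
  have h3 := Real.sin_sq_add_cos_sq θ
  rcases h2 with h2 | h2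
  · rw [h2] at h1 h3
    rw [zero_mul, zero_add] at h1
    rw [h1] at h3
    norm_num at h3
  · exact z.im_pos.ne' h2

lemma rot_I (θ : ℝ) : rotM θ • (I : ℍ) = I := by
  ext
  rw [coe_rot, coe_I, div_eq_iff (by simpa using rot_denom θ I)]
  push_cast
  linear_combination (-Complex.sin θ) * Complex.I_mul_I

/-- every pair of points can be moved to the imaginary axis -/
lemma exists_align (z w : ℍ) : ∃ g : SL(2, ℝ), g • w = I ∧ (g • z).re = 0 ∧
    (g • z).im = Real.exp (dist z w) := by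
  -- first move `w` to `I`
  obtain ⟨g₀, hg₀⟩ := MulAction.exists_smul_eq SL(2, ℝ) w I
  set z₀ := g₀ • z with hz₀
  -- the function θ ↦ re (rotM θ z₀) changes sign between 0 and π/2
  have hcont : Continuous fun θ : ℝ => (rotM θ • z₀).re := by
    have : (fun θ : ℝ => (rotM θ • z₀).re) = fun θ : ℝ =>
        (((Real.cos θ : ℂ) * z₀ + ((-Real.sin θ : ℝ) : ℂ)) / ((Real.sin θ : ℂ) * z₀ + Real.cos θ)).re := by
      ext θ
      rw [← coe_re, coe_rot]
    rw [this]
    exact Complex.continuous_re.comp (Continuous.div (by fun_prop) (by fun_prop)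
      fun θ => rot_denom θ z₀)
  have h0 : (rotM 0 • z₀).re = z₀.re := by
    rw [← coe_re, coe_rot]
    simp
  have h1 : (rotM (Real.pi / 2) • z₀).re = - z₀.re / Complex.normSq z₀ := by
    rw [← coe_re, coe_rot]
    simp [Complex.div_re, Complex.inv_re]
  have hex : ∃ θ : ℝ, (rotM θ • z₀).re = 0 := by
    have hpos : 0 < Complex.normSq (z₀ : ℂ) := Complex.normSq_pos.2 z₀.ne_zero
    have hivt := mem_range_of_exists_le_of_exists_ge hcont (c := 0)
    rcases le_total z₀.re 0 with h | h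
    · obtain ⟨θ, hθ⟩ := hivt ⟨0, by rw [h0]; exact h⟩ ⟨Real.pi / 2, by
        rw [h1]; exact div_nonneg (by linarith) hpos.le⟩
      exact ⟨θ, hθ⟩
    · obtain ⟨θ, hθ⟩ := hivt ⟨Real.pi / 2, by
        rw [h1]; exact div_nonpos_of_nonpos_of_nonneg (by linarith) hpos.le⟩ ⟨0, by rw [h0]; exact h⟩
      exact ⟨θ, hθ⟩
  obtain ⟨θ, hθ⟩ := hex
  have key : ∀ g : SL(2, ℝ), g • w = I → (g • z).re = 0 →
      dist z w = |Real.log (g • z).im| := by
    intro g hg hre
    rw [← dist_smul g z w, hg, dist_of_re_eq (by rw [hre]; simp)]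
    simp [Real.dist_eq]
  have hg1 : (rotM θ * g₀) • w = I := by rw [mul_smul, hg₀, rot_I]
  have hg2 : ((rotM θ * g₀) • z).re = 0 := by rw [mul_smul]; exact hθ
  rcases le_total 1 (((rotM θ * g₀) • z).im) with h | h
  · refine ⟨rotM θ * g₀, hg1, hg2, ?_⟩
    rw [key _ hg1 hg2, abs_of_nonneg (Real.log_nonneg h), Real.exp_log (im_pos _)]
  · set u := (rotM θ * g₀) • z with hu
    have hr1 : (rotM (Real.pi / 2) • u).re = 0 := by
      rw [← coe_re, coe_rot]
      simp [Complex.div_re, hg2]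
    have hr2 : (rotM (Real.pi / 2) • u).im = u.im⁻¹ := by
      rw [← coe_im, coe_rot]
      have := u.im_pos.ne'
      simp [Complex.normSq_apply, hg2, Complex.div_im]
      field_simp
    have hg1' : (rotM (Real.pi / 2) * (rotM θ * g₀)) • w = I := by rw [mul_smul, hg1, rot_I]
    have hg2' : ((rotM (Real.pi / 2) * (rotM θ * g₀)) • z).re = 0 := by rw [mul_smul]; exact hr1
    refine ⟨rotM (Real.pi / 2) * (rotM θ * g₀), hg1', hg2', ?_⟩
    rw [key _ hg1' hg2', mul_smul, ← hu, hr2, abs_of_nonneg, Real.exp_log (inv_pos.2 (im_pos _))]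
    exact Real.log_nonneg (by rw [one_le_inv₀ (im_pos _)]; exact h)

end

end Pool.Agent.H369R2
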