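import Pool.Agent.H369R2.G2

/-! # Size of balls and of `ρ` -/

open UpperHalfPlane MeasureTheory Metric ModularGroup CongruenceSubgroup
open scoped MatrixGroups ENNReal Modular Topology NNReal

set_option linter.unusedSimpArgs false

namespace Pool.Agent.H369R2

noncomputable section

lemma lint_H (f : ℝ × ℝ → ℝ≥0∞) (hf : Measurable f) :
    ∫⁻ z : ℍ, f (z.re, z.im) =
      ∫⁻ p : ℝ × ℝ in {p | 0 < p.2}, ENNReal.ofReal (1 / p.2 ^ 2) * f p := by
  have hmp : MeasurePreserving UpperHalfPlane.coe (volume.comap UpperHalfPlane.coe)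
      (volume.restrict (.range UpperHalfPlane.coe)) :=
    ⟨measurable_coe, by rw [measurableEmbedding_coe.map_comap]⟩
  have hr : Set.range UpperHalfPlane.coe = {w : ℂ | 0 < w.im} := by
    ext w
    constructor
    · rintro ⟨z, rfl⟩; exact z.im_pos
    · intro h; exact ⟨⟨w, h⟩, rfl⟩
  let G : ℂ → ℝ≥0∞ := fun w => ENNReal.ofReal (1 / w.im ^ 2) * f (w.re, w.im)
  have hG : Measurable G := by
    refine Measurable.mul ?_ ?_
    · exact (measurable_const.div (Complex.measurable_im.pow_const 2)).ennreal_ofReal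
    · exact hf.comp (Complex.measurable_re.prodMk Complex.measurable_im)
  have h1 : ∫⁻ z : ℍ, f (z.re, z.im) = ∫⁻ z : ℍ, G z ∂(volume.comap UpperHalfPlane.coe) := by
    rw [volume_def, lintegral_withDensity_eq_lintegral_mul]
    · apply lintegral_congr
      intro z
      simp only [G, Pi.mul_apply, coe_re, coe_im]
      congr 1
      rw [ENNReal.ofReal, ENNReal.coe_inj]
      ext
      have := z.im_pos
      rw [Real.coe_toNNReal _ (by positivity)]
      simp
    · have : Measurable fun z : ℍ => ((1 / NNReal.mk z.im z.im_pos.le : ℝ≥0) ^ 2) := by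
        apply Continuous.measurable
        refine .pow (.div₀ continuous_const ?_ ?_) _
        · exact continuous_im.subtype_mk _
        · exact fun x ↦ NNReal.ne_iff.mp x.im_ne_zero
      exact this.coe_nnreal_ennreal
    · exact hf.comp (continuous_re.measurable.prodMk continuous_im.measurable)
  rw [h1, hmp.lintegral_comp hG, hr]
  have h2 := (Complex.volume_preserving_equiv_real_prod.symm).setLIntegral_comp_preimage_emb
    Complex.measurableEquivRealProd.symm.measurableEmbedding G {w : ℂ | 0 < w.im}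
  rw [← h2]
  rfl

lemma two_cosh_ge (R : ℝ) : Real.exp R ≤ 2 * Real.cosh R := by
  rw [Real.cosh_eq]; have := Real.exp_pos (-R); linarith

lemma mem_ball_I (R : ℝ) (hR : 0 ≤ R) (z : ℍ) : z ∈ closedBall (I : ℍ) R ↔
    z.re ^ 2 + z.im ^ 2 + 1 ≤ 2 * z.im * Real.cosh R := by
  rw [mem_closedBall]
  have h := cosh_dist' z I
  have h2 : dist z I ≤ R ↔ Real.cosh (dist z I) ≤ Real.cosh R := by
    rw [Real.cosh_le_cosh, abs_of_nonneg dist_nonneg, abs_of_nonneg hR]
  rw [h2, h]
  have hz := z.im_pos
  simp only [I_re, I_im, sub_zero, one_pow, mul_one]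
  rw [div_le_iff₀ (by positivity)]
  constructor <;> intro h <;> nlinarith

lemma bv_lower {R : ℝ} (hR : 3 ≤ R) : Real.exp R / 8 ≤ bv R := by
  have hfin := vol_ball_ne_top R I
  rw [bv, ← ENNReal.ofReal_le_iff_le_toReal hfin]
  -- the rectangle
  set a : ℝ := 4 * Real.exp (-R) with ha
  have ha0 : 0 < a := by positivity
  have hexp : Real.exp R * Real.exp (-R) = 1 := by rw [← Real.exp_add]; simp
  have hsmall : Real.exp (-R) ≤ 1 / 8 := by
    rw [Real.exp_neg, inv_le_comm₀ (Real.exp_pos _) (by norm_num)]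
    have : (8 : ℝ) ≤ Real.exp 3 := by
      have := Real.exp_one_gt_d9
      have h3 : Real.exp 3 = Real.exp 1 ^ 3 := by rw [← Real.exp_nat_mul]; norm_num
      rw [h3]
      have h4 : (2.7 : ℝ) ^ 3 ≤ Real.exp 1 ^ 3 := pow_le_pow_left₀ (by norm_num) (by linarith) 3
      norm_num at h4 ⊢
      linarith
    have h5 := Real.exp_le_exp.2 hR
    norm_num
    linarith
  let Q : Set (ℝ × ℝ) := Set.Icc (-1) 1 ×ˢ Set.Icc a (2 * a)
  have hQ : MeasurableSet Q := measurableSet_Icc.prod measurableSet_Icc
  have h1 : volume (closedBall (I : ℍ) R) = ∫⁻ z : ℍ, (closedBall (I : ℍ) R).indicator 1 z := by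
    rw [lintegral_indicator isClosed_closedBall.measurableSet]; simp
  have h2 : ∫⁻ z : ℍ, Q.indicator 1 (z.re, z.im) ≤ ∫⁻ z : ℍ, (closedBall (I : ℍ) R).indicator 1 z := by
    apply lintegral_mono
    intro z
    by_cases hz : (z.re, z.im) ∈ Q
    · have hz' : z ∈ closedBall (I : ℍ) R := by
        rw [mem_ball_I R (by linarith)]
        obtain ⟨⟨h3, h4⟩, h5, h6⟩ := hz
        simp only at h3 h4 h5 h6
        have h7 : z.re ^ 2 ≤ 1 := by nlinarith
        have h8 : z.im ≤ 1 := by rw [ha] at h6; linarith
        have h9 : z.im ^ 2 ≤ 1 := by nlinarith [z.im_pos]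
        have h10 := two_cosh_ge R
        have h11 : 4 ≤ z.im * Real.exp R := by
          calc (4 : ℝ) = a * Real.exp R := by rw [ha]; linear_combination (-4) * hexp
            _ ≤ z.im * Real.exp R := mul_le_mul_of_nonneg_right h5 (Real.exp_pos R).le
        have h12 : z.im * Real.exp R ≤ z.im * (2 * Real.cosh R) :=
          mul_le_mul_of_nonneg_left h10 z.im_pos.le
        linarith
      rw [Set.indicator_of_mem hz']
      simp only
      rw [Set.indicator_of_mem hz]
      simp
    · simp [Set.indicator_of_notMem hz]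
  rw [h1]
  refine le_trans ?_ h2
  rw [lint_H _ (measurable_one.indicator hQ)]
  have h3 : ∀ p : ℝ × ℝ, ENNReal.ofReal (1 / (2 * a) ^ 2) * Q.indicator 1 p ≤
      ENNReal.ofReal (1 / p.2 ^ 2) * Q.indicator 1 p := by
    intro p
    by_cases hp : p ∈ Q
    · gcongr
      · have := hp.2.1; have : 0 < p.2 := lt_of_lt_of_le ha0 this
        positivity
      · exact (lt_of_lt_of_le ha0 hp.2.1).le
      · exact hp.2.2
    · simp [Set.indicator_of_notMem hp]
  have h4 : ∫⁻ p : ℝ × ℝ in {p | 0 < p.2}, ENNReal.ofReal (1 / (2 * a) ^ 2) * Q.indicator 1 p =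
      ENNReal.ofReal (1 / (2 * a) ^ 2) * volume Q := by
    rw [lintegral_const_mul _ (measurable_one.indicator hQ), lintegral_indicator hQ]
    congr 1
    simp only [Pi.one_apply, lintegral_one]
    rw [Measure.restrict_restrict hQ, Measure.restrict_apply MeasurableSet.univ, Set.univ_inter]
    congr 1
    ext p
    simp only [Set.mem_inter_iff, Set.mem_ofPred_eq, and_iff_left_iff_imp]
    intro hp
    exact lt_of_lt_of_le ha0 hp.2.1
  refine le_trans ?_ (setLIntegral_mono' (measurableSet_lt measurable_const measurable_snd) fun p _ => h3 p)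
  rw [h4]
  have h5 : volume Q = ENNReal.ofReal (2 * a) := by
    rw [Measure.volume_eq_prod, Measure.prod_prod, Real.volume_Icc, Real.volume_Icc,
      ← ENNReal.ofReal_mul (by norm_num)]
    congr 1; ring
  rw [h5, ← ENNReal.ofReal_mul (by positivity)]
  apply ENNReal.ofReal_le_ofReal
  rw [div_mul_eq_mul_div, one_mul, le_div_iff₀ (by positivity), ha]
  have : Real.exp R * (Real.exp (-R)) ^ 2 = Real.exp (-R) := by
    rw [pow_two, ← mul_assoc, hexp, one_mul]
  nlinarith [this]

/-- upper bound for `ρ` -/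
lemma rhoE_le {R : ℝ} (hR : 3 ≤ R) :
    rhoE R ≤ ENNReal.ofReal (46 * R * Real.exp (-(R / 2))) := by
  have hexp : Real.exp R * Real.exp (-R) = 1 := by rw [← Real.exp_add]; simp
  have hcosh : 0 < Real.cosh R := Real.cosh_pos R
  have hcosh2 : Real.cosh R ≤ Real.exp R := by
    rw [Real.cosh_eq]
    have : Real.exp (-R) ≤ Real.exp R := Real.exp_le_exp.2 (by linarith)
    linarith
  -- the numerator
  have hnum : ∫⁻ w in closedBall (I : ℍ) R, PP 1 w ≤
      ENNReal.ofReal (2 * √(2 * Real.cosh R) * (2 * R)) := by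
    let f : ℝ × ℝ → ℝ≥0∞ := fun p =>
      (Set.Icc (Real.exp (-R)) (Real.exp R)).indicator 1 p.2 *
        ({p : ℝ × ℝ | p.1 ^ 2 ≤ 2 * p.2 * Real.cosh R}.indicator 1 p * ENNReal.ofReal (√p.2))
    have hS : MeasurableSet {p : ℝ × ℝ | p.1 ^ 2 ≤ 2 * p.2 * Real.cosh R} := by
      apply measurableSet_le <;> fun_prop
    have hf : Measurable f := by
      refine Measurable.mul ?_ (Measurable.mul ?_ ?_)
      · exact (measurable_one.indicator measurableSet_Icc).comp measurable_snd
      · exact measurable_one.indicator hS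
      · exact measurable_snd.sqrt.ennreal_ofReal
    have h1 : ∫⁻ w in closedBall (I : ℍ) R, PP 1 w ≤ ∫⁻ z : ℍ, f (z.re, z.im) := by
      rw [← lintegral_indicator isClosed_closedBall.measurableSet]
      apply lintegral_mono
      intro z
      by_cases hz : z ∈ closedBall (I : ℍ) R
      · rw [Set.indicator_of_mem hz]
        have hz' := (mem_ball_I R (by linarith) z).1 hz
        have h3 : z.im ∈ Set.Icc (Real.exp (-R)) (Real.exp R) := by
          rw [mem_closedBall] at hz
          have h4 := im_le_im_mul_exp_dist z I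
          have h5 := im_le_im_mul_exp_dist I z
          rw [dist_comm I z] at h5
          simp only [I_im, one_mul] at h4 h5
          have h6 : Real.exp (dist z I) ≤ Real.exp R := Real.exp_le_exp.2 hz
          constructor
          · rw [Real.exp_neg, inv_le_iff_one_le_mul₀ (Real.exp_pos R)]
            nlinarith [z.im_pos]
          · linarith
        have h7 : (z.re, z.im) ∈ {p : ℝ × ℝ | p.1 ^ 2 ≤ 2 * p.2 * Real.cosh R} := by
          simp only [Set.mem_ofPred_eq]
          nlinarith [z.im_pos]
        simp only [f]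
        rw [Set.indicator_of_mem h3, Set.indicator_of_mem h7]
        simp [PP]
      · rw [Set.indicator_of_notMem hz]; exact zero_le
    refine h1.trans ?_
    rw [lint_H f hf]
    have h2 : ∀ p : ℝ × ℝ, p ∈ {p : ℝ × ℝ | 0 < p.2} →
        ENNReal.ofReal (1 / p.2 ^ 2) * f p ≤
        (Set.Icc (Real.exp (-R)) (Real.exp R)).indicator 1 p.2 *
        ({p : ℝ × ℝ | p.1 ^ 2 ≤ 2 * p.2 * Real.cosh R}.indicator 1 p * ENNReal.ofReal (√p.2 / p.2 ^ 2)) := by
      intro p hp
      simp only [Set.mem_ofPred_eq] at hp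
      simp only [f]
      rw [div_eq_mul_inv (√p.2), ENNReal.ofReal_mul (Real.sqrt_nonneg _), one_div]
      apply le_of_eq
      ring
    refine (setLIntegral_mono' (measurableSet_lt measurable_const measurable_snd) h2).trans ?_
    refine (setLIntegral_le_lintegral _ _).trans ?_
    rw [Measure.volume_eq_prod, lintegral_prod_symm]
    swap
    · apply Measurable.aemeasurable
      refine Measurable.mul ?_ (Measurable.mul ?_ ?_)
      · exact (measurable_one.indicator measurableSet_Icc).comp measurable_snd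
      · exact measurable_one.indicator hS
      · exact (measurable_snd.sqrt.div (measurable_snd.pow_const 2)).ennreal_ofReal
    have h3 : ∀ y : ℝ, ∫⁻ x : ℝ, (Set.Icc (Real.exp (-R)) (Real.exp R)).indicator 1 (x, y).2 *
        ({p : ℝ × ℝ | p.1 ^ 2 ≤ 2 * p.2 * Real.cosh R}.indicator 1 (x, y) *
          ENNReal.ofReal (√(x, y).2 / (x, y).2 ^ 2)) ≤
        (Set.Icc (Real.exp (-R)) (Real.exp R)).indicator
          (fun y => ENNReal.ofReal (2 * √(2 * Real.cosh R) * y⁻¹)) y := by
      intro y
      by_cases hy : y ∈ Set.Icc (Real.exp (-R)) (Real.exp R)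
      · have hy0 : 0 < y := lt_of_lt_of_le (Real.exp_pos _) hy.1
        simp only [Set.indicator_of_mem hy, Pi.one_apply, one_mul]
        have h4 : ∀ x : ℝ, {p : ℝ × ℝ | p.1 ^ 2 ≤ 2 * p.2 * Real.cosh R}.indicator (1 : ℝ × ℝ → ℝ≥0∞) (x, y) =
            (Set.Icc (-√(2 * y * Real.cosh R)) (√(2 * y * Real.cosh R))).indicator 1 x := by
          intro x
          have : (x, y) ∈ {p : ℝ × ℝ | p.1 ^ 2 ≤ 2 * p.2 * Real.cosh R} ↔
              x ∈ Set.Icc (-√(2 * y * Real.cosh R)) (√(2 * y * Real.cosh R)) := by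
            simp only [Set.mem_ofPred_eq, Set.mem_Icc]
            rw [← abs_le, Real.le_sqrt (abs_nonneg x) (by positivity), sq_abs]
          by_cases h5 : (x, y) ∈ {p : ℝ × ℝ | p.1 ^ 2 ≤ 2 * p.2 * Real.cosh R}
          · rw [Set.indicator_of_mem h5, Set.indicator_of_mem (this.1 h5)]; rfl
          · rw [Set.indicator_of_notMem h5, Set.indicator_of_notMem (fun h => h5 (this.2 h))]
        simp only [h4]
        rw [lintegral_mul_const _ (measurable_one.indicator measurableSet_Icc),
          lintegral_indicator measurableSet_Icc]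
        simp only [Pi.one_apply, lintegral_one, Measure.restrict_apply_univ, Real.volume_Icc]
        rw [← ENNReal.ofReal_mul (by linarith [Real.sqrt_nonneg (2 * y * Real.cosh R)])]
        apply ENNReal.ofReal_le_ofReal
        apply le_of_eq
        rw [show 2 * y * Real.cosh R = (2 * Real.cosh R) * y by ring,
          Real.sqrt_mul (by positivity)]
        have h6 : √y * √y = y := Real.mul_self_sqrt hy0.le
        field_simp
        rw [show √y ^ 2 = y by rw [pow_two, h6]]
        ring
      · simp only [Set.indicator_of_notMem hy, zero_mul, lintegral_zero, le_refl]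
    refine (lintegral_mono h3).trans ?_
    rw [lintegral_indicator measurableSet_Icc]
    have h7 : ∀ y ∈ Set.Icc (Real.exp (-R)) (Real.exp R), 0 < y := fun y hy =>
      lt_of_lt_of_le (Real.exp_pos _) hy.1
    have hcont : ContinuousOn (fun y : ℝ => 2 * √(2 * Real.cosh R) * y⁻¹)
        (Set.Icc (Real.exp (-R)) (Real.exp R)) :=
      continuousOn_const.mul (continuousOn_inv₀.mono fun y hy => (h7 y hy).ne')
    rw [← ofReal_integral_eq_lintegral_ofReal hcont.integrableOn_Icc
      ((ae_restrict_iff' measurableSet_Icc).2 (.of_forall fun y hy => by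
        have := h7 y hy; positivity))]
    apply ENNReal.ofReal_le_ofReal
    have hle : Real.exp (-R) ≤ Real.exp R := Real.exp_le_exp.2 (by linarith)
    rw [integral_Icc_eq_integral_Ioc, ← intervalIntegral.integral_of_le hle,
      intervalIntegral.integral_const_mul, integral_inv_of_pos (Real.exp_pos _) (Real.exp_pos _)]
    rw [← Real.exp_sub, Real.log_exp]
    apply le_of_eq; ring
  unfold rhoE Ap
  have hbv := bv_lower hR
  have hbvpos : 0 < bv R := bv_pos (by linarith)
  calc (ENNReal.ofReal (bv R))⁻¹ * ∫⁻ w in closedBall (I : ℍ) R, PP 1 w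
      ≤ (ENNReal.ofReal (bv R))⁻¹ * ENNReal.ofReal (2 * √(2 * Real.cosh R) * (2 * R)) := by gcongr
    _ = ENNReal.ofReal ((bv R)⁻¹ * (2 * √(2 * Real.cosh R) * (2 * R))) := by
        rw [← ENNReal.ofReal_inv_of_pos hbvpos, ← ENNReal.ofReal_mul (inv_pos.2 hbvpos).le]
    _ ≤ ENNReal.ofReal (46 * R * Real.exp (-(R / 2))) := by
        apply ENNReal.ofReal_le_ofReal
        have h1 : (bv R)⁻¹ ≤ 8 * Real.exp (-R) := by
          rw [Real.exp_neg, ← div_eq_mul_inv, inv_le_comm₀ hbvpos (by positivity), inv_div]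
          linarith
        have h2 : √(2 * Real.cosh R) ≤ √2 * Real.exp (R / 2) := by
          rw [Real.sqrt_mul (by norm_num)]
          gcongr
          calc √(Real.cosh R) ≤ √(Real.exp R) := Real.sqrt_le_sqrt hcosh2
            _ = Real.exp (R / 2) := by
              rw [show Real.exp R = Real.exp (R / 2) ^ 2 by
                rw [← Real.exp_nat_mul]; congr 1; push_cast; ring]
              exact Real.sqrt_sq (Real.exp_pos _).le
        have h3 : √2 ≤ 1.4143 := by
          rw [Real.sqrt_le_left (by norm_num)]; norm_num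
        have h4 : Real.exp (-R) * Real.exp (R / 2) = Real.exp (-(R / 2)) := by
          rw [← Real.exp_add]; congr 1; ring
        calc (bv R)⁻¹ * (2 * √(2 * Real.cosh R) * (2 * R))
            ≤ (8 * Real.exp (-R)) * (2 * (√2 * Real.exp (R / 2)) * (2 * R)) := by gcongr
          _ = 32 * √2 * R * (Real.exp (-R) * Real.exp (R / 2)) := by ring
          _ = 32 * √2 * R * Real.exp (-(R / 2)) := by rw [h4]
          _ ≤ 46 * R * Real.exp (-(R / 2)) := by
            gcongr
            linarith

end

end Pool.Agent.H369R2
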