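import Pool.Agent.H369R2.G3

/-! # The iterated kernels -/

open UpperHalfPlane MeasureTheory Metric ModularGroup CongruenceSubgroup
open scoped MatrixGroups ENNReal Modular Topology NNReal

set_option linter.unusedSimpArgs false

namespace Pool.Agent.H369R2

noncomputable section

/-- normalised indicator function of the ball -/
def bz (R : ℝ) (z w : ℍ) : ℝ≥0∞ := (ENNReal.ofReal (bv R))⁻¹ * (closedBall z R).indicator 1 w

lemma bz_symm (R : ℝ) (z w : ℍ) : bz R z w = bz R w z := by
  unfold bz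
  congr 1
  by_cases h : dist z w ≤ R
  · rw [Set.indicator_of_mem (by rwa [mem_closedBall, dist_comm]),
      Set.indicator_of_mem (by rwa [mem_closedBall])]; rfl
  · rw [Set.indicator_of_notMem (by rwa [mem_closedBall, dist_comm]),
      Set.indicator_of_notMem (by rwa [mem_closedBall])]

lemma measurable_bz2 (R : ℝ) : Measurable (fun p : ℍ × ℍ => bz R p.1 p.2) := by
  have h : (fun p : ℍ × ℍ => bz R p.1 p.2) = fun p => (ENNReal.ofReal (bv R))⁻¹ *
      {p : ℍ × ℍ | dist p.2 p.1 ≤ R}.indicator 1 p := by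
    ext p
    unfold bz
    congr 1
  rw [h]
  refine Measurable.const_mul (measurable_one.indicator ?_) _
  exact measurableSet_le (continuous_snd.dist continuous_fst).measurable measurable_const

lemma measurable_bz (R : ℝ) (z : ℍ) : Measurable (bz R z) := by
  unfold bz
  exact Measurable.const_mul (measurable_one.indicator isClosed_closedBall.measurableSet) _

lemma inv_bv_ne_top {R : ℝ} (hR : 0 < R) : (ENNReal.ofReal (bv R))⁻¹ ≠ ∞ := by
  simp [bv_pos hR]

lemma Ap_eq {R : ℝ} (hR : 0 < R) (f : ℍ → ℝ≥0∞) (z : ℍ) : Ap R f z = ∫⁻ w, bz R z w * f w := by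
  have h2 : ∀ w, bz R z w * f w =
      (ENNReal.ofReal (bv R))⁻¹ * (closedBall z R).indicator f w := by
    intro w
    by_cases h : w ∈ closedBall z R
    · rw [bz, Set.indicator_of_mem h, Set.indicator_of_mem h, Pi.one_apply, mul_one]
    · rw [bz, Set.indicator_of_notMem h, Set.indicator_of_notMem h, mul_zero, zero_mul]
  rw [Ap, ← lintegral_indicator isClosed_closedBall.measurableSet,
    ← lintegral_const_mul' _ _ (inv_bv_ne_top hR)]
  exact (lintegral_congr h2).symm

lemma measurable_Ap {R : ℝ} (hR : 0 < R) {f : ℍ → ℝ≥0∞} (hf : Measurable f) :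
    Measurable (Ap R f) := by
  have h : Ap R f = fun z => ∫⁻ w, bz R z w * f w := funext fun z => Ap_eq hR f z
  rw [h]
  exact Measurable.lintegral_prod_right' (f := fun p : ℍ × ℍ => bz R p.1 p.2 * f p.2)
    ((measurable_bz2 R).mul (hf.comp measurable_snd))

lemma lint_Ap_mul {R : ℝ} (hR : 0 < R) {f g : ℍ → ℝ≥0∞} (hf : Measurable f) (hg : Measurable g) :
    ∫⁻ z, Ap R f z * g z = ∫⁻ z, f z * Ap R g z := by
  have h1 : ∫⁻ z, Ap R f z * g z = ∫⁻ z, ∫⁻ w, bz R z w * f w * g z := by
    apply lintegral_congr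
    intro z
    rw [Ap_eq hR, lintegral_mul_const]
    exact (measurable_bz R z).mul hf
  have h2 : ∫⁻ z, f z * Ap R g z = ∫⁻ z, ∫⁻ w, f z * (bz R z w * g w) := by
    apply lintegral_congr
    intro z
    rw [Ap_eq hR, lintegral_const_mul]
    exact (measurable_bz R z).mul hg
  rw [h1, h2, lintegral_lintegral_swap]
  · apply lintegral_congr
    intro z
    apply lintegral_congr
    intro w
    rw [bz_symm]
    ring
  · apply Measurable.aemeasurable
    exact ((measurable_bz2 R).mul (hf.comp measurable_snd)).mul (hg.comp measurable_fst)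

lemma Ap_mono (R : ℝ) {f g : ℍ → ℝ≥0∞} (h : ∀ z, f z ≤ g z) (z : ℍ) : Ap R f z ≤ Ap R g z := by
  unfold Ap
  gcongr
  exact h _

lemma measurable_iter {R : ℝ} (hR : 0 < R) {f : ℍ → ℝ≥0∞} (hf : Measurable f) (m : ℕ) :
    Measurable ((Ap R)^[m] f) := by
  induction m with
  | zero => exact hf
  | succ m ih => rw [Function.iterate_succ_apply']; exact measurable_Ap hR ih

lemma lint_iter_mul {R : ℝ} (hR : 0 < R) {f g : ℍ → ℝ≥0∞} (hf : Measurable f) (hg : Measurable g)
    (m : ℕ) : ∫⁻ z, (Ap R)^[m] f z * g z = ∫⁻ z, f z * (Ap R)^[m] g z := by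
  induction m generalizing f with
  | zero => rfl
  | succ m ih =>
    rw [Function.iterate_succ_apply, ih (measurable_Ap hR hf), lint_Ap_mul hR hf
      (measurable_iter hR hg m), Function.iterate_succ_apply']

/-- the iterated kernel -/
def kk (R : ℝ) (m : ℕ) (w : ℍ) : ℍ → ℝ≥0∞ := (Ap R)^[m] (bz R w)

lemma measurable_kk {R : ℝ} (hR : 0 < R) (m : ℕ) (w : ℍ) : Measurable (kk R m w) :=
  measurable_iter hR (measurable_bz R w) m

lemma kk_succ (R : ℝ) (m : ℕ) (w : ℍ) : kk R (m + 1) w = Ap R (kk R m w) := by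
  unfold kk; rw [Function.iterate_succ_apply']

lemma lint_kk_mul {R : ℝ} (hR : 0 < R) (m : ℕ) (w : ℍ) {g : ℍ → ℝ≥0∞} (hg : Measurable g) :
    ∫⁻ z, kk R m w z * g z = (Ap R)^[m + 1] g w := by
  unfold kk
  rw [lint_iter_mul hR (measurable_bz R w) hg, ← Ap_eq hR, Function.iterate_succ_apply']

lemma iter_PP (R : ℝ) (g : SL(2, ℝ)) (m : ℕ) (z : ℍ) :
    (Ap R)^[m] (PP g) z = rhoE R ^ m * PP g z := by
  induction m generalizing z with
  | zero => simp
  | succ m ih =>
    rw [Function.iterate_succ_apply']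
    have : (Ap R)^[m] (PP g) = fun z => rhoE R ^ m * PP g z := funext ih
    rw [this, Ap_const_mul _ _ (measurable_PP g), Ap_PP]
    ring

lemma PP_one_I : PP 1 I = 1 := by simp [PP]

/-- the main kernel bound -/
lemma kk_le {R : ℝ} (hR : 0 < R) (m : ℕ) (w z : ℍ) :
    kk R (m + 1) w z ≤ (ENNReal.ofReal (bv R))⁻¹ * ENNReal.ofReal (Real.exp (R / 2)) *
      rhoE R ^ (m + 1) * ENNReal.ofReal (Real.exp (-(dist z w / 2))) := by
  obtain ⟨g, hg1, -, hg2⟩ := exists_align z w
  have hPw : PP g w = 1 := by rw [PP, hg1]; simp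
  have hPz : PP g z = ENNReal.ofReal (Real.exp (dist z w / 2)) := by
    rw [PP, hg2]
    congr 1
    rw [show Real.exp (dist z w) = Real.exp (dist z w / 2) ^ 2 by
      rw [← Real.exp_nat_mul]; congr 1; push_cast; ring]
    exact Real.sqrt_sq (Real.exp_pos _).le
  have hPz0 := PP_ne_zero g z
  have hPzt := PP_ne_top g z
  have h1 : PP g z * ∫⁻ ζ in closedBall z R, kk R m w ζ ≤
      ENNReal.ofReal (Real.exp (R / 2)) * rhoE R ^ (m + 1) := by
    calc PP g z * ∫⁻ ζ in closedBall z R, kk R m w ζ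
        = ∫⁻ ζ in closedBall z R, PP g z * kk R m w ζ :=
          (lintegral_const_mul _ (measurable_kk hR m w)).symm
      _ ≤ ∫⁻ ζ in closedBall z R, ENNReal.ofReal (Real.exp (R / 2)) * (kk R m w ζ * PP g ζ) := by
          refine setLIntegral_mono' isClosed_closedBall.measurableSet fun ζ hζ => ?_
          have := PP_le g (z := z) (w := ζ) (R := R) (by rwa [dist_comm])
          calc PP g z * kk R m w ζ ≤ (ENNReal.ofReal (Real.exp (R / 2)) * PP g ζ) * kk R m w ζ := by
                gcongr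
            _ = _ := by ring
      _ ≤ ∫⁻ ζ, ENNReal.ofReal (Real.exp (R / 2)) * (kk R m w ζ * PP g ζ) :=
          setLIntegral_le_lintegral _ _
      _ = ENNReal.ofReal (Real.exp (R / 2)) * ∫⁻ ζ, kk R m w ζ * PP g ζ :=
          lintegral_const_mul _ ((measurable_kk hR m w).mul (measurable_PP g))
      _ = ENNReal.ofReal (Real.exp (R / 2)) * rhoE R ^ (m + 1) := by
          rw [lint_kk_mul hR m w (measurable_PP g), iter_PP, hPw, mul_one]
  have h2 : ∫⁻ ζ in closedBall z R, kk R m w ζ ≤
      ENNReal.ofReal (Real.exp (R / 2)) * rhoE R ^ (m + 1) *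
        ENNReal.ofReal (Real.exp (-(dist z w / 2))) := by
    have h3 : (PP g z)⁻¹ = ENNReal.ofReal (Real.exp (-(dist z w / 2))) := by
      rw [hPz, ← ENNReal.ofReal_inv_of_pos (Real.exp_pos _), Real.exp_neg]
    rw [← h3, ← div_eq_mul_inv, ENNReal.le_div_iff_mul_le (Or.inl hPz0) (Or.inl hPzt), mul_comm]
    exact h1
  rw [kk_succ]
  unfold Ap
  calc _ ≤ (ENNReal.ofReal (bv R))⁻¹ * (ENNReal.ofReal (Real.exp (R / 2)) * rhoE R ^ (m + 1) *
        ENNReal.ofReal (Real.exp (-(dist z w / 2)))) := by gcongr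
    _ = _ := by ring

lemma kk_eq_zero {R : ℝ} (hR : 0 < R) (m : ℕ) (w z : ℍ) (h : (m + 1) * R < dist z w) :
    kk R m w z = 0 := by
  induction m generalizing z with
  | zero =>
    unfold kk bz
    simp only [Function.iterate_zero, id_eq]
    rw [Set.indicator_of_notMem, mul_zero]
    rw [mem_closedBall, not_le]
    simpa using h
  | succ m ih =>
    rw [kk_succ, Ap_eq hR]
    have : ∀ ζ, bz R z ζ * kk R m w ζ = 0 := by
      intro ζ
      by_cases hζ : ζ ∈ closedBall z R
      · rw [ih ζ, mul_zero]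
        rw [mem_closedBall] at hζ
        have := dist_triangle z ζ w
        rw [dist_comm z ζ] at this
        push_cast at h
        linarith
      · rw [bz, Set.indicator_of_notMem hζ]; simp
    simp [this]

lemma bz_smul (R : ℝ) (γ : SL(2, ℤ)) (w z : ℍ) : bz R (γ • w) (γ • z) = bz R w z := by
  unfold bz
  congr 1
  have : γ • z ∈ closedBall (γ • w) R ↔ z ∈ closedBall w R := by
    simp only [mem_closedBall, dist_smul_int]
  by_cases h : z ∈ closedBall w R
  · rw [Set.indicator_of_mem h, Set.indicator_of_mem (this.2 h)]; rfl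
  · rw [Set.indicator_of_notMem h, Set.indicator_of_notMem (fun h' => h (this.1 h'))]

lemma kk_smul (R : ℝ) (γ : SL(2, ℤ)) (m : ℕ) (w z : ℍ) :
    kk R m (γ • w) (γ • z) = kk R m w z := by
  induction m generalizing z with
  | zero => exact bz_smul R γ w z
  | succ m ih =>
    rw [kk_succ, kk_succ, Ap_smul_int]
    congr 1
    ext ζ
    exact ih ζ

lemma inv_bv_ne_zero (R : ℝ) : (ENNReal.ofReal (bv R))⁻¹ ≠ 0 := by simp

/-- positivity of the kernels -/
lemma kk_lower {R : ℝ} (hR : 0 < R) (m : ℕ) : ∃ η : ℝ≥0∞, η ≠ 0 ∧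
    ∀ w z : ℍ, dist z w ≤ R + m * (R / 2) → η ≤ kk R m w z := by
  induction m with
  | zero =>
    refine ⟨(ENNReal.ofReal (bv R))⁻¹, inv_bv_ne_zero R, fun w z h => ?_⟩
    unfold kk bz
    simp only [Function.iterate_zero, id_eq]
    rw [Set.indicator_of_mem (by rw [mem_closedBall]; simpa using h)]
    simp
  | succ m ih =>
    obtain ⟨η, hη, ih⟩ := ih
    have hb : 0 < bv (R / 4) := bv_pos (by linarith)
    refine ⟨(ENNReal.ofReal (bv R))⁻¹ * (η * ENNReal.ofReal (bv (R / 4))), ?_, fun w z h => ?_⟩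
    · refine mul_ne_zero (inv_bv_ne_zero R) (mul_ne_zero hη ?_)
      simpa using hb
    push_cast at h
    -- a point z₁ with dist z z₁ ≤ 3R/4 and dist z₁ w ≤ R / 2 + (m+...) ...
    have hz1 : ∃ z₁ : ℍ, dist z z₁ ≤ 3 * R / 4 ∧ dist z₁ w ≤ max 0 (dist z w - 3 * R / 4) := by
      obtain ⟨g, hg1, hg2, hg3⟩ := exists_align w z
      -- g z = I, g w = i e^{d}
      set d := dist w z with hd
      have hd0 : 0 ≤ d := dist_nonneg
      let t : ℝ := min d (3 * R / 4)
      have ht0 : 0 ≤ t := le_min hd0 (by linarith)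
      let ζ : ℍ := ⟨⟨0, Real.exp t⟩, Real.exp_pos t⟩
      have hζre : ζ.re = 0 := rfl
      have hζim : ζ.im = Real.exp t := rfl
      refine ⟨g⁻¹ • ζ, ?_, ?_⟩
      · rw [← dist_smul g, smul_inv_smul, hg1, dist_of_re_eq (by rw [hζre]; simp), hζim]
        simp only [I_im, Real.log_one, Real.log_exp, Real.dist_eq, zero_sub, abs_neg]
        rw [abs_of_nonneg ht0]
        exact min_le_right _ _
      · rw [← dist_smul g, smul_inv_smul, dist_of_re_eq (by rw [hζre, hg2]), hζim, hg3]
        simp only [Real.log_exp, Real.dist_eq]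
        rw [abs_sub_comm, abs_of_nonneg (by simp only [t]; linarith [min_le_left d (3 * R / 4)])]
        rw [dist_comm z w, ← hd]
        simp only [t]
        rcases le_total d (3 * R / 4) with h' | h'
        · rw [min_eq_left h']; simp
        · rw [min_eq_right h']; exact le_max_right _ _
    obtain ⟨z₁, h1, h2⟩ := hz1
    rw [kk_succ]
    unfold Ap
    gcongr
    calc η * ENNReal.ofReal (bv (R / 4)) = ∫⁻ ζ in closedBall z₁ (R / 4), η := by
          rw [setLIntegral_const, vol_eq]
      _ ≤ ∫⁻ ζ in closedBall z₁ (R / 4), kk R m w ζ := by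
          refine setLIntegral_mono' isClosed_closedBall.measurableSet fun ζ hζ => ih w ζ ?_
          rw [mem_closedBall] at hζ
          have h3 := dist_triangle ζ z₁ w
          have h4 : max 0 (dist z w - 3 * R / 4) ≤ R + m * (R / 2) - R / 4 := by
            apply max_le
            · have : (0 : ℝ) ≤ m := Nat.cast_nonneg m
              nlinarith
            · linarith
          linarith
      _ ≤ ∫⁻ ζ in closedBall z R, kk R m w ζ := by
          refine lintegral_mono_set ?_
          intro ζ hζ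
          rw [mem_closedBall] at hζ ⊢
          have h3 := dist_triangle ζ z₁ z
          rw [dist_comm z₁ z] at h3
          linarith

end

end Pool.Agent.H369R2
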