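import Pool.Agent.H369R2.LevelA

/-! # The spectral gap at a fixed level -/

open UpperHalfPlane MeasureTheory Metric ModularGroup CongruenceSubgroup
open scoped MatrixGroups ENNReal Modular Topology NNReal ComplexConjugate

namespace Pool.Agent.H369R2

noncomputable section

lemma norm_sub_sq_expand (a b : ℂ) :
    ‖a - b‖ ^ 2 = ‖a‖ ^ 2 + ‖b‖ ^ 2 - 2 * (conj a * b).re := by
  rw [← Complex.normSq_eq_norm_sq, ← Complex.normSq_eq_norm_sq, ← Complex.normSq_eq_norm_sq]
  simp only [Complex.normSq_apply, Complex.sub_re, Complex.sub_im, Complex.mul_re, Complex.conj_re,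
    Complex.conj_im]
  ring

section var

variable {μ : Measure ℍ} [IsFiniteMeasure μ] {u : ℍ → ℂ}

lemma var_inner (hu : Measurable u) {C : ℝ} (hC : ∀ z, ‖u z‖ ≤ C) (z : ℍ) :
    ∫ w, ‖u z - u w‖ ^ 2 ∂μ =
      ‖u z‖ ^ 2 * μ.real Set.univ + ∫ w, ‖u w‖ ^ 2 ∂μ - 2 * (conj (u z) * ∫ w, u w ∂μ).re := by
  have hi : Integrable u μ := Integrable.of_bound (C := C) hu.aestronglyMeasurable (.of_forall hC)
  have hi2 : Integrable (fun w => ‖u w‖ ^ 2) μ := by
    refine Integrable.of_bound (C := C ^ 2) (hu.norm.pow_const 2).aestronglyMeasurable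
      (.of_forall fun w => ?_)
    rw [Real.norm_of_nonneg (by positivity)]
    exact pow_le_pow_left₀ (norm_nonneg _) (hC w) 2
  have hi3 : Integrable (fun w => conj (u z) * u w) μ := hi.const_mul _
  have h1 : ∀ w, ‖u z - u w‖ ^ 2 = ‖u z‖ ^ 2 + ‖u w‖ ^ 2 - 2 * (conj (u z) * u w).re :=
    fun w => norm_sub_sq_expand _ _
  have h2 : ∫ w, (conj (u z) * u w).re ∂μ = (conj (u z) * ∫ w, u w ∂μ).re := by
    rw [← integral_const_mul]
    exact integral_re hi3
  have hA : Integrable (fun w => ‖u z‖ ^ 2 + ‖u w‖ ^ 2) μ := (integrable_const _).add hi2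
  have hB : Integrable (fun w => 2 * (conj (u z) * u w).re) μ := hi3.re.const_mul 2
  simp_rw [h1]
  rw [integral_sub hA hB, integral_add (integrable_const _) hi2, integral_const,
    integral_const_mul, h2]
  simp only [smul_eq_mul]
  ring

lemma var_outer (hu : Measurable u) {C : ℝ} (hC : ∀ z, ‖u z‖ ≤ C) :
    ∫ z, ∫ w, ‖u z - u w‖ ^ 2 ∂μ ∂μ =
      2 * μ.real Set.univ * ∫ w, ‖u w‖ ^ 2 ∂μ - 2 * ‖∫ w, u w ∂μ‖ ^ 2 := by
  have hi : Integrable u μ := Integrable.of_bound (C := C) hu.aestronglyMeasurable (.of_forall hC)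
  have hi2 : Integrable (fun w => ‖u w‖ ^ 2) μ := by
    refine Integrable.of_bound (C := C ^ 2) (hu.norm.pow_const 2).aestronglyMeasurable
      (.of_forall fun w => ?_)
    rw [Real.norm_of_nonneg (by positivity)]
    exact pow_le_pow_left₀ (norm_nonneg _) (hC w) 2
  simp_rw [var_inner hu hC]
  set J := ∫ w, u w ∂μ with hJ
  have hi3 : Integrable (fun w => conj (u w) * J) μ := by
    refine Integrable.mul_const ?_ _
    exact (LinearIsometryEquiv.integrable_comp_iff Complex.conjLIE).2 hi
  have h2 : ∫ w, (conj (u w) * J).re ∂μ = ‖J‖ ^ 2 := by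
    have h3 : ∫ w, (conj (u w) * J).re ∂μ = (∫ w, conj (u w) * J ∂μ).re := integral_re hi3
    rw [h3, integral_mul_const, integral_conj, ← hJ, ← Complex.normSq_eq_conj_mul_self,
      Complex.ofReal_re, Complex.normSq_eq_norm_sq]
  have hA : Integrable (fun z => ‖u z‖ ^ 2 * μ.real Set.univ + ∫ w, ‖u w‖ ^ 2 ∂μ) μ :=
    (hi2.mul_const _).add (integrable_const _)
  have hB : Integrable (fun z => 2 * (conj (u z) * J).re) μ := hi3.re.const_mul 2
  rw [integral_sub hA hB,
    integral_add (hi2.mul_const _) (integrable_const _), integral_const, integral_mul_const,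
    integral_const_mul, h2]
  simp only [smul_eq_mul]
  ring

lemma norm_sub_sq_le {C : ℝ} (hC : ∀ z, ‖u z‖ ≤ C) (z w : ℍ) : ‖u z - u w‖ ^ 2 ≤ (2 * C) ^ 2 := by
  refine pow_le_pow_left₀ (norm_nonneg _) ?_ 2
  have := norm_sub_le (u z) (u w)
  have h1 := hC z
  have h2 := hC w
  linarith

lemma lint_FD (hu : Measurable u) {C : ℝ} (hC : ∀ z, ‖u z‖ ≤ C) :
    ∫⁻ z, ∫⁻ w, FD u z w ∂μ ∂μ = ENNReal.ofReal (∫ z, ∫ w, ‖u z - u w‖ ^ 2 ∂μ ∂μ) := by
  have h1 : ∀ z, ∫⁻ w, FD u z w ∂μ = ENNReal.ofReal (∫ w, ‖u z - u w‖ ^ 2 ∂μ) := by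
    intro z
    rw [ofReal_integral_eq_lintegral_ofReal]
    · rfl
    · refine Integrable.of_bound (C := (2 * C) ^ 2)
        ((measurable_const.sub hu).norm.pow_const 2).aestronglyMeasurable (.of_forall fun w => ?_)
      rw [Real.norm_of_nonneg (by positivity)]
      exact norm_sub_sq_le hC z w
    · exact .of_forall fun w => by positivity
  simp_rw [h1]
  rw [ofReal_integral_eq_lintegral_ofReal]
  · have hm : Measurable (fun p : ℍ × ℍ => ‖u p.1 - u p.2‖ ^ 2) :=
      ((hu.comp measurable_fst).sub (hu.comp measurable_snd)).norm.pow_const 2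
    refine Integrable.of_bound (C := (2 * C) ^ 2 * μ.real Set.univ)
      (hm.stronglyMeasurable.integral_prod_right').aestronglyMeasurable (.of_forall fun z => ?_)
    refine norm_integral_le_of_norm_le_const (.of_forall fun w => ?_)
    rw [Real.norm_of_nonneg (by positivity)]
    exact norm_sub_sq_le hC z w
  · exact .of_forall fun z => integral_nonneg fun w => by positivity

end var

lemma Ap_ofReal {R : ℝ} (hR : 0 < R) {f : ℍ → ℝ} (hf : Measurable f) {C : ℝ}
    (h0 : ∀ z, 0 ≤ f z) (hC : ∀ z, f z ≤ C) (z : ℍ) :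
    Ap R (fun w => ENNReal.ofReal (f w)) z = ENNReal.ofReal (Av R f z) := by
  unfold Ap Av
  have hint : IntegrableOn f (closedBall z R) := by
    refine Measure.integrableOn_of_bounded (M := C) (vol_ball_ne_top R z) hf.aestronglyMeasurable ?_
    exact .of_forall fun w => by rw [Real.norm_of_nonneg (h0 w)]; exact hC w
  rw [← ofReal_integral_eq_lintegral_ofReal hint (.of_forall h0), smul_eq_mul,
    ENNReal.ofReal_mul (inv_nonneg.2 (bv_nonneg R)), ENNReal.ofReal_inv_of_pos (bv_pos hR)]

lemma DD_zero {N : ℕ} [NeZero N] {R : ℝ} (hR : 0 < R) {u : ℍ → ℂ} (hu : Measurable u) {C : ℝ}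
    (hC : ∀ z, ‖u z‖ ≤ C) :
    DD N R u 0 = ENNReal.ofReal (∫ z, Av R (fun w => ‖u z - u w‖ ^ 2) z ∂(nu N)) := by
  have hm : Measurable (fun p : ℍ × ℍ => ‖u p.1 - u p.2‖ ^ 2) :=
    ((hu.comp measurable_fst).sub (hu.comp measurable_snd)).norm.pow_const 2
  have h1 : ∀ z, Ap R (FD u z) z = ENNReal.ofReal (Av R (fun w => ‖u z - u w‖ ^ 2) z) := by
    intro z
    exact Ap_ofReal hR ((measurable_const.sub hu).norm.pow_const 2) (fun w => by positivity)
      (fun w => norm_sub_sq_le hC z w) z
  have hAm : Measurable (fun z => Av R (fun w => ‖u z - u w‖ ^ 2) z) := by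
    unfold Av
    simp only [smul_eq_mul]
    refine Measurable.const_mul ?_ _
    have h2 : (fun z : ℍ => ∫ w in closedBall z R, ‖u z - u w‖ ^ 2) =
        fun z : ℍ => ∫ w, Set.indicator {p : ℍ × ℍ | dist p.2 p.1 ≤ R}
          (fun p => ‖u p.1 - u p.2‖ ^ 2) (z, w) := by
      ext z
      rw [← integral_indicator isClosed_closedBall.measurableSet]
      congr 1
    rw [h2]
    have h3 : Measurable (Set.indicator {p : ℍ × ℍ | dist p.2 p.1 ≤ R}
        (fun p => ‖u p.1 - u p.2‖ ^ 2)) := by
      refine hm.indicator ?_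
      exact (isClosed_le (continuous_snd.dist continuous_fst) continuous_const).measurableSet
    exact (h3.stronglyMeasurable.integral_prod_right' (ν := (volume : Measure ℍ))).measurable
  have hA0 : ∀ z, 0 ≤ Av R (fun w => ‖u z - u w‖ ^ 2) z := by
    intro z
    unfold Av
    have := bv_nonneg R
    exact mul_nonneg (inv_nonneg.2 this) (integral_nonneg fun w => by positivity)
  have hAC : ∀ z, ‖Av R (fun w => ‖u z - u w‖ ^ 2) z‖ ≤ (2 * C) ^ 2 := by
    intro z
    refine norm_Av_le (f := fun w => ‖u z - u w‖ ^ 2) (fun w => ?_) z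
    rw [Real.norm_of_nonneg (by positivity)]
    exact norm_sub_sq_le hC z w
  unfold DD
  rw [ofReal_integral_eq_lintegral_ofReal]
  · apply lintegral_congr
    intro z
    exact h1 z
  · exact Integrable.of_bound (C := (2 * C) ^ 2) hAm.aestronglyMeasurable (.of_forall hAC)
  · exact .of_forall hA0

/-- the double integral over the compact part is controlled by the energy -/
lemma compact_energy {R : ℝ} (hR : 0 < R) (N : ℕ) [NeZero N] (Y : ℝ) :
    ∃ c : ℝ≥0∞, c ≠ ∞ ∧ ∀ u : ℍ → ℂ, Measurable u → Inv N u →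
      ∫⁻ z in (cuspRegion Y)ᶜ, ∫⁻ w in (cuspRegion Y)ᶜ, FD u z w ∂(nu N) ∂(nu N) ≤
        c * DD N R u 0 := by
  obtain ⟨r, hr, hball⟩ := compact_part N (NeZero.ne N) Y
  obtain ⟨m, hm⟩ : ∃ m : ℕ, 2 * r ≤ R + m * (R / 2) := by
    obtain ⟨m, hm⟩ := exists_nat_ge (2 * r / (R / 2))
    refine ⟨m, ?_⟩
    rw [div_le_iff₀ (by linarith)] at hm
    linarith
  obtain ⟨η, hη, hk⟩ := kk_lower hR m
  obtain ⟨c, hc, hD⟩ := DD_le (N := N) hR m
  have hηt : η ≠ ∞ ∨ η = ∞ := by tauto
  refine ⟨((Gamma N).index : ℝ≥0∞) * η⁻¹ * c, ?_, fun u hu hi => ?_⟩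
  · have : η⁻¹ ≠ ∞ := ENNReal.inv_ne_top.2 hη
    finiteness
  set Ω := (cuspRegion Y)ᶜ with hΩ
  have hΩm : MeasurableSet Ω := (measurableSet_cuspRegion Y).compl
  have hBm : MeasurableSet (closedBall (I : ℍ) r) := isClosed_closedBall.measurableSet
  -- inner bound
  have hinner : ∀ z ∈ closedBall (I : ℍ) r, ∫⁻ w in Ω, FD u z w ∂(nu N) ≤
      ((Gamma N).index : ℝ≥0∞) * η⁻¹ * ∫⁻ w, kk R m z w * FD u z w := by
    intro z hz
    calc ∫⁻ w in Ω, FD u z w ∂(nu N) ≤ ∫⁻ w in closedBall (I : ℍ) r, FD u z w ∂(nu N) := by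
          rw [← lintegral_indicator hΩm, ← lintegral_indicator hBm]
          apply lintegral_mono_ae
          filter_upwards [hball] with w hw
          by_cases h : w ∈ Ω
          · rw [Set.indicator_of_mem h, Set.indicator_of_mem (hw h)]
          · rw [Set.indicator_of_notMem h]; exact zero_le
      _ ≤ ∫⁻ w in closedBall (I : ℍ) r, η⁻¹ * (kk R m z w * FD u z w) ∂(nu N) := by
          refine setLIntegral_mono' hBm fun w hw => ?_
          have h1 : η ≤ kk R m z w := by
            apply hk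
            rw [mem_closedBall] at hz hw
            have := dist_triangle w I z
            rw [dist_comm I z] at this
            linarith
          rw [← mul_assoc]
          calc FD u z w = 1 * FD u z w := (one_mul _).symm
            _ ≤ η⁻¹ * kk R m z w * FD u z w := by
              gcongr
              rcases hηt with h2 | h2
              · calc (1 : ℝ≥0∞) = η⁻¹ * η := (ENNReal.inv_mul_cancel hη h2).symm
                  _ ≤ _ := by gcongr
              · exfalso
                -- `η = ∞` is impossible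
                have h3 : kk R m I I = ∞ := by
                  have := hk I I (by rw [dist_self]; positivity)
                  rw [h2] at this
                  exact top_le_iff.1 this
                have h4 : ∫⁻ z, kk R m I z * 1 = 1 := by
                  rw [lint_kk_mul hR m I measurable_const]
                  have : ∀ k : ℕ, (Ap R)^[k] (fun _ => (1 : ℝ≥0∞)) = fun _ => 1 := by
                    intro k
                    induction k with
                    | zero => rfl
                    | succ k ih =>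
                      rw [Function.iterate_succ_apply', ih]
                      ext z
                      exact Ap_const hR 1 z
                  rw [this]
                have h5 : ∫⁻ z in closedBall (I : ℍ) R, (∞ : ℝ≥0∞) ≤ 1 := by
                  rw [← h4]
                  calc ∫⁻ z in closedBall (I : ℍ) R, (∞ : ℝ≥0∞)
                      ≤ ∫⁻ z in closedBall (I : ℍ) R, kk R m I z * 1 := by
                        refine setLIntegral_mono' isClosed_closedBall.measurableSet fun z hz => ?_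
                        rw [mul_one, ← h2]
                        apply hk
                        rw [mem_closedBall] at hz
                        have : (0 : ℝ) ≤ m * (R / 2) := by positivity
                        linarith
                    _ ≤ _ := setLIntegral_le_lintegral _ _
                rw [setLIntegral_const, vol_eq, ENNReal.top_mul] at h5
                · simp at h5
                · simpa using bv_pos hR
      _ ≤ ∫⁻ w, η⁻¹ * (kk R m z w * FD u z w) ∂(nu N) := setLIntegral_le_lintegral _ _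
      _ ≤ ∫⁻ w, η⁻¹ * (kk R m z w * FD u z w) ∂(((Gamma N).index : ℝ≥0∞) • (volume : Measure ℍ)) :=
          lintegral_mono' (nu_le N (NeZero.ne N)) le_rfl
      _ = ((Gamma N).index : ℝ≥0∞) * η⁻¹ * ∫⁻ w, kk R m z w * FD u z w := by
          rw [lintegral_smul_measure, smul_eq_mul, lintegral_const_mul, mul_assoc]
          exact (measurable_kk hR m z).mul (measurable_FD hu z)
  calc ∫⁻ z in Ω, ∫⁻ w in Ω, FD u z w ∂(nu N) ∂(nu N)
      ≤ ∫⁻ z in closedBall (I : ℍ) r, ∫⁻ w in Ω, FD u z w ∂(nu N) ∂(nu N) := by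
        rw [← lintegral_indicator hΩm, ← lintegral_indicator hBm]
        apply lintegral_mono_ae
        filter_upwards [hball] with w hw
        by_cases h : w ∈ Ω
        · rw [Set.indicator_of_mem h, Set.indicator_of_mem (hw h)]
        · rw [Set.indicator_of_notMem h]; exact zero_le
    _ ≤ ∫⁻ z in closedBall (I : ℍ) r,
          (((Gamma N).index : ℝ≥0∞) * η⁻¹ * (∫⁻ w, kk R m z w * FD u z w)) ∂(nu N) :=
        setLIntegral_mono' hBm hinner
    _ ≤ ∫⁻ z, (((Gamma N).index : ℝ≥0∞) * η⁻¹ * (∫⁻ w, kk R m z w * FD u z w)) ∂(nu N) :=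
        setLIntegral_le_lintegral _ _
    _ = ((Gamma N).index : ℝ≥0∞) * η⁻¹ * DD N R u m := by
        rw [lintegral_const_mul]
        · congr 1
          apply lintegral_congr
          intro z
          exact (iter_FD_eq hR hu m z).symm
        · exact Measurable.lintegral_prod_right'
            (f := fun q : ℍ × ℍ => kk R m q.1 q.2 * FD u q.1 q.2)
            ((measurable_kk2 hR m).mul (measurable_FD2 hu))
    _ ≤ ((Gamma N).index : ℝ≥0∞) * η⁻¹ * (c * DD N R u 0) := by
        gcongr
        exact hD u hu hi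
    _ = _ := by ring

theorem level_gap {R : ℝ} (hR : 250 ≤ R) (N : ℕ) [NeZero N] :
    ∃ κ : ℝ, 0 < κ ∧ ∀ u : BN N, ∫ z, (u : ℍ → ℂ) z ∂(nu N) = 0 →
      (inner ℂ (AL N R u) u).re ≤ (1 - κ) * ‖u‖ ^ 2 := by
  have hR0 : 0 < R := by linarith
  obtain ⟨c, hc, hcE⟩ := compact_energy hR0 N (Real.exp R)
  set K := cuspRegion (Real.exp R) with hK
  have hKm : MeasurableSet K := measurableSet_cuspRegion _
  set M : ℝ := (nu N).real Set.univ with hM
  set a : ℝ := (nu N).real K with ha
  set b : ℝ := (nu N).real Kᶜ with hb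
  have hMpos : 0 < M := by
    rw [hM, Measure.real, ENNReal.toReal_pos_iff]
    exact ⟨pos_iff_ne_zero.2 (nu_univ_ne_zero N (NeZero.ne N)),
      (nu_univ_ne_top N (NeZero.ne N)).lt_top⟩
  have hab : a + b = M := by
    rw [ha, hb, hM]
    exact measureReal_add_measureReal_compl hKm
  have ha0 : 0 ≤ a := measureReal_nonneg
  have hb0 : 0 ≤ b := measureReal_nonneg
  have haM : a ≤ (1 / 4) * M := by
    have h1 := nu_cusp_le N (NeZero.ne N) (Y := Real.exp R) (Real.one_le_exp hR0.le)
    have h2 : a ≤ (Real.exp R)⁻¹ * M := by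
      rw [ha, hM, Measure.real, Measure.real, ← ENNReal.toReal_ofReal (inv_nonneg.2 (Real.exp_pos R).le),
        ← ENNReal.toReal_mul]
      apply ENNReal.toReal_mono _ h1
      exact ENNReal.mul_ne_top ENNReal.ofReal_ne_top (nu_univ_ne_top N (NeZero.ne N))
    have h3 : (Real.exp R)⁻¹ ≤ 1 / 4 := by
      rw [inv_le_comm₀ (Real.exp_pos R) (by norm_num)]
      have := Real.add_one_le_exp R
      linarith
    calc a ≤ (Real.exp R)⁻¹ * M := h2
      _ ≤ _ := by gcongr
  have hbpos : 0 < b := by linarith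
  have hab' : a ≤ b := by linarith
  set c' : ℝ := c.toReal with hc'
  have hc'0 : 0 ≤ c' := ENNReal.toReal_nonneg
  refine ⟨(3 / 2 * b) / (c' + 8 * b) / 2, by positivity, fun u hmean => ?_⟩
  obtain ⟨C, hC⟩ := BN.bdd u
  have hum := BN.meas u
  have hui := BN.inv u
  set E : ℝ := ∫ z, Av R (fun w => ‖(u : ℍ → ℂ) z - (u : ℍ → ℂ) w‖ ^ 2) z ∂(nu N) with hE
  have henergy := AL_energy hR0 u
  rw [← hE] at henergy
  have hsub := AL_sub_sq hR0 u
  rw [← hE] at hsub
  have hE0 : 0 ≤ E := (sq_nonneg _).trans hsub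
  have hcusp := cusp_lemma_AL hR u
  rw [← hK] at hcusp
  -- integrability
  have hi : Integrable (u : ℍ → ℂ) (nu N) := BN.integrable u
  have hi2 : ∀ v : BN N, Integrable (fun w => ‖(v : ℍ → ℂ) w‖ ^ 2) (nu N) := by
    intro v
    obtain ⟨C, hC⟩ := BN.bdd v
    refine Integrable.of_bound (C := C ^ 2) ((BN.meas v).norm.pow_const 2).aestronglyMeasurable
      (.of_forall fun w => ?_)
    rw [Real.norm_of_nonneg (by positivity)]
    exact pow_le_pow_left₀ (norm_nonneg _) (hC w) 2
  set x : ℝ := ∫ z in K, ‖(u : ℍ → ℂ) z‖ ^ 2 ∂(nu N) with hx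
  set y : ℝ := ∫ z in Kᶜ, ‖(u : ℍ → ℂ) z‖ ^ 2 ∂(nu N) with hy
  have hxy : x + y = ‖u‖ ^ 2 := by
    rw [BN.norm_sq, hx, hy]
    exact integral_add_compl hKm (hi2 u)
  have hx0 : 0 ≤ x := integral_nonneg fun z => by positivity
  have hy0 : 0 ≤ y := integral_nonneg fun z => by positivity
  -- the cusp estimate
  have h1 : x ≤ 2 * (1 / 16 * ‖u‖ ^ 2) + 2 * E := by
    have h2 : ∫ z in K, ‖((AL N R u - u : BN N) : ℍ → ℂ) z‖ ^ 2 ∂(nu N) ≤ E := by
      refine le_trans ?_ hsub
      rw [BN.norm_sq]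
      exact setIntegral_le_integral (hi2 _) (.of_forall fun z => by positivity)
    calc x ≤ ∫ z in K, (2 * ‖((AL N R u : BN N) : ℍ → ℂ) z‖ ^ 2 +
          2 * ‖((AL N R u - u : BN N) : ℍ → ℂ) z‖ ^ 2) ∂(nu N) := by
          refine integral_mono (hi2 u).integrableOn
            (((hi2 _).const_mul 2).add ((hi2 _).const_mul 2)).integrableOn fun z => ?_
          have h3 : (u : ℍ → ℂ) z = ((AL N R u : BN N) : ℍ → ℂ) z -
              ((AL N R u - u : BN N) : ℍ → ℂ) z := by
            simp
          have h4 := norm_sub_le (((AL N R u : BN N) : ℍ → ℂ) z)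
            (((AL N R u - u : BN N) : ℍ → ℂ) z)
          rw [← h3] at h4
          have h5 := norm_nonneg ((u : ℍ → ℂ) z)
          have h6 := pow_le_pow_left₀ h5 h4 2
          dsimp only
          nlinarith [sq_nonneg (‖((AL N R u : BN N) : ℍ → ℂ) z‖ -
            ‖((AL N R u - u : BN N) : ℍ → ℂ) z‖)]
      _ = 2 * ∫ z in K, ‖((AL N R u : BN N) : ℍ → ℂ) z‖ ^ 2 ∂(nu N) +
          2 * ∫ z in K, ‖((AL N R u - u : BN N) : ℍ → ℂ) z‖ ^ 2 ∂(nu N) := by
          rw [integral_add ((hi2 _).const_mul 2).integrableOn ((hi2 _).const_mul 2).integrableOn,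
            integral_const_mul, integral_const_mul]
      _ ≤ _ := by gcongr
  -- the mean over the compact part
  set J : ℂ := ∫ z in Kᶜ, (u : ℍ → ℂ) z ∂(nu N) with hJ
  have h2 : ‖J‖ ^ 2 ≤ a * x := by
    have h3 : J = - ∫ z in K, (u : ℍ → ℂ) z ∂(nu N) := by
      have := integral_add_compl hKm hi
      rw [hmean] at this
      exact eq_neg_of_add_eq_zero_right this
    rw [h3, norm_neg]
    have h4 : ‖∫ z in K, (u : ℍ → ℂ) z ∂(nu N)‖ ≤ ∫ z in K, ‖(u : ℍ → ℂ) z‖ ∂(nu N) :=
      norm_integral_le_integral_norm _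
    -- from `0 ≤ ∫ (‖u‖ - t)²`
    set s : ℝ := ∫ z in K, ‖(u : ℍ → ℂ) z‖ ∂(nu N) with hs
    have hs0 : 0 ≤ s := integral_nonneg fun z => norm_nonneg _
    have h5 : ∀ t : ℝ, 0 ≤ x - 2 * t * s + t ^ 2 * a := by
      intro t
      have h6 : ∫ z in K, (‖(u : ℍ → ℂ) z‖ - t) ^ 2 ∂(nu N) = x - 2 * t * s + t ^ 2 * a := by
        have h7 : ∀ z, (‖(u : ℍ → ℂ) z‖ - t) ^ 2 =
            ‖(u : ℍ → ℂ) z‖ ^ 2 - 2 * t * ‖(u : ℍ → ℂ) z‖ + t ^ 2 := fun z => by ring
        simp_rw [h7]
        rw [integral_add, integral_sub, integral_const_mul, integral_const]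
        · simp [ha, hx, hs, mul_comm]
        · exact (hi2 u).integrableOn
        · exact (hi.norm.const_mul _).integrableOn
        · exact (((hi2 u).sub (hi.norm.const_mul _))).integrableOn
        · exact integrable_const _
      rw [← h6]
      exact integral_nonneg fun z => by positivity
    have h8 : s ^ 2 ≤ a * x := by
      rcases ha0.eq_or_lt with h9 | h9
      · -- a = 0
        rw [← h9] at h5 ⊢
        have h10 := h5 ((x + 1) / (2 * s))
        rcases hs0.eq_or_lt with h11 | h11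
        · rw [← h11]; simp
        · exfalso
          have h12 : 2 * ((x + 1) / (2 * s)) * s = x + 1 := by field_simp
          rw [h12] at h10
          linarith
      · have h10 := h5 (s / a)
        have h11 : x - 2 * (s / a) * s + (s / a) ^ 2 * a = x - s ^ 2 / a := by
          field_simp; ring
        rw [h11, sub_nonneg, div_le_iff₀ h9] at h10
        linarith
    exact (pow_le_pow_left₀ (norm_nonneg _) h4 2).trans h8
  -- the variance over the compact part
  have hvar := var_outer (μ := (nu N).restrict Kᶜ) hum hC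
  have hlint := lint_FD (μ := (nu N).restrict Kᶜ) hum hC
  rw [hvar] at hlint
  have h3 : (2 * b * y - 2 * ‖J‖ ^ 2) ≤ c' * E := by
    have h4 := hcE (u : ℍ → ℂ) hum hui
    rw [DD_zero hR0 hum hC, ← hE] at h4
    rw [hlint] at h4
    have h5 : c * ENNReal.ofReal E = ENNReal.ofReal (c' * E) := by
      rw [ENNReal.ofReal_mul hc'0, hc', ENNReal.ofReal_toReal hc]
    rw [h5] at h4
    have h6 := (ENNReal.ofReal_le_ofReal_iff (by positivity)).1 h4
    simpa [hb, hy, hJ, Measure.real] using h6
  -- conclusion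
  have h4 : (3 / 2 * b) * ‖u‖ ^ 2 ≤ (c' + 8 * b) * E := by
    have h5 : a * x ≤ b * x := mul_le_mul_of_nonneg_right hab' hx0
    have h6 : 2 * b * y - 2 * b * x ≤ c' * E := by linarith
    have h7 : y = ‖u‖ ^ 2 - x := by linarith
    rw [h7] at h6
    have h8 : b * x ≤ b * (2 * (1 / 16 * ‖u‖ ^ 2) + 2 * E) := by gcongr
    nlinarith
  have h5 : (3 / 2 * b) / (c' + 8 * b) * ‖u‖ ^ 2 ≤ E := by
    rw [div_mul_eq_mul_div, div_le_iff₀ (by positivity)]
    linarith
  linarith

end

end Pool.Agent.H369R2
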