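import Pool.Agent.H369R2.NewGap
import Pool.Agent.H369R2.Level

/-! # The uniform spectral gap -/

open UpperHalfPlane MeasureTheory Metric ModularGroup CongruenceSubgroup
open scoped MatrixGroups ENNReal Modular Topology NNReal ComplexConjugate

namespace Pool.Agent.H369R2

noncomputable section

namespace GapAux

open OpAux

variable {N M : ℕ}

/-- comparison of levels for real functions -/
lemma level_real [NeZero N] [NeZero M] (hMN : M ∣ N) {F : ℍ → ℝ} (h : BR M F) :
    ∫ z, F z ∂(nu N) = ((Gamma N).relIndex (Gamma M) : ℝ) * ∫ z, F z ∂(nu M) := by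
  have hN : N ≠ 0 := NeZero.ne N
  have key : ∀ G : ℍ → ℝ, BR M G → (∀ z, 0 ≤ G z) →
      ∫ z, G z ∂(nu N) = ((Gamma N).relIndex (Gamma M) : ℝ) * ∫ z, G z ∂(nu M) := by
    intro G hG hG0
    rw [integral_eq_lintegral_of_nonneg_ae (.of_forall hG0) hG.meas.aestronglyMeasurable,
      integral_eq_lintegral_of_nonneg_ae (.of_forall hG0) hG.meas.aestronglyMeasurable,
      nu_level M N hN hMN hG.meas.ennreal_ofReal (fun δ hδ z => by rw [hG.inv δ hδ z]),
      ENNReal.toReal_mul, ENNReal.toReal_natCast]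
  obtain ⟨C, hC⟩ := h.bdd
  have hC0 : 0 ≤ C := (abs_nonneg _).trans (hC I)
  have h1 := key _ (h.add_const C) (fun z => by have := (abs_le.1 (hC z)).1; linarith)
  have h2 := key (fun _ => C) ⟨measurable_const, ⟨|C|, fun _ => le_rfl⟩, fun _ _ _ => rfl⟩
    (fun _ => hC0)
  have i1 : Integrable F (nu N) :=
    Integrable.of_bound (C := C) h.meas.aestronglyMeasurable (.of_forall hC)
  rw [integral_add i1 (integrable_const _), integral_add h.integrable (integrable_const _), h2,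
    mul_add] at h1
  exact add_right_cancel h1

lemma relIndex_ne_zero' [NeZero N] (hMN : M ∣ N) : (Gamma N).relIndex (Gamma M) ≠ 0 := by
  intro h0
  have h1 := nu_level M N (NeZero.ne N) hMN (F := fun _ => 1) measurable_const (fun _ _ _ => rfl)
  rw [h0, lintegral_one] at h1
  simp only [Nat.cast_zero, zero_mul] at h1
  exact nu_univ_ne_zero N (NeZero.ne N) h1

/-- the mean value functional -/
def mean (N : ℕ) [NeZero N] : BN N →ₗ[ℂ] ℂ where
  toFun u := ∫ z, (u : ℍ → ℂ) z ∂(nu N)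
  map_add' u v := by
    simp only [Submodule.coe_add, Pi.add_apply]
    exact integral_add (BN.integrable u) (BN.integrable v)
  map_smul' c u := by
    simp only [Submodule.coe_smul, Pi.smul_apply, RingHom.id_apply]
    exact integral_smul c _

lemma old_step [NeZero N] [NeZero M] (hMN : M ∣ N) {R : ℝ} (c : ℝ)
    (hM : ∀ u : BN M, ∫ z, (u : ℍ → ℂ) z ∂(nu M) = 0 →
      (inner ℂ (AL M R u) u).re ≤ c * ‖u‖ ^ 2)
    (u : BN N) (hu : ∫ z, (u : ℍ → ℂ) z ∂(nu N) = 0) (hfix : ∀ h ∈ HN M N, act N h u = u) :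
    (inner ℂ (AL N R u) u).re ≤ c * ‖u‖ ^ 2 := by
  have hinv : Inv M (u : ℍ → ℂ) := by
    intro γ hγ z
    have h1 := hfix (QuotientGroup.mk' (Gamma N) γ⁻¹) (Subgroup.mem_map_of_mem _ (inv_mem hγ))
    rw [act_mk] at h1
    have h2 : ((act0 N γ⁻¹ u : BN N) : ℍ → ℂ) z = (u : ℍ → ℂ) z := by rw [h1]
    rw [act0_apply, inv_inv] at h2
    exact h2
  let v : BN M := ⟨(u : ℍ → ℂ), BN.meas u, BN.bdd u, hinv⟩
  have hvu : (v : ℍ → ℂ) = (u : ℍ → ℂ) := rfl
  set k : ℝ := ((Gamma N).relIndex (Gamma M) : ℝ) with hk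
  have hk0 : k ≠ 0 := by
    rw [hk]; exact_mod_cast relIndex_ne_zero' hMN
  have hkp : 0 ≤ k := Nat.cast_nonneg _
  have hmean : ∫ z, (v : ℍ → ℂ) z ∂(nu M) = 0 := by
    have hre : (∫ z, (v : ℍ → ℂ) z ∂(nu M)).re = 0 := by
      rw [re_integral]
      have h1 := level_real hMN (BR_re v)
      have h2 : ∫ z, ((v : ℍ → ℂ) z).re ∂(nu N) = 0 := by
        have := re_integral u
        rw [hu] at this
        exact this.symm
      rw [h2] at h1
      rcases mul_eq_zero.1 h1.symm with h | h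
      · exact absurd h hk0
      · exact h
    have him : (∫ z, (v : ℍ → ℂ) z ∂(nu M)).im = 0 := by
      rw [im_integral]
      have h1 := level_real hMN (BR_im v)
      have h2 : ∫ z, ((v : ℍ → ℂ) z).im ∂(nu N) = 0 := by
        have := im_integral u
        rw [hu] at this
        exact this.symm
      rw [h2] at h1
      rcases mul_eq_zero.1 h1.symm with h | h
      · exact absurd h hk0
      · exact h
    exact Complex.ext hre him
  have hnorm : ‖u‖ ^ 2 = k * ‖v‖ ^ 2 := by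
    rw [BN.norm_sq, BN.norm_sq]
    exact level_real hMN (BR_norm_sq v)
  have hre' : ∀ (L : ℕ) [NeZero L] (w : BN L), (inner ℂ (AL L R w) w).re =
      ∫ z, (Av R (fun z => ((w : ℍ → ℂ) z).re) z * ((w : ℍ → ℂ) z).re +
        Av R (fun z => ((w : ℍ → ℂ) z).im) z * ((w : ℍ → ℂ) z).im) ∂(nu L) := by
    intro L _ w
    rw [BN.inner_def]
    have h1 := Complex.reCLM.integral_comp_comm (BN.integrable_mul (AL L R w) w)
    simp only [Complex.reCLM_apply] at h1
    rw [← h1]
    congr 1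
    ext z
    rw [AL_apply, ← re_Av, ← im_Av, Complex.mul_re, Complex.conj_re, Complex.conj_im]
    ring
  have hinner : (inner ℂ (AL N R u) u).re = k * (inner ℂ (AL M R v) v).re := by
    rw [hre', hre']
    refine level_real hMN ?_
    have h1 := (BR_re v).Av (R := R) |>.mul (BR_re v)
    have h2 := (BR_im v).Av (R := R) |>.mul (BR_im v)
    obtain ⟨C, hC⟩ := h1.bdd
    obtain ⟨D, hD⟩ := h2.bdd
    exact ⟨h1.meas.add h2.meas, ⟨C + D, fun z => (abs_add_le _ _).trans (add_le_add (hC z) (hD z))⟩,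
      fun γ hγ z => by
        have e1 := h1.inv γ hγ z
        have e2 := h2.inv γ hγ z
        exact congrArg₂ (· + ·) e1 e2⟩
  rw [hinner, hnorm]
  calc k * (inner ℂ (AL M R v) v).re ≤ k * (c * ‖v‖ ^ 2) :=
        mul_le_mul_of_nonneg_left (hM v hmean) hkp
    _ = c * (k * ‖v‖ ^ 2) := by ring

lemma exists_min (k : ℕ → ℝ) (hk : ∀ n, 0 < k n) (N₀ : ℕ) :
    ∃ κ : ℝ, 0 < κ ∧ κ ≤ 1 / 2 ∧ ∀ n < N₀, κ ≤ k n := by
  induction N₀ with
  | zero => exact ⟨1 / 2, by norm_num, le_rfl, fun n hn => absurd hn (Nat.not_lt_zero n)⟩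
  | succ m ih =>
    obtain ⟨κ, h1, h2, h3⟩ := ih
    refine ⟨min κ (k m), lt_min h1 (hk m), (min_le_left _ _).trans h2, fun n hn => ?_⟩
    rcases Nat.lt_succ_iff_lt_or_eq.1 hn with h | h
    · exact (min_le_left _ _).trans (h3 n h)
    · rw [h]; exact min_le_right _ _

theorem gap_all : ∃ κ : ℝ, 0 < κ ∧ ∀ N : ℕ, ∀ _ : NeZero N, ∀ u : BN N,
    ∫ z, (u : ℍ → ℂ) z ∂(nu N) = 0 → (inner ℂ (AL N 250 u) u).re ≤ (1 - κ) * ‖u‖ ^ 2 := by
  obtain ⟨N₀, hnew⟩ := new_gap
  have hlev : ∀ N : ℕ, ∃ κ : ℝ, 0 < κ ∧ ∀ _ : NeZero N, ∀ u : BN N,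
      ∫ z, (u : ℍ → ℂ) z ∂(nu N) = 0 → (inner ℂ (AL N 250 u) u).re ≤ (1 - κ) * ‖u‖ ^ 2 := by
    intro N
    rcases Nat.eq_zero_or_pos N with h | h
    · exact ⟨1, one_pos, fun hN => absurd h hN.ne⟩
    · have : NeZero N := ⟨h.ne'⟩
      obtain ⟨κ, h1, h2⟩ := level_gap (le_refl (250 : ℝ)) N
      exact ⟨κ, h1, fun _ => h2⟩
  choose k hk0 hk using hlev
  obtain ⟨κ, hκ0, hκ1, hκ2⟩ := exists_min k hk0 N₀
  refine ⟨κ, hκ0, ?_⟩
  intro N
  induction N using Nat.strong_induction_on with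
  | _ N ih =>
    intro hN u hu
    rcases lt_or_ge N N₀ with hlt | hge
    · refine (hk N hN u hu).trans ?_
      have := hκ2 N hlt
      gcongr
    · have hfin : Finite (GN N) := Subgroup.finite_quotient_of_finiteIndex
      refine gap_of_new (act N) (fun g v => act_norm g v) (AL N 250)
        (AL_symm (by norm_num)) (act_AL N 250) (LinearMap.ker (mean N)) ?_ (1 - κ)
        N.primeFactors (fun p => HN (N / p) N) (fun p => inferInstance) ?_ ?_ ?_ u ?_
      · intro g v hv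
        rw [LinearMap.mem_ker] at hv ⊢
        exact (act_mean g v).trans hv
      · intro p
        exact Subgroup.Normal.map inferInstance _ (QuotientGroup.mk'_surjective _)
      · intro p hp v hv hfix
        have hpp := Nat.prime_of_mem_primeFactors hp
        have hpN := Nat.dvd_of_mem_primeFactors hp
        have hN0 : N ≠ 0 := hN.ne
        have hM0 : N / p ≠ 0 := (Nat.div_pos (Nat.le_of_dvd (Nat.pos_of_ne_zero hN0) hpN)
          hpp.pos).ne'
        have : NeZero (N / p) := ⟨hM0⟩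
        exact old_step (Nat.div_dvd_of_dvd hpN) (1 - κ)
          (ih (N / p) (Nat.div_lt_self (Nat.pos_of_ne_zero hN0) hpp.one_lt) this) v
          (LinearMap.mem_ker.1 hv) hfix
      · intro v hv hk'
        refine (hnew N hge hN v fun p hp hpN =>
          hk' p (Nat.mem_primeFactors.2 ⟨hp, hpN, hN.ne⟩)).trans ?_
        gcongr
        linarith
      · exact LinearMap.mem_ker.2 hu

end GapAux

open GapAux

theorem has_gap : ∃ κ : ℝ, 0 < κ ∧ HasGap 250 κ := by
  obtain ⟨κ, hκ, hgap⟩ := gap_all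
  refine ⟨2 * κ, by positivity, ?_⟩
  intro N hN u hu ⟨C, hC⟩ hinv hmean
  have : NeZero N := ⟨hN⟩
  let v : BN N := ⟨fun z => (u z : ℂ), Complex.measurable_ofReal.comp hu,
    ⟨C, fun z => by rw [Complex.norm_real]; exact hC z⟩, fun γ hγ z => by
      show (u (γ • z) : ℂ) = u z
      rw [hinv γ hγ z]⟩
  have hv : (v : ℍ → ℂ) = fun z => (u z : ℂ) := rfl
  have hm : ∫ z, (v : ℍ → ℂ) z ∂(nu N) = 0 := by
    rw [hv, integral_complex_ofReal, hmean]; simp
  have h1 := hgap N this v hm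
  have h2 := AL_energy (R := 250) (by norm_num) v
  have h3 : ‖v‖ ^ 2 = ∫ z, (u z) ^ 2 ∂(nu N) := by
    rw [BN.norm_sq, hv]
    congr 1
    ext z
    simp
  have h4 : ∀ z w, ‖(v : ℍ → ℂ) z - (v : ℍ → ℂ) w‖ ^ 2 = (u z - u w) ^ 2 := by
    intro z w
    rw [hv]
    simp only
    rw [← Complex.ofReal_sub, Complex.norm_real, Real.norm_eq_abs, sq_abs]
  simp only [h4] at h2
  rw [h2, ← h3]
  linarith

end

end Pool.Agent.H369R2
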