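import Pool.Agent.H369R2.Cusp

/-! # The spectral gap at a fixed level: auxiliary lemmas -/

open UpperHalfPlane MeasureTheory Metric ModularGroup CongruenceSubgroup
open scoped MatrixGroups ENNReal Modular Topology NNReal ComplexConjugate

namespace Pool.Agent.H369R2

noncomputable section

lemma measurable_kk2 {R : ℝ} (hR : 0 < R) (m : ℕ) :
    Measurable (fun p : ℍ × ℍ => kk R m p.1 p.2) := by
  induction m with
  | zero => exact measurable_bz2 R
  | succ m ih =>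
    have h : (fun p : ℍ × ℍ => kk R (m + 1) p.1 p.2) =
        fun p => ∫⁻ ζ, bz R p.2 ζ * kk R m p.1 ζ := by
      ext p; rw [kk_succ, Ap_eq hR]
    rw [h]
    exact Measurable.lintegral_prod_right'
      (f := fun q : (ℍ × ℍ) × ℍ => bz R q.1.2 q.2 * kk R m q.1.1 q.2)
      (((measurable_bz2 R).comp ((measurable_snd.comp measurable_fst).prodMk measurable_snd)).mul
        (ih.comp ((measurable_fst.comp measurable_fst).prodMk measurable_snd)))

lemma Ap_const {R : ℝ} (hR : 0 < R) (c : ℝ≥0∞) (z : ℍ) : Ap R (fun _ => c) z = c := by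
  unfold Ap
  rw [setLIntegral_const, vol_eq, mul_comm c, ← mul_assoc, ENNReal.inv_mul_cancel, one_mul]
  · simpa using bv_pos hR
  · exact ENNReal.ofReal_ne_top

lemma Ap_add (R : ℝ) {f : ℍ → ℝ≥0∞} (hf : Measurable f) (g : ℍ → ℝ≥0∞) (z : ℍ) :
    Ap R (fun w => f w + g w) z = Ap R f z + Ap R g z := by
  unfold Ap
  rw [lintegral_add_left hf, mul_add]

lemma iter_mono (R : ℝ) {f g : ℍ → ℝ≥0∞} (h : ∀ z, f z ≤ g z) (m : ℕ) (z : ℍ) :
    (Ap R)^[m] f z ≤ (Ap R)^[m] g z := by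
  induction m generalizing z with
  | zero => exact h z
  | succ m ih =>
    rw [Function.iterate_succ_apply', Function.iterate_succ_apply']
    exact Ap_mono R ih z

lemma iter_aff {R : ℝ} (hR : 0 < R) (c : ℝ≥0∞) {g : ℍ → ℝ≥0∞} (hg : Measurable g) (m : ℕ) (z : ℍ) :
    (Ap R)^[m] (fun w => 2 * c + 2 * g w) z = 2 * c + 2 * (Ap R)^[m] g z := by
  induction m generalizing z with
  | zero => rfl
  | succ m ih =>
    rw [Function.iterate_succ_apply', Function.iterate_succ_apply']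
    have h1 : (Ap R)^[m] (fun w => 2 * c + 2 * g w) = fun w => 2 * c + 2 * (Ap R)^[m] g w :=
      funext ih
    rw [h1, Ap_add R measurable_const, Ap_const hR, Ap_const_mul R 2 (measurable_iter hR hg m)]

/-- squared differences -/
def FD (u : ℍ → ℂ) (z w : ℍ) : ℝ≥0∞ := ENNReal.ofReal (‖u z - u w‖ ^ 2)

lemma measurable_FD2 {u : ℍ → ℂ} (hu : Measurable u) :
    Measurable (fun p : ℍ × ℍ => FD u p.1 p.2) := by
  unfold FD
  exact (((hu.comp measurable_fst).sub (hu.comp measurable_snd)).norm.pow_const 2).ennreal_ofReal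

lemma measurable_FD {u : ℍ → ℂ} (hu : Measurable u) (z : ℍ) : Measurable (FD u z) := by
  unfold FD
  exact ((measurable_const.sub hu).norm.pow_const 2).ennreal_ofReal

lemma FD_tri (u : ℍ → ℂ) (z x w : ℍ) : FD u z w ≤ 2 * FD u z x + 2 * FD u x w := by
  unfold FD
  have h2 : (2 : ℝ≥0∞) = ENNReal.ofReal 2 := by simp
  rw [h2, ← ENNReal.ofReal_mul (by norm_num), ← ENNReal.ofReal_mul (by norm_num),
    ← ENNReal.ofReal_add (by positivity) (by positivity)]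
  apply ENNReal.ofReal_le_ofReal
  have h3 : ‖u z - u w‖ ≤ ‖u z - u x‖ + ‖u x - u w‖ := norm_sub_le_norm_sub_add_norm_sub _ _ _
  have h4 : ‖u z - u w‖ ^ 2 ≤ (‖u z - u x‖ + ‖u x - u w‖) ^ 2 := by
    gcongr
  nlinarith [sq_nonneg (‖u z - u x‖ - ‖u x - u w‖)]

lemma iter_FD_eq {R : ℝ} (hR : 0 < R) {u : ℍ → ℂ} (hu : Measurable u) (m : ℕ) (x : ℍ) :
    (Ap R)^[m + 1] (FD u x) x = ∫⁻ z, kk R m x z * FD u x z :=
  (lint_kk_mul hR m x (measurable_FD hu x)).symm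

lemma measurable_diag {R : ℝ} (hR : 0 < R) {u : ℍ → ℂ} (hu : Measurable u) (m : ℕ) :
    Measurable (fun x => (Ap R)^[m + 1] (FD u x) x) := by
  have h : (fun x => (Ap R)^[m + 1] (FD u x) x) = fun x => ∫⁻ z, kk R m x z * FD u x z :=
    funext fun x => iter_FD_eq hR hu m x
  rw [h]
  exact Measurable.lintegral_prod_right'
    (f := fun q : ℍ × ℍ => kk R m q.1 q.2 * FD u q.1 q.2)
    ((measurable_kk2 hR m).mul (measurable_FD2 hu))

lemma iter_smul (R : ℝ) (g : SL(2, ℤ)) (f : ℍ → ℝ≥0∞) (m : ℕ) (z : ℍ) :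
    (Ap R)^[m] f (g • z) = (Ap R)^[m] (fun w => f (g • w)) z := by
  induction m generalizing z with
  | zero => rfl
  | succ m ih =>
    rw [Function.iterate_succ_apply', Function.iterate_succ_apply', Ap_smul_int]
    congr 1
    ext w
    exact ih w

lemma diag_inv {N : ℕ} (R : ℝ) {u : ℍ → ℂ} (hu : Inv N u) (m : ℕ) :
    ∀ δ ∈ Gamma N, ∀ z, (Ap R)^[m + 1] (FD u (δ • z)) (δ • z) = (Ap R)^[m + 1] (FD u z) z := by
  intro δ hδ z
  have h : (fun w => FD u (δ • z) (δ • w)) = FD u z := by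
    ext w
    simp only [FD, hu δ hδ]
  rw [iter_smul, h]

/-- the iterated energies -/
def DD (N : ℕ) (R : ℝ) (u : ℍ → ℂ) (m : ℕ) : ℝ≥0∞ := ∫⁻ z, (Ap R)^[m + 1] (FD u z) z ∂(nu N)

lemma DD_succ {N : ℕ} {R : ℝ} (hR : 0 < R) {u : ℍ → ℂ} (hu : Measurable u) (hi : Inv N u) (m : ℕ) :
    DD N R u (m + 1) ≤ 2 * DD N R u 0 + 2 * DD N R u m := by
  have hG := measurable_diag hR hu m
  have h1 : ∀ z, (Ap R)^[m + 1 + 1] (FD u z) z ≤ 2 * Ap R (FD u z) z +
      2 * Ap R (fun x => (Ap R)^[m + 1] (FD u x) x) z := by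
    intro z
    rw [Function.iterate_succ_apply']
    have h2 : ∀ x, (Ap R)^[m + 1] (FD u z) x ≤ 2 * FD u z x + 2 * (Ap R)^[m + 1] (FD u x) x := by
      intro x
      calc (Ap R)^[m + 1] (FD u z) x ≤ (Ap R)^[m + 1] (fun w => 2 * FD u z x + 2 * FD u x w) x :=
            iter_mono R (fun w => FD_tri u z x w) _ _
        _ = _ := iter_aff hR _ (measurable_FD hu x) _ _
    refine (Ap_mono R h2 z).trans (le_of_eq ?_)
    rw [Ap_add R ((measurable_FD hu z).const_mul 2), Ap_const_mul R 2 (measurable_FD hu z),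
      Ap_const_mul R 2 hG]
  have hm0 : Measurable (fun z => Ap R (FD u z) z) := measurable_diag hR hu 0
  have hm1 : Measurable (fun z => Ap R (fun x => (Ap R)^[m + 1] (FD u x) x) z) :=
    measurable_Ap hR hG
  calc DD N R u (m + 1) ≤ ∫⁻ z, (2 * Ap R (FD u z) z +
      2 * Ap R (fun x => (Ap R)^[m + 1] (FD u x) x) z) ∂(nu N) := lintegral_mono h1
    _ = 2 * DD N R u 0 + 2 * DD N R u m := by
      rw [lintegral_add_left (hm0.const_mul 2), lintegral_const_mul 2 hm0,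
        lintegral_const_mul 2 hm1, lint_Ap_nu hR N hG (diag_inv R hi m)]
      rfl

lemma DD_le {N : ℕ} {R : ℝ} (hR : 0 < R) (m : ℕ) : ∃ c : ℝ≥0∞, c ≠ ∞ ∧
    ∀ u : ℍ → ℂ, Measurable u → Inv N u → DD N R u m ≤ c * DD N R u 0 := by
  induction m with
  | zero => exact ⟨1, ENNReal.one_ne_top, fun u _ _ => by rw [one_mul]⟩
  | succ m ih =>
    obtain ⟨c, hc, ih⟩ := ih
    refine ⟨2 + 2 * c, by finiteness, fun u hu hi => ?_⟩
    calc DD N R u (m + 1) ≤ 2 * DD N R u 0 + 2 * DD N R u m := DD_succ hR hu hi m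
      _ ≤ 2 * DD N R u 0 + 2 * (c * DD N R u 0) := by gcongr; exact ih u hu hi
      _ = _ := by ring

lemma exists_cosh_ge (K : ℝ) : ∃ r : ℝ, 0 ≤ r ∧ K ≤ Real.cosh r := by
  refine ⟨|2 * K|, abs_nonneg _, ?_⟩
  rw [Real.cosh_eq]
  have h1 := Real.add_one_le_exp |2 * K|
  have h2 := Real.exp_pos (-|2 * K|)
  have h3 := le_abs_self (2 * K)
  linarith

lemma fdo_ball (Y : ℝ) : ∃ r : ℝ, 0 ≤ r ∧ ∀ z ∈ (𝒟ᵒ : Set ℍ), z.im ≤ Y → dist z I ≤ r := by
  obtain ⟨r, hr, hK⟩ := exists_cosh_ge (Y ^ 2 + 2)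
  refine ⟨r, hr, fun z hz hY => ?_⟩
  rw [← mem_closedBall, mem_ball_I r hr]
  have h1 : |z.re| ≤ 1 / 2 := hz.2.le
  have h2 : 3 < 4 * z.im ^ 2 := ModularGroup.three_lt_four_mul_im_sq_of_mem_fdo hz
  have h3 : 0 < z.im := z.im_pos
  have h4 : 1 / 2 ≤ z.im := by nlinarith
  have h5 : z.re ^ 2 ≤ 1 / 4 := by
    rw [← sq_abs]; nlinarith [abs_nonneg z.re]
  have h6 : z.im ^ 2 ≤ Y ^ 2 := by nlinarith
  nlinarith

lemma compact_part (N : ℕ) (hN : N ≠ 0) (Y : ℝ) : ∃ r : ℝ, 0 ≤ r ∧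
    ∀ᵐ z ∂(nu N), z ∉ cuspRegion Y → z ∈ closedBall (I : ℍ) r := by
  obtain ⟨r₀, hr₀, h0⟩ := fdo_ball Y
  have : NeZero N := ⟨hN⟩
  have : Finite (GN N) := by
    have : (Gamma N).FiniteIndex := by infer_instance
    infer_instance
  obtain ⟨M, hM⟩ := (Set.finite_range fun g : GN N => dist ((g.out : SL(2, ℤ)) • (I : ℍ)) I).bddAbove
  have hM0 : 0 ≤ M := dist_nonneg.trans (hM ⟨1, rfl⟩)
  refine ⟨r₀ + M, by linarith, ?_⟩
  filter_upwards [nu_ae N] with z hz hzY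
  obtain ⟨g, z₀, hz₀, rfl⟩ := hz
  have h1 : z₀.im ≤ Y := by
    by_contra hlt
    rw [not_le] at hlt
    apply hzY
    refine ⟨(g.out)⁻¹, ?_⟩
    rw [inv_smul_smul]
    exact hlt
  rw [mem_closedBall]
  calc dist (g.out • z₀) I ≤ dist (g.out • z₀) (g.out • (I : ℍ)) + dist (g.out • (I : ℍ)) I :=
        dist_triangle _ _ _
    _ ≤ r₀ + M := by
      rw [dist_smul_int]
      exact add_le_add (h0 z₀ hz₀ h1) (hM ⟨g, rfl⟩)

end

end Pool.Agent.H369R2
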