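import Pool.Agent.H369R2.Defs

/-!
# S11: the energy inequality (potential theory on hyperbolic balls)
-/

open UpperHalfPlane MeasureTheory Metric ModularGroup CongruenceSubgroup
open scoped MatrixGroups ENNReal Modular Topology Pointwise

namespace Pool.Agent.H369R2

/-! ### algebra of the hermitian forms -/

section algebra

theorem s11_lagrange (x y : ℂ × ℂ) : ‖wd x y‖ ^ 2 + ‖hm x y‖ ^ 2 = nq x * nq y := by
  have h : ∀ c : ℂ, ‖c‖ ^ 2 = c.re ^ 2 + c.im ^ 2 := fun c => by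
    rw [← Complex.normSq_eq_norm_sq, Complex.normSq_apply]; ring
  simp only [wd, hm, nq, h]
  simp
  ring

/-- the polarised form -/
noncomputable def hb (p : ℂ × ℂ) (r : ℝ) (x y : ℂ × ℂ) : ℂ :=
  r * ((starRingEnd ℂ) (hm p x) * hm p y) + (r : ℂ)⁻¹ * ((starRingEnd ℂ) (wd p x) * wd p y)

theorem s11_det (p : ℂ × ℂ) (hp : nq p = 1) (u v : ℂ × ℂ) :
    hm p u * wd p v - wd p u * hm p v = wd u v := by
  have h1 : (starRingEnd ℂ) p.1 * p.1 + (starRingEnd ℂ) p.2 * p.2 = 1 := by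
    have : ((nq p : ℝ) : ℂ) = 1 := by rw [hp]; simp
    rw [← this, nq]
    push_cast
    rw [← Complex.conj_mul', ← Complex.conj_mul']
  have : hm p u * wd p v - wd p u * hm p v =
      ((starRingEnd ℂ) p.1 * p.1 + (starRingEnd ℂ) p.2 * p.2) * wd u v := by
    simp only [hm, wd]; ring
  rw [this, h1, one_mul]

theorem s11_form (p : ℂ × ℂ) (hp : nq p = 1) (r : ℝ) (hr0 : 0 < r) (u v : ℂ × ℂ) :
    hr p r u * hr p r v = ‖hb p r u v‖ ^ 2 + ‖wd u v‖ ^ 2 := by
  rw [← s11_det p hp u v]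
  have h : ∀ c : ℂ, ‖c‖ ^ 2 = c.re ^ 2 + c.im ^ 2 := fun c => by
    rw [← Complex.normSq_eq_norm_sq, Complex.normSq_apply]; ring
  have hi : ((r : ℂ)⁻¹) = ((r⁻¹ : ℝ) : ℂ) := by push_cast; rfl
  simp only [hr, hb, h, hi]
  generalize hm p u = a
  generalize hm p v = b
  generalize wd p u = c
  generalize wd p v = d
  simp
  have : r * r⁻¹ = 1 := mul_inv_cancel₀ hr0.ne'
  generalize r⁻¹ = s at *
  linear_combination ((a.re * d.re - a.im * d.im - (c.re * b.re - c.im * b.im)) ^ 2 +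
    (a.re * d.im + a.im * d.re - (c.re * b.im + c.im * b.re)) ^ 2) * this

end algebra



/-! ### Jensen's inequality -/

theorem s11_jensen {f : ℂ → ℂ} {ρ : ℝ} (hρ : 0 ≤ ρ)
    (hf : AnalyticOnNhd ℂ f (closedBall 0 ρ)) (h0 : f 0 ≠ 0) :
    Real.log ‖f 0‖ ≤ Real.circleAverage (fun ζ => Real.log ‖f ζ‖) 0 ρ := by
  rcases hρ.eq_or_lt with rfl | hρ
  · simp [Real.circleAverage_zero]
  · have habs : |ρ| = ρ := abs_of_pos hρ
    have hf' : AnalyticOnNhd ℂ f (closedBall 0 |ρ|) := by rwa [habs]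
    rw [AnalyticOnNhd.circleAverage_log_norm hρ.ne' hf' h0]
    have : 0 ≤ ∑ᶠ u, (MeromorphicOn.divisor f (closedBall 0 |ρ|) u : ℝ) *
        Real.log (ρ * ‖0 - u‖⁻¹) := by
      apply finsum_nonneg
      intro u
      by_cases hu : u ∈ closedBall (0 : ℂ) |ρ|
      · by_cases hu0 : u = 0
        · simp [hu0]
        · apply mul_nonneg
          · exact_mod_cast MeromorphicOn.AnalyticOnNhd.divisor_nonneg hf' u
          · apply Real.log_nonneg
            have h1 : ‖u‖ ≤ ρ := by simpa [habs] using hu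
            have h2 : 0 < ‖u‖ := norm_pos_iff.mpr hu0
            rw [zero_sub, norm_neg, ← div_eq_mul_inv, one_le_div h2]
            exact h1
      · rw [Function.locallyFinsuppWithin.apply_eq_zero_of_notMem _ hu]; simp
    linarith

theorem s11_pointwise {A B : ℝ} (hA : 0 < A) (hB : 0 ≤ B) :
    Real.log A ≤ Real.log (A + B) - B / (A + B) := by
  have h1 : 0 < A + B := by linarith
  have h2 : Real.log (A / (A + B)) ≤ A / (A + B) - 1 := Real.log_le_sub_one_of_pos (by positivity)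
  rw [Real.log_div hA.ne' h1.ne'] at h2
  have h3 : A / (A + B) - 1 = - (B / (A + B)) := by field_simp; ring
  linarith

theorem s11_circle {f g : ℂ → ℂ} {ρ : ℝ} (hρ : 0 ≤ ρ)
    (hf : AnalyticOnNhd ℂ f (closedBall 0 ρ)) (hg : AnalyticOnNhd ℂ g (closedBall 0 ρ))
    (h0 : f 0 ≠ 0) (hne : ∀ ζ ∈ closedBall (0:ℂ) ρ, 0 < ‖f ζ‖ ^ 2 + ‖g ζ‖ ^ 2) :
    2 * Real.log ‖f 0‖ ≤ Real.circleAverage
      (fun ζ => Real.log (‖f ζ‖ ^ 2 + ‖g ζ‖ ^ 2) - ‖g ζ‖ ^ 2 / (‖f ζ‖ ^ 2 + ‖g ζ‖ ^ 2)) 0 ρ := by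
  rcases hρ.eq_or_lt with rfl | hρ'
  · rw [Real.circleAverage_zero]
    have := s11_pointwise (A := ‖f 0‖ ^ 2) (B := ‖g 0‖ ^ 2) (by positivity) (by positivity)
    rwa [Real.log_pow] at this
  · have habs : |ρ| = ρ := abs_of_pos hρ'
    set F₂ : ℂ → ℝ := fun ζ =>
      Real.log (‖f ζ‖ ^ 2 + ‖g ζ‖ ^ 2) - ‖g ζ‖ ^ 2 / (‖f ζ‖ ^ 2 + ‖g ζ‖ ^ 2) with hF₂
    set F₀ : ℂ → ℝ := fun ζ => 2 * Real.log ‖f ζ‖ with hF₀
    set F₁ : ℂ → ℝ := fun ζ => min (F₀ ζ) (F₂ ζ) with hF₁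
    have hsub : sphere (0 : ℂ) ρ ⊆ closedBall 0 ρ := sphere_subset_closedBall
    have hcf : ContinuousOn f (sphere 0 ρ) := hf.continuousOn.mono hsub
    have hcg : ContinuousOn g (sphere 0 ρ) := hg.continuousOn.mono hsub
    have hi₂ : CircleIntegrable F₂ 0 ρ := by
      apply ContinuousOn.circleIntegrable hρ
      have h1 : ContinuousOn (fun ζ => ‖f ζ‖ ^ 2 + ‖g ζ‖ ^ 2) (sphere 0 ρ) :=
        (hcf.norm.pow 2).add (hcg.norm.pow 2)
      exact (h1.log fun ζ hζ => (hne ζ (hsub hζ)).ne').sub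
        ((hcg.norm.pow 2).div h1 fun ζ hζ => (hne ζ (hsub hζ)).ne')
    have hi₀ : CircleIntegrable F₀ 0 ρ := by
      have := MeromorphicOn.circleIntegrable_log_norm (f := f) (c := 0) (R := ρ)
        (by rw [habs]; exact (hf.mono hsub).meromorphicOn)
      exact this.const_smul (a := (2 : ℝ))
    have hcod : F₀ =ᶠ[Filter.codiscreteWithin (sphere (0 : ℂ) |ρ|)] F₁ := by
      rw [habs]
      have h1 : f ⁻¹' {0}ᶜ ∈ Filter.codiscreteWithin (closedBall (0:ℂ) ρ) :=
        hf.preimage_zero_mem_codiscreteWithin h0 (by simp [hρ])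
          ⟨⟨0, by simp [hρ]⟩, (convex_closedBall 0 ρ).isPreconnected⟩
      filter_upwards [Filter.codiscreteWithin_mono hsub h1] with ζ hζ
      have hζ' : f ζ ≠ 0 := hζ
      have := s11_pointwise (A := ‖f ζ‖ ^ 2) (B := ‖g ζ‖ ^ 2) (by positivity) (by positivity)
      rw [Real.log_pow] at this
      simp only [hF₁, hF₀, hF₂]
      rw [min_eq_left]
      exact_mod_cast this
    have hi₁ : CircleIntegrable F₁ 0 ρ := hi₀.congr_codiscreteWithin hcod
    calc 2 * Real.log ‖f 0‖ ≤ 2 * Real.circleAverage (fun ζ => Real.log ‖f ζ‖) 0 ρ := by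
          have := s11_jensen hρ hf h0
          linarith
      _ = Real.circleAverage F₀ 0 ρ := by
          rw [hF₀, ← smul_eq_mul, ← Real.circleAverage_fun_smul]
          rfl
      _ = Real.circleAverage F₁ 0 ρ := Real.circleAverage_congr_codiscreteWithin hcod hρ'.ne'
      _ ≤ Real.circleAverage F₂ 0 ρ :=
          Real.circleAverage_mono hi₁ hi₂ fun ζ _ => min_le_right _ _



/-! ### disc coordinates and rotations -/

/-- the disc coordinate centred at `z` -/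
noncomputable def zt (z w : ℍ) : ℂ := ((w : ℂ) - z) / ((w : ℂ) - (starRingEnd ℂ) (z : ℂ))

/-- inverse of the disc coordinate -/
noncomputable def psi (z : ℍ) (ζ : ℂ) : ℂ := ((z : ℂ) - (starRingEnd ℂ) (z : ℂ) * ζ) / (1 - ζ)

/-- hyperbolic rotation around `z` -/
noncomputable def rot (z : ℍ) (θ : ℝ) : SL(2, ℝ) :=
  ⟨!![Real.cos θ + z.re / z.im * Real.sin θ, -((z.re ^ 2 + z.im ^ 2) / z.im * Real.sin θ);
      Real.sin θ / z.im, Real.cos θ - z.re / z.im * Real.sin θ], by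
    have h := z.im_ne_zero
    have h2 := Real.sin_sq_add_cos_sq θ
    rw [Matrix.det_fin_two_of]
    field_simp
    linear_combination (z.im ^ 2) * h2⟩

theorem zt_denom_ne (z w : ℍ) : (w : ℂ) - (starRingEnd ℂ) (z : ℂ) ≠ 0 := by
  intro h
  have := congrArg Complex.im h
  simp at this
  have h1 := z.im_pos
  have h2 := w.im_pos
  linarith

theorem norm_zt_eq (z w : ℍ) : ‖zt z w‖ = Real.tanh (dist z w / 2) := by
  rw [tanh_half_dist, zt, norm_div, ← dist_eq_norm, ← dist_eq_norm, dist_comm,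
    dist_comm (w : ℂ), Complex.dist_conj_comm]

theorem norm_zt_lt (z w : ℍ) : ‖zt z w‖ < 1 := by
  rw [norm_zt_eq]; exact Real.tanh_lt_one _

theorem dist_le_of_norm_zt_le (z w v : ℍ) (h : ‖zt z w‖ ≤ ‖zt z v‖) : dist z w ≤ dist z v := by
  rw [norm_zt_eq, norm_zt_eq] at h
  have := Real.artanh_le_artanh (Real.neg_one_lt_tanh _) (Real.tanh_lt_one _) h
  rw [Real.artanh_tanh, Real.artanh_tanh] at this
  linarith

theorem psi_im_pos (z : ℍ) (ζ : ℂ) (h : ‖ζ‖ < 1) : 0 < (psi z ζ).im := by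
  have h1 : (1 - ζ) ≠ 0 := by
    intro h0
    have : ζ = 1 := by linear_combination -h0
    rw [this] at h
    simp at h
  have h2 : 0 < Complex.normSq (1 - ζ) := Complex.normSq_pos.mpr h1
  have h3 : ζ.re ^ 2 + ζ.im ^ 2 < 1 := by
    have : ‖ζ‖ ^ 2 < 1 := by nlinarith [norm_nonneg ζ]
    rw [← Complex.normSq_eq_norm_sq, Complex.normSq_apply] at this
    nlinarith
  have h4 : (psi z ζ).im = z.im * (1 - (ζ.re ^ 2 + ζ.im ^ 2)) / Complex.normSq (1 - ζ) := by
    rw [psi, Complex.div_im]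
    field_simp
    simp
    ring
  rw [h4]
  have := z.im_pos
  apply div_pos _ h2
  apply mul_pos this
  linarith

theorem psi_zt (z w : ℍ) : psi z (zt z w) = w := by
  have h1 := zt_denom_ne z w
  have h2 : (z : ℂ) - (starRingEnd ℂ) (z : ℂ) ≠ 0 := zt_denom_ne z z
  have h3 : 1 - zt z w ≠ 0 := by
    rw [zt, one_sub_div h1]
    apply div_ne_zero _ h1
    convert h2 using 1
    ring
  rw [psi, div_eq_iff h3, zt]
  field_simp
  ring

theorem zt_ofComplex_psi (z : ℍ) (ζ : ℂ) (h : ‖ζ‖ < 1) : zt z (ofComplex (psi z ζ)) = ζ := by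
  have h1 : (1 - ζ) ≠ 0 := by
    intro h0
    have : ζ = 1 := by linear_combination -h0
    rw [this] at h
    simp at h
  have h2 : (z : ℂ) - (starRingEnd ℂ) (z : ℂ) ≠ 0 := zt_denom_ne z z
  have h3 : ((ofComplex (psi z ζ) : ℍ) : ℂ) = psi z ζ := by
    rw [ofComplex_apply_of_im_pos (psi_im_pos z ζ h)]
  rw [zt, h3, psi]
  have h4 : ((z : ℂ) - (starRingEnd ℂ) (z : ℂ) * ζ) / (1 - ζ) - (starRingEnd ℂ) (z : ℂ) =
    ((z : ℂ) - (starRingEnd ℂ) (z : ℂ)) / (1 - ζ) := by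
    field_simp; ring
  have h5 : ((z : ℂ) - (starRingEnd ℂ) (z : ℂ) * ζ) / (1 - ζ) - z =
    ζ * ((z : ℂ) - (starRingEnd ℂ) (z : ℂ)) / (1 - ζ) := by
    field_simp; ring
  rw [h4, h5]
  field_simp

theorem rot_smul (z w : ℍ) (φ : ℝ) :
    ((rot z (-(φ / 2)) • w : ℍ) : ℂ) = psi z (Complex.exp (φ * Complex.I) * zt z w) := by
  have h1 := zt_denom_ne z w
  have h2 : (z : ℂ) - (starRingEnd ℂ) (z : ℂ) ≠ 0 := zt_denom_ne z z
  have hnorm : ‖Complex.exp (φ * Complex.I) * zt z w‖ < 1 := by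
    rw [norm_mul, Complex.norm_exp_ofReal_mul_I, one_mul]; exact norm_zt_lt z w
  have h3 : 1 - Complex.exp (φ * Complex.I) * zt z w ≠ 0 := by
    intro h0
    have : Complex.exp (φ * Complex.I) * zt z w = 1 := by linear_combination -h0
    rw [this] at hnorm
    simp at hnorm
  have hy : (z.im : ℂ) ≠ 0 := by exact_mod_cast z.im_ne_zero
  have hden : (((rot z (-(φ / 2))) 1 0 : ℝ) : ℂ) * w + (((rot z (-(φ / 2))) 1 1 : ℝ) : ℂ) ≠ 0 := by
    have := UpperHalfPlane.denom_ne_zero (Matrix.SpecialLinearGroup.toGL (rot z (-(φ / 2)))) w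
    exact this
  rw [coe_specialLinearGroup_apply]
  simp only [Algebra.algebraMap_self, RingHom.id_apply]
  rw [psi, div_eq_div_iff hden h3]
  have e1 : Complex.exp (φ * Complex.I) =
      (Complex.cos (φ / 2) + Complex.sin (φ / 2) * Complex.I) ^ 2 := by
    rw [← Complex.exp_mul_I, ← Complex.exp_nat_mul]
    congr 1
    push_cast
    ring
  have hz : (z : ℂ) = z.re + z.im * Complex.I := by
    apply Complex.ext <;> simp
  have hzc : (starRingEnd ℂ) (z : ℂ) = z.re - z.im * Complex.I := by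
    apply Complex.ext <;> simp
  have e2 := Complex.sin_sq_add_cos_sq (φ / 2)
  rw [e1, zt]
  simp only [rot]
  simp only [Matrix.of_apply, Matrix.cons_val', Matrix.cons_val_zero,
    Matrix.cons_val_one, Matrix.cons_val_fin_one, Matrix.empty_val']
  push_cast
  simp only [Complex.cos_neg, Complex.sin_neg]
  rw [hzc] at h1 ⊢
  rw [hz]
  generalize Complex.cos (φ / 2) = c at *
  generalize Complex.sin (φ / 2) = s at *
  generalize (w : ℂ) = W at *
  generalize (z.im : ℂ) = y at *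
  generalize (z.re : ℂ) = x at *
  field_simp
  have hI : Complex.I ^ 2 = -1 := Complex.I_sq
  linear_combination (-(y * (W - (x - y * Complex.I)) * (W - (x + y * Complex.I)) *
      (c + s * Complex.I))) * e2 +
    (y * (W - (x - y * Complex.I)) * (W - (x + y * Complex.I)) * (c + s * Complex.I) * s ^ 2 +
      s * y ^ 2 * (W - (x - y * Complex.I) - (c + s * Complex.I) ^ 2 *
        (W - (x + y * Complex.I)))) * hI

theorem rot_smul_self (z : ℍ) (φ : ℝ) : rot z (-(φ / 2)) • z = z := by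
  apply UpperHalfPlane.ext
  rw [rot_smul, zt, sub_self, zero_div, mul_zero, psi]
  simp

theorem continuous_rot (z : ℍ) : Continuous (rot z) := by
  apply Continuous.subtype_mk
  apply continuous_matrix
  intro i j
  fin_cases i <;> fin_cases j <;> simp <;> fun_prop

instance smulInvSL : SMulInvariantMeasure SL(2, ℝ) ℍ volume where
  measure_preimage_smul g s _ :=
    measure_preimage_smul (μ := volume) (Matrix.SpecialLinearGroup.toGL g) s

theorem dist_rot (z w : ℍ) (φ : ℝ) : dist z (rot z (-(φ / 2)) • w) = dist z w := by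
  calc dist z (rot z (-(φ / 2)) • w) =
      dist (rot z (-(φ / 2)) • z) (rot z (-(φ / 2)) • w) := by rw [rot_smul_self]
    _ = dist z w := dist_smul _ _ _

theorem integral_rot (z : ℍ) (R : ℝ) (F : ℍ → ℝ) (φ : ℝ) :
    ∫ w in closedBall z R, F (rot z (-(φ / 2)) • w) = ∫ w in closedBall z R, F w := by
  have hmp : MeasurePreserving (fun w : ℍ => rot z (-(φ / 2)) • w) volume volume :=
    measurePreserving_smul _ _
  have hemb : MeasurableEmbedding (fun w : ℍ => rot z (-(φ / 2)) • w) :=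
    (Homeomorph.smul (rot z (-(φ / 2)))).measurableEmbedding
  rw [← hmp.setIntegral_preimage_emb hemb F (closedBall z R)]
  congr 2
  ext w
  simp only [Set.mem_preimage, mem_closedBall]
  rw [dist_comm, dist_comm (rot z (-(φ / 2)) • w), dist_rot]

theorem integral_circle (z w : ℍ) (F : ℍ → ℝ) :
    ∫ φ in (0 : ℝ)..(2 * Real.pi), F (rot z (-(φ / 2)) • w) =
      (2 * Real.pi) * Real.circleAverage (fun ζ => F (ofComplex (psi z ζ))) 0 ‖zt z w‖ := by
  rw [Real.circleAverage_eq_integral_add (Complex.arg (zt z w)), smul_eq_mul,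
    mul_inv_cancel_left₀ (by positivity)]
  congr 1
  ext φ
  congr 1
  have : circleMap 0 ‖zt z w‖ (φ + Complex.arg (zt z w)) = Complex.exp (φ * Complex.I) * zt z w := by
    rw [circleMap]
    push_cast
    rw [add_mul, Complex.exp_add, zero_add]
    conv_rhs => rw [← Complex.norm_mul_exp_arg_mul_I (zt z w)]
    ring
  rw [this, ← rot_smul, ofComplex_apply]

theorem ball_circle (z : ℍ) (R : ℝ) (F : ℍ → ℝ) (hF : ContinuousOn F (closedBall z R))
    (h : ∀ w ∈ closedBall z R,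
      0 ≤ Real.circleAverage (fun ζ => F (ofComplex (psi z ζ))) 0 ‖zt z w‖) :
    0 ≤ ∫ w in closedBall z R, F w := by
  have hswap : ∫ φ in (0 : ℝ)..(2 * Real.pi), ∫ w in closedBall z R, F (rot z (-(φ / 2)) • w) =
      ∫ w in closedBall z R, ∫ φ in (0 : ℝ)..(2 * Real.pi), F (rot z (-(φ / 2)) • w) := by
    simp only [intervalIntegral.integral_of_le (by positivity : (0 : ℝ) ≤ 2 * Real.pi)]
    apply MeasureTheory.integral_integral_swap
    have hcont : ContinuousOn (Function.uncurry fun (φ : ℝ) (w : ℍ) => F (rot z (-(φ / 2)) • w))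
        (Set.Icc 0 (2 * Real.pi) ×ˢ closedBall z R) := by
      apply hF.comp
      · apply Continuous.continuousOn
        have h1 : Continuous (fun x : ℝ × ℍ => rot z (-(x.1 / 2))) :=
          (continuous_rot z).comp (by fun_prop)
        exact h1.smul continuous_snd
      · rintro ⟨φ, w⟩ ⟨-, hw⟩
        rw [mem_closedBall] at hw ⊢
        rw [dist_comm, dist_rot, dist_comm]
        exact hw
    have hint := hcont.integrableOn_compact (μ := (volume : Measure ℝ).prod (volume : Measure ℍ))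
      (isCompact_Icc.prod (isCompact_closedBall z R))
    rw [IntegrableOn, ← Measure.prod_restrict] at hint
    apply hint.mono_measure
    apply Measure.prod_mono
    · exact Measure.restrict_mono Set.Ioc_subset_Icc_self le_rfl
    · exact le_rfl
  simp only [integral_rot, integral_circle] at hswap
  rw [intervalIntegral.integral_const, smul_eq_mul, sub_zero] at hswap
  have h2 : 0 ≤ ∫ w in closedBall z R,
      (2 * Real.pi) * Real.circleAverage (fun ζ => F (ofComplex (psi z ζ))) 0 ‖zt z w‖ := by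
    apply setIntegral_nonneg measurableSet_closedBall
    intro w hw
    exact mul_nonneg (by positivity) (h w hw)
  rw [← hswap] at h2
  exact (mul_nonneg_iff_of_pos_left (by positivity)).mp h2

theorem volume_closedBall_eq (z : ℍ) (R : ℝ) :
    volume (closedBall z R) = volume (closedBall (UpperHalfPlane.I : ℍ) R) := by
  have : closedBall z R = z.toSL2R • closedBall (UpperHalfPlane.I : ℍ) R := by
    rw [Metric.smul_closedBall, toSL2R_smul_I]
  rw [this, measure_smul]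

theorem volume_closedBall_ne_zero (z : ℍ) (R : ℝ) (hR : 0 < R) : volume (closedBall z R) ≠ 0 := by
  intro h
  have hcont : Continuous (fun z : ℍ => (1 / NNReal.mk z.im z.im_pos.le) ^ 2) := by
    refine .pow (.div₀ continuous_const ?_ ?_) _
    · exact continuous_im.subtype_mk _
    · exact fun x ↦ NNReal.ne_iff.mp x.im_ne_zero
  rw [volume_def, withDensity_apply_eq_zero hcont.measurable.coe_nnreal_ennreal] at h
  have h1 : {x : ℍ | (((1 / NNReal.mk x.im x.im_pos.le) ^ 2 : NNReal) : ℝ≥0∞) ≠ 0} = Set.univ := by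
    ext x
    simp only [Set.mem_ofPred_eq, Set.mem_univ, iff_true, ne_eq, ENNReal.coe_eq_zero]
    apply pow_ne_zero
    apply one_div_ne_zero
    exact NNReal.ne_iff.mp x.im_ne_zero
  rw [h1, Set.univ_inter, measurableEmbedding_coe.comap_apply, image_coe_closedBall] at h
  have h2 : 0 < z.im * Real.sinh R := mul_pos z.im_pos (Real.sinh_pos_iff.mpr hR)
  exact (measure_closedBall_pos volume _ h2).ne' h


/-! ### scaling and continuity -/

section scaling

theorem s11_par {x y : ℂ × ℂ} (hx : x ≠ 0) (hy : y ≠ 0) (h : wd x y = 0) :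
    ∃ c : ℂ, c ≠ 0 ∧ x = c • y := by
  have h' : x.1 * y.2 = x.2 * y.1 := by rw [wd] at h; linear_combination h
  have hy' : y.1 ≠ 0 ∨ y.2 ≠ 0 := by
    by_contra hc
    push Not at hc
    exact hy (Prod.ext hc.1 hc.2)
  rcases hy' with h1 | h1
  · have e : x = (x.1 / y.1) • y := by
      ext
      · simp [h1]
      · simp only [Prod.smul_snd, smul_eq_mul]
        field_simp
        linear_combination -h'
    refine ⟨x.1 / y.1, ?_, e⟩
    intro h0
    rw [h0, zero_smul] at e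
    exact hx e
  · have e : x = (x.2 / y.2) • y := by
      ext
      · simp only [Prod.smul_fst, smul_eq_mul]
        field_simp
        linear_combination h'
      · simp [h1]
    refine ⟨x.2 / y.2, ?_, e⟩
    intro h0
    rw [h0, zero_smul] at e
    exact hx e

theorem wd_smul_right (c : ℂ) (x y : ℂ × ℂ) : wd x (c • y) = c * wd x y := by
  simp only [wd, Prod.smul_fst, Prod.smul_snd, smul_eq_mul]; ring

theorem hm_smul_right (c : ℂ) (x y : ℂ × ℂ) : hm x (c • y) = c * hm x y := by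
  simp only [hm, Prod.smul_fst, Prod.smul_snd, smul_eq_mul]; ring

theorem hb_smul_right (p : ℂ × ℂ) (r : ℝ) (c : ℂ) (x y : ℂ × ℂ) :
    hb p r x (c • y) = c * hb p r x y := by
  simp only [hb, hm_smul_right, wd_smul_right]; ring

theorem nq_smul (c : ℂ) (x : ℂ × ℂ) : nq (c • x) = ‖c‖ ^ 2 * nq x := by
  simp only [nq, Prod.smul_fst, Prod.smul_snd, smul_eq_mul, norm_mul]; ring

theorem hr_smul (p : ℂ × ℂ) (r : ℝ) (c : ℂ) (x : ℂ × ℂ) :
    hr p r (c • x) = ‖c‖ ^ 2 * hr p r x := by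
  simp only [hr, hm_smul_right, wd_smul_right, norm_mul]; ring

theorem fr_smul (p : ℂ × ℂ) (r : ℝ) {c : ℂ} (hc : c ≠ 0) (x : ℂ × ℂ) :
    fr p r (c • x) = fr p r x := by
  have : ‖c‖ ^ 2 ≠ 0 := by positivity
  rw [fr, fr, hr_smul, nq_smul, mul_div_mul_left _ _ this]

theorem qr_smul_right (p : ℂ × ℂ) (r : ℝ) {c : ℂ} (hc : c ≠ 0) (x y : ℂ × ℂ) :
    qr p r x (c • y) = qr p r x y := by
  have : ‖c‖ ^ 2 ≠ 0 := by positivity
  rw [qr, qr, hr_smul, wd_smul_right, norm_mul, mul_pow, mul_left_comm (hr p r x),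
    mul_div_mul_left _ _ this]

theorem nq_pos {x : ℂ × ℂ} (hx : x ≠ 0) : 0 < nq x := by
  have : x.1 ≠ 0 ∨ x.2 ≠ 0 := by
    by_contra hc
    push Not at hc
    exact hx (Prod.ext hc.1 hc.2)
  rw [nq]
  rcases this with h | h
  · have := norm_pos_iff.mpr h
    positivity
  · have := norm_pos_iff.mpr h
    positivity

theorem hr_pos {p : ℂ × ℂ} (hp : nq p = 1) {r : ℝ} (hr0 : 0 < r) {x : ℂ × ℂ} (hx : x ≠ 0) :
    0 < hr p r x := by
  have h1 := s11_lagrange p x
  have h2 := nq_pos hx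
  rw [hp, one_mul] at h1
  rw [hr]
  by_contra hc
  have h3 : 0 ≤ r * ‖hm p x‖ ^ 2 := by positivity
  have h4 : 0 ≤ r⁻¹ * ‖wd p x‖ ^ 2 := by positivity
  have h5 : r * ‖hm p x‖ ^ 2 = 0 := by linarith
  have h6 : r⁻¹ * ‖wd p x‖ ^ 2 = 0 := by linarith
  have h7 : ‖hm p x‖ ^ 2 = 0 := by
    rcases mul_eq_zero.mp h5 with h | h
    · exact absurd h hr0.ne'
    · exact h
  have h8 : ‖wd p x‖ ^ 2 = 0 := by
    rcases mul_eq_zero.mp h6 with h | h
    · exact absurd h (inv_ne_zero hr0.ne')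
    · exact h
  linarith

@[fun_prop]
theorem continuous_wd (x : ℂ × ℂ) : Continuous (wd x) := by unfold wd; fun_prop
@[fun_prop]
theorem continuous_hm (x : ℂ × ℂ) : Continuous (hm x) := by unfold hm; fun_prop
@[fun_prop]
theorem continuous_hr (p : ℂ × ℂ) (r : ℝ) : Continuous (hr p r) := by unfold hr; fun_prop
@[fun_prop]
theorem continuous_nq : Continuous nq := by unfold nq; fun_prop

/-- locally, `X` is a nonzero multiple of a lift -/
theorem lift_eventually {X : ℍ → ℂ × ℂ} (hX : ∀ z, X z ≠ 0) {v : ℍ} {g : ℂ → ℂ × ℂ}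
    (hg : IsLift X v g) : ∀ᶠ w : ℍ in 𝓝 v, g w ≠ 0 ∧ ∃ c : ℂ, c ≠ 0 ∧ X w = c • g w := by
  obtain ⟨ha, hne, hw⟩ := hg
  have h1 : ContinuousAt (fun w : ℍ => g w) v :=
    ContinuousAt.comp (f := UpperHalfPlane.coe) (g := g) ha.continuousAt
      continuous_coe.continuousAt
  filter_upwards [hw, h1.eventually_ne hne] with w h2 h3
  exact ⟨h3, s11_par (hX w) h3 h2⟩

theorem continuousAt_F {X : ℍ → ℂ × ℂ} (hX : ProjHol X) {p : ℂ × ℂ} (hp : nq p = 1) {r : ℝ}
    (hr0 : 0 < r) {e : ℂ × ℂ} (he : e ≠ 0) (v : ℍ) :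
    ContinuousAt (fun w => fr p r (X w)) v ∧ ContinuousAt (fun w => qr p r e (X w)) v := by
  obtain ⟨g, hg⟩ := hX.2 v
  have hev := lift_eventually hX.1 hg
  have h1 : ContinuousAt (fun w : ℍ => g w) v :=
    ContinuousAt.comp (f := UpperHalfPlane.coe) (g := g) hg.1.continuousAt
      continuous_coe.continuousAt
  have hgv : g v ≠ 0 := hg.2.1
  have h2 : ContinuousAt (fun w : ℍ => hr p r (g w)) v := (continuous_hr p r).continuousAt.comp h1
  have h3 : ContinuousAt (fun w : ℍ => nq (g w)) v := continuous_nq.continuousAt.comp h1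
  have h4 : ContinuousAt (fun w : ℍ => wd e (g w)) v := (continuous_wd e).continuousAt.comp h1
  constructor
  · have : (fun w => fr p r (X w)) =ᶠ[𝓝 v] fun w : ℍ => fr p r (g w) := by
      filter_upwards [hev] with w hw
      obtain ⟨-, c, hc, hw⟩ := hw
      rw [hw, fr_smul p r hc]
    rw [continuousAt_congr this]
    exact (h2.div h3 (nq_pos hgv).ne').log (div_pos (hr_pos hp hr0 hgv) (nq_pos hgv)).ne'
  · have : (fun w => qr p r e (X w)) =ᶠ[𝓝 v] fun w : ℍ => qr p r e (g w) := by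
      filter_upwards [hev] with w hw
      obtain ⟨-, c, hc, hw⟩ := hw
      rw [hw, qr_smul_right p r hc]
    rw [continuousAt_congr this]
    exact (h4.norm.pow 2).div (continuousAt_const.mul h2)
      (mul_pos (hr_pos hp hr0 he) (hr_pos hp hr0 hgv)).ne'

theorem analyticAt_psi (z : ℍ) (ζ : ℂ) (h : ‖ζ‖ < 1) : AnalyticAt ℂ (psi z) ζ := by
  have h1 : (1 - ζ) ≠ 0 := by
    intro h0
    have : ζ = 1 := by linear_combination -h0
    rw [this] at h
    simp at h
  unfold psi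
  fun_prop (disch := exact h1)

theorem analyticAt_ratio {X : ℍ → ℂ × ℂ} (hX : ProjHol X) (z : ℍ) (ζ : ℂ) (h : ‖ζ‖ < 1)
    (L M : ℂ × ℂ →L[ℂ] ℂ) (hM : M (X (ofComplex (psi z ζ))) ≠ 0) :
    AnalyticAt ℂ (fun ζ => L (X (ofComplex (psi z ζ))) / M (X (ofComplex (psi z ζ)))) ζ := by
  set v := ofComplex (psi z ζ) with hv
  have hvc : (v : ℂ) = psi z ζ := by
    rw [hv, ofComplex_apply_of_im_pos (psi_im_pos z ζ h)]
  obtain ⟨g, hg⟩ := hX.2 v
  have hev := lift_eventually hX.1 hg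
  have hpsi := analyticAt_psi z ζ h
  have hcont : ContinuousAt (fun ζ => ofComplex (psi z ζ)) ζ := by
    apply ContinuousAt.comp (g := ofComplex) _ hpsi.continuousAt
    rw [← hvc]
    have := (mdifferentiableAt_ofComplex (z := (v : ℂ)) v.im_pos).continuousAt
    exact this
  have hg1 : AnalyticAt ℂ g (psi z ζ) := hvc ▸ hg.1
  have hg2 : AnalyticAt ℂ (fun ζ => g (psi z ζ)) ζ := hg1.comp hpsi
  have hL : AnalyticAt ℂ (fun ζ => L (g (psi z ζ))) ζ := (L.analyticAt _).comp hg2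
  have hM' : AnalyticAt ℂ (fun ζ => M (g (psi z ζ))) ζ := (M.analyticAt _).comp hg2
  have hM0 : M (g (psi z ζ)) ≠ 0 := by
    obtain ⟨-, c, hc, hw⟩ := hev.self_of_nhds
    rw [hw, hvc, map_smul, smul_eq_mul] at hM
    exact right_ne_zero_of_mul hM
  refine (hL.div hM' hM0).congr ?_
  have hpos : ∀ᶠ ζ' in 𝓝 ζ, ‖ζ'‖ < 1 :=
    (continuous_norm.continuousAt.eventually_lt continuousAt_const h)
  filter_upwards [hcont.eventually hev, hpos] with ζ' hζ' hn
  obtain ⟨-, c, hc, hw⟩ := hζ'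
  have hvc' : ((ofComplex (psi z ζ') : ℍ) : ℂ) = psi z ζ' := by
    rw [ofComplex_apply_of_im_pos (psi_im_pos z ζ' hn)]
  rw [hvc'] at hw
  rw [hw, map_smul, map_smul, smul_eq_mul, smul_eq_mul]
  simp only [Pi.div_apply]
  rw [mul_div_mul_left _ _ hc]

end scaling

/-! ### the inequality -/

section main

/-- `hm p` as a continuous linear map -/
noncomputable def Lhm (p : ℂ × ℂ) : ℂ × ℂ →L[ℂ] ℂ :=
  (starRingEnd ℂ) p.1 • ContinuousLinearMap.fst ℂ ℂ ℂ +
    (starRingEnd ℂ) p.2 • ContinuousLinearMap.snd ℂ ℂ ℂ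

/-- `wd p` as a continuous linear map -/
noncomputable def Lwd (p : ℂ × ℂ) : ℂ × ℂ →L[ℂ] ℂ :=
  p.1 • ContinuousLinearMap.snd ℂ ℂ ℂ - p.2 • ContinuousLinearMap.fst ℂ ℂ ℂ

/-- `hb p r e` as a continuous linear map -/
noncomputable def Lhb (p : ℂ × ℂ) (r : ℝ) (e : ℂ × ℂ) : ℂ × ℂ →L[ℂ] ℂ :=
  (r * (starRingEnd ℂ) (hm p e)) • Lhm p + ((r : ℂ)⁻¹ * (starRingEnd ℂ) (wd p e)) • Lwd p

theorem Lhm_apply (p x : ℂ × ℂ) : Lhm p x = hm p x := by
  simp [Lhm, hm]

theorem Lwd_apply (p x : ℂ × ℂ) : Lwd p x = wd p x := by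
  simp [Lwd, wd]

theorem Lhb_apply (p : ℂ × ℂ) (r : ℝ) (e x : ℂ × ℂ) : Lhb p r e x = hb p r e x := by
  simp only [Lhb, hb, add_apply, smul_apply, Lhm_apply,
    Lwd_apply, smul_eq_mul]
  ring

theorem hm_self (e : ℂ × ℂ) : hm e e = (nq e : ℂ) := by
  rw [hm, nq]
  push_cast
  rw [← Complex.conj_mul', ← Complex.conj_mul']

theorem hb_self (p : ℂ × ℂ) (r : ℝ) (e : ℂ × ℂ) : hb p r e e = (hr p r e : ℂ) := by
  rw [hb, hr]
  push_cast
  rw [← Complex.conj_mul', ← Complex.conj_mul']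

/-- the pointwise inequality -/
theorem s11_main_pointwise {η : ℝ} (hη' : η ≤ 1 / 2) (hη : 0 ≤ η) {p : ℂ × ℂ} (hp : nq p = 1)
    {r : ℝ} (hr0 : 0 < r) {e x : ℂ × ℂ} (he : e ≠ 0) (hx : x ≠ 0) (hch : ch e x ≤ η ^ 2) :
    hm e x ≠ 0 ∧ 0 < ‖hb p r e x / hm e x‖ ^ 2 + ‖wd e x / hm e x‖ ^ 2 ∧
    (Real.log (‖hb p r e x / hm e x‖ ^ 2 + ‖wd e x / hm e x‖ ^ 2) -
      ‖wd e x / hm e x‖ ^ 2 / (‖hb p r e x / hm e x‖ ^ 2 + ‖wd e x / hm e x‖ ^ 2)) -
      2 * fr p r e ≤ fr p r x - fr p r e - qr p r e x + 2 * η ^ 2 := by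
  have hne := nq_pos he
  have hnx := nq_pos hx
  have hre := hr_pos hp hr0 he
  have hrx := hr_pos hp hr0 hx
  have hN : 0 < nq e * nq x := mul_pos hne hnx
  have h1 : ‖wd e x‖ ^ 2 ≤ η ^ 2 * (nq e * nq x) := by
    rw [ch, div_le_iff₀ hN] at hch
    exact hch
  have h2 := s11_lagrange e x
  have h3 : η ^ 2 ≤ 1 / 4 := by nlinarith
  have h4 : 3 / 4 * (nq e * nq x) ≤ ‖hm e x‖ ^ 2 := by nlinarith
  have h5 : 0 < ‖hm e x‖ ^ 2 := by nlinarith
  have h6 : hm e x ≠ 0 := by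
    intro h0
    rw [h0] at h5
    simp at h5
  have h7 : ‖hb p r e x / hm e x‖ ^ 2 + ‖wd e x / hm e x‖ ^ 2 =
      hr p r e * hr p r x / ‖hm e x‖ ^ 2 := by
    rw [s11_form p hp r hr0, norm_div, norm_div, div_pow, div_pow, add_div]
  have h8 : 0 < hr p r e * hr p r x / ‖hm e x‖ ^ 2 := by positivity
  refine ⟨h6, by rw [h7]; exact h8, ?_⟩
  rw [h7]
  have h9 : ‖wd e x / hm e x‖ ^ 2 / (hr p r e * hr p r x / ‖hm e x‖ ^ 2) = qr p r e x := by
    rw [norm_div, div_pow, qr]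
    field_simp
  rw [h9, fr, fr, Real.log_div (by positivity) h5.ne', Real.log_mul hre.ne' hrx.ne',
    Real.log_div hrx.ne' hnx.ne', Real.log_div hre.ne' hne.ne']
  have h10 : Real.log (nq e * nq x / ‖hm e x‖ ^ 2) ≤ nq e * nq x / ‖hm e x‖ ^ 2 - 1 :=
    Real.log_le_sub_one_of_pos (by positivity)
  rw [Real.log_div hN.ne' h5.ne', Real.log_mul hne.ne' hnx.ne'] at h10
  have h11 : nq e * nq x / ‖hm e x‖ ^ 2 - 1 ≤ 2 * η ^ 2 := by
    rw [sub_le_iff_le_add, div_le_iff₀ h5]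
    nlinarith [mul_nonneg (sq_nonneg η) hN.le, mul_le_mul_of_nonneg_left h4 (sq_nonneg η)]
  linarith

theorem s11_circle_nonneg {R η : ℝ} (hη : 0 ≤ η) (hη' : η ≤ 1 / 2)
    {X : ℍ → ℂ × ℂ} (hX : ProjHol X)
    (hL : ∀ z w : ℍ, dist z w ≤ R → ch (X z) (X w) ≤ η ^ 2)
    {p : ℂ × ℂ} (hp : nq p = 1) {r : ℝ} (hr0 : 0 < r) (z w : ℍ) (hw : dist z w ≤ R) :
    0 ≤ Real.circleAverage (fun ζ => (fun w => fr p r (X w) - fr p r (X z) - qr p r (X z) (X w) +
      2 * η ^ 2) (ofComplex (psi z ζ))) 0 ‖zt z w‖ := by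
  have hρ : 0 ≤ ‖zt z w‖ := norm_nonneg _
  have hρ1 : ‖zt z w‖ < 1 := norm_zt_lt z w
  set F : ℍ → ℝ := fun w => fr p r (X w) - fr p r (X z) - qr p r (X z) (X w) + 2 * η ^ 2 with hF
  have hFc : Continuous F := by
    rw [continuous_iff_continuousAt]
    intro v
    obtain ⟨h1, h2⟩ := continuousAt_F hX hp hr0 (hX.1 z) v
    exact ((h1.sub continuousAt_const).sub h2).add continuousAt_const
  set e := X z with he
  have he0 : e ≠ 0 := hX.1 z
  set f : ℂ → ℂ := fun ζ => hb p r e (X (ofComplex (psi z ζ))) / hm e (X (ofComplex (psi z ζ)))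
    with hf
  set g : ℂ → ℂ := fun ζ => wd e (X (ofComplex (psi z ζ))) / hm e (X (ofComplex (psi z ζ)))
    with hg
  have hball : ∀ ζ ∈ closedBall (0 : ℂ) ‖zt z w‖, ‖ζ‖ < 1 ∧
      ch e (X (ofComplex (psi z ζ))) ≤ η ^ 2 := by
    intro ζ hζ
    have h1 : ‖ζ‖ ≤ ‖zt z w‖ := by simpa using hζ
    have h2 : ‖ζ‖ < 1 := lt_of_le_of_lt h1 hρ1
    refine ⟨h2, hL _ _ ?_⟩
    refine le_trans ?_ hw
    apply dist_le_of_norm_zt_le
    rw [zt_ofComplex_psi z ζ h2]
    exact h1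
  have hpt : ∀ ζ ∈ closedBall (0 : ℂ) ‖zt z w‖, _ := fun ζ hζ =>
    s11_main_pointwise hη' hη hp hr0 he0 (hX.1 (ofComplex (psi z ζ))) (hball ζ hζ).2
  have hfa : AnalyticOnNhd ℂ f (closedBall 0 ‖zt z w‖) := by
    intro ζ hζ
    have := analyticAt_ratio hX z ζ (hball ζ hζ).1 (Lhb p r e) (Lhm e)
      (by rw [Lhm_apply]; exact (hpt ζ hζ).1)
    simpa only [Lhm_apply, Lhb_apply] using this
  have hga : AnalyticOnNhd ℂ g (closedBall 0 ‖zt z w‖) := by
    intro ζ hζ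
    have := analyticAt_ratio hX z ζ (hball ζ hζ).1 (Lwd e) (Lhm e)
      (by rw [Lhm_apply]; exact (hpt ζ hζ).1)
    simpa only [Lhm_apply, Lwd_apply] using this
  have hf0 : f 0 = ((hr p r e / nq e : ℝ) : ℂ) := by
    have : ofComplex (psi z 0) = z := by
      rw [psi, mul_zero, sub_zero, sub_zero, div_one, ofComplex_apply]
    simp only [hf, this]
    rw [← he, hm_self, hb_self]
    push_cast
    rfl
  have hpos : 0 < hr p r e / nq e := div_pos (hr_pos hp hr0 he0) (nq_pos he0)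
  have hf0' : f 0 ≠ 0 := by
    rw [hf0]
    exact_mod_cast hpos.ne'
  have hlog : Real.log ‖f 0‖ = fr p r e := by
    rw [hf0, Complex.norm_real, Real.norm_eq_abs, abs_of_pos hpos, fr]
  have hne : ∀ ζ ∈ closedBall (0:ℂ) ‖zt z w‖, 0 < ‖f ζ‖ ^ 2 + ‖g ζ‖ ^ 2 := fun ζ hζ =>
    (hpt ζ hζ).2.1
  have key := s11_circle hρ hfa hga hf0' hne
  rw [hlog] at key
  have hsub : sphere (0 : ℂ) ‖zt z w‖ ⊆ closedBall 0 ‖zt z w‖ := sphere_subset_closedBall
  have hcf : ContinuousOn f (sphere 0 ‖zt z w‖) := hfa.continuousOn.mono hsub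
  have hcg : ContinuousOn g (sphere 0 ‖zt z w‖) := hga.continuousOn.mono hsub
  have hi₂ : CircleIntegrable (fun ζ => Real.log (‖f ζ‖ ^ 2 + ‖g ζ‖ ^ 2) -
      ‖g ζ‖ ^ 2 / (‖f ζ‖ ^ 2 + ‖g ζ‖ ^ 2)) 0 ‖zt z w‖ := by
    apply ContinuousOn.circleIntegrable hρ
    have h1 : ContinuousOn (fun ζ => ‖f ζ‖ ^ 2 + ‖g ζ‖ ^ 2) (sphere 0 ‖zt z w‖) :=
      (hcf.norm.pow 2).add (hcg.norm.pow 2)
    exact (h1.log fun ζ hζ => (hne ζ (hsub hζ)).ne').sub
      ((hcg.norm.pow 2).div h1 fun ζ hζ => (hne ζ (hsub hζ)).ne')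
  have hi₃ : CircleIntegrable (fun _ : ℂ => 2 * fr p r e) 0 ‖zt z w‖ :=
    circleIntegrable_const _ _ _
  have hi₁ : CircleIntegrable (fun ζ => F (ofComplex (psi z ζ))) 0 ‖zt z w‖ := by
    apply ContinuousOn.circleIntegrable hρ
    intro ζ hζ
    apply ContinuousAt.continuousWithinAt
    apply ContinuousAt.comp (g := F) hFc.continuousAt
    have hn := (hball ζ (hsub hζ)).1
    apply ContinuousAt.comp (g := ofComplex) _ (analyticAt_psi z ζ hn).continuousAt
    exact (mdifferentiableAt_ofComplex (psi_im_pos z ζ hn)).continuousAt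
  calc (0 : ℝ) ≤ Real.circleAverage (fun ζ => Real.log (‖f ζ‖ ^ 2 + ‖g ζ‖ ^ 2) -
        ‖g ζ‖ ^ 2 / (‖f ζ‖ ^ 2 + ‖g ζ‖ ^ 2)) 0 ‖zt z w‖ -
        Real.circleAverage (fun _ : ℂ => 2 * fr p r e) 0 ‖zt z w‖ := by
        rw [Real.circleAverage_const]
        linarith
    _ = Real.circleAverage (fun ζ => (Real.log (‖f ζ‖ ^ 2 + ‖g ζ‖ ^ 2) -
        ‖g ζ‖ ^ 2 / (‖f ζ‖ ^ 2 + ‖g ζ‖ ^ 2)) - 2 * fr p r e) 0 ‖zt z w‖ :=
        (Real.circleAverage_fun_sub hi₂ hi₃).symm
    _ ≤ _ := by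
        apply Real.circleAverage_mono (hi₂.sub hi₃) hi₁
        intro ζ hζ
        rw [abs_of_nonneg hρ] at hζ
        exact (hpt ζ (hsub hζ)).2.2

theorem energy_inequality (R η : ℝ) (hR : 0 < R) (hη : 0 ≤ η) (hη' : η ≤ 1 / 2)
    (X : ℍ → ℂ × ℂ) (hX : ProjHol X)
    (hL : ∀ z w : ℍ, dist z w ≤ R + 1 → ch (X z) (X w) ≤ η ^ 2)
    (p : ℂ × ℂ) (hp : nq p = 1) (r : ℝ) (hr : 0 < r) (z : ℍ) :
    Av R (fun w => qr p r (X z) (X w)) z ≤
      Av R (fun w => fr p r (X w)) z - fr p r (X z) + 2 * η ^ 2 := by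
  have hc1 : Continuous (fun w => fr p r (X w)) :=
    continuous_iff_continuousAt.mpr fun v => (continuousAt_F hX hp hr (hX.1 z) v).1
  have hc2 : Continuous (fun w => qr p r (X z) (X w)) :=
    continuous_iff_continuousAt.mpr fun v => (continuousAt_F hX hp hr (hX.1 z) v).2
  have hcomp : IsCompact (closedBall z R) := isCompact_closedBall z R
  have hi1 : IntegrableOn (fun w => fr p r (X w)) (closedBall z R) volume :=
    hc1.continuousOn.integrableOn_compact hcomp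
  have hi2 : IntegrableOn (fun w => qr p r (X z) (X w)) (closedBall z R) volume :=
    hc2.continuousOn.integrableOn_compact hcomp
  have hfin : volume (closedBall z R) ≠ ∞ := hcomp.measure_lt_top.ne
  have hi3 : IntegrableOn (fun _ : ℍ => 2 * η ^ 2 - fr p r (X z)) (closedBall z R) volume :=
    integrableOn_const hfin
  have hbv : bv R = (volume (closedBall z R)).toReal := by rw [bv, volume_closedBall_eq z R]
  have hbv0 : 0 < bv R := by
    rw [hbv]
    exact ENNReal.toReal_pos (volume_closedBall_ne_zero z R hR) hfin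
  have hmain : 0 ≤ ∫ w in closedBall z R,
      (fr p r (X w) - fr p r (X z) - qr p r (X z) (X w) + 2 * η ^ 2) := by
    apply ball_circle z R
    · exact (((hc1.sub continuous_const).sub hc2).add continuous_const).continuousOn
    · intro w hw
      exact s11_circle_nonneg (R := R) hη hη' hX (fun a b hab => hL a b (by linarith)) hp hr z w
        (by rw [mem_closedBall] at hw; rwa [dist_comm])
  have heq : ∫ w in closedBall z R,
      (fr p r (X w) - fr p r (X z) - qr p r (X z) (X w) + 2 * η ^ 2) =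
      (∫ w in closedBall z R, fr p r (X w)) - (∫ w in closedBall z R, qr p r (X z) (X w)) +
        bv R * (2 * η ^ 2 - fr p r (X z)) := by
    have : (fun w => fr p r (X w) - fr p r (X z) - qr p r (X z) (X w) + 2 * η ^ 2) =
        fun w => (fr p r (X w) - qr p r (X z) (X w)) + (2 * η ^ 2 - fr p r (X z)) := by
      ext w; ring
    have h12 : IntegrableOn (fun w => fr p r (X w) - qr p r (X z) (X w)) (closedBall z R) volume :=
      hi1.sub hi2
    rw [this, integral_add h12 hi3, integral_sub hi1 hi2, setIntegral_const, smul_eq_mul, hbv]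
    rfl
  rw [heq] at hmain
  simp only [Av, smul_eq_mul]
  rw [← sub_nonneg]
  have : (bv R)⁻¹ * (∫ w in closedBall z R, fr p r (X w)) - fr p r (X z) + 2 * η ^ 2 -
      (bv R)⁻¹ * (∫ w in closedBall z R, qr p r (X z) (X w)) = (bv R)⁻¹ *
      ((∫ w in closedBall z R, fr p r (X w)) - (∫ w in closedBall z R, qr p r (X z) (X w)) +
        bv R * (2 * η ^ 2 - fr p r (X z))) := by
    field_simp
    ring
  rw [this]
  exact mul_nonneg (inv_nonneg.mpr hbv0.le) hmain

end main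

end Pool.Agent.H369R2
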