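import Mathlib
import Pool.Agent.H369R2.Defs

open UpperHalfPlane MeasureTheory Metric ModularGroup CongruenceSubgroup
open scoped MatrixGroups ENNReal Modular Topology

namespace Pool.Agent.H369R2

namespace S12b

/-- the cut-off -/
noncomputable def ph (t : ℝ) : ℝ := max 0 (min 1 (2 - t))

theorem ph_nonneg (t : ℝ) : 0 ≤ ph t := le_max_left _ _

theorem ph_le_one (t : ℝ) : ph t ≤ 1 := max_le zero_le_one (min_le_left _ _)

theorem ph_diff {a b : ℝ} (h : a ≤ b) : 0 ≤ ph a - ph b ∧ ph a - ph b ≤ b - a := by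
  unfold ph
  constructor
  · rw [sub_nonneg]
    exact max_le_max le_rfl (min_le_min le_rfl (by linarith))
  · rcases le_total 1 (2 - a) with h1 | h1 <;> rcases le_total 1 (2 - b) with h2 | h2 <;>
      rcases le_total 0 (2 - a) with h3 | h3 <;> rcases le_total 0 (2 - b) with h4 | h4 <;>
      simp only [min_eq_left, min_eq_right, max_eq_left, max_eq_right, h1, h2, h3, h4, zero_le_one] <;>
      linarith

theorem ph_zero {a : ℝ} (h : 2 ≤ a) : ph a = 0 := by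
  unfold ph
  rw [max_eq_left]
  exact (min_le_right _ _).trans (by linarith)

theorem real_ineq_aux (s s' c c' r W : ℝ) (hs : 0 ≤ s) (hss : s ≤ s') (hc : c ^ 2 + s ^ 2 = 1)
    (hc' : c' ^ 2 + s' ^ 2 = 1) (hr : 0 < r) (hW : (s - s') ^ 2 ≤ W) :
    (ph (s / r) - ph (s' / r)) ^ 2 ≤ 100 * (W / ((r * c ^ 2 + r⁻¹ * s ^ 2) * (r * c' ^ 2 + r⁻¹ * s' ^ 2))) := by
  have hW0 : 0 ≤ W := (sq_nonneg _).trans hW
  have hpos : ∀ a b : ℝ, a ^ 2 + b ^ 2 = 1 → 0 < r * a ^ 2 + r⁻¹ * b ^ 2 := by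
    intro a b hab
    rcases eq_or_ne b 0 with hb | hb
    · subst hb
      have : a ^ 2 = 1 := by linarith
      rw [this]; simpa using hr
    · have h1 : 0 < r⁻¹ * b ^ 2 := by positivity
      have h2 : 0 ≤ r * a ^ 2 := by positivity
      linarith
  have hh := hpos c s hc
  have hh' := hpos c' s' hc'
  have hr' : s / r ≤ s' / r := by gcongr
  obtain ⟨d0, d1⟩ := ph_diff hr'
  by_cases h2 : 2 * r ≤ s
  · rw [ph_zero (by rw [le_div_iff₀ hr]; exact h2), ph_zero (by rw [le_div_iff₀ hr]; linarith)]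
    simp only [sub_self, ne_eq, OfNat.ofNat_ne_zero, not_false_eq_true, zero_pow]
    positivity
  push Not at h2
  have e1 : r * c ^ 2 + r⁻¹ * s ^ 2 ≤ 5 * r := by
    have h3 : s ^ 2 ≤ 4 * r ^ 2 := by nlinarith
    have h4 : r⁻¹ * s ^ 2 ≤ r⁻¹ * (4 * r ^ 2) := by gcongr
    have h5 : r⁻¹ * (4 * r ^ 2) = 4 * r := by field_simp
    have h6 : r * c ^ 2 ≤ r * 1 := by
      apply mul_le_mul_of_nonneg_left _ hr.le
      nlinarith [sq_nonneg s]
    linarith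
  by_cases h4 : s' ≤ 4 * r
  · have e2 : r * c' ^ 2 + r⁻¹ * s' ^ 2 ≤ 17 * r := by
      have h3 : s' ^ 2 ≤ 16 * r ^ 2 := by nlinarith
      have h4 : r⁻¹ * s' ^ 2 ≤ r⁻¹ * (16 * r ^ 2) := by gcongr
      have h5 : r⁻¹ * (16 * r ^ 2) = 16 * r := by field_simp
      have h6 : r * c' ^ 2 ≤ r * 1 := by
        apply mul_le_mul_of_nonneg_left _ hr.le
        nlinarith [sq_nonneg s']
      linarith
    have e3 : (r * c ^ 2 + r⁻¹ * s ^ 2) * (r * c' ^ 2 + r⁻¹ * s' ^ 2) ≤ 85 * r ^ 2 := by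
      calc _ ≤ (5 * r) * (17 * r) := mul_le_mul e1 e2 hh'.le (by positivity)
        _ = 85 * r ^ 2 := by ring
    have e4 : (ph (s / r) - ph (s' / r)) ^ 2 ≤ W / r ^ 2 := by
      calc (ph (s / r) - ph (s' / r)) ^ 2 ≤ (s' / r - s / r) ^ 2 := by gcongr
        _ = (s - s') ^ 2 / r ^ 2 := by field_simp; ring
        _ ≤ W / r ^ 2 := by gcongr
    refine e4.trans ?_
    have e5 : W / (85 * r ^ 2) ≤ W / ((r * c ^ 2 + r⁻¹ * s ^ 2) * (r * c' ^ 2 + r⁻¹ * s' ^ 2)) := by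
      apply div_le_div_of_nonneg_left hW0 (by positivity) e3
    have e6 : W / r ^ 2 ≤ 100 * (W / (85 * r ^ 2)) := by
      have : 100 * (W / (85 * r ^ 2)) = (100 / 85) * (W / r ^ 2) := by field_simp
      rw [this]
      have : 0 ≤ W / r ^ 2 := by positivity
      linarith
    linarith
  · push Not at h4
    have hs' : 0 < s' := by linarith
    have e2 : r * c' ^ 2 + r⁻¹ * s' ^ 2 ≤ 17 / 16 * (r⁻¹ * s' ^ 2) := by
      have h3 : 16 * r ^ 2 ≤ s' ^ 2 := by nlinarith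
      have h5 : r⁻¹ * (16 * r ^ 2) = 16 * r := by field_simp
      have h4 : r⁻¹ * (16 * r ^ 2) ≤ r⁻¹ * s' ^ 2 := by gcongr
      have h6 : r * c' ^ 2 ≤ r * 1 := by
        apply mul_le_mul_of_nonneg_left _ hr.le
        nlinarith [sq_nonneg s']
      linarith
    have e3 : (r * c ^ 2 + r⁻¹ * s ^ 2) * (r * c' ^ 2 + r⁻¹ * s' ^ 2) ≤ 85 / 16 * s' ^ 2 := by
      calc _ ≤ (5 * r) * (17 / 16 * (r⁻¹ * s' ^ 2)) := mul_le_mul e1 e2 hh'.le (by positivity)
        _ = 85 / 16 * s' ^ 2 := by field_simp; norm_num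
    have e4 : (ph (s / r) - ph (s' / r)) ^ 2 ≤ 1 := by
      have h1 : ph (s / r) - ph (s' / r) ≤ 1 := by
        have := ph_le_one (s / r); have := ph_nonneg (s' / r); linarith
      nlinarith
    refine e4.trans ?_
    have e5 : W / (85 / 16 * s' ^ 2) ≤ W / ((r * c ^ 2 + r⁻¹ * s ^ 2) * (r * c' ^ 2 + r⁻¹ * s' ^ 2)) := by
      apply div_le_div_of_nonneg_left hW0 (by positivity) e3
    have e6 : s' ^ 2 / 4 ≤ W := by
      refine le_trans ?_ hW
      nlinarith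
    have e7 : 1 ≤ 100 * (W / (85 / 16 * s' ^ 2)) := by
      rw [← mul_div_assoc, le_div_iff₀ (by positivity)]
      nlinarith
    linarith

theorem real_ineq (s s' c c' r W : ℝ) (hs : 0 ≤ s) (hs' : 0 ≤ s') (hc : c ^ 2 + s ^ 2 = 1)
    (hc' : c' ^ 2 + s' ^ 2 = 1) (hr : 0 < r) (hW : (s - s') ^ 2 ≤ W) :
    (ph (s / r) - ph (s' / r)) ^ 2 ≤ 100 * (W / ((r * c ^ 2 + r⁻¹ * s ^ 2) * (r * c' ^ 2 + r⁻¹ * s' ^ 2))) := by
  rcases le_total s s' with h | h
  · exact real_ineq_aux s s' c c' r W hs h hc hc' hr hW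
  · have := real_ineq_aux s' s c' c r W hs' h hc' hc hr (by
      have : (s' - s) ^ 2 = (s - s') ^ 2 := by ring
      rw [this]; exact hW)
    rw [mul_comm (r * c ^ 2 + r⁻¹ * s ^ 2)]
    calc _ = (ph (s' / r) - ph (s / r)) ^ 2 := by ring
      _ ≤ _ := this

theorem nq_pos {x : ℂ × ℂ} (hx : x ≠ 0) : 0 < nq x := by
  unfold nq
  rcases eq_or_ne x.1 0 with h | h
  · have h2 : x.2 ≠ 0 := by
      intro h2; exact hx (Prod.ext h h2)
    have : 0 < ‖x.2‖ ^ 2 := by positivity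
    have : 0 ≤ ‖x.1‖ ^ 2 := by positivity
    linarith
  · have : 0 < ‖x.1‖ ^ 2 := by positivity
    have : 0 ≤ ‖x.2‖ ^ 2 := by positivity
    linarith

theorem lagrange (p x : ℂ × ℂ) : ‖hm p x‖ ^ 2 + ‖wd p x‖ ^ 2 = nq p * nq x := by
  unfold hm wd nq
  simp only [Complex.sq_norm, Complex.normSq_apply, Complex.add_re, Complex.add_im, Complex.sub_re,
    Complex.sub_im, Complex.mul_re, Complex.mul_im, Complex.conj_re, Complex.conj_im]
  ring

theorem wd_decomp (p x y : ℂ × ℂ) : ((nq p : ℝ) : ℂ) * wd x y = hm p x * wd p y - wd p x * hm p y := by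
  unfold hm wd nq
  have h1 : ((‖p.1‖ ^ 2 : ℝ) : ℂ) = (starRingEnd ℂ) p.1 * p.1 := by
    rw [Complex.conj_mul']; push_cast; ring
  have h2 : ((‖p.2‖ ^ 2 : ℝ) : ℂ) = (starRingEnd ℂ) p.2 * p.2 := by
    rw [Complex.conj_mul']; push_cast; ring
  rw [Complex.ofReal_add, h1, h2]
  ring

end S12b

open S12b

/-- The cut-off function is Lipschitz for the rescaled chordal metric. -/
theorem cutoff_lipschitz (p : ℂ × ℂ) (hp : nq p = 1) (r : ℝ) (hr : 0 < r) (hr1 : r ≤ 1)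
    (x y : ℂ × ℂ) (hx : x ≠ 0) (hy : y ≠ 0) :
    (max 0 (min 1 (2 - √(ch x p) / r)) - max 0 (min 1 (2 - √(ch y p) / r))) ^ 2 ≤
      100 * qr p r x y := by
  have hnx := nq_pos hx
  have hny := nq_pos hy
  set n := nq x with hn
  set m := nq y with hm'
  have hsn : 0 < √n := Real.sqrt_pos.mpr hnx
  have hsm : 0 < √m := Real.sqrt_pos.mpr hny
  have hsn2 : √n ^ 2 = n := Real.sq_sqrt hnx.le
  have hsm2 : √m ^ 2 = m := Real.sq_sqrt hny.le
  have hwd : ∀ a b : ℂ × ℂ, ‖wd a b‖ = ‖wd b a‖ := by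
    intro a b
    have : wd a b = - wd b a := by unfold wd; ring
    rw [this, norm_neg]
  have hchx : √(ch x p) = ‖wd p x‖ / √n := by
    unfold ch
    rw [hp, mul_one, hwd x p, Real.sqrt_div (by positivity), Real.sqrt_sq (norm_nonneg _), ← hn]
  have hchy : √(ch y p) = ‖wd p y‖ / √m := by
    unfold ch
    rw [hp, mul_one, hwd y p, Real.sqrt_div (by positivity), Real.sqrt_sq (norm_nonneg _), ← hm']
  have lx := lagrange p x
  have ly := lagrange p y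
  rw [hp, one_mul] at lx ly
  have hcx : (‖hm p x‖ / √n) ^ 2 + (‖wd p x‖ / √n) ^ 2 = 1 := by
    rw [div_pow, div_pow, hsn2, ← add_div, lx, ← hn, div_self hnx.ne']
  have hcy : (‖hm p y‖ / √m) ^ 2 + (‖wd p y‖ / √m) ^ 2 = 1 := by
    rw [div_pow, div_pow, hsm2, ← add_div, ly, ← hm', div_self hny.ne']
  -- the lower bound of the wedge
  have hW : (‖wd p x‖ / √n - ‖wd p y‖ / √m) ^ 2 ≤ ‖wd x y‖ ^ 2 / (n * m) := by
    set s := ‖wd p x‖ / √n with hs
    set s' := ‖wd p y‖ / √m with hs'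
    set c := ‖hm p x‖ / √n with hc
    set c' := ‖hm p y‖ / √m with hc'
    have hs0 : 0 ≤ s := by positivity
    have hs0' : 0 ≤ s' := by positivity
    have hc0 : 0 ≤ c := by positivity
    have hc0' : 0 ≤ c' := by positivity
    have h1 : |‖hm p x‖ * ‖wd p y‖ - ‖wd p x‖ * ‖hm p y‖| ≤ ‖wd x y‖ := by
      have h := wd_decomp p x y
      rw [hp, Complex.ofReal_one, one_mul] at h
      rw [h, ← norm_mul, ← norm_mul]
      exact abs_norm_sub_norm_le _ _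
    have h2 : (c * s' - s * c') ^ 2 ≤ ‖wd x y‖ ^ 2 / (n * m) := by
      have e : c * s' - s * c' = (‖hm p x‖ * ‖wd p y‖ - ‖wd p x‖ * ‖hm p y‖) / (√n * √m) := by
        rw [hs, hs', hc, hc']; field_simp
      rw [e, div_pow, mul_pow, hsn2, hsm2]
      apply div_le_div_of_nonneg_right _ (by positivity)
      rw [← sq_abs (‖hm p x‖ * ‖wd p y‖ - ‖wd p x‖ * ‖hm p y‖)]
      gcongr
    refine le_trans ?_ h2
    have h3 : s * s' + c * c' ≤ 1 := by nlinarith [sq_nonneg (s - s'), sq_nonneg (c - c')]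
    have h4 : 0 ≤ s * s' := mul_nonneg hs0 hs0'
    nlinarith [mul_nonneg h4 (sub_nonneg.mpr h3)]
  have key := real_ineq (‖wd p x‖ / √n) (‖wd p y‖ / √m) (‖hm p x‖ / √n) (‖hm p y‖ / √m) r
    (‖wd x y‖ ^ 2 / (n * m)) (by positivity) (by positivity) hcx hcy hr hW
  rw [hchx, hchy]
  refine key.trans (le_of_eq ?_)
  unfold qr Pool.Agent.H369R2.hr
  congr 1
  have e1 : r * (‖hm p x‖ / √n) ^ 2 + r⁻¹ * (‖wd p x‖ / √n) ^ 2 =
      (r * ‖hm p x‖ ^ 2 + r⁻¹ * ‖wd p x‖ ^ 2) / n := by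
    rw [div_pow, div_pow, hsn2]; field_simp
  have e2 : r * (‖hm p y‖ / √m) ^ 2 + r⁻¹ * (‖wd p y‖ / √m) ^ 2 =
      (r * ‖hm p y‖ ^ 2 + r⁻¹ * ‖wd p y‖ ^ 2) / m := by
    rw [div_pow, div_pow, hsm2]; field_simp
  rw [e1, e2, div_mul_div_comm, div_div_div_cancel_right₀ (by positivity)]

end Pool.Agent.H369R2
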