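import Mathlib
import Pool.Agent.H369R2.Defs
import Pool.Agent.H369R2.S12b

open UpperHalfPlane MeasureTheory Metric ModularGroup CongruenceSubgroup
open scoped MatrixGroups ENNReal Modular Topology

namespace Pool.Agent.H369R2

namespace S12a

open S12b

/-- orthogonal vector -/
noncomputable def pp (p : ℂ × ℂ) : ℂ × ℂ := (-(starRingEnd ℂ) p.2, (starRingEnd ℂ) p.1)

/-- first chart -/
noncomputable def v1 (p : ℂ × ℂ) (t : ℂ) : ℂ × ℂ := p + t • pp p

/-- second chart -/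
noncomputable def v2 (p : ℂ × ℂ) (t : ℂ) : ℂ × ℂ := pp p + t • p

theorem wd_v1 (p x : ℂ × ℂ) (t : ℂ) : wd x (v1 p t) = t * hm p x - wd p x := by
  simp only [wd, hm, v1, pp, Prod.fst_add, Prod.snd_add, Prod.smul_fst, Prod.smul_snd, smul_eq_mul]
  ring

theorem wd_v2 (p x : ℂ × ℂ) (t : ℂ) : wd x (v2 p t) = hm p x - t * wd p x := by
  simp only [wd, hm, v2, pp, Prod.fst_add, Prod.snd_add, Prod.smul_fst, Prod.smul_snd, smul_eq_mul]
  ring

theorem nq_v1 (p : ℂ × ℂ) (t : ℂ) : nq (v1 p t) = nq p * (1 + ‖t‖ ^ 2) := by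
  simp only [nq, v1, pp, Prod.fst_add, Prod.snd_add, Prod.smul_fst, Prod.smul_snd, smul_eq_mul]
  simp only [Complex.sq_norm, Complex.normSq_apply, Complex.add_re, Complex.add_im, Complex.neg_re,
    Complex.neg_im, Complex.mul_re, Complex.mul_im, Complex.conj_re, Complex.conj_im]
  ring

theorem nq_v2 (p : ℂ × ℂ) (t : ℂ) : nq (v2 p t) = nq p * (1 + ‖t‖ ^ 2) := by
  simp only [nq, v2, pp, Prod.fst_add, Prod.snd_add, Prod.smul_fst, Prod.smul_snd, smul_eq_mul]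
  simp only [Complex.sq_norm, Complex.normSq_apply, Complex.add_re, Complex.add_im, Complex.neg_re,
    Complex.neg_im, Complex.mul_re, Complex.mul_im, Complex.conj_re, Complex.conj_im]
  ring

theorem norm_wd_comm (a b : ℂ × ℂ) : ‖wd a b‖ = ‖wd b a‖ := by
  have : wd a b = - wd b a := by unfold wd; ring
  rw [this, norm_neg]

/-- rounding to the grid -/
theorem exists_grid (u : ℂ) (r : ℝ) (hr : 0 < r) (hu : ‖u‖ ^ 2 ≤ 8 * r ^ 2) :
    ∃ a ∈ Finset.Icc (-6 : ℤ) 6, ∃ b ∈ Finset.Icc (-6 : ℤ) 6,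
      ‖(⟨a * (r / 2), b * (r / 2)⟩ : ℂ) - u‖ ^ 2 ≤ (r / 2) ^ 2 := by
  have key : ∀ y : ℝ, y ^ 2 ≤ 8 * r ^ 2 → ∃ a ∈ Finset.Icc (-6 : ℤ) 6, (a * (r / 2) - y) ^ 2 ≤ r ^ 2 / 16 := by
    intro y hy
    refine ⟨round (y / (r / 2)), ?_, ?_⟩
    · have h1 := abs_sub_round (y / (r / 2))
      have h2 : |y / (r / 2)| ≤ 5.9 := by
        rw [abs_le]
        have hy' : |y| ≤ 2.9 * r := by
          apply abs_le_of_sq_le_sq _ (by positivity)
          nlinarith [sq_nonneg r]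
        rw [abs_le] at hy'
        constructor
        · rw [le_div_iff₀ (by positivity)]; linarith
        · rw [div_le_iff₀ (by positivity)]; linarith
      rw [abs_le] at h1 h2
      rw [Finset.mem_Icc]
      constructor
      · have : ((-7 : ℤ) : ℝ) < (round (y / (r / 2)) : ℤ) := by push_cast; linarith
        have := Int.cast_lt.mp this
        omega
      · have : ((round (y / (r / 2)) : ℤ) : ℝ) < ((7 : ℤ) : ℝ) := by push_cast; linarith
        have := Int.cast_lt.mp this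
        omega
    · have h1 := abs_sub_round (y / (r / 2))
      have h3 : (round (y / (r / 2)) : ℝ) * (r / 2) - y = -((y / (r / 2) - round (y / (r / 2))) * (r / 2)) := by
        field_simp
        ring
      rw [h3, neg_sq, mul_pow]
      have h4 : (y / (r / 2) - round (y / (r / 2))) ^ 2 ≤ (1 / 2) ^ 2 := by
        rw [← sq_abs]
        gcongr
      calc (y / (r / 2) - round (y / (r / 2))) ^ 2 * (r / 2) ^ 2 ≤ (1 / 2) ^ 2 * (r / 2) ^ 2 := by gcongr
        _ = r ^ 2 / 16 := by ring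
  have hn : ‖u‖ ^ 2 = u.re ^ 2 + u.im ^ 2 := by
    rw [Complex.sq_norm, Complex.normSq_apply]; ring
  obtain ⟨a, ha, ha'⟩ := key u.re (by nlinarith [sq_nonneg u.im])
  obtain ⟨b, hb, hb'⟩ := key u.im (by nlinarith [sq_nonneg u.re])
  refine ⟨a, ha, b, hb, ?_⟩
  rw [Complex.sq_norm, Complex.normSq_apply]
  simp only [Complex.sub_re, Complex.sub_im]
  nlinarith

/-- the centres of the covering balls -/
noncomputable def ctr (p : ℂ × ℂ) (r : ℝ) (k : Bool × ℤ × ℤ) : ℂ × ℂ :=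
  if k.1 then v1 p ⟨k.2.1 * (r / 2), k.2.2 * (r / 2)⟩ else v2 p ⟨k.2.1 * (r / 2), k.2.2 * (r / 2)⟩

/-- the index set of the covering -/
noncomputable def idx : Finset (Bool × ℤ × ℤ) := Finset.univ ×ˢ (Finset.Icc (-6 : ℤ) 6 ×ˢ Finset.Icc (-6 : ℤ) 6)

theorem idx_card : idx.card = 338 := by
  simp [idx]

theorem nq_ctr (p : ℂ × ℂ) (hp : nq p = 1) (r : ℝ) (k : Bool × ℤ × ℤ) : 0 < nq (ctr p r k) := by
  unfold ctr
  split_ifs
  · rw [nq_v1, hp]; positivity
  · rw [nq_v2, hp]; positivity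

theorem cover (p : ℂ × ℂ) (hp : nq p = 1) (r : ℝ) (hr : 0 < r) (x : ℂ × ℂ) (hx : x ≠ 0)
    (h : ch x p ≤ (2 * r) ^ 2) : ∃ k ∈ idx, ch x (ctr p r k) ≤ (r / 2) ^ 2 := by
  have hn := nq_pos hx
  have hl := lagrange p x
  rw [hp, one_mul] at hl
  have hch : ch x p = ‖wd p x‖ ^ 2 / nq x := by
    unfold ch; rw [hp, mul_one, norm_wd_comm]
  rw [hch, div_le_iff₀ hn] at h
  set α := hm p x with hα
  set β := wd p x with hβ
  rcases le_or_gt ‖β‖ ‖α‖ with hab | hab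
  · have hα0 : 0 < ‖α‖ := by
      by_contra hcon
      have h0 : ‖α‖ = 0 := le_antisymm (not_lt.mp hcon) (norm_nonneg _)
      have h1 : ‖β‖ = 0 := le_antisymm (by rw [h0] at hab; exact hab) (norm_nonneg _)
      rw [h0, h1] at hl
      norm_num at hl
      exact hn.ne hl
    have hα1 : α ≠ 0 := by rwa [norm_pos_iff] at hα0
    have hsq : ‖β‖ ^ 2 ≤ ‖α‖ ^ 2 := by gcongr
    have hu : ‖β / α‖ ^ 2 ≤ 8 * r ^ 2 := by
      rw [norm_div, div_pow, div_le_iff₀ (by positivity)]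
      nlinarith [sq_nonneg r]
    obtain ⟨a, ha, b, hb, hab'⟩ := exists_grid (β / α) r hr hu
    refine ⟨(true, a, b), ?_, ?_⟩
    · simp only [idx, Finset.mem_product, Finset.mem_univ, true_and]
      exact ⟨ha, hb⟩
    · set t : ℂ := ⟨a * (r / 2), b * (r / 2)⟩ with ht
      have e : ctr p r (true, a, b) = v1 p t := by simp [ctr, ht]
      rw [e]
      unfold ch
      rw [wd_v1, nq_v1, hp, one_mul, ← hα, ← hβ]
      rw [div_le_iff₀ (by positivity)]
      have e2 : t * α - β = (t - β / α) * α := by field_simp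
      rw [e2, norm_mul, mul_pow]
      have e3 : ‖α‖ ^ 2 ≤ nq x * (1 + ‖t‖ ^ 2) := by
        have : 0 ≤ nq x * ‖t‖ ^ 2 := by positivity
        nlinarith [sq_nonneg ‖β‖]
      calc ‖t - β / α‖ ^ 2 * ‖α‖ ^ 2 ≤ (r / 2) ^ 2 * ‖α‖ ^ 2 := by gcongr
        _ ≤ (r / 2) ^ 2 * (nq x * (1 + ‖t‖ ^ 2)) := by gcongr
  · have hβ0 : 0 < ‖β‖ := lt_of_le_of_lt (norm_nonneg _) hab
    have hβ1 : β ≠ 0 := by rwa [norm_pos_iff] at hβ0
    have hsq : ‖α‖ ^ 2 ≤ ‖β‖ ^ 2 := by gcongr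
    have hr8 : 1 ≤ 8 * r ^ 2 := by
      by_contra hcon
      push Not at hcon
      have : nq x ≤ 2 * ‖β‖ ^ 2 := by linarith
      nlinarith
    have hu : ‖α / β‖ ^ 2 ≤ 8 * r ^ 2 := by
      rw [norm_div, div_pow, div_le_iff₀ (by positivity)]
      nlinarith [sq_nonneg ‖β‖]
    obtain ⟨a, ha, b, hb, hab'⟩ := exists_grid (α / β) r hr hu
    refine ⟨(false, a, b), ?_, ?_⟩
    · simp only [idx, Finset.mem_product, Finset.mem_univ, true_and]
      exact ⟨ha, hb⟩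
    · set t : ℂ := ⟨a * (r / 2), b * (r / 2)⟩ with ht
      have e : ctr p r (false, a, b) = v2 p t := by simp [ctr, ht]
      rw [e]
      unfold ch
      rw [wd_v2, nq_v2, hp, one_mul, ← hα, ← hβ]
      rw [div_le_iff₀ (by positivity)]
      have e2 : α - t * β = -((t - α / β) * β) := by field_simp; ring
      rw [e2, norm_neg, norm_mul, mul_pow]
      have e3 : ‖β‖ ^ 2 ≤ nq x * (1 + ‖t‖ ^ 2) := by
        have : 0 ≤ nq x * ‖t‖ ^ 2 := by positivity
        nlinarith [sq_nonneg ‖α‖]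
      calc ‖t - α / β‖ ^ 2 * ‖β‖ ^ 2 ≤ (r / 2) ^ 2 * ‖β‖ ^ 2 := by gcongr
        _ ≤ (r / 2) ^ 2 * (nq x * (1 + ‖t‖ ^ 2)) := by gcongr

/-- homogeneity -/
theorem ch_smul (x q : ℂ × ℂ) (c : ℂ) (hc : c ≠ 0) : ch x (c • q) = ch x q := by
  unfold ch
  have e1 : wd x (c • q) = c * wd x q := by
    simp only [wd, Prod.smul_fst, Prod.smul_snd, smul_eq_mul]; ring
  have e2 : nq (c • q) = ‖c‖ ^ 2 * nq q := by
    simp only [nq, Prod.smul_fst, Prod.smul_snd, smul_eq_mul, norm_mul]; ring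
  have hc' : ‖c‖ ^ 2 ≠ 0 := by
    have : ‖c‖ ≠ 0 := norm_ne_zero_iff.mpr hc
    positivity
  rw [e1, e2, norm_mul, mul_pow, mul_left_comm, mul_div_mul_left _ _ hc']

/-- a vector can be normalised -/
theorem exists_unit (q : ℂ × ℂ) (hq : 0 < nq q) : ∃ p, nq p = 1 ∧ ∀ x, ch x p = ch x q := by
  have hs : 0 < √(nq q) := Real.sqrt_pos.mpr hq
  refine ⟨(((√(nq q))⁻¹ : ℝ) : ℂ) • q, ?_, fun x => ch_smul x q _ ?_⟩
  · have e2 : nq ((((√(nq q))⁻¹ : ℝ) : ℂ) • q) = ‖(((√(nq q))⁻¹ : ℝ) : ℂ)‖ ^ 2 * nq q := by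
      simp only [nq, Prod.smul_fst, Prod.smul_snd, smul_eq_mul, norm_mul]; ring
    rw [e2, Complex.norm_real, Real.norm_eq_abs, sq_abs, inv_pow, Real.sq_sqrt hq.le,
      inv_mul_cancel₀ hq.ne']
  · rw [Ne, Complex.ofReal_eq_zero]
    exact inv_ne_zero hs.ne'

theorem ch_le_one (x p : ℂ × ℂ) : ch x p ≤ 1 := by
  unfold ch
  have h := lagrange x p
  apply div_le_one_of_le₀
  · nlinarith [sq_nonneg ‖hm x p‖]
  · unfold nq; positivity

theorem ch_near (x p q : ℂ × ℂ) (hx : x ≠ 0) (hp : nq p = 1) (hq : nq q = 1) :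
    ch x p ≤ 2 * ch x q + 2 * nq (p - q) := by
  have hn := nq_pos hx
  have h1 : wd x p = wd x q + wd x (p - q) := by
    simp only [wd, Prod.fst_sub, Prod.snd_sub]; ring
  have h2 : ‖wd x (p - q)‖ ^ 2 ≤ nq x * nq (p - q) := by
    have := lagrange x (p - q)
    nlinarith [sq_nonneg ‖hm x (p - q)‖]
  have h3 : ‖wd x p‖ ≤ ‖wd x q‖ + ‖wd x (p - q)‖ := by
    rw [h1]; exact norm_add_le _ _
  have h4 : ‖wd x p‖ ^ 2 ≤ 2 * ‖wd x q‖ ^ 2 + 2 * ‖wd x (p - q)‖ ^ 2 := by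
    have : ‖wd x p‖ ^ 2 ≤ (‖wd x q‖ + ‖wd x (p - q)‖) ^ 2 := by gcongr
    nlinarith [sq_nonneg (‖wd x q‖ - ‖wd x (p - q)‖)]
  unfold ch
  rw [hp, hq, mul_one, div_le_iff₀ hn]
  have : (2 * (‖wd x q‖ ^ 2 / nq x) + 2 * nq (p - q)) * nq x = 2 * ‖wd x q‖ ^ 2 + 2 * (nq x * nq (p - q)) := by
    field_simp
  rw [this]
  linarith

theorem continuous_nq : Continuous nq := by
  unfold nq
  fun_prop

theorem isCompact_unit : IsCompact {p : ℂ × ℂ | nq p = 1} := by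
  apply Metric.isCompact_of_isClosed_isBounded
  · exact isClosed_eq continuous_nq continuous_const
  · rw [Metric.isBounded_iff_subset_closedBall 0]
    refine ⟨1, fun p hp => ?_⟩
    rw [mem_closedBall_zero_iff, Prod.norm_def]
    have hp' : ‖p.1‖ ^ 2 + ‖p.2‖ ^ 2 = 1 := hp
    apply max_le
    · apply abs_le_of_sq_le_sq' _ zero_le_one |>.2
      nlinarith [sq_nonneg ‖p.2‖]
    · apply abs_le_of_sq_le_sq' _ zero_le_one |>.2
      nlinarith [sq_nonneg ‖p.1‖]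

end S12a

open S12a S12b

theorem exists_scale {Ω : Type*} [MeasurableSpace Ω] (M : Measure Ω) [IsFiniteMeasure M]
    (hM : M Set.univ ≠ 0) (Y : Ω → ℂ × ℂ) (hY : ∀ ω, Y ω ≠ 0)
    (hmeas : ∀ p, Measurable fun ω => ch (Y ω) p)
    (hnull : ∀ p, p ≠ 0 → M {ω | wd (Y ω) p = 0} = 0) (δ : ℝ) (hδ : 0 < δ) (hδ1 : δ ≤ 1) :
    ∃ (p : ℂ × ℂ) (r : ℝ), nq p = 1 ∧ 0 < r ∧ r ≤ 1 ∧
      ENNReal.ofReal δ * M Set.univ ≤ M {ω | ch (Y ω) p ≤ r ^ 2} ∧
      M {ω | ch (Y ω) p ≤ (2 * r) ^ 2} ≤ ENNReal.ofReal (2000 * δ) * M Set.univ := by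
  classical
  set P : ℕ → Prop := fun j => ∃ p, nq p = 1 ∧
    ENNReal.ofReal δ * M Set.univ ≤ M {ω | ch (Y ω) p ≤ ((1 / 2 : ℝ) ^ j) ^ 2} with hP
  -- not all scales
  have hnot : ∃ j, ¬ P j := by
    by_contra hcon
    push Not at hcon
    choose p hp1 hp2 using hcon
    obtain ⟨q, hq, φ, hφ, hlim⟩ := isCompact_unit.tendsto_subseq (x := p) (fun n => hp1 n)
    have hq1 : nq q = 1 := hq
    have hq0 : q ≠ 0 := by
      rintro rfl
      simp [nq] at hq1
    have hpos : 0 < ENNReal.ofReal δ * M Set.univ :=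
      ENNReal.mul_pos (by simpa using hδ) hM
    -- every ball has big measure
    have hball : ∀ ε : ℝ, 0 < ε → ENNReal.ofReal δ * M Set.univ ≤ M {ω | ch (Y ω) q ≤ ε} := by
      intro ε hε
      have hl1 : Filter.Tendsto (fun n => 2 * ((1 / 2 : ℝ) ^ (φ n)) ^ 2 + 2 * nq (q - p (φ n)))
          Filter.atTop (𝓝 (2 * 0 ^ 2 + 2 * nq (q - q))) := by
        apply Filter.Tendsto.add
        · apply Filter.Tendsto.const_mul
          apply Filter.Tendsto.pow
          exact (tendsto_pow_atTop_nhds_zero_of_lt_one (by norm_num) (by norm_num)).comp hφ.tendsto_atTop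
        · apply Filter.Tendsto.const_mul
          exact (continuous_nq.tendsto _).comp (tendsto_const_nhds.sub hlim)
      have e0 : (2 * 0 ^ 2 + 2 * nq (q - q) : ℝ) = 0 := by simp [nq]
      rw [e0] at hl1
      obtain ⟨n, hn⟩ := (hl1.eventually (gt_mem_nhds hε)).exists
      refine (hp2 (φ n)).trans (measure_mono ?_)
      intro ω hω
      simp only [Set.mem_ofPred_eq] at hω ⊢
      have := ch_near (Y ω) q (p (φ n)) (hY ω) hq1 (hp1 _)
      linarith
    have hlim2 : Filter.Tendsto (fun n : ℕ => M {ω | ch (Y ω) q ≤ 1 / ((n : ℝ) + 1)}) Filter.atTop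
        (𝓝 (M (⋂ n : ℕ, {ω | ch (Y ω) q ≤ 1 / ((n : ℝ) + 1)}))) := by
      apply tendsto_measure_iInter_atTop
      · intro n
        exact (measurableSet_le (hmeas q) measurable_const).nullMeasurableSet
      · intro m n hmn ω hω
        simp only [Set.mem_ofPred_eq] at hω ⊢
        refine hω.trans ?_
        apply one_div_le_one_div_of_le (by positivity)
        have : (m : ℝ) ≤ n := by exact_mod_cast hmn
        linarith
      · exact ⟨0, measure_ne_top _ _⟩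
    have hge : ENNReal.ofReal δ * M Set.univ ≤ M (⋂ n : ℕ, {ω | ch (Y ω) q ≤ 1 / ((n : ℝ) + 1)}) :=
      ge_of_tendsto' hlim2 fun n => hball _ (by positivity)
    have hsub : (⋂ n : ℕ, {ω | ch (Y ω) q ≤ 1 / ((n : ℝ) + 1)}) ⊆ {ω | wd (Y ω) q = 0} := by
      intro ω hω
      simp only [Set.mem_iInter, Set.mem_ofPred_eq] at hω ⊢
      have h0 : ch (Y ω) q ≤ 0 := by
        apply le_of_forall_pos_le_add
        intro ε hε
        obtain ⟨n, hn⟩ := exists_nat_one_div_lt hε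
        have := hω n
        linarith
      have hn := nq_pos (hY ω)
      unfold ch at h0
      rw [hq1, mul_one, div_le_iff₀ hn, zero_mul] at h0
      have : ‖wd (Y ω) q‖ = 0 := by
        nlinarith [norm_nonneg (wd (Y ω) q)]
      exact norm_eq_zero.mp this
    have := hge.trans (measure_mono hsub)
    rw [hnull q hq0] at this
    exact absurd this (not_le.mpr hpos)
  -- the first bad scale
  have h0 : P 0 := by
    refine ⟨(1, 0), by simp [nq], ?_⟩
    have : {ω | ch (Y ω) (1, 0) ≤ ((1 / 2 : ℝ) ^ 0) ^ 2} = Set.univ := by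
      ext ω
      simp only [pow_zero, one_pow, Set.mem_ofPred_eq, Set.mem_univ, iff_true]
      exact ch_le_one _ _
    rw [this]
    calc ENNReal.ofReal δ * M Set.univ ≤ 1 * M Set.univ := by
          gcongr
          exact ENNReal.ofReal_le_one.mpr hδ1
      _ = M Set.univ := one_mul _
  set J := Nat.find hnot with hJ
  have hJ1 : ¬ P J := Nat.find_spec hnot
  have hJ0 : J ≠ 0 := by
    intro h
    rw [h] at hJ1
    exact hJ1 h0
  obtain ⟨j, hj⟩ := Nat.exists_eq_succ_of_ne_zero hJ0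
  have hPj : P j := by
    by_contra hcon
    have := Nat.find_min' hnot hcon
    omega
  obtain ⟨p, hp, hpM⟩ := hPj
  have hr : (0 : ℝ) < (1 / 2 : ℝ) ^ j := by positivity
  refine ⟨p, (1 / 2 : ℝ) ^ j, hp, hr, pow_le_one₀ (by norm_num) (by norm_num), hpM, ?_⟩
  have hbad : ∀ k ∈ idx, M {ω | ch (Y ω) (ctr p ((1 / 2 : ℝ) ^ j) k) ≤ ((1 / 2 : ℝ) ^ j / 2) ^ 2} ≤
      ENNReal.ofReal δ * M Set.univ := by
    intro k _
    obtain ⟨p', hp', hpe⟩ := exists_unit _ (nq_ctr p hp ((1 / 2 : ℝ) ^ j) k)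
    by_contra hcon
    push Not at hcon
    apply hJ1
    refine ⟨p', hp', ?_⟩
    have e : ((1 / 2 : ℝ) ^ J) ^ 2 = ((1 / 2 : ℝ) ^ j / 2) ^ 2 := by
      rw [hj, Nat.succ_eq_add_one, pow_succ]; ring
    simp only [hpe, e]
    exact hcon.le
  calc M {ω | ch (Y ω) p ≤ (2 * (1 / 2 : ℝ) ^ j) ^ 2}
      ≤ M (⋃ k ∈ idx, {ω | ch (Y ω) (ctr p ((1 / 2 : ℝ) ^ j) k) ≤ ((1 / 2 : ℝ) ^ j / 2) ^ 2}) := by
        apply measure_mono
        intro ω hω
        simp only [Set.mem_ofPred_eq] at hω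
        obtain ⟨k, hk, hk'⟩ := cover p hp _ hr (Y ω) (hY ω) hω
        simp only [Set.mem_iUnion, Set.mem_ofPred_eq]
        exact ⟨k, hk, hk'⟩
    _ ≤ ∑ k ∈ idx, M {ω | ch (Y ω) (ctr p ((1 / 2 : ℝ) ^ j) k) ≤ ((1 / 2 : ℝ) ^ j / 2) ^ 2} :=
        measure_biUnion_finset_le _ _
    _ ≤ ∑ _k ∈ idx, ENNReal.ofReal δ * M Set.univ := Finset.sum_le_sum hbad
    _ = 338 * (ENNReal.ofReal δ * M Set.univ) := by
        rw [Finset.sum_const, idx_card, nsmul_eq_mul]; norm_num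
    _ ≤ 2000 * (ENNReal.ofReal δ * M Set.univ) := by
        gcongr
        norm_num
    _ = ENNReal.ofReal (2000 * δ) * M Set.univ := by
        rw [ENNReal.ofReal_mul (by norm_num), ← mul_assoc]
        congr 2
        norm_num

end Pool.Agent.H369R2
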