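import Pool.Agent.H369R2.OpA
import Pool.Agent.H369R2.S11
import Pool.Agent.H369R2.S12a
import Pool.Agent.H369R2.S12b

/-! # A uniform gap excludes slowly varying covariant maps -/

open UpperHalfPlane MeasureTheory Metric ModularGroup CongruenceSubgroup
open scoped MatrixGroups ENNReal Modular Topology NNReal ComplexConjugate

namespace Pool.Agent.H369R2

noncomputable section

namespace NoMapAux

lemma ch_smul_left {c : ℂ} (hc : c ≠ 0) (x y : ℂ × ℂ) : ch (c • x) y = ch x y := by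
  have h1 : ‖c‖ ^ 2 ≠ 0 := by positivity
  have h2 : wd (c • x) y = c * wd x y := by simp [wd]; ring
  rw [ch, ch, nq_smul, h2, norm_mul, mul_pow, mul_assoc, mul_div_mul_left _ _ h1]

lemma continuousAt_ch {X : ℍ → ℂ × ℂ} (hX : ProjHol X) (p : ℂ × ℂ) (v : ℍ) :
    ContinuousAt (fun z => ch (X z) p) v := by
  by_cases hp : p = 0
  · have : (fun z => ch (X z) p) = fun _ => 0 := by
      ext z; simp [ch, wd, nq, hp]
    rw [this]; exact continuousAt_const
  obtain ⟨g, hg⟩ := hX.2 v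
  have hev := lift_eventually hX.1 hg
  have h1 : ContinuousAt (fun w : ℍ => g w) v :=
    ContinuousAt.comp (f := UpperHalfPlane.coe) (g := g) hg.1.continuousAt
      continuous_coe.continuousAt
  have hgv : g v ≠ 0 := hg.2.1
  have h3 : ContinuousAt (fun w : ℍ => nq (g w)) v := continuous_nq.continuousAt.comp h1
  have h4' : Continuous (fun x : ℂ × ℂ => wd x p) := by unfold wd; fun_prop
  have h4 : ContinuousAt (fun w : ℍ => wd (g w) p) v := h4'.continuousAt.comp h1
  have : (fun w => ch (X w) p) =ᶠ[𝓝 v] fun w : ℍ => ch (g w) p := by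
    filter_upwards [hev] with w hw
    obtain ⟨-, c, hc, hw⟩ := hw
    rw [hw, ch_smul_left hc]
  rw [continuousAt_congr this]
  exact (h4.norm.pow 2).div (h3.mul continuousAt_const)
    (mul_pos (nq_pos hgv) (nq_pos hp)).ne'

lemma measurable_Av_real {R : ℝ} {f : ℍ → ℝ} (hf : Measurable f) : Measurable (Av R f) := by
  unfold Av
  simp only [smul_eq_mul]
  refine Measurable.const_mul ?_ _
  have h1 : (fun z : ℍ => ∫ w in closedBall z R, f w) =
      fun z : ℍ => ∫ w, Set.indicator {p : ℍ × ℍ | dist p.2 p.1 ≤ R} (fun p => f p.2) (z, w) := by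
    ext z
    rw [← integral_indicator isClosed_closedBall.measurableSet]
    congr 1
  rw [h1]
  have h2 : Measurable (Set.indicator {p : ℍ × ℍ | dist p.2 p.1 ≤ R} (fun p => f p.2)) := by
    refine (hf.comp measurable_snd).indicator ?_
    exact (isClosed_le (continuous_snd.dist continuous_fst) continuous_const).measurableSet
  exact (h2.stronglyMeasurable.integral_prod_right' (ν := (volume : Measure ℍ))).measurable

section cosets

variable {N : ℕ} {Γ : Subgroup SL(2, ℤ)}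

/-- coset representatives -/
def dl (N : ℕ) (Γ : Subgroup SL(2, ℤ)) (i : Gamma N ⧸ Γ.subgroupOf (Gamma N)) : SL(2, ℤ) :=
  ((i.out)⁻¹ : Gamma N)

lemma sum_inv [Fintype (Gamma N ⧸ Γ.subgroupOf (Gamma N))] {φ : ℍ → ℝ}
    (hφ : ∀ γ ∈ Γ, ∀ z, φ (γ • z) = φ z) (γ : SL(2, ℤ)) (hγ : γ ∈ Gamma N) (z : ℍ) :
    ∑ i, φ (dl N Γ i • γ • z) = ∑ i, φ (dl N Γ i • z) := by
  let γ' : Gamma N := ⟨γ, hγ⟩
  let e : (Gamma N ⧸ Γ.subgroupOf (Gamma N)) ≃ (Gamma N ⧸ Γ.subgroupOf (Gamma N)) :=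
    MulAction.toPerm (γ'⁻¹)
  rw [← e.sum_comp (fun i => φ (dl N Γ i • z))]
  refine Finset.sum_congr rfl fun i _ => ?_
  have h1 : (QuotientGroup.mk (γ'⁻¹ * i.out) : Gamma N ⧸ Γ.subgroupOf (Gamma N)) = e i := by
    conv_rhs => rw [← QuotientGroup.out_eq' i]
    rfl
  obtain ⟨h, hh⟩ : ∃ h : Γ.subgroupOf (Gamma N), (e i).out = (γ'⁻¹ * i.out) * h := by
    rw [← h1]
    exact QuotientGroup.mk_out_eq_mul _ _
  have h2 : dl N Γ i * γ = (h : Gamma N) * dl N Γ (e i) := by
    unfold dl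
    rw [hh]
    have : γ = ((γ' : Gamma N) : SL(2, ℤ)) := rfl
    rw [this]
    norm_cast
    group
  rw [← mul_smul, h2, mul_smul, hφ]
  exact h.2

end cosets

lemma intOn {f : ℍ → ℝ} (hf : Continuous f) (z : ℍ) (R : ℝ) : IntegrableOn f (closedBall z R) :=
  hf.continuousOn.integrableOn_compact (isCompact_closedBall z R)

lemma Av_mono {R : ℝ} {f g : ℍ → ℝ} (hf : Continuous f) (hg : Continuous g) (h : ∀ w, f w ≤ g w)
    (z : ℍ) : Av R f z ≤ Av R g z := by
  unfold Av
  simp only [smul_eq_mul]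
  refine mul_le_mul_of_nonneg_left ?_ (inv_nonneg.2 (bv_nonneg R))
  exact setIntegral_mono (intOn hf z R) (intOn hg z R) h

lemma Av_sum {R : ℝ} {ι : Type*} [Fintype ι] {f : ι → ℍ → ℝ} (hf : ∀ i, Continuous (f i)) (z : ℍ) :
    Av R (fun w => ∑ i, f i w) z = ∑ i, Av R (f i) z := by
  unfold Av
  rw [integral_finsetSum _ (fun i _ => intOn (hf i) z R), Finset.smul_sum]

lemma Av_const_mul {R : ℝ} (c : ℝ) (f : ℍ → ℝ) (z : ℍ) :
    Av R (fun w => c * f w) z = c * Av R f z := by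
  unfold Av
  rw [integral_const_mul]
  simp only [smul_eq_mul]
  ring

/-- the cut-off function -/
def GG (X : ℍ → ℂ × ℂ) (p : ℂ × ℂ) (r : ℝ) (z : ℍ) : ℝ := max 0 (min 1 (2 - √(ch (X z) p) / r))

lemma continuous_GG {X : ℍ → ℂ × ℂ} (hX : ProjHol X) (p : ℂ × ℂ) (r : ℝ) :
    Continuous (GG X p r) := by
  have h := continuous_iff_continuousAt.2 (continuousAt_ch hX p)
  unfold GG
  fun_prop

lemma energy_bound {R η : ℝ} (hR : 0 < R) (hη : 0 ≤ η) (hη' : η ≤ 1 / 2)
    {X : ℍ → ℂ × ℂ} (hX : ProjHol X)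
    (hL : ∀ z w : ℍ, dist z w ≤ R + 1 → ch (X z) (X w) ≤ η ^ 2)
    {p : ℂ × ℂ} (hp : nq p = 1) {r : ℝ} (hr : 0 < r) (hr1 : r ≤ 1)
    {ι : Type*} [Fintype ι] (δ : ι → SL(2, ℤ)) (z : ℍ) :
    Av R (fun w => (∑ i, GG X p r (δ i • z) - ∑ i, GG X p r (δ i • w)) ^ 2) z ≤
      100 * (Fintype.card ι : ℝ) * (Av R (fun w => ∑ i, fr p r (X (δ i • w))) z -
        ∑ i, fr p r (X (δ i • z)) + 2 * (Fintype.card ι : ℝ) * η ^ 2) := by
  have cG := continuous_GG hX p r
  have cS : ∀ i, Continuous fun w : ℍ => δ i • w := fun i => cont_smul_int (δ i)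
  have cQ : ∀ z', Continuous fun w : ℍ => qr p r (X z') (X w) := fun z' =>
    continuous_iff_continuousAt.2 fun v => (continuousAt_F hX hp hr (hX.1 z') v).2
  have cF : Continuous fun w : ℍ => fr p r (X w) :=
    continuous_iff_continuousAt.2 fun v => (continuousAt_F hX hp hr (hX.1 I) v).1
  have h1 : ∀ w : ℍ, (∑ i, GG X p r (δ i • z) - ∑ i, GG X p r (δ i • w)) ^ 2 ≤
      100 * (Fintype.card ι : ℝ) * ∑ i, qr p r (X (δ i • z)) (X (δ i • w)) := by
    intro w
    rw [← Finset.sum_sub_distrib]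
    have h2 := sq_sum_le_card_mul_sum_sq (s := (Finset.univ : Finset ι))
      (f := fun i => GG X p r (δ i • z) - GG X p r (δ i • w))
    refine h2.trans ?_
    have h5 : ∑ i, (GG X p r (δ i • z) - GG X p r (δ i • w)) ^ 2 ≤
        100 * ∑ i, qr p r (X (δ i • z)) (X (δ i • w)) := by
      rw [Finset.mul_sum]
      refine Finset.sum_le_sum fun i _ => ?_
      exact cutoff_lipschitz p hp r hr hr1 _ _ (hX.1 _) (hX.1 _)
    rw [Finset.card_univ]
    calc _ ≤ (Fintype.card ι : ℝ) * (100 * ∑ i, qr p r (X (δ i • z)) (X (δ i • w))) :=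
          mul_le_mul_of_nonneg_left h5 (Nat.cast_nonneg _)
      _ = _ := by ring
  refine (Av_mono ?_ ?_ h1 z).trans ?_
  · fun_prop
  · refine continuous_const.mul (continuous_finsetSum _ fun i _ => ?_)
    exact (cQ _).comp (cS i)
  rw [Av_const_mul, Av_sum (f := fun i w => qr p r (X (δ i • z)) (X (δ i • w)))
    (fun i => (cQ _).comp (cS i))]
  refine mul_le_mul_of_nonneg_left ?_ (by positivity)
  rw [Av_sum (f := fun i w => fr p r (X (δ i • w))) (fun i => cF.comp (cS i)),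
    ← Finset.sum_sub_distrib]
  have h3 : 2 * (Fintype.card ι : ℝ) * η ^ 2 = ∑ _i : ι, 2 * η ^ 2 := by
    rw [Finset.sum_const, Finset.card_univ, nsmul_eq_mul]; ring
  rw [h3, ← Finset.sum_add_distrib]
  refine Finset.sum_le_sum fun i _ => ?_
  have h4 := energy_inequality R η hR hη hη' X hX hL p hp r hr (δ i • z)
  rw [Av_smul_int, Av_smul_int] at h4
  exact h4

lemma GG_nonneg (X : ℍ → ℂ × ℂ) (p : ℂ × ℂ) (r : ℝ) (z : ℍ) : 0 ≤ GG X p r z := le_max_left _ _

lemma GG_le_one (X : ℍ → ℂ × ℂ) (p : ℂ × ℂ) (r : ℝ) (z : ℍ) : GG X p r z ≤ 1 :=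
  max_le zero_le_one (min_le_left _ _)

lemma GG_eq_zero (X : ℍ → ℂ × ℂ) (p : ℂ × ℂ) {r : ℝ} (hr : 0 < r) {z : ℍ}
    (h : (2 * r) ^ 2 < ch (X z) p) : GG X p r z = 0 := by
  have h1 : 2 * r < √(ch (X z) p) := Real.lt_sqrt_of_sq_lt h
  have h2 : 2 < √(ch (X z) p) / r := by rw [lt_div_iff₀ hr]; exact h1
  unfold GG
  exact max_eq_left ((min_le_right _ _).trans (by linarith))

lemma GG_eq_one (X : ℍ → ℂ × ℂ) (p : ℂ × ℂ) {r : ℝ} (hr : 0 < r) {z : ℍ}
    (h : ch (X z) p ≤ r ^ 2) : GG X p r z = 1 := by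
  have h1 : √(ch (X z) p) ≤ r := by
    rw [Real.sqrt_le_left hr.le]; exact h
  have h2 : √(ch (X z) p) / r ≤ 1 := by rw [div_le_one hr]; exact h1
  unfold GG
  rw [min_eq_left (by linarith)]
  norm_num

/-- invariance of functions of the line spanned by `X z` -/
lemma ch_inv {X : ℍ → ℂ × ℂ} (hX : ProjHol X) {Γ : Subgroup SL(2, ℤ)}
    (hcov : ∀ γ ∈ Γ, ∀ z, wd (X (γ • z)) (X z) = 0) (p : ℂ × ℂ) :
    ∀ γ ∈ Γ, ∀ z, ch (X (γ • z)) p = ch (X z) p := by
  intro γ hγ z
  obtain ⟨c, hc, h⟩ := s11_par (hX.1 _) (hX.1 _) (hcov γ hγ z)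
  rw [h, ch_smul_left hc]

lemma fr_inv {X : ℍ → ℂ × ℂ} (hX : ProjHol X) {Γ : Subgroup SL(2, ℤ)}
    (hcov : ∀ γ ∈ Γ, ∀ z, wd (X (γ • z)) (X z) = 0) (p : ℂ × ℂ) (r : ℝ) :
    ∀ γ ∈ Γ, ∀ z, fr p r (X (γ • z)) = fr p r (X z) := by
  intro γ hγ z
  obtain ⟨c, hc, h⟩ := s11_par (hX.1 _) (hX.1 _) (hcov γ hγ z)
  rw [h, fr_smul p r hc]

lemma fr_bdd {p : ℂ × ℂ} (hp : nq p = 1) {r : ℝ} (h0 : 0 < r) (hr1 : r ≤ 1) {x : ℂ × ℂ}
    (hx : x ≠ 0) : |fr p r x| ≤ |Real.log r| := by
  have h1 := s11_lagrange p x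
  rw [hp, one_mul] at h1
  have h2 := nq_pos hx
  have hri : 1 ≤ r⁻¹ := (one_le_inv₀ h0).2 hr1
  have hrr : r ≤ r⁻¹ := hr1.trans hri
  have h3 : r ≤ hr p r x / nq x := by
    rw [le_div_iff₀ h2, hr, ← h1]
    nlinarith [sq_nonneg ‖hm p x‖, sq_nonneg ‖wd p x‖]
  have h4 : hr p r x / nq x ≤ r⁻¹ := by
    rw [div_le_iff₀ h2, hr, ← h1]
    nlinarith [sq_nonneg ‖hm p x‖, sq_nonneg ‖wd p x‖]
  unfold fr
  have h5 : Real.log r ≤ Real.log (hr p r x / nq x) := Real.log_le_log h0 h3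
  have h6 : Real.log (hr p r x / nq x) ≤ -Real.log r := by
    rw [← Real.log_inv]
    exact Real.log_le_log (h0.trans_le h3) h4
  have h7 : Real.log r ≤ 0 := Real.log_nonpos h0.le hr1
  rw [abs_of_nonpos h7]
  exact abs_le.2 ⟨by linarith, h6⟩

end NoMapAux

open NoMapAux

theorem continuous_ch {X : ℍ → ℂ × ℂ} (hX : ProjHol X) (p : ℂ × ℂ) :
    Continuous fun z => ch (X z) p := continuous_iff_continuousAt.2 (continuousAt_ch hX p)

/-- the final arithmetic -/
lemma arith {κ d0 M1 m' V a b η v2 en : ℝ} (hκ : 0 < κ) (hM1 : 1 ≤ M1) (hd : d0 = 1 / (8000000 * M1))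
    (hm' : 0 < m') (hm1 : m' ≤ M1) (hV : 0 < V) (ha0 : 0 ≤ a) (ha : a ≤ 2000 * d0 * (m' * V))
    (hb : d0 * (m' * V) ≤ b) (hη : η ^ 2 ≤ κ * d0 / (800 * M1))
    (hv2 : b - a ^ 2 / V ≤ v2) (hen : κ * v2 ≤ en)
    (hen2 : en ≤ 100 * m' * (2 * m' * η ^ 2 * V)) : False := by
  have hd0 : 0 < d0 := by rw [hd]; positivity
  have h1 : a ^ 2 / V ≤ d0 * (m' * V) / 2 := by
    have h2 : a ^ 2 ≤ (2000 * d0 * (m' * V)) ^ 2 := by gcongr
    have h3 : d0 * m' ≤ 1 / 8000000 := by
      rw [hd, div_mul_eq_mul_div, div_le_div_iff₀ (by positivity) (by norm_num)]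
      linarith
    rw [div_le_iff₀ hV]
    calc a ^ 2 ≤ (2000 * d0 * (m' * V)) ^ 2 := h2
      _ = 4000000 * (d0 * m') * (d0 * m' * V ^ 2) := by ring
      _ ≤ 4000000 * (1 / 8000000) * (d0 * m' * V ^ 2) := by gcongr
      _ = d0 * (m' * V) / 2 * V := by ring
  have h4 : d0 * (m' * V) / 2 ≤ v2 := by linarith
  have h5 : κ * (d0 * (m' * V) / 2) ≤ 100 * m' * (2 * m' * η ^ 2 * V) :=
    (mul_le_mul_of_nonneg_left h4 hκ.le).trans (hen.trans hen2)
  have h6 : m' * η ^ 2 ≤ κ * d0 / 800 := by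
    calc m' * η ^ 2 ≤ M1 * (κ * d0 / (800 * M1)) := by gcongr
      _ = κ * d0 / 800 := by field_simp
  have h7 : 100 * m' * (2 * m' * η ^ 2 * V) ≤ κ * (d0 * (m' * V)) / 4 := by
    calc 100 * m' * (2 * m' * η ^ 2 * V) = 200 * (m' * V) * (m' * η ^ 2) := by ring
      _ ≤ 200 * (m' * V) * (κ * d0 / 800) := by gcongr
      _ = _ := by ring
  have h8 : 0 < κ * (d0 * (m' * V)) := by positivity
  linarith

theorem no_map {R κ : ℝ} (hR : 0 < R) (hκ : 0 < κ) (hgap : HasGap R κ) (m : ℕ) :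
    ∃ η : ℝ, 0 < η ∧ ∀ (N : ℕ) (_ : N ≠ 0) (Γ : Subgroup SL(2, ℤ)) (_ : Γ.relIndex (Gamma N) ≠ 0)
      (_ : Γ.relIndex (Gamma N) ≤ m) (X : ℍ → ℂ × ℂ) (_ : ProjHol X)
      (_ : ∀ γ ∈ Γ, ∀ z, wd (X (γ • z)) (X z) = 0)
      (_ : ∀ p : ℂ × ℂ, p ≠ 0 → volume {z | wd (X z) p = 0} = 0),
      ¬ (∀ z w : ℍ, dist z w ≤ R + 1 → ch (X z) (X w) ≤ η ^ 2) := by
  set M1 : ℝ := (m : ℝ) + 1 with hM1def
  have hM1 : 1 ≤ M1 := by rw [hM1def]; linarith [Nat.cast_nonneg (α := ℝ) m]
  obtain ⟨d0, hd0def⟩ : ∃ d0 : ℝ, d0 = 1 / (8000000 * M1) := ⟨_, rfl⟩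
  have hd0 : 0 < d0 := by rw [hd0def]; positivity
  have hd01 : d0 ≤ 1 := by
    rw [hd0def, div_le_one (by positivity)]; linarith
  set η0 : ℝ := min (1 / 4) (κ * d0 / (800 * M1)) with hη0
  have hη00 : 0 < η0 := by rw [hη0]; exact lt_min (by norm_num) (by positivity)
  refine ⟨√η0, Real.sqrt_pos.2 hη00, ?_⟩
  have hηsq : √η0 ^ 2 = η0 := Real.sq_sqrt hη00.le
  have hη' : √η0 ≤ 1 / 2 := by
    rw [Real.sqrt_le_left (by norm_num)]
    exact (min_le_left _ _).trans (by norm_num)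
  intro N hN Γ h1 h2 X hX hcov hnull hL
  have : NeZero N := ⟨hN⟩
  have : Fintype (Gamma N ⧸ Γ.subgroupOf (Gamma N)) := Subgroup.fintypeOfIndexNeZero h1
  have hcard : Fintype.card (Gamma N ⧸ Γ.subgroupOf (Gamma N)) = Γ.relIndex (Gamma N) := by
    rw [Subgroup.relIndex, Subgroup.index, Nat.card_eq_fintype_card]
  set δ := dl N Γ with hδ
  set M : Measure ℍ := ∑ i, (nu N).map (fun z => δ i • z) with hM
  have hmap : ∀ i, Measurable (fun z : ℍ => δ i • z) := fun i => (cont_smul_int (δ i)).measurable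
  have hMapply : ∀ s, MeasurableSet s → M s = ∑ i, nu N ((fun z => δ i • z) ⁻¹' s) := by
    intro s hs
    rw [hM, Measure.finsetSum_apply]
    exact Finset.sum_congr rfl fun i _ => Measure.map_apply (hmap i) hs
  have hMuniv : M Set.univ = (Fintype.card (Gamma N ⧸ Γ.subgroupOf (Gamma N)) : ℝ≥0∞) *
      nu N Set.univ := by
    rw [hMapply _ MeasurableSet.univ]
    simp only [Set.preimage_univ, Finset.sum_const, Finset.card_univ, nsmul_eq_mul]
  have hVt := nu_univ_ne_top N hN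
  have hV0 := nu_univ_ne_zero N hN
  have hMt : M Set.univ ≠ ∞ := by
    rw [hMuniv]; exact ENNReal.mul_ne_top (ENNReal.natCast_ne_top _) hVt
  have hcard0 : Fintype.card (Gamma N ⧸ Γ.subgroupOf (Gamma N)) ≠ 0 := by rw [hcard]; exact h1
  have hM0 : M Set.univ ≠ 0 := by
    rw [hMuniv]; exact mul_ne_zero (by exact_mod_cast hcard0) hV0
  have : IsFiniteMeasure M := ⟨hMt.lt_top⟩
  have hch := fun p => continuous_iff_continuousAt.2 (continuousAt_ch hX p)
  have hnullM : ∀ p, p ≠ 0 → M {ω | wd (X ω) p = 0} = 0 := by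
    intro p hp
    have hset : {ω | wd (X ω) p = 0} = {ω | ch (X ω) p = 0} := by
      ext ω
      have h3 : nq (X ω) * nq p ≠ 0 := (mul_pos (nq_pos (hX.1 ω)) (nq_pos hp)).ne'
      simp only [Set.mem_ofPred_eq, ch, div_eq_zero_iff, h3, or_false]
      simp
    have hms : MeasurableSet {ω | wd (X ω) p = 0} := by
      rw [hset]
      exact (isClosed_eq (hch p) continuous_const).measurableSet
    rw [hMapply _ hms]
    refine Finset.sum_eq_zero fun i _ => nu_abs N ?_
    rw [(mp_int (δ i)).measure_preimage hms.nullMeasurableSet]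
    exact hnull p hp
  obtain ⟨p, r, hp, hr, hr1, hlow, hhigh⟩ := exists_scale M hM0 X hX.1
    (fun p => (hch p).measurable) hnullM d0 hd0 hd01
  have cG := continuous_GG hX p r
  have cF : Continuous fun w : ℍ => fr p r (X w) :=
    continuous_iff_continuousAt.2 fun v => (continuousAt_F hX hp hr (hX.1 I) v).1
  have hGabs : ∀ z, ‖GG X p r z‖ ≤ 1 := fun z => by
    rw [Real.norm_of_nonneg (GG_nonneg X p r z)]; exact GG_le_one X p r z
  -- integrals with respect to `M`
  have hint : ∀ f : ℍ → ℝ, Continuous f → (∃ C, ∀ z, ‖f z‖ ≤ C) →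
      ∫ z, f z ∂M = ∫ z, ∑ i, f (δ i • z) ∂(nu N) := by
    intro f hf ⟨C, hC⟩
    rw [hM, integral_finsetSum_measure, integral_finsetSum]
    · refine Finset.sum_congr rfl fun i _ => ?_
      exact integral_map (hmap i).aemeasurable hf.aestronglyMeasurable
    · intro i _
      exact Integrable.of_bound (C := C) (hf.comp (cont_smul_int (δ i))).aestronglyMeasurable
        (.of_forall fun z => hC _)
    · intro i _
      have : IsFiniteMeasure ((nu N).map (fun z => δ i • z)) := by infer_instance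
      exact Integrable.of_bound (C := C) hf.aestronglyMeasurable (.of_forall hC)
  set V : ℝ := (nu N Set.univ).toReal with hVdef
  have hV : 0 < V := ENNReal.toReal_pos hV0 hVt
  set m' : ℝ := (Fintype.card (Gamma N ⧸ Γ.subgroupOf (Gamma N)) : ℝ) with hm'def
  have hm' : 0 < m' := by rw [hm'def]; exact_mod_cast Nat.pos_of_ne_zero hcard0
  have hm1 : m' ≤ M1 := by
    rw [hm'def, hM1def, hcard]
    have : ((Γ.relIndex (Gamma N) : ℕ) : ℝ) ≤ m := by exact_mod_cast h2
    linarith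
  have hMreal : (M Set.univ).toReal = m' * V := by
    rw [hMuniv, ENNReal.toReal_mul, ENNReal.toReal_natCast]
  set a : ℝ := ∫ z, GG X p r z ∂M with ha
  set b : ℝ := ∫ z, (GG X p r z) ^ 2 ∂M with hb
  have hmS : ∀ c : ℝ, MeasurableSet {ω | ch (X ω) p ≤ c} := fun c =>
    (isClosed_le (hch p) continuous_const).measurableSet
  have ha0 : 0 ≤ a := integral_nonneg fun z => GG_nonneg X p r z
  have hGint : Integrable (GG X p r) M :=
    Integrable.of_bound (C := 1) cG.aestronglyMeasurable (.of_forall hGabs)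
  have hG2int : Integrable (fun z => (GG X p r z) ^ 2) M :=
    Integrable.of_bound (C := 1) (cG.pow 2).aestronglyMeasurable (.of_forall fun z => by
      rw [norm_pow]; exact pow_le_one₀ (norm_nonneg _) (hGabs z))
  have ha1 : a ≤ 2000 * d0 * (m' * V) := by
    have h3 : a ≤ M.real {ω | ch (X ω) p ≤ (2 * r) ^ 2} := by
      rw [← integral_indicator_one (hmS _)]
      refine integral_mono hGint ((integrable_const 1).indicator (hmS _)) fun z => ?_
      by_cases hz : ch (X z) p ≤ (2 * r) ^ 2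
      · rw [Set.indicator_of_mem (by exact hz)]; exact GG_le_one X p r z
      · rw [Set.indicator_of_notMem (by exact hz)]
        exact (GG_eq_zero X p hr (not_le.1 hz)).le
    refine h3.trans ?_
    have h4 := ENNReal.toReal_mono (ENNReal.mul_ne_top ENNReal.ofReal_ne_top hMt) hhigh
    rw [ENNReal.toReal_mul, ENNReal.toReal_ofReal (by positivity), hMreal] at h4
    exact h4
  have hb1 : d0 * (m' * V) ≤ b := by
    have h3 : M.real {ω | ch (X ω) p ≤ r ^ 2} ≤ b := by
      rw [← integral_indicator_one (hmS _)]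
      refine integral_mono ((integrable_const 1).indicator (hmS _)) hG2int fun z => ?_
      by_cases hz : ch (X z) p ≤ r ^ 2
      · rw [Set.indicator_of_mem (by exact hz)]
        simp [GG_eq_one X p hr hz]
      · rw [Set.indicator_of_notMem (by exact hz)]
        positivity
    refine le_trans ?_ h3
    have h4 := ENNReal.toReal_mono (measure_ne_top M _) hlow
    rw [ENNReal.toReal_mul, ENNReal.toReal_ofReal hd0.le, hMreal] at h4
    exact h4
  -- the test function
  set u : ℍ → ℝ := fun z => ∑ i, GG X p r (δ i • z) with hu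
  have cu : Continuous u := continuous_finsetSum _ fun i _ => cG.comp (cont_smul_int (δ i))
  have hu0 : ∀ z, 0 ≤ u z := fun z => Finset.sum_nonneg fun i _ => GG_nonneg X p r _
  have hub : ∀ z, u z ≤ m' := by
    intro z
    calc u z ≤ ∑ _i : (Gamma N ⧸ Γ.subgroupOf (Gamma N)), (1 : ℝ) :=
          Finset.sum_le_sum fun i _ => GG_le_one X p r _
      _ = m' := by simp [hm'def]
  have huabs : ∀ z, ‖u z‖ ≤ m' := fun z => by rw [Real.norm_of_nonneg (hu0 z)]; exact hub z
  have hua : ∫ z, u z ∂(nu N) = a := by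
    rw [ha, hint _ cG ⟨1, hGabs⟩]
  have hub2 : b ≤ ∫ z, (u z) ^ 2 ∂(nu N) := by
    rw [hb, hint (fun z => (GG X p r z) ^ 2) (cG.pow 2) ⟨1, fun z => by
      rw [norm_pow]; exact pow_le_one₀ (norm_nonneg _) (hGabs z)⟩]
    refine integral_mono ?_ ?_ fun z => ?_
    · refine Integrable.of_bound (C := m') ?_ (.of_forall fun z => ?_)
      · exact (continuous_finsetSum _ fun i _ =>
          (cG.comp (cont_smul_int (δ i))).pow 2).aestronglyMeasurable
      · rw [Real.norm_of_nonneg (Finset.sum_nonneg fun i _ => by positivity)]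
        calc _ ≤ ∑ _i : (Gamma N ⧸ Γ.subgroupOf (Gamma N)), (1 : ℝ) :=
              Finset.sum_le_sum fun i _ => pow_le_one₀ (GG_nonneg X p r _) (GG_le_one X p r _)
          _ = m' := by simp [hm'def]
    · refine Integrable.of_bound (C := m' ^ 2) (cu.pow 2).aestronglyMeasurable
        (.of_forall fun z => ?_)
      rw [norm_pow]
      gcongr
      exact huabs z
    · show ∑ i, (GG X p r (δ i • z)) ^ 2 ≤ (∑ i, GG X p r (δ i • z)) ^ 2
      rw [sq (∑ i, GG X p r (δ i • z)), Finset.sum_mul]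
      refine Finset.sum_le_sum fun i _ => ?_
      rw [sq]
      refine mul_le_mul_of_nonneg_left ?_ (GG_nonneg X p r _)
      exact Finset.single_le_sum (f := fun i => GG X p r (δ i • z))
        (fun i _ => GG_nonneg X p r _) (Finset.mem_univ i)
  -- variance
  set c : ℝ := a / V with hc
  have huint : Integrable u (nu N) :=
    Integrable.of_bound (C := m') cu.aestronglyMeasurable (.of_forall huabs)
  have hu2int : Integrable (fun z => (u z) ^ 2) (nu N) := by
    refine Integrable.of_bound (C := m' ^ 2) (cu.pow 2).aestronglyMeasurable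
        (.of_forall fun z => ?_)
    rw [norm_pow]
    gcongr
    exact huabs z
  have hVreal : (nu N).real Set.univ = V := rfl
  have hmean : ∫ z, (u z - c) ∂(nu N) = 0 := by
    rw [integral_sub huint (integrable_const c), integral_const, hVreal, hua, hc, smul_eq_mul]
    field_simp
    ring
  have hvar : ∫ z, (u z - c) ^ 2 ∂(nu N) = (∫ z, (u z) ^ 2 ∂(nu N)) - a ^ 2 / V := by
    have h3 : ∀ z, (u z - c) ^ 2 = (u z) ^ 2 - 2 * c * u z + c ^ 2 := fun z => by ring
    simp only [h3]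
    have h4 : Integrable (fun z => (u z) ^ 2 - 2 * c * u z) (nu N) :=
      hu2int.sub (huint.const_mul _)
    rw [integral_add h4 (integrable_const _),
      integral_sub hu2int (huint.const_mul _), integral_const_mul, integral_const, hVreal, hua, hc,
      smul_eq_mul]
    field_simp
    ring
  have huinv : Inv N (fun z => u z - c) := by
    intro γ hγ z
    have h3 : ∀ γ ∈ Γ, ∀ z, GG X p r (γ • z) = GG X p r z := by
      intro γ hγ z
      unfold GG
      rw [ch_inv hX hcov p γ hγ z]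
    show u (γ • z) - c = u z - c
    rw [hu]
    simp only
    rw [sum_inv h3 γ hγ z]
  have hg := hgap N hN (fun z => u z - c) (cu.sub continuous_const).measurable
    ⟨m' + |c|, fun z => (abs_sub _ _).trans (add_le_add (huabs z) le_rfl)⟩ huinv hmean
  -- energy
  set F : ℍ → ℝ := fun z => ∑ i, fr p r (X (δ i • z)) with hF
  have cFF : Continuous F := continuous_finsetSum _ fun i _ => cF.comp (cont_smul_int (δ i))
  have hFb : ∀ z, |F z| ≤ m' * |Real.log r| := by
    intro z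
    calc |F z| ≤ ∑ i, |fr p r (X (δ i • z))| := Finset.abs_sum_le_sum_abs _ _
      _ ≤ ∑ _i : (Gamma N ⧸ Γ.subgroupOf (Gamma N)), |Real.log r| :=
          Finset.sum_le_sum fun i _ => fr_bdd hp hr hr1 (hX.1 _)
      _ = _ := by simp [hm'def]
  have hFinv : Inv N F := fun γ hγ z =>
    sum_inv (φ := fun z => fr p r (X z)) (fr_inv hX hcov p r) γ hγ z
  have hFint := integral_Av_real (N := N) hR cFF.measurable ⟨_, hFb⟩ hFinv
  have iF : Integrable F (nu N) :=
    Integrable.of_bound (C := m' * |Real.log r|) cFF.aestronglyMeasurable (.of_forall hFb)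
  have iAF : Integrable (Av R F) (nu N) :=
    Integrable.of_bound (C := m' * |Real.log r|)
      (measurable_Av_real cFF.measurable).aestronglyMeasurable
      (.of_forall fun z => norm_Av_le hFb z)
  have hen : ∫ z, Av R (fun w => ((u z - c) - (u w - c)) ^ 2) z ∂(nu N) ≤
      100 * m' * (2 * m' * (√η0) ^ 2 * V) := by
    have h3 : ∫ z, (100 * m' * (Av R F z - F z + 2 * m' * (√η0) ^ 2)) ∂(nu N) =
        100 * m' * (2 * m' * (√η0) ^ 2 * V) := by
      have h4 : Integrable (fun z => Av R F z - F z) (nu N) := iAF.sub iF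
      rw [integral_const_mul, integral_add h4 (integrable_const _), integral_sub iAF iF,
        hFint, integral_const, hVreal, smul_eq_mul]
      ring
    rw [← h3]
    refine integral_mono_of_nonneg (.of_forall fun z => ?_) ?_ (.of_forall fun z => ?_)
    · show 0 ≤ Av R (fun w => ((u z - c) - (u w - c)) ^ 2) z
      unfold Av
      exact smul_nonneg (inv_nonneg.2 (bv_nonneg R)) (integral_nonneg fun w => sq_nonneg _)
    · exact ((iAF.sub iF).add (integrable_const _)).const_mul _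
    · show Av R (fun w => ((u z - c) - (u w - c)) ^ 2) z ≤ _
      have h4 : (fun w => ((u z - c) - (u w - c)) ^ 2) = fun w => (u z - u w) ^ 2 := by
        ext w; ring
      rw [h4]
      exact energy_bound hR (Real.sqrt_nonneg _) hη' hX hL hp hr hr1 δ z
  refine arith hκ hM1 hd0def hm' hm1 hV ha0 ha1 hb1 (η := √η0) ?_ ?_ hg hen
  · rw [hηsq]; exact min_le_right _ _
  · rw [hvar]; linarith

end

end Pool.Agent.H369R2
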