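import Pool.Agent.H369R2.Defs

/-!
# S10: a Bloch type theorem (TEAM-G, MP_db315d_nt; helper806)
-/

open UpperHalfPlane MeasureTheory Metric ModularGroup CongruenceSubgroup
open scoped MatrixGroups ENNReal Modular Topology

namespace Pool.Agent.H369R2

namespace S10

noncomputable section

/-! ### Algebra on `ℂ × ℂ` -/

lemma nq_pos {x : ℂ × ℂ} (h : x ≠ 0) : 0 < nq x := by
  unfold nq
  by_contra hc
  push Not at hc
  have h1 : ‖x.1‖ ^ 2 = 0 := by nlinarith [sq_nonneg ‖x.1‖, sq_nonneg ‖x.2‖]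
  have h2 : ‖x.2‖ ^ 2 = 0 := by nlinarith [sq_nonneg ‖x.1‖, sq_nonneg ‖x.2‖]
  apply h
  ext
  · simpa using h1
  · simpa using h2

lemma lagrange (x y : ℂ × ℂ) : ‖hm x y‖ ^ 2 + ‖wd x y‖ ^ 2 = nq x * nq y := by
  unfold hm wd nq
  simp only [← Complex.normSq_eq_norm_sq, Complex.normSq_apply, Complex.add_re, Complex.add_im,
    Complex.sub_re, Complex.sub_im, Complex.mul_re, Complex.mul_im, Complex.conj_re,
    Complex.conj_im]
  ring

/-- the embedding of the projective line in the euclidean space `ℝ × ℂ` -/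
def Pj (x : ℂ × ℂ) : WithLp 2 (ℝ × ℂ) :=
  WithLp.toLp 2 ((‖x.1‖ ^ 2 / nq x : ℝ), (((nq x)⁻¹ : ℝ) : ℂ) * (x.1 * (starRingEnd ℂ) x.2))

lemma Pj_dist_sq {x y : ℂ × ℂ} (hx : x ≠ 0) (hy : y ≠ 0) : ‖Pj x - Pj y‖ ^ 2 = ch x y := by
  have h1 := (nq_pos hx)
  have h2 := (nq_pos hy)
  rw [WithLp.prod_norm_sq_eq_of_L2]
  simp only [Pj, WithLp.sub_fst, WithLp.sub_snd, WithLp.toLp_fst, WithLp.toLp_snd]
  have e1 : ‖‖x.1‖ ^ 2 / nq x - ‖y.1‖ ^ 2 / nq y‖ ^ 2 =
      ((‖x.1‖ ^ 2 * nq y - ‖y.1‖ ^ 2 * nq x) ^ 2) / (nq x * nq y) ^ 2 := by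
    rw [Real.norm_eq_abs, sq_abs]
    field_simp
  have e2 : ‖(((nq x)⁻¹ : ℝ) : ℂ) * (x.1 * (starRingEnd ℂ) x.2) -
      (((nq y)⁻¹ : ℝ) : ℂ) * (y.1 * (starRingEnd ℂ) y.2)‖ ^ 2 =
      ‖(nq y : ℂ) * (x.1 * (starRingEnd ℂ) x.2) - (nq x : ℂ) * (y.1 * (starRingEnd ℂ) y.2)‖ ^ 2
        / (nq x * nq y) ^ 2 := by
    have h1' : (nq x : ℂ) ≠ 0 := by exact_mod_cast h1.ne'
    have h2' : (nq y : ℂ) ≠ 0 := by exact_mod_cast h2.ne'
    have e3 : (((nq x)⁻¹ : ℝ) : ℂ) * (x.1 * (starRingEnd ℂ) x.2) -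
      (((nq y)⁻¹ : ℝ) : ℂ) * (y.1 * (starRingEnd ℂ) y.2) =
      ((nq y : ℂ) * (x.1 * (starRingEnd ℂ) x.2) - (nq x : ℂ) * (y.1 * (starRingEnd ℂ) y.2)) /
        ((nq x * nq y : ℝ) : ℂ) := by
      push_cast
      field_simp
    rw [e3, norm_div, div_pow, Complex.norm_real, Real.norm_eq_abs, sq_abs]
  rw [e1, e2, ch]
  rw [← add_div, div_eq_div_iff (by positivity) (by positivity)]
  have key : (‖x.1‖ ^ 2 * nq y - ‖y.1‖ ^ 2 * nq x) ^ 2 +
      ‖(nq y : ℂ) * (x.1 * (starRingEnd ℂ) x.2) - (nq x : ℂ) * (y.1 * (starRingEnd ℂ) y.2)‖ ^ 2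
      = ‖wd x y‖ ^ 2 * (nq x * nq y) := by
    unfold wd nq
    simp only [← Complex.normSq_eq_norm_sq, Complex.normSq_apply,
      Complex.sub_re, Complex.sub_im, Complex.mul_re, Complex.mul_im, Complex.conj_re,
      Complex.conj_im, Complex.ofReal_re, Complex.ofReal_im]
    ring
  rw [key]
  ring

lemma wd_smul_left (c : ℂ) (x y : ℂ × ℂ) : wd (c • x) y = c * wd x y := by
  simp [wd]; ring

lemma wd_smul_right (c : ℂ) (x y : ℂ × ℂ) : wd x (c • y) = c * wd x y := by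
  simp [wd]; ring

lemma hm_smul_right (c : ℂ) (x y : ℂ × ℂ) : hm x (c • y) = c * hm x y := by
  simp [hm]; ring

lemma nq_smul (c : ℂ) (x : ℂ × ℂ) : nq (c • x) = ‖c‖ ^ 2 * nq x := by
  simp [nq]; ring

lemma exists_smul {x y : ℂ × ℂ} (hx : x ≠ 0) (hy : y ≠ 0) (h : wd x y = 0) :
    ∃ c : ℂ, c ≠ 0 ∧ y = c • x := by
  unfold wd at h
  by_cases h1 : x.1 = 0
  · have h2 : x.2 ≠ 0 := fun h2 => hx (Prod.ext h1 h2)
    have h3 : y.1 = 0 := by
      rw [h1] at h
      simp only [zero_mul, zero_sub, neg_eq_zero, mul_eq_zero, h2, false_or] at h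
      exact h
    refine ⟨y.2 / x.2, ?_, ?_⟩
    · intro h4
      rw [div_eq_zero_iff] at h4
      rcases h4 with h4 | h4
      · exact hy (Prod.ext h3 h4)
      · exact h2 h4
    · ext
      · simp [h1, h3]
      · simp [h2]
  · refine ⟨y.1 / x.1, ?_, ?_⟩
    · intro h4
      rw [div_eq_zero_iff] at h4
      rcases h4 with h4 | h4
      · rw [h4] at h
        simp only [mul_zero, sub_zero, mul_eq_zero, h1, false_or] at h
        exact hy (Prod.ext h4 h)
      · exact h1 h4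
    · ext
      · simp [h1]
      · simp only [Prod.smul_snd, smul_eq_mul]
        field_simp
        linear_combination h

lemma Pj_eq {x y : ℂ × ℂ} (hx : x ≠ 0) (hy : y ≠ 0) (h : wd x y = 0) : Pj x = Pj y := by
  have h1 := Pj_dist_sq hx hy
  rw [ch, h] at h1
  simp only [norm_zero, ne_eq, OfNat.ofNat_ne_zero, not_false_eq_true, zero_pow, zero_div,
    pow_eq_zero_iff, norm_eq_zero] at h1
  exact sub_eq_zero.mp h1

lemma contDiffAt_Pj {g : ℂ → ℂ × ℂ} {u : ℂ} (hg : AnalyticAt ℂ g u) (h0 : g u ≠ 0) :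
    ContDiffAt ℝ 1 (fun w => Pj (g w)) u := by
  have hg' : ContDiffAt ℝ 1 g u := (hg.contDiffAt (n := 1)).restrict_scalars ℝ
  have h1 : ContDiffAt ℝ 1 (fun w => (g w).1) u := contDiffAt_fst.comp u hg'
  have h2 : ContDiffAt ℝ 1 (fun w => (g w).2) u := contDiffAt_snd.comp u hg'
  have hn1 : ContDiffAt ℝ 1 (fun w => ‖(g w).1‖ ^ 2) u := h1.norm_sq ℝ
  have hn2 : ContDiffAt ℝ 1 (fun w => ‖(g w).2‖ ^ 2) u := h2.norm_sq ℝ
  have hn : ContDiffAt ℝ 1 (fun w => nq (g w)) u := hn1.add hn2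
  have hne : nq (g u) ≠ 0 := (nq_pos h0).ne'
  have a1 : ContDiffAt ℝ 1 (fun w => ‖(g w).1‖ ^ 2 / nq (g w)) u := hn1.div hn hne
  have a2 : ContDiffAt ℝ 1 (fun w => (nq (g w))⁻¹) u := hn.inv hne
  have a3 : ContDiffAt ℝ 1 (fun w => (((nq (g w))⁻¹ : ℝ) : ℂ)) u :=
    Complex.ofRealCLM.contDiff.contDiffAt.comp u a2
  have a4 : ContDiffAt ℝ 1 (fun w => (starRingEnd ℂ) (g w).2) u :=
    (Complex.conjCLE : ℂ ≃L[ℝ] ℂ).contDiff.contDiffAt.comp u h2
  have a5 : ContDiffAt ℝ 1 (fun w => (((nq (g w))⁻¹ : ℝ) : ℂ) * ((g w).1 * (starRingEnd ℂ) (g w).2)) u :=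
    a3.mul (h1.mul a4)
  have a6 := (a1.prodMk a5)
  exact ((WithLp.prodContinuousLinearEquiv 2 ℝ ℝ ℂ).symm.contDiff.contDiffAt).comp u a6


/-! ### Local lifts of `Y : ℂ → ℂ × ℂ` -/

/-- `g` is a local holomorphic lift of `[Y]` at `u`. -/
def Lift (Y : ℂ → ℂ × ℂ) (u : ℂ) (g : ℂ → ℂ × ℂ) : Prop :=
  AnalyticAt ℂ g u ∧ g u ≠ 0 ∧ ∀ᶠ w in 𝓝 u, wd (Y w) (g w) = 0

/-- spherical derivative -/
def Sd (Y : ℂ → ℂ × ℂ) (u : ℂ) : ℝ := ‖fderiv ℝ (fun w => Pj (Y w)) u‖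

lemma Lift.eventually_ne {Y : ℂ → ℂ × ℂ} {u : ℂ} {g : ℂ → ℂ × ℂ} (h : Lift Y u g) :
    ∀ᶠ w in 𝓝 u, g w ≠ 0 := h.1.continuousAt.eventually_ne h.2.1

lemma Lift.eventually_Pj {Y : ℂ → ℂ × ℂ} (hY : ∀ w, Y w ≠ 0) {u : ℂ} {g : ℂ → ℂ × ℂ}
    (h : Lift Y u g) : (fun w => Pj (Y w)) =ᶠ[𝓝 u] fun w => Pj (g w) := by
  filter_upwards [h.eventually_ne, h.2.2] with w h1 h2
  exact Pj_eq (hY w) h1 h2

lemma Lift.contDiffAt {Y : ℂ → ℂ × ℂ} (hY : ∀ w, Y w ≠ 0) {u : ℂ} {g : ℂ → ℂ × ℂ}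
    (h : Lift Y u g) : ContDiffAt ℝ 1 (fun w => Pj (Y w)) u :=
  (contDiffAt_Pj h.1 h.2.1).congr_of_eventuallyEq (h.eventually_Pj hY)

lemma sqrt_ch {x y : ℂ × ℂ} (hx : x ≠ 0) (hy : y ≠ 0) : ‖Pj x - Pj y‖ = √(ch x y) := by
  rw [← Pj_dist_sq hx hy, Real.sqrt_sq (norm_nonneg _)]

lemma norm_fderiv_apply {g : ℂ → ℂ × ℂ} {u : ℂ} (hg : AnalyticAt ℂ g u) (h0 : g u ≠ 0) (v : ℂ) :
    ‖fderiv ℝ (fun w => Pj (g w)) u v‖ = ‖wd (g u) (deriv g u)‖ / nq (g u) * ‖v‖ := by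
  have hd : DifferentiableAt ℝ (fun w => Pj (g w)) u :=
    (contDiffAt_Pj hg h0).differentiableAt one_ne_zero
  have hpos := nq_pos h0
  -- line derivative of `Pj ∘ g`
  have h1 : HasDerivAt (fun t : ℝ => Pj (g (u + t * v))) (fderiv ℝ (fun w => Pj (g w)) u v) 0 := by
    have h2 : HasDerivAt (fun t : ℝ => u + (t : ℂ) * v) v 0 := by
      have := ((Complex.ofRealCLM.hasDerivAt (x := (0:ℝ))).mul_const v).const_add u
      simpa using this
    have h3 : HasFDerivAt (fun w => Pj (g w)) (fderiv ℝ (fun w => Pj (g w)) u)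
        (u + ((0 : ℝ) : ℂ) * v) := by simpa using hd.hasFDerivAt
    exact h3.comp_hasDerivAt (0 : ℝ) h2
  have h2 : HasDerivAt (fun t : ℝ => g (u + t * v)) (v • deriv g u) 0 := by
    have h2 : HasDerivAt (fun t : ℝ => u + (t : ℂ) * v) v 0 := by
      have := ((Complex.ofRealCLM.hasDerivAt (x := (0:ℝ))).mul_const v).const_add u
      simpa using this
    have h3 : HasDerivAt g (deriv g u) (u + ((0 : ℝ) : ℂ) * v) := by
      simpa using hg.differentiableAt.hasDerivAt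
    exact h3.scomp (0 : ℝ) h2
  -- norms of slopes
  have hs1 := (hasDerivAt_iff_tendsto_slope_zero.mp h1).norm
  have hs2 := (hasDerivAt_iff_tendsto_slope_zero.mp h2)
  simp only [zero_add, Complex.ofReal_zero, zero_mul, add_zero] at hs1 hs2
  have hcont : ContinuousAt (fun t : ℝ => g (u + t * v)) 0 := h2.continuousAt
  have hcont' : Filter.Tendsto (fun t : ℝ => g (u + t * v)) (𝓝[≠] 0) (𝓝 (g u)) := by
    have := hcont.tendsto
    simp only [Complex.ofReal_zero, zero_mul, add_zero] at this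
    exact this.mono_left nhdsWithin_le_nhds
  have hnqc : Continuous nq := by
    unfold nq
    fun_prop
  have hwdc : Continuous (fun x : (ℂ × ℂ) × (ℂ × ℂ) => wd x.1 x.2) := by
    unfold wd
    fun_prop
  have t1 : Filter.Tendsto (fun t : ℝ => ‖wd (g u) (t⁻¹ • (g (u + t * v) - g u))‖ /
      (√(nq (g u)) * √(nq (g (u + t * v))))) (𝓝[≠] 0)
      (𝓝 (‖wd (g u) (v • deriv g u)‖ / (√(nq (g u)) * √(nq (g u))))) := by
    apply Filter.Tendsto.div
    · apply Filter.Tendsto.norm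
      have := (hwdc.tendsto (g u, v • deriv g u)).comp
        ((tendsto_const_nhds (x := g u)).prodMk_nhds hs2)
      exact this
    · apply Filter.Tendsto.mul tendsto_const_nhds
      exact ((Real.continuous_sqrt.comp hnqc).tendsto (g u)).comp hcont'
    · have := Real.sqrt_pos.mpr hpos
      positivity
  have t2 : (fun t : ℝ => ‖t⁻¹ • (Pj (g (u + t * v)) - Pj (g u))‖) =ᶠ[𝓝[≠] 0]
      (fun t : ℝ => ‖wd (g u) (t⁻¹ • (g (u + t * v) - g u))‖ /
      (√(nq (g u)) * √(nq (g (u + t * v))))) := by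
    have hne : ∀ᶠ t : ℝ in 𝓝[≠] 0, g (u + t * v) ≠ 0 := hcont'.eventually_ne h0
    filter_upwards [hne, self_mem_nhdsWithin] with t ht ht0
    have ht0' : t ≠ 0 := ht0
    rw [norm_smul, ← norm_neg (Pj (g (u + t * v)) - Pj (g u)), neg_sub, sqrt_ch h0 ht, ch,
      Real.sqrt_div (by positivity), Real.sqrt_sq (norm_nonneg _), Real.sqrt_mul hpos.le,
      ← mul_div_assoc]
    congr 1
    have : wd (g u) (t⁻¹ • (g (u + t * v) - g u)) = (t⁻¹ : ℝ) * wd (g u) (g (u + t * v)) := by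
      simp only [wd, Prod.smul_fst, Prod.smul_snd, Prod.fst_sub, Prod.snd_sub, Complex.real_smul]
      ring
    rw [this, norm_mul, Complex.norm_real]
  have t3 := tendsto_nhds_unique (hs1.congr' t2) t1
  rw [t3, wd_smul_right, norm_mul, Real.mul_self_sqrt hpos.le]
  ring

lemma Lift.Sd_eq {Y : ℂ → ℂ × ℂ} (hY : ∀ w, Y w ≠ 0) {u : ℂ} {g : ℂ → ℂ × ℂ}
    (h : Lift Y u g) : Sd Y u = ‖wd (g u) (deriv g u)‖ / nq (g u) := by
  unfold Sd
  rw [(h.eventually_Pj hY).fderiv_eq]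
  have hpos := nq_pos h.2.1
  apply le_antisymm
  · apply ContinuousLinearMap.opNorm_le_bound _ (by positivity)
    intro v
    rw [norm_fderiv_apply h.1 h.2.1]
  · have h1 := norm_fderiv_apply h.1 h.2.1 1
    rw [norm_one, mul_one] at h1
    rw [← h1]
    have := (fderiv ℝ (fun w => Pj (g w)) u).le_opNorm 1
    simpa using this


/-! ### Affine coordinates -/

/-- orthogonal vector -/
def perp (p : ℂ × ℂ) : ℂ × ℂ := (-(starRingEnd ℂ) p.2, (starRingEnd ℂ) p.1)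

/-- affine coordinate centred at `p` -/
def aff (p x : ℂ × ℂ) : ℂ := wd p x / hm p x

lemma unit_eq {p : ℂ × ℂ} (hp : nq p = 1) :
    (starRingEnd ℂ) p.1 * p.1 + (starRingEnd ℂ) p.2 * p.2 = 1 := by
  unfold nq at hp
  rw [← Complex.normSq_eq_norm_sq, ← Complex.normSq_eq_norm_sq] at hp
  have h := congrArg (fun t : ℝ => (t : ℂ)) hp
  simp only [Complex.ofReal_add, Complex.ofReal_one, Complex.normSq_eq_conj_mul_self] at h
  exact h

lemma wd_perp {p : ℂ × ℂ} (hp : nq p = 1) : wd p (perp p) = 1 := by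
  have := unit_eq hp
  simp only [wd, perp]
  linear_combination this

lemma hm_perp (p : ℂ × ℂ) : hm p (perp p) = 0 := by
  simp only [hm, perp]
  ring

lemma hm_self {p : ℂ × ℂ} (hp : nq p = 1) : hm p p = 1 := by
  have := unit_eq hp
  simp only [hm]
  linear_combination this

lemma wd_self (p : ℂ × ℂ) : wd p p = 0 := by simp only [wd]; ring

lemma decomp {p : ℂ × ℂ} (hp : nq p = 1) (x : ℂ × ℂ) : x = hm p x • p + wd p x • perp p := by
  have := unit_eq hp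
  ext
  · simp only [hm, wd, perp, Prod.fst_add, Prod.smul_fst, smul_eq_mul]
    linear_combination (-x.1) * this
  · simp only [hm, wd, perp, Prod.snd_add, Prod.smul_snd, smul_eq_mul]
    linear_combination (-x.2) * this

lemma wd_add_right (x y z : ℂ × ℂ) : wd x (y + z) = wd x y + wd x z := by
  simp only [wd, Prod.fst_add, Prod.snd_add]; ring

lemma wd_add_left (x y z : ℂ × ℂ) : wd (x + y) z = wd x z + wd y z := by
  simp only [wd, Prod.fst_add, Prod.snd_add]; ring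

lemma hm_add_right (x y z : ℂ × ℂ) : hm x (y + z) = hm x y + hm x z := by
  simp only [hm, Prod.fst_add, Prod.snd_add]; ring

lemma nq_aff {p : ℂ × ℂ} (hp : nq p = 1) (c : ℂ) : nq (p + c • perp p) = 1 + ‖c‖ ^ 2 := by
  have h := lagrange p (p + c • perp p)
  rw [hp, one_mul, hm_add_right, wd_add_right, hm_smul_right, wd_smul_right, hm_perp, wd_perp hp,
    hm_self hp, wd_self] at h
  rw [← h]
  simp

lemma analyticAt_wd {p : ℂ × ℂ} {g : ℂ → ℂ × ℂ} {u : ℂ} (hg : AnalyticAt ℂ g u) :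
    AnalyticAt ℂ (fun w => wd p (g w)) u := by
  unfold wd
  exact (analyticAt_const.mul (analyticAt_snd.comp hg)).sub
    (analyticAt_const.mul (analyticAt_fst.comp hg))

lemma analyticAt_hm {p : ℂ × ℂ} {g : ℂ → ℂ × ℂ} {u : ℂ} (hg : AnalyticAt ℂ g u) :
    AnalyticAt ℂ (fun w => hm p (g w)) u := by
  unfold hm
  exact (analyticAt_const.mul (analyticAt_fst.comp hg)).add
    (analyticAt_const.mul (analyticAt_snd.comp hg))

lemma aff_eq {p x y : ℂ × ℂ} (hx : x ≠ 0) (hy : y ≠ 0) (h : wd x y = 0) : aff p x = aff p y := by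
  obtain ⟨c, hc, rfl⟩ := exists_smul hx hy h
  rw [aff, aff, wd_smul_right, hm_smul_right, mul_div_mul_left _ _ hc]

lemma hm_ne {p x y : ℂ × ℂ} (hx : x ≠ 0) (hy : y ≠ 0) (h : wd x y = 0) (h1 : hm p x ≠ 0) :
    hm p y ≠ 0 := by
  obtain ⟨c, hc, rfl⟩ := exists_smul hx hy h
  rw [hm_smul_right]
  exact mul_ne_zero hc h1

lemma wd_swap (x y : ℂ × ℂ) : wd x y = - wd y x := by simp only [wd]; ring

lemma Lift.analyticAt_aff {Y : ℂ → ℂ × ℂ} (hY : ∀ w, Y w ≠ 0) {u : ℂ} {g : ℂ → ℂ × ℂ}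
    (h : Lift Y u g) {p : ℂ × ℂ} (hu : hm p (Y u) ≠ 0) :
    AnalyticAt ℂ (fun w => aff p (Y w)) u := by
  have h1 : hm p (g u) ≠ 0 := hm_ne (hY u) h.2.1 h.2.2.self_of_nhds hu
  have h2 : AnalyticAt ℂ (fun w => wd p (g w) / hm p (g w)) u :=
    (analyticAt_wd h.1).div (analyticAt_hm h.1) h1
  apply h2.congr
  filter_upwards [h.eventually_ne, h.2.2] with w h3 h4
  exact (aff_eq (hY w) h3 h4).symm

lemma Lift.aff_lift {Y : ℂ → ℂ × ℂ} (hY : ∀ w, Y w ≠ 0) {u : ℂ} {g : ℂ → ℂ × ℂ}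
    (h : Lift Y u g) {p : ℂ × ℂ} (hp : nq p = 1) (hu : hm p (Y u) ≠ 0) :
    Lift Y u (fun w => p + aff p (Y w) • perp p) := by
  have ha := h.analyticAt_aff hY hu
  refine ⟨analyticAt_const.add (ha.smul analyticAt_const), ?_, ?_⟩
  · intro h0
    have := nq_aff hp (aff p (Y u))
    have h0' : p + aff p (Y u) • perp p = 0 := h0
    rw [h0'] at this
    have h2 : nq (0 : ℂ × ℂ) = 0 := by simp [nq]
    rw [h2] at this
    nlinarith [sq_nonneg ‖aff p (Y u)‖]
  · have h1 : hm p (g u) ≠ 0 := hm_ne (hY u) h.2.1 h.2.2.self_of_nhds hu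
    have h2 : ∀ᶠ w in 𝓝 u, hm p (g w) ≠ 0 :=
      (analyticAt_hm h.1).continuousAt.eventually_ne h1
    filter_upwards [h.eventually_ne, h.2.2, h2] with w h3 h4 h5
    have h6 : wd (g w) (Y w) = 0 := by rw [wd_swap, h4, neg_zero]
    have h7 : hm p (Y w) ≠ 0 := hm_ne h3 (hY w) h6 h5
    have h8 : p + aff p (Y w) • perp p = (hm p (Y w))⁻¹ • Y w := by
      conv_rhs => rw [decomp hp (Y w)]
      rw [smul_add, smul_smul, smul_smul]
      rw [← decomp hp, inv_mul_cancel₀ h7, one_smul, aff, div_eq_inv_mul]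
    rw [h8, wd_smul_right, wd_self, mul_zero]

lemma Lift.Sd_aff {Y : ℂ → ℂ × ℂ} (hY : ∀ w, Y w ≠ 0) {u : ℂ} {g : ℂ → ℂ × ℂ}
    (h : Lift Y u g) {p : ℂ × ℂ} (hp : nq p = 1) (hu : hm p (Y u) ≠ 0) :
    Sd Y u = ‖deriv (fun w => aff p (Y w)) u‖ / (1 + ‖aff p (Y u)‖ ^ 2) := by
  rw [(h.aff_lift hY hp hu).Sd_eq hY]
  have ha := (h.analyticAt_aff hY hu).differentiableAt
  have hd : deriv (fun w => p + aff p (Y w) • perp p) u =
      deriv (fun w => aff p (Y w)) u • perp p := by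
    have := (ha.hasDerivAt.smul_const (perp p)).const_add p
    exact this.deriv
  rw [hd, nq_aff hp]
  simp only [wd_smul_right, wd_add_left, wd_smul_left, wd_self, wd_perp hp, mul_zero, add_zero,
    mul_one]


/-! ### The main estimate on discs -/

lemma ch_symm (x y : ℂ × ℂ) : ch x y = ch y x := by
  unfold ch
  rw [wd_swap, norm_neg, mul_comm (nq x)]

lemma ch_nonneg (x y : ℂ × ℂ) : 0 ≤ ch x y := by
  unfold ch nq
  positivity

lemma ch_smul_left {c : ℂ} (hc : c ≠ 0) (x y : ℂ × ℂ) : ch (c • x) y = ch x y := by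
  unfold ch
  rw [wd_smul_left, nq_smul, norm_mul, mul_pow, mul_assoc, mul_div_mul_left]
  have : ‖c‖ ≠ 0 := by simpa using hc
  positivity

/-- if `ch p x ≤ t < 1` for a unit vector `p` then the affine coordinate is small -/
lemma aff_bound {p x : ℂ × ℂ} (hp : nq p = 1) (hx : x ≠ 0) {t : ℝ} (ht : t < 1)
    (h : ch p x ≤ t) : hm p x ≠ 0 ∧ ‖aff p x‖ ^ 2 * (1 - t) ≤ t := by
  have hx' := nq_pos hx
  have hl := lagrange p x
  rw [hp, one_mul] at hl
  unfold ch at h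
  rw [hp, one_mul, div_le_iff₀ hx'] at h
  have h1 : 0 < ‖hm p x‖ ^ 2 := by nlinarith
  have h2 : hm p x ≠ 0 := by
    intro h0
    rw [h0] at h1
    simp at h1
  refine ⟨h2, ?_⟩
  rw [aff, norm_div, div_pow, div_mul_eq_mul_div, div_le_iff₀ h1]
  nlinarith

lemma disc (δ : ℝ) (hδ : 0 < δ) (hδ' : δ ≤ 1 / 1024) (Y : ℂ → ℂ × ℂ) (hY : ∀ w, Y w ≠ 0)
    (u : ℂ) (r : ℝ) (hr : 0 < r) (hl : ∀ w ∈ closedBall u r, ∃ g, Lift Y w g)
    (S : Set (ℂ × ℂ)) (hS : ∀ p : ℂ × ℂ, p ≠ 0 → ∃ s ∈ S, s ≠ 0 ∧ ch p s ≤ δ ^ 2)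
    (hc : ∀ w ∈ closedBall u r, ∀ s ∈ S, wd (Y w) s = 0 → Sd Y w = 0) :
    r * Sd Y u ≤ 128 * δ := by
  -- continuity of `Sd`
  have hcd : ∀ w ∈ closedBall u r, ContDiffAt ℝ 1 (fun w => Pj (Y w)) w := by
    intro w hw
    obtain ⟨g, hg⟩ := hl w hw
    exact hg.contDiffAt hY
  have hcont : ContinuousOn (fun z => (r - ‖z - u‖) * Sd Y z) (closedBall u r) := by
    intro w hw
    apply ContinuousAt.continuousWithinAt
    apply ContinuousAt.mul
    · fun_prop
    · exact ((hcd w hw).fderiv_right (m := 0) (by norm_num)).continuousAt.norm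
  obtain ⟨z1, hz1, hmax⟩ := (isCompact_closedBall u r).exists_isMaxOn
    ⟨u, mem_closedBall_self hr.le⟩ hcont
  have hmax' : ∀ z ∈ closedBall u r, (r - ‖z - u‖) * Sd Y z ≤ (r - ‖z1 - u‖) * Sd Y z1 :=
    fun z hz => hmax hz
  have hu := hmax' u (mem_closedBall_self hr.le)
  rw [sub_self, norm_zero, sub_zero] at hu
  refine hu.trans ?_
  have hSd0 : ∀ z, 0 ≤ Sd Y z := fun z => norm_nonneg _
  rw [mem_closedBall, dist_eq_norm] at hz1
  set ρ := r - ‖z1 - u‖ with hρ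
  set D := Sd Y z1 with hD
  have hρ0 : 0 ≤ ρ := by rw [hρ]; linarith
  by_contra hcon
  push Not at hcon
  have hρ1 : 0 < ρ := by
    rcases hρ0.eq_or_lt with h | h
    · rw [← h, zero_mul] at hcon; linarith
    · exact h
  have hD1 : 0 < D := by
    rcases (hSd0 z1).eq_or_lt with h | h
    · rw [hD, ← h, mul_zero] at hcon; linarith
    · exact h
  -- bound on the smaller ball
  have hball : ∀ z, ‖z - z1‖ ≤ ρ / 2 → z ∈ closedBall u r ∧ Sd Y z ≤ 2 * D := by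
    intro z hz
    have h1 : ‖z - u‖ ≤ ‖z - z1‖ + ‖z1 - u‖ := by
      have := norm_add_le (z - z1) (z1 - u)
      simpa using this
    have h2 : z ∈ closedBall u r := by
      rw [mem_closedBall, dist_eq_norm]; linarith
    refine ⟨h2, ?_⟩
    have h3 := hmax' z h2
    have h4 : ρ / 2 ≤ r - ‖z - u‖ := by rw [hρ] at *; linarith
    have h5 : ρ / 2 * Sd Y z ≤ ρ * D :=
      (mul_le_mul_of_nonneg_right h4 (hSd0 z)).trans h3
    nlinarith
  set σ := min (ρ / 2) (1 / (8 * D)) with hσ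
  have hσ0 : 0 < σ := by rw [hσ]; positivity
  have hσ1 : σ ≤ ρ / 2 := min_le_left _ _
  have hσ2 : σ * D ≤ 1 / 8 := by
    have : σ ≤ 1 / (8 * D) := min_le_right _ _
    calc σ * D ≤ 1 / (8 * D) * D := by gcongr
      _ = 1 / 8 := by field_simp
  -- the unit vector
  have hY1 := hY z1
  have hq := nq_pos hY1
  set c : ℂ := (((√(nq (Y z1)))⁻¹ : ℝ) : ℂ) with hcdef
  have hc0 : c ≠ 0 := by
    rw [hcdef]
    have : √(nq (Y z1)) ≠ 0 := (Real.sqrt_pos.mpr hq).ne'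
    exact_mod_cast inv_ne_zero this
  set p : ℂ × ℂ := c • Y z1 with hpdef
  have hp : nq p = 1 := by
    rw [hpdef, nq_smul, hcdef, Complex.norm_real, Real.norm_eq_abs, sq_abs, inv_pow,
      Real.sq_sqrt hq.le, inv_mul_cancel₀ hq.ne']
  have hpne : p ≠ 0 := smul_ne_zero hc0 hY1
  -- distances
  have hdist : ∀ z, ‖z - z1‖ ≤ σ → ch p (Y z) ≤ 1 / 16 := by
    intro z hz
    have hconv : Convex ℝ (closedBall z1 σ) := convex_closedBall z1 σ
    have h1 : ‖Pj (Y z) - Pj (Y z1)‖ ≤ 2 * D * ‖z - z1‖ := by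
      apply hconv.norm_image_sub_le_of_norm_fderiv_le (f := fun w => Pj (Y w)) (𝕜 := ℝ)
      · intro x hx
        rw [mem_closedBall, dist_eq_norm] at hx
        exact (hcd x (hball x (hx.trans hσ1)).1).differentiableAt one_ne_zero
      · intro x hx
        rw [mem_closedBall, dist_eq_norm] at hx
        exact (hball x (hx.trans hσ1)).2
      · exact mem_closedBall_self hσ0.le
      · rw [mem_closedBall, dist_eq_norm]; exact hz
    have h2 : ‖Pj (Y z) - Pj (Y z1)‖ ≤ 1 / 4 := by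
      have h3 : D * ‖z - z1‖ ≤ D * σ := mul_le_mul_of_nonneg_left hz hD1.le
      linarith
    rw [hpdef, ch_smul_left hc0, ch_symm, ← Pj_dist_sq (hY z) hY1]
    nlinarith [norm_nonneg (Pj (Y z) - Pj (Y z1))]
  set h : ℂ → ℂ := fun w => aff p (Y w) with hh
  have hh0 : h z1 = 0 := by
    simp only [hh, aff]
    rw [hpdef, wd_smul_left, wd_self, mul_zero, zero_div]
  have haff : ∀ z, ‖z - z1‖ ≤ σ → hm p (Y z) ≠ 0 ∧ ‖h z‖ ^ 2 ≤ 1 / 15 := by
    intro z hz
    have h1 := aff_bound hp (hY z) (by norm_num) (hdist z hz)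
    refine ⟨h1.1, ?_⟩
    simp only [hh]
    linarith [h1.2]
  have hder : ∀ z, ‖z - z1‖ ≤ σ → AnalyticAt ℂ h z ∧ ‖deriv h z‖ = Sd Y z * (1 + ‖h z‖ ^ 2) := by
    intro z hz
    obtain ⟨g, hg⟩ := hl z (hball z (hz.trans hσ1)).1
    have h1 := (haff z hz).1
    refine ⟨hg.analyticAt_aff hY h1, ?_⟩
    rw [hg.Sd_aff hY hp h1]
    have : (0 : ℝ) < 1 + ‖aff p (Y z)‖ ^ 2 := by positivity
    field_simp
    rfl
  have hder1 : ‖deriv h z1‖ = D := by
    rw [(hder z1 (by simpa using hσ0.le)).2, hh0]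
    simp
    rfl
  have hder2 : ∀ z, ‖z - z1‖ ≤ σ → ‖deriv h z‖ ≤ 2.2 * D := by
    intro z hz
    rw [(hder z hz).2]
    have h1 := (haff z hz).2
    have h2 := (hball z (hz.trans hσ1)).2
    have h3 := hSd0 z
    nlinarith [sq_nonneg ‖h z‖]
  -- Schwarz lemma for the derivative
  have hschw : ∀ z ∈ ball z1 σ, dist (deriv h z) (deriv h z1) ≤ 3.3 * D / σ * dist z z1 := by
    intro z hz
    apply Complex.dist_le_div_mul_dist_of_mapsTo_ball (f := deriv h)
    · intro w hw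
      rw [mem_ball, dist_eq_norm] at hw
      exact (hder w hw.le).1.deriv.differentiableAt.differentiableWithinAt
    · intro w hw
      rw [mem_ball, dist_eq_norm] at hw
      rw [mem_closedBall, dist_eq_norm]
      have h1 := norm_sub_le (deriv h w) (deriv h z1)
      have h2 := hder2 w hw.le
      rw [hder1] at h1
      linarith
    · exact hz
  have hsmall : ∀ z, ‖z - z1‖ ≤ σ / 8 → ‖deriv h z - deriv h z1‖ ≤ D / 2 := by
    intro z hz
    have h1 := hschw z (by rw [mem_ball, dist_eq_norm]; linarith)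
    rw [dist_eq_norm, dist_eq_norm] at h1
    refine h1.trans ?_
    calc 3.3 * D / σ * ‖z - z1‖ ≤ 3.3 * D / σ * (σ / 8) := by gcongr
      _ = 3.3 / 8 * D := by field_simp
      _ ≤ D / 2 := by linarith
  -- lower bound
  have hlow : ∀ z, ‖z - z1‖ ≤ σ / 8 → D / 2 * ‖z - z1‖ ≤ ‖h z - h z1‖ := by
    intro z hz
    have hconv : Convex ℝ (closedBall z1 (σ / 8)) := convex_closedBall z1 (σ / 8)
    have h1 : ‖(h z - deriv h z1 * z) - (h z1 - deriv h z1 * z1)‖ ≤ D / 2 * ‖z - z1‖ := by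
      apply hconv.norm_image_sub_le_of_norm_hasDerivWithin_le
        (f := fun w => h w - deriv h z1 * w) (f' := fun w => deriv h w - deriv h z1)
      · intro w hw
        rw [mem_closedBall, dist_eq_norm] at hw
        have h2 := (hder w (by linarith)).1.differentiableAt.hasDerivAt
        have h3 := h2.sub ((hasDerivAt_id w).const_mul (deriv h z1))
        simp only [mul_one] at h3
        exact h3.hasDerivWithinAt
      · intro w hw
        rw [mem_closedBall, dist_eq_norm] at hw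
        exact hsmall w hw
      · exact mem_closedBall_self (by positivity)
      · rw [mem_closedBall, dist_eq_norm]; exact hz
    have h2 : ‖deriv h z1 * (z - z1)‖ = D * ‖z - z1‖ := by rw [norm_mul, hder1]
    have h3 : (h z - deriv h z1 * z) - (h z1 - deriv h z1 * z1) =
      (h z - h z1) - deriv h z1 * (z - z1) := by ring
    rw [h3] at h1
    have h4 := norm_sub_norm_le (deriv h z1 * (z - z1)) (h z - h z1)
    rw [norm_sub_rev (deriv h z1 * (z - z1)) (h z - h z1)] at h4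
    linarith
  -- the image contains a disc
  have himg : ball (h z1) ((D * σ / 16) / 2) ⊆ h '' closedBall z1 (σ / 8) := by
    apply DiffContOnCl.ball_subset_image_closedBall
    · apply DifferentiableOn.diffContOnCl
      intro z hz
      have h1 := closure_ball_subset_closedBall hz
      rw [mem_closedBall, dist_eq_norm] at h1
      exact (hder z (by linarith)).1.differentiableAt.differentiableWithinAt
    · positivity
    · intro z hz
      rw [mem_sphere, dist_eq_norm] at hz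
      have := hlow z hz.le
      rw [hz] at this
      calc D * σ / 16 = D / 2 * (σ / 8) := by ring
        _ ≤ _ := this
    · have h1 : ∀ᶠ z in 𝓝[≠] z1, h z ≠ h z1 := by
        have h2 : ball z1 (σ / 8) ∈ 𝓝 z1 := ball_mem_nhds z1 (by positivity)
        filter_upwards [mem_nhdsWithin_of_mem_nhds h2, self_mem_nhdsWithin] with z hz hz'
        have hz'' : z ≠ z1 := hz'
        rw [mem_ball, dist_eq_norm] at hz
        have h3 := hlow z hz.le
        have h4 : 0 < ‖z - z1‖ := norm_pos_iff.mpr (sub_ne_zero.mpr hz'')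
        intro h5
        rw [h5, sub_self, norm_zero] at h3
        have : 0 < D / 2 * ‖z - z1‖ := by positivity
        linarith
      exact h1.frequently.filter_mono nhdsWithin_le_nhds
  -- the point of `S`
  obtain ⟨s, hsS, hs0, hs⟩ := hS p hpne
  have hδ1 : δ ^ 2 < 1 := by nlinarith
  have hsb := aff_bound hp hs0 hδ1 hs
  have hsb2 : ‖aff p s‖ < 2 * δ := by
    have hδ2 : δ ^ 2 ≤ 1 / 2 := by nlinarith
    have h1 : ‖aff p s‖ ^ 2 < (2 * δ) ^ 2 := by
      have h0 := hsb.2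
      have h00 : 0 ≤ ‖aff p s‖ ^ 2 * (1 / 2 - δ ^ 2) :=
        mul_nonneg (sq_nonneg _) (by linarith)
      have h01 : 0 < δ ^ 2 := by positivity
      nlinarith
    exact lt_of_pow_lt_pow_left₀ 2 (by positivity) h1
  have hDσ : 64 * δ < D * σ := by
    rcases min_choice (ρ / 2) (1 / (8 * D)) with h1 | h1
    · rw [hσ, h1]; linarith
    · rw [hσ, h1]
      have : D * (1 / (8 * D)) = 1 / 8 := by field_simp
      rw [this]; linarith
  have hmem : aff p s ∈ ball (h z1) ((D * σ / 16) / 2) := by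
    rw [mem_ball, dist_eq_norm, hh0, sub_zero]
    linarith
  obtain ⟨z, hz, hzs⟩ := himg hmem
  rw [mem_closedBall, dist_eq_norm] at hz
  have hzσ : ‖z - z1‖ ≤ σ := by linarith
  have hwd : wd (Y z) s = 0 := by
    have h1 := (haff z hzσ).1
    have h2 := hsb.1
    have h3 : wd p (Y z) / hm p (Y z) = wd p s / hm p s := hzs
    rw [div_eq_div_iff h1 h2] at h3
    rw [decomp hp (Y z), decomp hp s]
    simp only [wd_add_left, wd_add_right, wd_smul_left, wd_smul_right, wd_self, wd_perp hp,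
      wd_swap (perp p) p]
    linear_combination (-1) * h3
  have hcrit := hc z (hball z (hzσ.trans hσ1)).1 s hsS hwd
  have h1 := (hder z hzσ).2
  rw [hcrit, zero_mul, norm_eq_zero] at h1
  have h2 := hsmall z hz
  rw [h1, zero_sub, norm_neg, hder1] at h2
  linarith

end

end S10

open S10 in
theorem lipschitz_of_crit (R : ℝ) : ∃ K : ℝ, 0 < K ∧ ∃ δ₀ : ℝ, 0 < δ₀ ∧ ∀ δ : ℝ, 0 < δ → δ ≤ δ₀ →
    ∀ (X : ℍ → ℂ × ℂ) (S : Set (ℂ × ℂ)), ProjHol X →
      (∀ p : ℂ × ℂ, p ≠ 0 → ∃ s ∈ S, s ≠ 0 ∧ ch p s ≤ δ ^ 2) →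
      (∀ z, ∀ s ∈ S, wd (X z) s = 0 → IsCrit X z) →
      ∀ z w : ℍ, dist z w ≤ R → ch (X z) (X w) ≤ (K * δ) ^ 2 := by
  refine ⟨256 * Real.exp (2 * R), by positivity, 1 / 1024, by norm_num, ?_⟩
  intro δ hδ hδ' X S hX hS hc z w hzw
  set Y : ℂ → ℂ × ℂ := fun u => X (ofComplex u) with hYdef
  have hY : ∀ u, Y u ≠ 0 := fun u => hX.1 _
  have hlift : ∀ (z : ℍ) (g : ℂ → ℂ × ℂ), IsLift X z g → Lift Y z g := by
    intro z g hg
    refine ⟨hg.1, hg.2.1, ?_⟩
    rw [← isOpenEmbedding_coe.map_nhds_eq z, Filter.eventually_map]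
    filter_upwards [hg.2.2] with v hv
    simpa [hYdef] using hv
  have hSd : ∀ u : ℂ, 0 < u.im → Sd Y u * u.im ≤ 256 * δ := by
    intro u hu
    have hin : ∀ v ∈ closedBall u (u.im / 2), 0 < v.im := by
      intro v hv
      rw [mem_closedBall, dist_eq_norm] at hv
      have h1 := Complex.abs_im_le_norm (v - u)
      rw [Complex.sub_im] at h1
      have h2 := neg_abs_le (v.im - u.im)
      linarith
    have h := disc δ hδ hδ' Y hY u (u.im / 2) (by positivity) ?_ S hS ?_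
    · linarith
    · intro v hv
      obtain ⟨g, hg⟩ := hX.2 ⟨v, hin v hv⟩
      exact ⟨g, hlift _ g hg⟩
    · intro v hv s hs hw
      have h1 : IsCrit X ⟨v, hin v hv⟩ := by
        apply hc _ s hs
        have h2 : Y v = X ⟨v, hin v hv⟩ := by
          rw [hYdef]
          simp only
          rw [ofComplex_apply_of_im_pos (hin v hv)]
        rw [← h2]
        exact hw
      obtain ⟨g, hg, hg'⟩ := h1
      have h3 := (hlift _ g hg).Sd_eq hY
      have h4 : ((⟨v, hin v hv⟩ : ℍ) : ℂ) = v := rfl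
      rw [h4] at h3 hg'
      rw [h3, hg', norm_zero, zero_div]
  have hR : 0 ≤ R := dist_nonneg.trans hzw
  have hw0 := w.im_pos
  set m : ℝ := w.im / Real.exp R with hm
  have hm0 : 0 < m := by positivity
  have hconv : Convex ℝ {u : ℂ | m ≤ u.im} := convex_halfSpace_im_ge m
  have hwm : (w : ℂ) ∈ {u : ℂ | m ≤ u.im} := by
    have : (1 : ℝ) ≤ Real.exp R := Real.one_le_exp hR
    rw [Set.mem_ofPred_eq, hm]
    exact div_le_self hw0.le this
  have hzm : (z : ℂ) ∈ {u : ℂ | m ≤ u.im} := by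
    have h1 := im_div_exp_dist_le w z
    rw [Set.mem_ofPred_eq]
    refine le_trans ?_ h1
    rw [hm, dist_comm w z]
    gcongr
  have h1 : ‖Pj (Y z) - Pj (Y w)‖ ≤ 256 * δ / m * ‖(z : ℂ) - w‖ := by
    apply hconv.norm_image_sub_le_of_norm_fderiv_le (f := fun w => Pj (Y w)) (𝕜 := ℝ)
    · intro x hx
      have hx0 : 0 < x.im := lt_of_lt_of_le hm0 hx
      obtain ⟨g, hg⟩ := hX.2 ⟨x, hx0⟩
      exact ((hlift _ g hg).contDiffAt hY).differentiableAt one_ne_zero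
    · intro x hx
      have hx0 : 0 < x.im := lt_of_lt_of_le hm0 hx
      have h2 := hSd x hx0
      have h3 : m ≤ x.im := hx
      rw [le_div_iff₀ hm0]
      refine le_trans ?_ h2
      exact mul_le_mul_of_nonneg_left h3 (norm_nonneg _)
    · exact hwm
    · exact hzm
  have h2 : ‖(z : ℂ) - w‖ ≤ w.im * Real.exp R := by
    rw [← dist_eq_norm]
    refine (dist_coe_le z w).trans ?_
    have : Real.exp (dist z w) ≤ Real.exp R := Real.exp_le_exp.mpr hzw
    apply mul_le_mul_of_nonneg_left _ hw0.le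
    linarith
  have h3 : ‖Pj (Y z) - Pj (Y w)‖ ≤ 256 * Real.exp (2 * R) * δ := by
    refine h1.trans ?_
    calc 256 * δ / m * ‖(z : ℂ) - w‖ ≤ 256 * δ / m * (w.im * Real.exp R) := by gcongr
      _ = 256 * (Real.exp R * Real.exp R) * δ := by rw [hm]; field_simp
      _ = 256 * Real.exp (2 * R) * δ := by rw [← Real.exp_add]; ring_nf
  have h4 : ch (X z) (X w) = ‖Pj (Y z) - Pj (Y w)‖ ^ 2 := by
    rw [Pj_dist_sq (hY _) (hY _)]
    simp [hYdef]
  rw [h4]
  exact pow_le_pow_left₀ (norm_nonneg _) h3 2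

end Pool.Agent.H369R2
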