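import Mathlib
import Pool.Agent.H369R2.Defs

open UpperHalfPlane MeasureTheory Metric ModularGroup CongruenceSubgroup
open scoped MatrixGroups ENNReal Modular Topology

namespace Pool.Agent.H369R2

/-- The polynomial `∏_{|j| ≤ n²} (x^n - 2^j)`. -/
noncomputable def curvePoly (K : Type) [Field K] (n : ℕ) : Polynomial K :=
  ∏ j ∈ Finset.Icc (-((n : ℤ) ^ 2)) ((n : ℤ) ^ 2), (Polynomial.X ^ n - Polynomial.C ((2 : K) ^ j))

/-- The points `(1, s)`, `s` a root of `curvePoly ℂ n`. -/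
def rootSet (n : ℕ) : Set (ℂ × ℂ) :=
  {v | ∃ j ∈ Finset.Icc (-((n : ℤ) ^ 2)) ((n : ℤ) ^ 2), ∃ s : ℂ, s ^ n = (2 : ℂ) ^ j ∧ v = (1, s)}

namespace S13

theorem root_pow (n : ℕ) (hn : 0 < n) (j k : ℤ) :
    ((((2 : ℝ) ^ ((j : ℝ) / n) : ℝ) : ℂ) * Complex.exp (Complex.I * ((2 * Real.pi * k / n : ℝ) : ℂ))) ^ n =
      (2 : ℂ) ^ j := by
  have hn' : (n : ℝ) ≠ 0 := by exact_mod_cast hn.ne'
  rw [mul_pow, ← Complex.ofReal_pow, ← Real.rpow_natCast, ← Real.rpow_mul (by norm_num),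
    div_mul_cancel₀ _ hn', Real.rpow_intCast, ← Complex.exp_nat_mul]
  have : (n : ℂ) * (Complex.I * ((2 * Real.pi * k / n : ℝ) : ℂ)) = k * (2 * Real.pi * Complex.I) := by
    push_cast
    have : (n : ℂ) ≠ 0 := by exact_mod_cast hn.ne'
    field_simp
  rw [this, Complex.exp_int_mul_two_pi_mul_I, mul_one]
  push_cast
  rfl

theorem norm_root (n : ℕ) (j k : ℤ) :
    ‖((((2 : ℝ) ^ ((j : ℝ) / n) : ℝ) : ℂ) * Complex.exp (Complex.I * ((2 * Real.pi * k / n : ℝ) : ℂ)))‖ =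
      (2 : ℝ) ^ ((j : ℝ) / n) := by
  rw [norm_mul, mul_comm Complex.I, Complex.norm_exp_ofReal_mul_I, mul_one, Complex.norm_real,
    Real.norm_of_nonneg (by positivity)]

theorem ch_eq (p : ℂ × ℂ) (hp : p.1 ≠ 0) (σ : ℂ) :
    ch p (1, σ) = ‖σ - p.2 / p.1‖ ^ 2 / ((1 + ‖p.2 / p.1‖ ^ 2) * (1 + ‖σ‖ ^ 2)) := by
  unfold ch wd nq
  have hp' : ‖p.1‖ ≠ 0 := by simpa using hp
  have h1 : ‖p.1 * σ - p.2 * 1‖ ^ 2 = ‖p.1‖ ^ 2 * ‖σ - p.2 / p.1‖ ^ 2 := by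
    rw [← mul_pow, ← norm_mul]
    congr 2
    field_simp
  have h2 : ‖p.1‖ ^ 2 + ‖p.2‖ ^ 2 = ‖p.1‖ ^ 2 * (1 + ‖p.2 / p.1‖ ^ 2) := by
    rw [norm_div]; field_simp
  simp only [norm_one, one_pow]
  rw [h1, h2, mul_assoc, mul_div_mul_left _ _ (by positivity)]

end S13

open S13

/-- S13 -/
theorem rootSet_dense (δ : ℝ) (hδ : 0 < δ) : ∃ n : ℕ, 0 < n ∧ Even n ∧
    ∀ p : ℂ × ℂ, p ≠ 0 → ∃ s ∈ rootSet n, s ≠ 0 ∧ ch p s ≤ δ ^ 2 := by
  obtain ⟨m, hm⟩ := exists_nat_gt (5 / δ)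
  have hm0 : 0 < m := by
    have : (0 : ℝ) < m := lt_trans (by positivity) hm
    exact_mod_cast this
  refine ⟨2 * m, by omega, even_two_mul m, ?_⟩
  intro p hp
  set n := 2 * m with hn
  have hn0 : 0 < n := by omega
  have hnR : (0 : ℝ) < n := by exact_mod_cast hn0
  have hnδ : 5 / (n : ℝ) ≤ δ := by
    rw [div_le_iff₀ hnR]
    rw [div_lt_iff₀ hδ] at hm
    have : (m : ℝ) ≤ n := by rw [hn]; push_cast; have : (0 : ℝ) < m := by exact_mod_cast hm0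
                             linarith
    nlinarith
  have h2n : (n : ℝ) ≤ 2 ^ n := by
    have := Nat.lt_two_pow_self (n := n)
    exact_mod_cast this.le
  have h2n' : ((2 : ℝ) ^ n)⁻¹ ≤ 1 / n := by
    rw [one_div]; exact inv_anti₀ hnR h2n
  have hnn : ((n : ℤ) ^ 2 : ℤ) ≥ 0 := by positivity
  have hsmall : (2 * ((2 : ℝ) ^ n)⁻¹) ^ 2 ≤ δ ^ 2 := by
    have : 2 * ((2 : ℝ) ^ n)⁻¹ ≤ δ := by
      calc 2 * ((2 : ℝ) ^ n)⁻¹ ≤ 2 * (1 / n) := by gcongr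
        _ ≤ 5 / n := by rw [mul_one_div]; gcongr; norm_num
        _ ≤ δ := hnδ
    gcongr
  have hne : ∀ σ : ℂ, ((1, σ) : ℂ × ℂ) ≠ 0 := by
    intro σ h
    have := congrArg Prod.fst h
    simp at this
  have hbig : ((2 : ℝ) ^ n : ℝ) > 0 := by positivity
  -- the real points `2^n`, `2^(-n)`
  have hmem1 : ((1, (2 : ℂ) ^ n) : ℂ × ℂ) ∈ rootSet n := by
    refine ⟨(n : ℤ) ^ 2, by rw [Finset.mem_Icc]; constructor <;> linarith, (2 : ℂ) ^ n, ?_, rfl⟩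
    rw [← pow_mul, ← sq]; norm_cast
  have hmem2 : ((1, ((2 : ℂ) ^ n)⁻¹) : ℂ × ℂ) ∈ rootSet n := by
    refine ⟨-((n : ℤ) ^ 2), by rw [Finset.mem_Icc]; constructor <;> linarith, ((2 : ℂ) ^ n)⁻¹, ?_, rfl⟩
    rw [inv_pow, ← pow_mul, ← sq, zpow_neg]; norm_cast
  have hnorm1 : ‖(2 : ℂ) ^ n‖ = 2 ^ n := by rw [norm_pow]; norm_num
  have hnorm2 : ‖((2 : ℂ) ^ n)⁻¹‖ = ((2 : ℝ) ^ n)⁻¹ := by rw [norm_inv, hnorm1]
  by_cases hp1 : p.1 = 0
  · refine ⟨_, hmem1, hne _, ?_⟩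
    have hp2 : p.2 ≠ 0 := by
      intro h2; exact hp (Prod.ext hp1 h2)
    have hp2' : 0 < ‖p.2‖ := by positivity
    have : ch p (1, (2 : ℂ) ^ n) = 1 / (1 + ((2 : ℝ) ^ n) ^ 2) := by
      unfold ch wd nq
      simp only [hp1, norm_one, one_pow, hnorm1, norm_zero, zero_mul, zero_sub, norm_neg, mul_one]
      field_simp
      simp
    rw [this]
    refine le_trans ?_ hsmall
    rw [mul_pow, inv_pow]
    rw [div_le_iff₀ (by positivity)]
    have h0 : 0 < ((2 : ℝ) ^ n) ^ 2 := by positivity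
    have h1 : 2 ^ 2 * (((2 : ℝ) ^ n) ^ 2)⁻¹ * (1 + ((2 : ℝ) ^ n) ^ 2) = 4 * (((2 : ℝ) ^ n) ^ 2)⁻¹ + 4 := by
      field_simp; ring
    rw [h1]
    have : 0 < (((2 : ℝ) ^ n) ^ 2)⁻¹ := by positivity
    linarith
  · set t := p.2 / p.1 with ht
    rcases le_or_gt ((2 : ℝ) ^ n) ‖t‖ with hbt | hbt
    · refine ⟨_, hmem1, hne _, ?_⟩
      rw [ch_eq p hp1, ← ht, hnorm1]
      refine le_trans ?_ hsmall
      have ht0 : 0 < ‖t‖ := lt_of_lt_of_le hbig hbt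
      have h1 : ‖(2 : ℂ) ^ n - t‖ ≤ 2 ^ n + ‖t‖ := by
        refine (norm_sub_le _ _).trans ?_
        rw [hnorm1]
      calc ‖(2 : ℂ) ^ n - t‖ ^ 2 / ((1 + ‖t‖ ^ 2) * (1 + ((2 : ℝ) ^ n) ^ 2))
          ≤ (2 ^ n + ‖t‖) ^ 2 / (‖t‖ ^ 2 * ((2 : ℝ) ^ n) ^ 2) := by
            gcongr
            · linarith
            · linarith
        _ = (‖t‖⁻¹ + ((2 : ℝ) ^ n)⁻¹) ^ 2 := by field_simp
        _ ≤ (2 * ((2 : ℝ) ^ n)⁻¹) ^ 2 := by
            have : ‖t‖⁻¹ ≤ ((2 : ℝ) ^ n)⁻¹ := inv_anti₀ hbig hbt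
            have h0 : 0 ≤ ‖t‖⁻¹ + ((2 : ℝ) ^ n)⁻¹ := by positivity
            gcongr
            linarith
    rcases le_or_gt ‖t‖ (((2 : ℝ) ^ n)⁻¹) with hst | hst
    · refine ⟨_, hmem2, hne _, ?_⟩
      rw [ch_eq p hp1, ← ht, hnorm2]
      refine le_trans ?_ hsmall
      have h1 : ‖((2 : ℂ) ^ n)⁻¹ - t‖ ≤ 2 * ((2 : ℝ) ^ n)⁻¹ := by
        refine (norm_sub_le _ _).trans ?_
        rw [hnorm2]; linarith
      rw [div_le_iff₀ (by positivity)]
      calc ‖((2 : ℂ) ^ n)⁻¹ - t‖ ^ 2 ≤ (2 * ((2 : ℝ) ^ n)⁻¹) ^ 2 := by gcongr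
        _ = (2 * ((2 : ℝ) ^ n)⁻¹) ^ 2 * (1 * 1) := by ring
        _ ≤ (2 * ((2 : ℝ) ^ n)⁻¹) ^ 2 * ((1 + ‖t‖ ^ 2) * (1 + (((2 : ℝ) ^ n)⁻¹) ^ 2)) := by
            gcongr
            · linarith [sq_nonneg ‖t‖]
            · linarith [sq_nonneg ((2 : ℝ) ^ n)⁻¹]
    · -- the middle range
      have ht0 : 0 < ‖t‖ := lt_trans (by positivity) hst
      set L := Real.logb 2 ‖t‖ with hL
      have hLt : (2 : ℝ) ^ L = ‖t‖ := Real.rpow_logb (by norm_num) (by norm_num) ht0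
      set j := ⌊(n : ℝ) * L⌋ with hj
      have hL1 : L < n := by
        rw [hL, Real.logb_lt_iff_lt_rpow (by norm_num) ht0, Real.rpow_natCast]; exact hbt
      have hL2 : -(n : ℝ) < L := by
        rw [hL, Real.lt_logb_iff_rpow_lt (by norm_num) ht0, Real.rpow_neg (by norm_num), Real.rpow_natCast]
        exact hst
      have hj1 : (j : ℝ) ≤ n * L := Int.floor_le _
      have hj2 : (n : ℝ) * L < j + 1 := Int.lt_floor_add_one _
      have hjmem : j ∈ Finset.Icc (-((n : ℤ) ^ 2)) ((n : ℤ) ^ 2) := by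
        rw [Finset.mem_Icc]
        constructor
        · rw [hj, Int.le_floor]; push_cast; nlinarith
        · have : (j : ℝ) ≤ (n : ℝ) ^ 2 := by nlinarith
          exact_mod_cast this
      set k := round (Complex.arg t * n / (2 * Real.pi)) with hk
      have hk1 : |Complex.arg t * n / (2 * Real.pi) - k| ≤ 1 / 2 := abs_sub_round _
      set θ : ℝ := 2 * Real.pi * k / n with hθ
      set ρ : ℝ := (2 : ℝ) ^ ((j : ℝ) / n) with hρ
      refine ⟨(1, (ρ : ℂ) * Complex.exp (Complex.I * (θ : ℂ))), ⟨j, hjmem, _, root_pow n hn0 j k, rfl⟩, hne _, ?_⟩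
      have hρ0 : 0 < ρ := by positivity
      have hρ1 : ρ ≤ ‖t‖ := by
        rw [← hLt, hρ]
        apply Real.rpow_le_rpow_of_exponent_le (by norm_num)
        rw [div_le_iff₀ hnR]; linarith
      have hρ2 : ‖t‖ * (1 - 1 / n) ≤ ρ := by
        have h1 : (2 : ℝ) ^ (L - 1 / n) ≤ ρ := by
          rw [hρ]
          apply Real.rpow_le_rpow_of_exponent_le (by norm_num)
          rw [le_div_iff₀ hnR]
          have : (L - 1 / n) * n = n * L - 1 := by field_simp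
          rw [this]; linarith
        have h2 : (2 : ℝ) ^ (L - 1 / n) = ‖t‖ * (2 : ℝ) ^ (-(1 / n) : ℝ) := by
          rw [sub_eq_add_neg, Real.rpow_add (by norm_num), hLt]
        have h3 : 1 - 1 / (n : ℝ) ≤ (2 : ℝ) ^ (-(1 / n) : ℝ) := by
          rw [Real.rpow_def_of_pos (by norm_num)]
          have := Real.add_one_le_exp (Real.log 2 * -(1 / (n : ℝ)))
          have hl : Real.log 2 ≤ 1 := by
            have := Real.log_two_lt_d9; linarith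
          have : Real.log 2 * (1 / (n : ℝ)) ≤ 1 * (1 / n) := by gcongr
          linarith
        calc ‖t‖ * (1 - 1 / n) ≤ ‖t‖ * (2 : ℝ) ^ (-(1 / n) : ℝ) := by gcongr
          _ = (2 : ℝ) ^ (L - 1 / n) := h2.symm
          _ ≤ ρ := h1
      have hθ1 : |Complex.arg t - θ| ≤ Real.pi / n := by
        have h1 : Complex.arg t - θ = (Complex.arg t * n / (2 * Real.pi) - k) * (2 * Real.pi / n) := by
          rw [hθ]; have := Real.pi_pos; field_simp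
        rw [h1, abs_mul, abs_of_pos (by positivity : 0 < 2 * Real.pi / (n : ℝ))]
        calc _ ≤ 1 / 2 * (2 * Real.pi / n) := by gcongr
          _ = Real.pi / n := by ring
      have hdist : ‖(ρ : ℂ) * Complex.exp (Complex.I * (θ : ℂ)) - t‖ ≤ 5 / n * ‖t‖ := by
        have e1 : t = (‖t‖ : ℂ) * Complex.exp (Complex.I * (Complex.arg t : ℂ)) := by
          rw [mul_comm Complex.I]; exact (Complex.norm_mul_exp_arg_mul_I t).symm
        have e2 : (ρ : ℂ) * Complex.exp (Complex.I * (θ : ℂ)) - t =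
            ((ρ - ‖t‖ : ℝ) : ℂ) * Complex.exp (Complex.I * (θ : ℂ)) -
              (‖t‖ : ℂ) * Complex.exp (Complex.I * (θ : ℂ)) * (Complex.exp (Complex.I * ((Complex.arg t - θ : ℝ) : ℂ)) - 1) := by
          conv_lhs => rw [e1]
          have : Complex.exp (Complex.I * (Complex.arg t : ℂ)) = Complex.exp (Complex.I * (θ : ℂ)) *
              Complex.exp (Complex.I * ((Complex.arg t - θ : ℝ) : ℂ)) := by
            rw [← Complex.exp_add]; congr 1; push_cast; ring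
          rw [this]; push_cast; ring
        rw [e2]
        refine (norm_sub_le _ _).trans ?_
        have e3 : ‖Complex.exp (Complex.I * (θ : ℂ))‖ = 1 := by
          rw [mul_comm, Complex.norm_exp_ofReal_mul_I]
        have e4 : ‖Complex.exp (Complex.I * ((Complex.arg t - θ : ℝ) : ℂ)) - 1‖ ≤ |Complex.arg t - θ| := by
          have := Real.norm_exp_I_mul_ofReal_sub_one_le (x := Complex.arg t - θ)
          simpa using this
        rw [norm_mul, norm_mul, norm_mul, e3, mul_one, mul_one, Complex.norm_real, Complex.norm_real,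
          Real.norm_eq_abs, Real.norm_eq_abs, abs_of_nonpos (by linarith), abs_of_pos ht0]
        have e5 : -(ρ - ‖t‖) ≤ ‖t‖ * (1 / n) := by linarith
        have e6 : ‖t‖ * ‖Complex.exp (Complex.I * ((Complex.arg t - θ : ℝ) : ℂ)) - 1‖ ≤ ‖t‖ * (Real.pi / n) := by
          apply mul_le_mul_of_nonneg_left (e4.trans hθ1) ht0.le
        have e7 : Real.pi / n ≤ 4 / n := by
          have := Real.pi_lt_four
          gcongr
        calc _ ≤ ‖t‖ * (1 / n) + ‖t‖ * (Real.pi / n) := add_le_add e5 e6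
          _ ≤ ‖t‖ * (1 / n) + ‖t‖ * (4 / n) := by gcongr
          _ = 5 / n * ‖t‖ := by ring
      rw [ch_eq p hp1, ← ht]
      calc ‖(ρ : ℂ) * Complex.exp (Complex.I * (θ : ℂ)) - t‖ ^ 2 /
            ((1 + ‖t‖ ^ 2) * (1 + ‖(ρ : ℂ) * Complex.exp (Complex.I * (θ : ℂ))‖ ^ 2))
          ≤ (5 / (n : ℝ) * ‖t‖) ^ 2 / (‖t‖ ^ 2 * 1) := by
            gcongr
            · linarith
            · linarith [sq_nonneg ‖(ρ : ℂ) * Complex.exp (Complex.I * (θ : ℂ))‖]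
        _ = (5 / (n : ℝ)) ^ 2 := by field_simp
        _ ≤ δ ^ 2 := by gcongr

end Pool.Agent.H369R2
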