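import Mathlib
import Pool.Agent.H369R2.FinalDefs
import Pool.Agent.H369R2.S13

open Polynomial

namespace Pool.Agent.H369R2

namespace S14a

variable (K : Type) [Field K] [CharZero K]

theorem two_zpow_ne_one (j : ℤ) (hj : j ≠ 0) : (2 : K) ^ j ≠ 1 := by
  intro h
  have h1 : (((2 : ℚ) ^ j : ℚ) : K) = ((1 : ℚ) : K) := by push_cast; exact h
  have h2 : (2 : ℚ) ^ j = 1 := Rat.cast_injective h1
  rw [zpow_eq_one_iff_right₀ (by norm_num) (by norm_num)] at h2
  exact hj h2

theorem curvePoly_ne_zero (n : ℕ) (hn : 0 < n) : curvePoly K n ≠ 0 := by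
  unfold curvePoly
  rw [Finset.prod_ne_zero_iff]
  intro j _
  exact X_pow_sub_C_ne_zero hn _

theorem rootMult (n : ℕ) (hn : 0 < n) : (curvePoly K n).rootMultiplicity 1 = 1 := by
  classical
  have h0 := curvePoly_ne_zero K n hn
  unfold curvePoly at h0 ⊢
  have hmem : (0 : ℤ) ∈ Finset.Icc (-((n : ℤ) ^ 2)) ((n : ℤ) ^ 2) := by
    rw [Finset.mem_Icc]; constructor <;> nlinarith [sq_nonneg (n : ℤ)]
  rw [← Finset.mul_prod_erase _ _ hmem] at h0 ⊢
  rw [rootMultiplicity_mul h0]
  have h2 : rootMultiplicity 1 (∏ j ∈ (Finset.Icc (-((n : ℤ) ^ 2)) ((n : ℤ) ^ 2)).erase 0,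
      (X ^ n - C ((2 : K) ^ j))) = 0 := by
    apply rootMultiplicity_eq_zero
    rw [IsRoot, eval_prod, Finset.prod_eq_zero_iff]
    rintro ⟨j, hj, hj'⟩
    simp only [eval_sub, eval_pow, eval_X, one_pow, eval_C] at hj'
    exact two_zpow_ne_one K j (Finset.ne_of_mem_erase hj) (sub_eq_zero.mp hj').symm
  rw [h2, add_zero, zpow_zero]
  have h3 : (X ^ n - C (1 : K)) ≠ 0 := X_pow_sub_C_ne_zero hn _
  apply le_antisymm
  · by_contra hcon
    push Not at hcon
    rw [one_lt_rootMultiplicity_iff_isRoot h3] at hcon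
    have := hcon.2
    simp [IsRoot, derivative_X_pow] at this
    omega
  · rw [Nat.succ_le_iff, rootMultiplicity_pos h3]
    simp [IsRoot]

/-- the polynomial as an element of `K(x)` -/
noncomputable def fL (n : ℕ) : RatFunc K := algebraMap K[X] (RatFunc K) (curvePoly K n)

theorem not_const (n : ℕ) (hn : 0 < n) (b : RatFunc K) (hb : b ≠ 0) (c : K) :
    b ^ 2 * fL K n ≠ RatFunc.C c := by
  intro h
  obtain ⟨p, q, hq, hpq⟩ := IsFractionRing.div_surjective (A := K[X]) b
  have hq0 : q ≠ 0 := nonZeroDivisors.ne_zero hq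
  have hq1 : algebraMap K[X] (RatFunc K) q ≠ 0 := by
    rwa [Ne, FaithfulSMul.algebraMap_eq_zero_iff]
  have hp0 : p ≠ 0 := by
    rintro rfl
    apply hb
    rw [← hpq]; simp
  have hc : RatFunc.C c = algebraMap K[X] (RatFunc K) (C c) := (RatFunc.algebraMap_C c).symm
  rw [← hpq, div_pow, fL, div_mul_eq_mul_div, div_eq_iff (pow_ne_zero 2 hq1), hc, ← map_pow, ← map_pow,
    ← map_mul, ← map_mul] at h
  have h' := FaithfulSMul.algebraMap_injective K[X] (RatFunc K) h
  have hf := curvePoly_ne_zero K n hn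
  have hc0 : C c * q ^ 2 ≠ 0 := by
    rw [← h']
    exact mul_ne_zero (pow_ne_zero 2 hp0) hf
  have hl : (p ^ 2 * curvePoly K n).rootMultiplicity 1 = 2 * p.rootMultiplicity 1 + 1 := by
    rw [rootMultiplicity_mul (mul_ne_zero (pow_ne_zero 2 hp0) hf), rootMult K n hn, pow_two,
      rootMultiplicity_mul (mul_ne_zero hp0 hp0), two_mul]
  have hr : (C c * q ^ 2).rootMultiplicity 1 = 2 * q.rootMultiplicity 1 := by
    rw [rootMultiplicity_mul hc0, rootMultiplicity_C, zero_add, pow_two,
      rootMultiplicity_mul (mul_ne_zero hq0 hq0), two_mul]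
  rw [h', hr] at hl
  omega

theorem irr (n : ℕ) (hn : 0 < n) : Irreducible (X ^ 2 - C (fL K n) : (RatFunc K)[X]) := by
  apply X_pow_sub_C_irreducible_of_prime Nat.prime_two
  intro b hb
  have hb0 : b ≠ 0 := by
    rintro rfl
    have : fL K n = 0 := by rw [← hb]; simp
    unfold fL at this
    rw [FaithfulSMul.algebraMap_eq_zero_iff] at this
    exact curvePoly_ne_zero K n hn this
  apply not_const K n hn b⁻¹ (inv_ne_zero hb0) 1
  rw [← hb, map_one]
  field_simp

end S14a

open S14a

/-- S14a -/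
theorem exists_curve (K : Type) [Field K] [CharZero K] (n : ℕ) (hn : 0 < n) :
    ∃ (F : Type) (_ : Field F) (_ : Algebra K F), IsCurveField K F ∧
      ∃ x w : F, w ^ 2 = Polynomial.aeval x (curvePoly K n) ∧
        ∀ y : F, IsAlgebraic (IntermediateField.adjoin K {x}) y := by
  have : Fact (Irreducible (X ^ 2 - C (fL K n) : (RatFunc K)[X])) := ⟨irr K n hn⟩
  set g : (RatFunc K)[X] := X ^ 2 - C (fL K n) with hg
  have hgm : g.Monic := monic_X_pow_sub_C _ (by norm_num)
  have hdeg : g.natDegree = 2 := natDegree_X_pow_sub_C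
  set w : AdjoinRoot g := AdjoinRoot.root g with hw
  have hw2 : w ^ 2 = algebraMap (RatFunc K) (AdjoinRoot g) (fL K n) := by
    have := AdjoinRoot.eval₂_root g
    rw [hg] at this
    rw [eval₂_sub, eval₂_pow, eval₂_X, eval₂_C, sub_eq_zero] at this
    exact this
  -- every element
  have hrep : ∀ y : AdjoinRoot g, ∃ a b : RatFunc K,
      y = algebraMap (RatFunc K) (AdjoinRoot g) a + algebraMap (RatFunc K) (AdjoinRoot g) b * w := by
    intro y
    obtain ⟨p, rfl⟩ := AdjoinRoot.mk_surjective y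
    have h1 : (p %ₘ g).natDegree ≤ 1 := by
      have := natDegree_modByMonic_lt p hgm (by
        intro h; rw [h] at hdeg; simp at hdeg)
      omega
    obtain ⟨b, a, hba⟩ := exists_eq_X_add_C_of_natDegree_le_one h1
    refine ⟨a, b, ?_⟩
    have h2 : AdjoinRoot.mk g p = AdjoinRoot.mk g (p %ₘ g) := by
      rw [AdjoinRoot.mk_eq_mk, modByMonic_eq_sub_mul_div p g]
      exact ⟨p /ₘ g, by ring⟩
    rw [h2, hba, map_add, map_mul, AdjoinRoot.mk_C, AdjoinRoot.mk_C, AdjoinRoot.mk_X, add_comm]
    rfl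
  -- conjugation
  have hσ' : eval₂ ((Algebra.ofId (RatFunc K) (AdjoinRoot g) : RatFunc K →ₐ[RatFunc K] AdjoinRoot g) :
      RatFunc K →+* AdjoinRoot g) (-w) g = 0 := by
    have h := eval₂_sub (p := (X ^ 2 : (RatFunc K)[X])) (q := C (fL K n))
      ((Algebra.ofId (RatFunc K) (AdjoinRoot g) : RatFunc K →ₐ[RatFunc K] AdjoinRoot g) :
      RatFunc K →+* AdjoinRoot g) (x := -w)
    rw [← hg, eval₂_pow, eval₂_X, eval₂_C, neg_sq, hw2] at h
    rw [h]
    exact sub_self _
  set σ : AdjoinRoot g →ₐ[RatFunc K] AdjoinRoot g := AdjoinRoot.liftAlgHom g (Algebra.ofId _ _) (-w) hσ' with hσ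
  have hσw : σ w = -w := by
    exact AdjoinRoot.liftAlgHom_root _ _ _ _
  -- constants
  have hconst : ∀ y : AdjoinRoot g, IsAlgebraic K y → ∃ a : K, algebraMap K (AdjoinRoot g) a = y := by
    intro y hy
    obtain ⟨a, b, rfl⟩ := hrep y
    have hinj : Function.Injective (algebraMap (RatFunc K) (AdjoinRoot g)) :=
      (algebraMap (RatFunc K) (AdjoinRoot g)).injective
    have hy' := hy.algHom (σ.restrictScalars K)
    have e1 : (σ.restrictScalars K) (algebraMap (RatFunc K) (AdjoinRoot g) a +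
        algebraMap (RatFunc K) (AdjoinRoot g) b * w) =
        algebraMap (RatFunc K) (AdjoinRoot g) a - algebraMap (RatFunc K) (AdjoinRoot g) b * w := by
      rw [AlgHom.restrictScalars_apply, map_add, map_mul, AlgHom.commutes, AlgHom.commutes, hσw]
      ring
    rw [e1] at hy'
    have key : ∀ z : RatFunc K, IsAlgebraic K (algebraMap (RatFunc K) (AdjoinRoot g) z) →
        ∃ c, z = RatFunc.C c := by
      intro z hz
      by_contra hcon
      have h1 := RatFunc.transcendental_of_ne_C z hcon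
      exact h1 ((isAlgebraic_algebraMap_iff hinj).mp hz)
    have h2 : IsAlgebraic K (algebraMap (RatFunc K) (AdjoinRoot g) (2 * a)) := by
      have := hy.add hy'
      have e : algebraMap (RatFunc K) (AdjoinRoot g) (2 * a) =
        (algebraMap (RatFunc K) (AdjoinRoot g) a + algebraMap (RatFunc K) (AdjoinRoot g) b * w) +
        (algebraMap (RatFunc K) (AdjoinRoot g) a - algebraMap (RatFunc K) (AdjoinRoot g) b * w) := by
        rw [map_mul, map_ofNat]; ring
      rw [e]; exact this
    obtain ⟨c, hc⟩ := key _ h2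
    have ha : a = RatFunc.C (c / 2) := by
      rw [map_div₀, ← hc, map_ofNat]; field_simp
    have h3 : IsAlgebraic K (algebraMap (RatFunc K) (AdjoinRoot g) (b ^ 2 * fL K n)) := by
      have h4 : IsAlgebraic K (algebraMap (RatFunc K) (AdjoinRoot g) a) := by
        rw [ha]
        have : algebraMap (RatFunc K) (AdjoinRoot g) (RatFunc.C (c / 2)) =
          algebraMap K (AdjoinRoot g) (c / 2) := by
          rw [IsScalarTower.algebraMap_apply K (RatFunc K) (AdjoinRoot g)]
          rfl
        rw [this]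
        exact isAlgebraic_algebraMap _
      have h5 := (hy.sub h4).pow 2
      have e : algebraMap (RatFunc K) (AdjoinRoot g) (b ^ 2 * fL K n) =
        ((algebraMap (RatFunc K) (AdjoinRoot g) a + algebraMap (RatFunc K) (AdjoinRoot g) b * w) -
        algebraMap (RatFunc K) (AdjoinRoot g) a) ^ 2 := by
        rw [map_mul, map_pow, ← hw2]; ring
      rw [e]; exact h5
    obtain ⟨d, hd⟩ := key _ h3
    have hb : b = 0 := by
      by_contra hb
      exact not_const K n hn b hb d hd
    refine ⟨c / 2, ?_⟩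
    rw [hb, map_zero, zero_mul, add_zero, ha, IsScalarTower.algebraMap_apply K (RatFunc K) (AdjoinRoot g)]
    rfl
  -- the subfield generated by `x`
  set ι : RatFunc K →ₐ[K] AdjoinRoot g := IsScalarTower.toAlgHom K (RatFunc K) (AdjoinRoot g) with hι
  set x : AdjoinRoot g := ι RatFunc.X with hx
  have hmem : ∀ z : RatFunc K, ι z ∈ IntermediateField.adjoin K {x} := by
    intro z
    have h1 : z ∈ (IntermediateField.adjoin K {(RatFunc.X : RatFunc K)}) := by
      rw [RatFunc.adjoin_X]; trivial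
    have h2 : ι z ∈ (IntermediateField.adjoin K {(RatFunc.X : RatFunc K)}).map ι := ⟨z, h1, rfl⟩
    rw [IntermediateField.adjoin_map, Set.image_singleton] at h2
    exact h2
  let e : RatFunc K →+* IntermediateField.adjoin K {x} :=
    (ι.toRingHom).codRestrict (IntermediateField.adjoin K {x}).toSubfield.toSubring hmem
  let _ : Algebra (RatFunc K) (IntermediateField.adjoin K {x}) := e.toAlgebra
  have : IsScalarTower (RatFunc K) (IntermediateField.adjoin K {x}) (AdjoinRoot g) :=
    IsScalarTower.of_algebraMap_eq fun z => rfl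
  have hfin1 : Module.Finite (RatFunc K) (AdjoinRoot g) := hgm.finite_adjoinRoot
  have hfin : Module.Finite (IntermediateField.adjoin K {x}) (AdjoinRoot g) :=
    Module.Finite.of_restrictScalars_finite (RatFunc K) _ _
  refine ⟨AdjoinRoot g, inferInstance, inferInstance, ⟨⟨x, ?_, hfin⟩, hconst⟩, x, w, ?_, ?_⟩
  · rw [hx]
    have := RatFunc.transcendental_X (K := K)
    exact (transcendental_algebraMap_iff (R := K) (S := RatFunc K) (A := AdjoinRoot g)
      (algebraMap (RatFunc K) (AdjoinRoot g)).injective).mpr this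
  · rw [hw2, hx, aeval_algHom_apply]
    have : aeval (RatFunc.X : RatFunc K) (curvePoly K n) = fL K n := by
      unfold fL
      rw [← RatFunc.algebraMap_X, aeval_algebraMap_apply, aeval_X_left, AlgHom.id_apply]
    rw [this]
    rfl
  · intro y
    exact Algebra.IsAlgebraic.isAlgebraic y

end Pool.Agent.H369R2
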