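import Pool.Agent.H369R2.FinalDefs

/-!
# S14c: the ring of holomorphic functions is a domain; constants are algebraically closed
-/

open UpperHalfPlane
open scoped MatrixGroups Manifold Topology

namespace Pool.Agent.H369R2

theorem hol_analytic (f : Hol) :
    AnalyticOnNhd ℂ (fun w : ℂ => (f : ℍ → ℂ) (ofComplex w)) {z | 0 < z.im} :=
  (UpperHalfPlane.mdifferentiable_iff.mp f.2).analyticOnNhd isOpen_upperHalfPlaneSet

theorem isPreconnected_upper : IsPreconnected {z : ℂ | 0 < z.im} :=
  (convex_halfSpace_im_gt 0).isPreconnected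

instance : NoZeroDivisors Hol where
  eq_zero_or_eq_zero_of_mul_eq_zero {f g} h := by
    have h1 : ∀ z : ℍ, (f : ℍ → ℂ) z * (g : ℍ → ℂ) z = 0 := by
      intro z
      have := congrArg (fun k : Hol => (k : ℍ → ℂ) z) h
      simpa using this
    have := (hol_analytic f).eq_zero_or_eq_zero_of_mul_eq_zero (hol_analytic g)
      (fun z _ => h1 (ofComplex z)) isPreconnected_upper
    rcases this with h2 | h2
    · left
      apply Subtype.ext
      ext z
      have := h2 (z : ℂ) z.im_pos
      rw [ofComplex_apply] at this
      simpa using this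
    · right
      apply Subtype.ext
      ext z
      have := h2 (z : ℂ) z.im_pos
      rw [ofComplex_apply] at this
      simpa using this

instance : Nontrivial Hol := by
  refine ⟨⟨0, 1, ?_⟩⟩
  intro h
  have := congrArg (fun k : Hol => (k : ℍ → ℂ) UpperHalfPlane.I) h
  simp at this

/-- S14c -/
instance : IsDomain Hol := NoZeroDivisors.to_isDomain Hol

/-- the embedding of the constants -/
noncomputable def cstHom : ℂ →+* Mer :=
  (algebraMap Hol Mer).comp
    { toFun := fun c => ⟨fun _ => c, mdifferentiable_const⟩
      map_one' := rfl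
      map_mul' := fun _ _ => rfl
      map_zero' := rfl
      map_add' := fun _ _ => rfl }

theorem cstHom_apply (c : ℂ) : cstHom c = cst c := rfl

theorem const_of_algebraic (φ : Mer) (P : Polynomial ℂ) (hP : P ≠ 0) (h : P.eval₂ cstHom φ = 0) :
    ∃ c : ℂ, φ = cst c := by
  have hs := IsAlgClosed.splits P
  rw [hs.eq_prod_roots] at h
  rw [Polynomial.eval₂_mul, Polynomial.eval₂_C, Polynomial.eval₂_multiset_prod] at h
  rcases mul_eq_zero.mp h with h1 | h1
  · rw [map_eq_zero] at h1
    exact absurd (Polynomial.leadingCoeff_eq_zero.mp h1) hP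
  · rw [Multiset.prod_eq_zero_iff] at h1
    simp only [Multiset.map_map, Multiset.mem_map, Function.comp_apply] at h1
    obtain ⟨c, -, hc⟩ := h1
    refine ⟨c, ?_⟩
    rw [Polynomial.eval₂_sub, Polynomial.eval₂_X, Polynomial.eval₂_C, sub_eq_zero] at hc
    exact hc

end Pool.Agent.H369R2
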