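import Pool.Agent.H369R2.Defs
import Pool.Agent.H369R2.S13
import Pool.Agent.H369R2.S14c

/-!
# S14b: from modular functions to a ramified map to the projective line
-/

open UpperHalfPlane MeasureTheory Metric ModularGroup CongruenceSubgroup
open scoped MatrixGroups ENNReal Modular Topology Manifold

namespace Pool.Agent.H369R2

namespace S14b

instance nebotH (z : ℍ) : (𝓝[≠] z).NeBot := inferInstance

/-- the pair of functions `(b, a)` on `ℂ` -/
noncomputable def pr (a b : Hol) (w : ℂ) : ℂ × ℂ := ((b : ℍ → ℂ) (ofComplex w), (a : ℍ → ℂ) (ofComplex w))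

theorem pr_coe (a b : Hol) (w : ℍ) : pr a b w = ((b : ℍ → ℂ) w, (a : ℍ → ℂ) w) := by
  simp [pr]

theorem pr_analytic (a b : Hol) (z : ℍ) : AnalyticAt ℂ (pr a b) z :=
  (hol_analytic b z z.im_pos).prod (hol_analytic a z z.im_pos)

theorem hol_not_eventually_zero (b : Hol) (hb : b ≠ 0) (z : ℍ) :
    ¬ ∀ᶠ w in 𝓝 (z : ℂ), (b : ℍ → ℂ) (ofComplex w) = 0 := by
  intro h
  have := (hol_analytic b).eqOn_zero_of_preconnected_of_eventuallyEq_zero isPreconnected_upper
    z.im_pos h
  apply hb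
  apply Subtype.ext
  ext v
  have h2 := this v.im_pos
  simpa using h2

theorem exists_local (a b : Hol) (hb : b ≠ 0) (z : ℍ) : ∃ (m : ℕ) (g : ℂ → ℂ × ℂ),
    AnalyticAt ℂ g z ∧ g z ≠ 0 ∧ ∀ᶠ w in 𝓝 (z : ℂ), pr a b w = (w - z) ^ m • g w := by
  apply (pr_analytic a b z).exists_eventuallyEq_pow_smul_nonzero_iff.mpr
  intro h
  apply hol_not_eventually_zero b hb z
  filter_upwards [h] with w hw
  exact congrArg Prod.fst hw

theorem null_zero (h : Hol) (hh : h ≠ 0) : volume {z : ℍ | (h : ℍ → ℂ) z = 0} = 0 := by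
  have h1 : ∃ z : ℍ, (h : ℍ → ℂ) z ≠ 0 := by
    by_contra hc
    push Not at hc
    exact hh (Subtype.ext (funext hc))
  obtain ⟨z, hz⟩ := h1
  have h2 : (fun w : ℂ => (h : ℍ → ℂ) (ofComplex w)) ⁻¹' {0}ᶜ ∈
      Filter.codiscreteWithin {z : ℂ | 0 < z.im} :=
    (hol_analytic h).preimage_zero_mem_codiscreteWithin (x := (z : ℂ)) (by simpa using hz) z.im_pos
      ⟨⟨(z : ℂ), z.im_pos⟩, isPreconnected_upper⟩
  have h3 := ae_restrict_le_codiscreteWithin (μ := (volume : Measure ℂ))
    isOpen_upperHalfPlaneSet.measurableSet h2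
  rw [mem_ae_iff, Measure.restrict_apply' isOpen_upperHalfPlaneSet.measurableSet] at h3
  rw [volume_eq_lintegral]
  have h4 : (volume : Measure ℂ) (UpperHalfPlane.coe '' {z : ℍ | (h : ℍ → ℂ) z = 0}) = 0 := by
    apply measure_mono_null _ h3
    rintro _ ⟨w, hw, rfl⟩
    refine ⟨?_, w.im_pos⟩
    simpa using hw
  rw [Measure.restrict_eq_zero.mpr h4, lintegral_zero_measure]

theorem wd_smul_l (c : ℂ) (x y : ℂ × ℂ) : wd (c • x) y = c * wd x y := by
  simp only [wd, Prod.smul_fst, Prod.smul_snd, smul_eq_mul]; ring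

theorem wd_smul_r (c : ℂ) (x y : ℂ × ℂ) : wd x (c • y) = c * wd x y := by
  simp only [wd, Prod.smul_fst, Prod.smul_snd, smul_eq_mul]; ring

theorem wd_self (x : ℂ × ℂ) : wd x x = 0 := by
  simp only [wd]; ring

theorem continuous_wd2 : Continuous fun q : (ℂ × ℂ) × (ℂ × ℂ) => wd q.1 q.2 := by
  unfold wd; fun_prop

/-- critical points -/
theorem crit_aux (n : ℕ) (hn : 0 < n) (J : Finset ℤ) (j : ℤ) (hj : j ∈ J) (σ : ℂ)
    (hσ : σ ^ n = (2 : ℂ) ^ j) (z : ℂ) (u c e : ℂ → ℂ) (hu : AnalyticAt ℂ u z)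
    (hc : AnalyticAt ℂ c z) (he : AnalyticAt ℂ e z) (he0 : ¬ ∀ᶠ w in 𝓝 z, e w = 0)
    (huz : u z = σ) (hrel : ∀ᶠ w in 𝓝[≠] z, c w ^ 2 = e w ^ 2 * ∏ j ∈ J, (u w ^ n - (2 : ℂ) ^ j)) :
    deriv u z = 0 := by
  have h2j : ∀ i : ℤ, (2 : ℂ) ^ i ≠ 0 := fun i => zpow_ne_zero _ two_ne_zero
  have hσ0 : σ ≠ 0 := by
    intro h0
    rw [h0, zero_pow hn.ne'] at hσ
    exact h2j j hσ.symm
  set v : ℂ → ℂ := fun w => ∏ j ∈ J, (u w ^ n - (2 : ℂ) ^ j) with hv
  have hva : AnalyticAt ℂ v z := by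
    rw [hv]
    apply Finset.analyticAt_fun_prod
    intro i _
    exact (hu.pow n).sub analyticAt_const
  have hrel' : (fun w => c w ^ 2) =ᶠ[𝓝 z] fun w => e w ^ 2 * v w := by
    apply ((hc.pow 2).frequently_eq_iff_eventually_eq ((he.pow 2).mul hva)).mp
    exact hrel.frequently
  have hord : 2 * analyticOrderAt c z = 2 * analyticOrderAt e z + analyticOrderAt v z := by
    have h1 := analyticOrderAt_congr hrel'
    have h2 : analyticOrderAt (fun w => c w ^ 2) z = 2 • analyticOrderAt c z :=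
      analyticOrderAt_pow hc 2
    have h3 : analyticOrderAt (fun w => e w ^ 2 * v w) z =
        analyticOrderAt (fun w => e w ^ 2) z + analyticOrderAt v z :=
      analyticOrderAt_mul (he.pow 2) hva
    have h4 : analyticOrderAt (fun w => e w ^ 2) z = 2 • analyticOrderAt e z :=
      analyticOrderAt_pow he 2
    rw [h2, h3, h4] at h1
    simpa [two_smul, two_mul] using h1
  have hne1 : analyticOrderAt v z ≠ 1 := by
    intro h1
    rw [h1] at hord
    have he1 : analyticOrderAt e z ≠ ⊤ := by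
      rw [Ne, analyticOrderAt_eq_top]
      exact he0
    have hc1 : analyticOrderAt c z ≠ ⊤ := by
      intro h
      rw [h] at hord
      lift analyticOrderAt e z to ℕ using he1 with k hk
      have : (2 : ℕ∞) * ⊤ = ⊤ := by simp
      rw [this] at hord
      have h5 : ((2 : ℕ∞) * (k : ℕ∞) + 1) = ((2 * k + 1 : ℕ) : ℕ∞) := by push_cast; rfl
      rw [h5] at hord
      exact ENat.natCast_ne_top _ hord.symm
    lift analyticOrderAt e z to ℕ using he1 with k hk
    lift analyticOrderAt c z to ℕ using hc1 with l hl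
    have h5 : (2 : ℕ∞) * (k : ℕ∞) + 1 = ((2 * k + 1 : ℕ) : ℕ∞) := by push_cast; rfl
    have h6 : (2 : ℕ∞) * (l : ℕ∞) = ((2 * l : ℕ) : ℕ∞) := by push_cast; rfl
    rw [h5, h6] at hord
    have h7 : 2 * l = 2 * k + 1 := by exact_mod_cast hord
    omega
  have hvz : v z = 0 := by
    rw [hv]
    simp only
    apply Finset.prod_eq_zero hj
    rw [huz, hσ, sub_self]
  have hdv : deriv v z = 0 := by
    have h1 := hva.analyticOrderAt_deriv_add_one
    rw [hvz] at h1
    simp only [sub_zero] at h1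
    have h2 : analyticOrderAt (deriv v) z ≠ 0 := by
      intro h0
      rw [h0, zero_add] at h1
      exact hne1 h1.symm
    exact apply_eq_zero_of_analyticOrderAt_ne_zero h2
  -- the product rule
  set W : ℂ → ℂ := fun w => ∏ j ∈ J.erase j, (u w ^ n - (2 : ℂ) ^ j) with hW
  have hWa : AnalyticAt ℂ W z := by
    rw [hW]
    apply Finset.analyticAt_fun_prod
    intro i _
    exact (hu.pow n).sub analyticAt_const
  have hvW : v = fun w => (u w ^ n - (2 : ℂ) ^ j) * W w := by
    ext w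
    simp only [hv, hW]
    rw [← Finset.mul_prod_erase J _ hj]
  have hd1 : HasDerivAt (fun w => u w ^ n - (2 : ℂ) ^ j) (n * u z ^ (n - 1) * deriv u z) z := by
    have := (hu.differentiableAt.hasDerivAt.pow n).sub_const ((2 : ℂ) ^ j)
    exact this
  have hd2 := hd1.mul hWa.differentiableAt.hasDerivAt
  have hd3 : deriv v z = n * u z ^ (n - 1) * deriv u z * W z +
      (u z ^ n - (2 : ℂ) ^ j) * deriv W z := by
    rw [hvW]
    exact hd2.deriv
  rw [hdv, huz, hσ, sub_self, zero_mul, add_zero] at hd3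
  have hW0 : W z ≠ 0 := by
    rw [hW]
    simp only
    rw [Finset.prod_ne_zero_iff]
    intro i hi
    rw [huz, hσ, sub_ne_zero]
    intro h
    have : j = i := by
      have h8 : (2 : ℝ) ^ j = (2 : ℝ) ^ i := by
        apply Complex.ofReal_injective
        push_cast
        exact h
      exact zpow_right_injective₀ (by norm_num) (by norm_num) h8
    exact (Finset.ne_of_mem_erase hi) this.symm
  have hn0 : (n : ℂ) ≠ 0 := by exact_mod_cast hn.ne'
  have := hd3.symm
  rcases mul_eq_zero.mp this with h | h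
  · rcases mul_eq_zero.mp h with h | h
    · rcases mul_eq_zero.mp h with h | h
      · exact absurd h hn0
      · exact absurd h (pow_ne_zero _ hσ0)
    · exact h
  · exact absurd h hW0

/-- the relation between holomorphic functions -/
theorem rel_hol (n : ℕ) (J : Finset ℤ) (ξ ω : Mer) (a b : Hol)
    (hab : ξ * algebraMap Hol Mer b = algebraMap Hol Mer a)
    (hrel : ω ^ 2 = ∏ j ∈ J, (ξ ^ n - cst ((2 : ℂ) ^ j))) :
    ∃ c e : Hol, e ≠ 0 ∧ ∀ z : ℍ, ((b : ℍ → ℂ) z) ^ (n * J.card) * ((c : ℍ → ℂ) z) ^ 2 =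
      ((e : ℍ → ℂ) z) ^ 2 * ∏ j ∈ J, (((a : ℍ → ℂ) z) ^ n - (2 : ℂ) ^ j * ((b : ℍ → ℂ) z) ^ n) := by
  obtain ⟨c, e, he, hce⟩ := IsFractionRing.div_surjective (A := Hol) ω
  have he0 : e ≠ 0 := nonZeroDivisors.ne_zero he
  refine ⟨c, e, he0, ?_⟩
  have he1 : algebraMap Hol Mer e ≠ 0 := by
    intro h
    exact he0 ((IsFractionRing.injective Hol Mer) (by rw [h, map_zero]))
  have hω : ω * algebraMap Hol Mer e = algebraMap Hol Mer c := by
    rw [← hce, div_mul_cancel₀ _ he1]
  set K : ℂ → Hol := fun c => ⟨fun _ => c, mdifferentiable_const⟩ with hK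
  have hM : algebraMap Hol Mer (b ^ (n * J.card) * c ^ 2) =
      algebraMap Hol Mer (e ^ 2 * ∏ j ∈ J, (a ^ n - K ((2 : ℂ) ^ j) * b ^ n)) := by
    rw [map_mul, map_pow, map_pow, ← hω, map_mul, map_pow, map_prod, mul_pow, hrel]
    have : ∀ j ∈ J, algebraMap Hol Mer (a ^ n - K ((2 : ℂ) ^ j) * b ^ n) =
        (ξ ^ n - cst ((2 : ℂ) ^ j)) * (algebraMap Hol Mer b) ^ n := by
      intro j _
      rw [map_sub, map_mul, map_pow, map_pow, ← hab, mul_pow, cst, sub_mul]
    rw [Finset.prod_congr rfl this, Finset.prod_mul_distrib, Finset.prod_const, ← pow_mul]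
    ring
  have hH := IsFractionRing.injective Hol Mer hM
  intro z
  have hz := congrArg (fun k : Hol => (k : ℍ → ℂ) z) hH
  have hprod : ∀ s : Finset ℤ, (((∏ j ∈ s, (a ^ n - K ((2 : ℂ) ^ j) * b ^ n) : Hol) : ℍ → ℂ)) z =
      ∏ j ∈ s, (((a : ℍ → ℂ) z) ^ n - (2 : ℂ) ^ j * ((b : ℍ → ℂ) z) ^ n) := by
    intro s
    induction s using Finset.induction_on with
    | empty => simp
    | insert i s hi ih =>
      rw [Finset.prod_insert hi, Finset.prod_insert hi, ← ih]
      simp [hK]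
  simp only [Subring.coe_mul, Subring.coe_pow, Pi.mul_apply, Pi.pow_apply] at hz
  rw [hz, hprod]

end S14b

open S14b in
/-- S14b -/
theorem exists_projHol (n : ℕ) (hn : 0 < n) (hn2 : Even n) (Γ : Subgroup SL(2, ℤ)) (ξ ω : Mer)
    (hξ : IsModularFunction Γ ξ) (hnc : ∀ c : ℂ, ξ ≠ cst c)
    (hrel : ω ^ 2 = ∏ j ∈ Finset.Icc (-((n : ℤ) ^ 2)) ((n : ℤ) ^ 2), (ξ ^ n - cst ((2 : ℂ) ^ j))) :
    ∃ X : ℍ → ℂ × ℂ, ProjHol X ∧ (∀ γ ∈ Γ, ∀ z, wd (X (γ • z)) (X z) = 0) ∧
      (∀ p : ℂ × ℂ, p ≠ 0 → volume {z | wd (X z) p = 0} = 0) ∧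
      ∀ z, ∀ s ∈ rootSet n, wd (X z) s = 0 → IsCrit X z := by
  obtain ⟨k, α, β, hβ, hαβ⟩ := hξ
  set a : Hol := ofForm α with ha
  set b : Hol := ofForm β with hb
  have hb0 : b ≠ 0 := by
    intro h
    apply hβ
    ext z
    have := congrArg (fun k : Hol => (k : ℍ → ℂ) z) h
    simpa [hb, ofForm] using this
  have hb1 : algebraMap Hol Mer b ≠ 0 := by
    intro h
    exact hb0 ((IsFractionRing.injective Hol Mer) (by rw [h, map_zero]))
  -- local factorisations
  choose m g hg1 hg2 hg3 using exists_local a b hb0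
  set X : ℍ → ℂ × ℂ := fun z => g z z with hX
  have hX0 : ∀ z, X z ≠ 0 := hg2
  -- `pr` is a multiple of `X`
  have hpr : ∀ z : ℍ, pr a b z = ((0 : ℂ) ^ (m z)) • X z := by
    intro z
    have := (hg3 z).self_of_nhds
    rw [sub_self] at this
    exact this
  have hpr2 : ∀ z : ℍ, pr a b z ≠ 0 → pr a b z = X z := by
    intro z hz
    have h1 := hpr z
    by_cases hm : m z = 0
    · rw [hm, pow_zero, one_smul] at h1
      exact h1
    · rw [zero_pow hm, zero_smul] at h1
      exact absurd h1 hz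
  -- pull back the local statements to `ℍ`
  have hloc : ∀ z : ℍ, ∀ᶠ w : ℍ in 𝓝 z, pr a b w = ((w : ℂ) - z) ^ (m z) • g z w ∧ g z w ≠ 0 := by
    intro z
    have h1 : ∀ᶠ w in 𝓝 (z : ℂ), pr a b w = (w - z) ^ (m z) • g z w ∧ g z w ≠ 0 :=
      (hg3 z).and ((hg1 z).continuousAt.eventually_ne (hg2 z))
    exact continuous_coe.continuousAt.eventually h1
  have hlift : ∀ z : ℍ, IsLift X z (g z) := by
    intro z
    refine ⟨hg1 z, hg2 z, ?_⟩
    filter_upwards [hloc z] with w hw
    by_cases hwz : w = z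
    · rw [hwz]; exact wd_self _
    · have h1 : ((w : ℂ) - z) ≠ 0 := by
        rw [sub_ne_zero]
        intro h
        exact hwz (UpperHalfPlane.ext h)
      have h2 := hw.1
      have h3 : wd (X w) (pr a b w) = 0 := by
        rw [hpr w, wd_smul_r, wd_self, mul_zero]
      rw [h2, wd_smul_r] at h3
      rcases mul_eq_zero.mp h3 with h | h
      · exact absurd h (pow_ne_zero _ h1)
      · exact h
  refine ⟨X, ⟨hX0, fun z => ⟨g z, hlift z⟩⟩, ?_, ?_, ?_⟩
  · -- covariance
    intro γ hγ z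
    have hcs : Continuous (fun w : ℍ => γ • w) :=
      (continuous_const_smul (Matrix.SpecialLinearGroup.mapGL ℝ γ) :
        Continuous fun w : ℍ => Matrix.SpecialLinearGroup.mapGL ℝ γ • w)
    have hcov : ∀ w : ℍ, pr a b ((γ • w : ℍ) : ℂ) = (denom γ w ^ k) • pr a b w := by
      intro w
      rw [pr_coe, pr_coe]
      have h1 := SlashInvariantForm.slash_action_eqn_SL'' α hγ w
      have h2 := SlashInvariantForm.slash_action_eqn_SL'' β hγ w
      ext
      · exact h2
      · exact h1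
    have hG : ContinuousAt (fun w : ℍ => wd (g (γ • z) ((γ • w : ℍ) : ℂ)) (g z w)) z := by
      have h1 : ContinuousAt (fun w : ℍ => g z w) z :=
        ContinuousAt.comp (f := UpperHalfPlane.coe) (g := g z) (hg1 z).continuousAt
          continuous_coe.continuousAt
      have h2 : ContinuousAt (fun w : ℍ => g (γ • z) w) (γ • z) :=
        ContinuousAt.comp (f := UpperHalfPlane.coe) (g := g (γ • z)) (hg1 (γ • z)).continuousAt
          continuous_coe.continuousAt
      have h3 : Continuous (fun w : ℍ => γ • w) := hcs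
      have h4 : ContinuousAt (fun w : ℍ => g (γ • z) ((γ • w : ℍ) : ℂ)) z :=
        ContinuousAt.comp (f := fun w : ℍ => γ • w) (g := fun w : ℍ => g (γ • z) w) h2
          h3.continuousAt
      exact continuous_wd2.continuousAt.comp (h4.prodMk h1)
    have hG0 : ∀ᶠ w in 𝓝[≠] z, wd (g (γ • z) ((γ • w : ℍ) : ℂ)) (g z w) = 0 := by
      have h3 : ContinuousAt (fun w : ℍ => γ • w) z := hcs.continuousAt
      have h4 := h3.eventually (hloc (γ • z))
      filter_upwards [(hloc z).filter_mono nhdsWithin_le_nhds,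
        h4.filter_mono nhdsWithin_le_nhds, self_mem_nhdsWithin] with w hw1 hw2 hw3
      have hwz : w ≠ z := hw3
      have hne1 : ((w : ℂ) - z) ^ (m z) ≠ 0 := by
        apply pow_ne_zero
        rw [sub_ne_zero]
        intro h
        exact hwz (UpperHalfPlane.ext h)
      have hne2 : (((γ • w : ℍ) : ℂ) - (γ • z : ℍ)) ^ (m (γ • z)) ≠ 0 := by
        apply pow_ne_zero
        rw [sub_ne_zero]
        intro h
        exact hwz ((MulAction.injective γ) (UpperHalfPlane.ext h))
      have h5 : wd (pr a b ((γ • w : ℍ) : ℂ)) (pr a b w) = 0 := by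
        rw [hcov w, wd_smul_l, wd_self, mul_zero]
      rw [hw1.1, hw2.1, wd_smul_l, wd_smul_r] at h5
      rcases mul_eq_zero.mp h5 with h | h
      · exact absurd h hne2
      · rcases mul_eq_zero.mp h with h | h
        · exact absurd h hne1
        · exact h
    have h1 : Filter.Tendsto (fun w : ℍ => wd (g (γ • z) ((γ • w : ℍ) : ℂ)) (g z w)) (𝓝[≠] z)
        (𝓝 (wd (g (γ • z) ((γ • z : ℍ) : ℂ)) (g z z))) := hG.tendsto.mono_left nhdsWithin_le_nhds
    have h2 : Filter.Tendsto (fun w : ℍ => wd (g (γ • z) ((γ • w : ℍ) : ℂ)) (g z w)) (𝓝[≠] z)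
        (𝓝 0) := tendsto_const_nhds.congr' (by filter_upwards [hG0] with w hw using hw.symm)
    exact tendsto_nhds_unique h1 h2
  · -- null sets
    intro p hp
    set K : ℂ → Hol := fun c => ⟨fun _ => c, mdifferentiable_const⟩ with hK
    have hh : b * K p.2 - a * K p.1 ≠ 0 := by
      intro h
      have h' : b * K p.2 = a * K p.1 := sub_eq_zero.mp h
      have h1 : algebraMap Hol Mer b * cst p.2 = algebraMap Hol Mer a * cst p.1 := by
        have := congrArg (algebraMap Hol Mer) h'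
        rw [map_mul, map_mul] at this
        exact this
      rw [← hαβ] at h1
      have h2 : cst p.2 = ξ * cst p.1 := by
        apply mul_left_cancel₀ hb1
        rw [h1]; ring
      by_cases hp1 : p.1 = 0
      · have : cst p.2 = 0 := by
          rw [h2, hp1, ← cstHom_apply, map_zero, mul_zero]
        rw [← cstHom_apply, map_eq_zero] at this
        exact hp (Prod.ext hp1 this)
      · apply hnc (p.2 / p.1)
        have h3 : cst p.1 ≠ 0 := by
          rw [← cstHom_apply, Ne, map_eq_zero]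
          exact hp1
        rw [← cstHom_apply, map_div₀, cstHom_apply, cstHom_apply, h2, mul_div_cancel_right₀ _ h3]
    apply measure_mono_null _ (null_zero _ hh)
    intro z hz
    have hz' : wd (X z) p = 0 := hz
    have h1 : wd (pr a b z) p = 0 := by
      rw [hpr z, wd_smul_l, hz', mul_zero]
    rw [pr_coe, wd] at h1
    simpa [hK] using h1
  · -- critical points
    intro z s hs hzs
    refine ⟨g z, hlift z, ?_⟩
    obtain ⟨j, hj, σ, hσ, rfl⟩ := hs
    obtain ⟨c, e, he0, hce⟩ := rel_hol n _ ξ ω a b hαβ hrel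
    set J := Finset.Icc (-((n : ℤ) ^ 2)) ((n : ℤ) ^ 2) with hJ
    have hzs' : (g z z).2 = σ * (g z z).1 := by
      have h1 : (g z z).1 * σ - (g z z).2 * 1 = 0 := hzs
      linear_combination -h1
    have hb1z : (g z z).1 ≠ 0 := by
      intro h
      apply hg2 z
      apply Prod.ext h
      rw [hzs', h, mul_zero]
      rfl
    have ha1 : AnalyticAt ℂ (fun w => (g z w).2) z :=
      (ContinuousLinearMap.snd ℂ ℂ ℂ).analyticAt _ |>.comp (hg1 z)
    have hb1' : AnalyticAt ℂ (fun w => (g z w).1) z :=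
      (ContinuousLinearMap.fst ℂ ℂ ℂ).analyticAt _ |>.comp (hg1 z)
    have hu : AnalyticAt ℂ (fun w => (g z w).2 / (g z w).1) z := ha1.div hb1' hb1z
    have huz : (fun w => (g z w).2 / (g z w).1) (z : ℂ) = σ := by
      simp only
      rw [hzs', mul_div_cancel_right₀ _ hb1z]
    have hrel2 : ∀ᶠ w in 𝓝[≠] (z : ℂ), ((c : ℍ → ℂ) (ofComplex w)) ^ 2 =
        ((e : ℍ → ℂ) (ofComplex w)) ^ 2 *
          ∏ j ∈ J, (((fun w => (g z w).2 / (g z w).1) w) ^ n - (2 : ℂ) ^ j) := by
      have h5 : ∀ᶠ w in 𝓝 (z : ℂ), (g z w).1 ≠ 0 := hb1'.continuousAt.eventually_ne hb1z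
      filter_upwards [(hg3 z).filter_mono nhdsWithin_le_nhds,
        h5.filter_mono nhdsWithin_le_nhds, self_mem_nhdsWithin] with w hw1 hw2 hw3
      have hwz : w - z ≠ 0 := sub_ne_zero.mpr hw3
      have hA : (a : ℍ → ℂ) (ofComplex w) = (w - z) ^ (m z) * (g z w).2 := congrArg Prod.snd hw1
      have hB : (b : ℍ → ℂ) (ofComplex w) = (w - z) ^ (m z) * (g z w).1 := congrArg Prod.fst hw1
      have h6 := hce (ofComplex w)
      rw [hA, hB] at h6
      have h7 : ∀ j ∈ J, (((w - z) ^ (m z) * (g z w).2) ^ n -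
          (2 : ℂ) ^ j * ((w - z) ^ (m z) * (g z w).1) ^ n) =
          (((g z w).2 / (g z w).1) ^ n - (2 : ℂ) ^ j) * ((w - z) ^ (m z) * (g z w).1) ^ n := by
        intro i _
        rw [sub_mul, ← mul_pow]
        congr 2
        field_simp
      rw [Finset.prod_congr rfl h7, Finset.prod_mul_distrib, Finset.prod_const, ← pow_mul] at h6
      have h8 : ((w - z) ^ (m z) * (g z w).1) ^ (n * J.card) ≠ 0 :=
        pow_ne_zero _ (mul_ne_zero (pow_ne_zero _ hwz) hw2)
      apply mul_left_cancel₀ h8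
      rw [h6]
      ring
    have hdu := crit_aux n hn J j hj σ hσ z _ _ _ hu (hol_analytic c z z.im_pos)
      (hol_analytic e z z.im_pos) (hol_not_eventually_zero e he0 z) huz hrel2
    have hd := ha1.differentiableAt.hasDerivAt.div hb1'.differentiableAt.hasDerivAt hb1z
    have hd' := hd.deriv
    have h9 : deriv (fun w => (g z w).2 / (g z w).1) (z : ℂ) = _ := hd'
    rw [hdu] at h9
    have hsq : (g z z).1 ^ 2 ≠ 0 := pow_ne_zero _ hb1z
    have h10 := (div_eq_zero_iff.mp h9.symm).resolve_right hsq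
    have hD := (hg1 z).differentiableAt.hasDerivAt
    have hD1 : (deriv (g z) z).1 = deriv (fun w => (g z w).1) z :=
      ((ContinuousLinearMap.fst ℂ ℂ ℂ).hasFDerivAt.comp_hasDerivAt (z : ℂ) hD).deriv.symm
    have hD2 : (deriv (g z) z).2 = deriv (fun w => (g z w).2) z :=
      ((ContinuousLinearMap.snd ℂ ℂ ℂ).hasFDerivAt.comp_hasDerivAt (z : ℂ) hD).deriv.symm
    rw [wd, hD1, hD2]
    linear_combination h10

end Pool.Agent.H369R2
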