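import Mathlib
import Pool.Agent.H369R2.FinalDefs

open UpperHalfPlane MeasureTheory Metric ModularGroup CongruenceSubgroup
open scoped MatrixGroups ENNReal Modular Topology

namespace Pool.Agent.H369R2

theorem congruenceClosure_isCongruence (Γ : Subgroup SL(2, ℤ)) (h : Γ.FiniteIndex) :
    IsCongruenceSubgroup (congruenceClosure Γ) := by
  classical
  -- the set of subgroups containing `Γ` is finite
  have hfin : Set.Finite {Δ : Subgroup SL(2, ℤ) | IsCongruenceSubgroup Δ ∧ Γ ≤ Δ} := by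
    have : Finite (SL(2, ℤ) ⧸ Γ) := Subgroup.finite_quotient_of_finiteIndex
    have hsub : {Δ : Subgroup SL(2, ℤ) | IsCongruenceSubgroup Δ ∧ Γ ≤ Δ} ⊆ {Δ | Γ ≤ Δ} := fun Δ hΔ => hΔ.2
    refine Set.Finite.subset ?_ hsub
    let F : {Δ : Subgroup SL(2, ℤ) | Γ ≤ Δ} → Set (SL(2, ℤ) ⧸ Γ) := fun Δ => (QuotientGroup.mk '' (Δ.1 : Set SL(2, ℤ)))
    have hF : Function.Injective F := by
      rintro ⟨Δ₁, h₁⟩ ⟨Δ₂, h₂⟩ heq
      have key : ∀ A B : Subgroup SL(2, ℤ), Γ ≤ B →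
          (QuotientGroup.mk '' (A : Set SL(2, ℤ)) : Set (SL(2, ℤ) ⧸ Γ)) = QuotientGroup.mk '' (B : Set SL(2, ℤ)) → A ≤ B := by
        intro A B hB hAB x hx
        have : (QuotientGroup.mk x : SL(2, ℤ) ⧸ Γ) ∈ (QuotientGroup.mk '' (B : Set SL(2, ℤ)) : Set (SL(2, ℤ) ⧸ Γ)) := by
          rw [← hAB]; exact ⟨x, hx, rfl⟩
        obtain ⟨y, hy, hyx⟩ := this
        rw [QuotientGroup.eq] at hyx
        have := B.mul_mem hy (hB hyx)
        simpa using this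
      apply Subtype.ext
      exact le_antisymm (key _ _ h₂ heq) (key _ _ h₁ heq.symm)
    exact Set.finite_coe_iff.mp (Finite.of_injective F hF)
  let 𝒮 := hfin.toFinset
  have hS : ∀ Δ ∈ 𝒮, ∃ N : ℕ, N ≠ 0 ∧ Gamma N ≤ Δ := fun Δ hΔ => by
    rw [Set.Finite.mem_toFinset] at hΔ
    exact hΔ.1
  choose! n hn using hS
  refine ⟨∏ Δ ∈ 𝒮, n Δ, Finset.prod_ne_zero_iff.mpr fun Δ hΔ => (hn Δ hΔ).1, ?_⟩
  unfold congruenceClosure
  refine le_sInf ?_
  intro Δ hΔ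
  have hmem : Δ ∈ 𝒮 := hfin.mem_toFinset.mpr hΔ
  refine le_trans ?_ (hn Δ hmem).2
  have hdvd : n Δ ∣ ∏ Δ ∈ 𝒮, n Δ := Finset.dvd_prod_of_mem _ hmem
  intro γ hγ
  rw [Gamma_mem] at hγ ⊢
  have key : ∀ x y : ℤ, ((x : ZMod (∏ Δ ∈ 𝒮, n Δ)) = y) → ((x : ZMod (n Δ)) = y) := by
    intro x y hxy
    have := congrArg (ZMod.castHom hdvd (ZMod (n Δ))) hxy
    simpa using this
  obtain ⟨a, b, c, d⟩ := hγ
  refine ⟨?_, ?_, ?_, ?_⟩
  · have := key (γ 0 0) 1 (by push_cast; exact a); push_cast at this; exact this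
  · have := key (γ 0 1) 0 (by push_cast; exact b); push_cast at this; exact this
  · have := key (γ 1 0) 0 (by push_cast; exact c); push_cast at this; exact this
  · have := key (γ 1 1) 1 (by push_cast; exact d); push_cast at this; exact this

end Pool.Agent.H369R2
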