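import Pool.Agent.H369R2.Gap
import Pool.Agent.H369R2.NoMap
import Pool.Agent.H369R2.S10
import Pool.Agent.H369R2.S13
import Pool.Agent.H369R2.S14a
import Pool.Agent.H369R2.S14b
import Pool.Agent.H369R2.S14c
import Pool.Agent.H369R2.S14d

/-! # The main theorem -/

open UpperHalfPlane MeasureTheory Metric ModularGroup CongruenceSubgroup
open scoped MatrixGroups ENNReal Modular Topology NNReal ComplexConjugate

namespace Pool.Agent.H369R2

namespace MainAux

/-- the subfield of elements with constant image -/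
noncomputable def cS {F : Type} [Field F] (φ : F →+* Mer) : Subfield F := cstHom.fieldRange.comap φ

lemma mem_cS {F : Type} [Field F] (φ : F →+* Mer) (x : F) : x ∈ cS φ ↔ ∃ c : ℂ, φ x = cst c := by
  constructor
  · rintro ⟨c, hc⟩
    exact ⟨c, hc.symm⟩
  · rintro ⟨c, hc⟩
    exact ⟨c, hc.symm⟩

/-- elements algebraic over elements with constant image have constant image -/
lemma const_of_alg {F : Type} [Field F] (φ : F →+* Mer) (y : F) {E : Type} [Field E] (i : E →+* F)
    (hi : ∀ e, i e ∈ cS φ) (P : Polynomial E) (hP : P ≠ 0) (h : P.eval₂ i y = 0) :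
    ∃ c : ℂ, φ y = cst c := by
  choose c hc using fun e => (mem_cS φ (i e)).1 (hi e)
  have hinj : Function.Injective (cstHom : ℂ →+* Mer) := cstHom.injective
  let ψ : E →+* ℂ :=
    { toFun := c
      map_one' := hinj (by rw [cstHom_apply, ← hc, map_one, map_one, map_one])
      map_mul' := fun a b => hinj (by
        rw [map_mul, cstHom_apply, cstHom_apply, cstHom_apply, ← hc, ← hc, ← hc, map_mul, map_mul])
      map_zero' := hinj (by rw [cstHom_apply, ← hc, map_zero, map_zero, map_zero])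
      map_add' := fun a b => hinj (by
        rw [map_add, cstHom_apply, cstHom_apply, cstHom_apply, ← hc, ← hc, ← hc, map_add, map_add]) }
  have hcomp : cstHom.comp ψ = φ.comp i := by
    ext e
    exact (hc e).symm
  refine const_of_algebraic (φ y) (P.map ψ) (by
    rw [Ne, Polynomial.map_eq_zero]; exact hP) ?_
  rw [Polynomial.eval₂_map, hcomp, ← Polynomial.hom_eval₂, h, map_zero]

end MainAux

open MainAux

theorem main (K : Type) [Field K] [NumberField K] : ¬ ∃ c : ℕ, ∀ (F : Type) [Field F] [Algebra K F],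
    IsCurveField K F → ∃ Γ : Subgroup SL(2, ℤ), Γ.FiniteIndex ∧ congruenceDefect Γ ≤ c ∧
      Dominates Γ F := by
  rintro ⟨c, hc⟩
  obtain ⟨κ, hκ, hgap⟩ := has_gap
  obtain ⟨η, hη, hno⟩ := no_map (by norm_num : (0 : ℝ) < 250) hκ hgap c
  obtain ⟨K', hK', δ₀, hδ₀, hlip⟩ := lipschitz_of_crit (250 + 1)
  obtain ⟨δ, hδ⟩ : ∃ δ : ℝ, δ = min δ₀ (η / K') := ⟨_, rfl⟩
  have hδpos : 0 < δ := by rw [hδ]; exact lt_min hδ₀ (by positivity)
  have hδle : δ ≤ δ₀ := by rw [hδ]; exact min_le_left _ _
  have hδη : K' * δ ≤ η := by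
    have : δ ≤ η / K' := by rw [hδ]; exact min_le_right _ _
    rw [le_div_iff₀ hK'] at this
    linarith
  obtain ⟨n, hn, hn2, hdense⟩ := rootSet_dense δ hδpos
  have : CharZero K := NumberField.to_charZero
  obtain ⟨F, iF, iA, hF, x, w, hw, hx⟩ := exists_curve K n hn
  obtain ⟨Γ, hfin, hdef, φ, hmod, y0, hy0⟩ := hc F hF
  -- the congruence closure
  obtain ⟨N, hN, hNle⟩ := congruenceClosure_isCongruence Γ hfin
  have hfi : Γ.relIndex (congruenceClosure Γ) ≠ 0 := fun h0 =>
    hfin.index_ne_zero (Subgroup.index_eq_zero_of_relIndex_eq_zero h0)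
  have h1 : Γ.relIndex (Gamma N) ≠ 0 := fun h0 =>
    hfin.index_ne_zero (Subgroup.index_eq_zero_of_relIndex_eq_zero h0)
  have h2 : Γ.relIndex (Gamma N) ≤ c := (Subgroup.relIndex_le_of_le_right hNle hfi).trans hdef
  -- constants
  have hK : ∀ a : K, algebraMap K F a ∈ cS φ := by
    intro a
    rw [mem_cS]
    have ha : IsAlgebraic ℚ a := Algebra.IsAlgebraic.isAlgebraic a
    obtain ⟨P, hP, hPa⟩ := ha
    refine const_of_alg φ (algebraMap K F a) (E := ℚ) ((algebraMap K F).comp (algebraMap ℚ K)) ?_ P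
      hP ?_
    · intro q
      rw [mem_cS]
      refine ⟨(q : ℂ), ?_⟩
      rw [← cstHom_apply]
      have := RingHom.ext_rat (φ.comp ((algebraMap K F).comp (algebraMap ℚ K)))
        (cstHom.comp (Rat.castHom ℂ))
      exact RingHom.congr_fun this q
    · rw [← Polynomial.hom_eval₂]
      rw [Polynomial.aeval_def] at hPa
      rw [hPa, map_zero]
  have hnc : ∀ c : ℂ, φ x ≠ cst c := by
    intro c0 h0
    have hx' : x ∈ cS φ := (mem_cS φ x).2 ⟨c0, h0⟩
    let L : IntermediateField K F :=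
      { (cS φ) with
        algebraMap_mem' := hK }
    have hle : IntermediateField.adjoin K {x} ≤ L := by
      rw [IntermediateField.adjoin_simple_le_iff]
      exact hx'
    obtain ⟨P, hP, hPy⟩ := hx y0
    obtain ⟨c1, hc1⟩ := const_of_alg φ y0 (algebraMap (IntermediateField.adjoin K {x}) F)
      (fun e => hle e.2) P hP (by rw [← Polynomial.aeval_def]; exact hPy)
    exact hy0 c1 hc1
  -- the relation
  have hrel : (φ w) ^ 2 = ∏ j ∈ Finset.Icc (-((n : ℤ) ^ 2)) ((n : ℤ) ^ 2),
      ((φ x) ^ n - cst ((2 : ℂ) ^ j)) := by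
    rw [← map_pow, hw, curvePoly, map_prod, map_prod]
    refine Finset.prod_congr rfl fun j _ => ?_
    rw [map_sub, map_sub, map_pow, map_pow, Polynomial.aeval_X, Polynomial.aeval_C, map_zpow₀,
      map_zpow₀, ← cstHom_apply, map_zpow₀, map_ofNat (algebraMap K F) 2, map_ofNat φ 2,
      map_ofNat cstHom 2]
  obtain ⟨X, hX, hcov, hnull, hcrit⟩ := exists_projHol n hn hn2 Γ (φ x) (φ w) (hmod x) hnc hrel
  refine hno N hN Γ h1 h2 X hX hcov hnull fun z w hzw => ?_
  refine (hlip δ hδpos hδle X (rootSet n) hX hdense hcrit z w hzw).trans ?_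
  gcongr

end Pool.Agent.H369R2
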