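import Mathlib

open UpperHalfPlane MeasureTheory Metric ModularGroup CongruenceSubgroup
open scoped MatrixGroups ENNReal Modular Topology

namespace Pool.Agent.H369R2

namespace S3b

theorem fin_aux : ∫⁻ z : ℂ in Complex.measurableEquivRealProd ⁻¹' (Set.Ioo (-(1 / 2)) (1 / 2) ×ˢ Set.Ioi (1 / 2)),
    ENNReal.ofReal (z.im ^ (-2 : ℝ)) < ∞ := by
  have h := Complex.volume_preserving_equiv_real_prod.setLIntegral_comp_preimage_emb
    Complex.measurableEquivRealProd.measurableEmbedding (fun p : ℝ × ℝ => ENNReal.ofReal (p.2 ^ (-2 : ℝ)))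
    (Set.Ioo (-(1 / 2)) (1 / 2) ×ˢ Set.Ioi (1 / 2))
  have h2 : ∀ z : ℂ, (Complex.measurableEquivRealProd z).2 = z.im := by
    intro z; simp [Complex.measurableEquivRealProd]
  simp only [h2] at h
  rw [h, Measure.volume_eq_prod, ← Measure.prod_restrict]
  have h3 := lintegral_prod_mul (μ := volume.restrict (Set.Ioo (-(1 / 2) : ℝ) (1 / 2)))
    (ν := volume.restrict (Set.Ioi (1 / 2 : ℝ))) (f := fun _ => 1)
    (g := fun y : ℝ => ENNReal.ofReal (y ^ (-2 : ℝ))) (by fun_prop) (by fun_prop)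
  simp only [one_mul] at h3
  rw [h3]
  apply ENNReal.mul_lt_top
  · simp
  · exact (integrableOn_Ioi_rpow_of_lt (by norm_num) (by norm_num)).lintegral_lt_top

end S3b

open S3b

/-- S3b -/
theorem volume_fdo : volume (𝒟ᵒ : Set ℍ) ≠ ∞ ∧ volume (𝒟ᵒ : Set ℍ) ≠ 0 := by
  constructor
  · rw [volume_eq_lintegral]
    refine ne_of_lt (lt_of_le_of_lt ?_ fin_aux)
    refine (setLIntegral_mono' ?_ ?_).trans (lintegral_mono_set ?_)
    · exact measurableEmbedding_coe.measurableSet_image.mpr isOpen_fdo.measurableSet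
    · rintro _ ⟨z, hz, rfl⟩
      have him : 0 < (z : ℂ).im := z.coe_im_pos
      rw [Real.rpow_neg him.le, Real.rpow_two]
      rw [ENNReal.le_ofReal_iff_toReal_le (by simp) (by positivity)]
      simp
    · rintro _ ⟨z, hz, rfl⟩
      have h1 := hz.2
      have h2 := three_lt_four_mul_im_sq_of_mem_fdo hz
      have him : 0 < z.im := z.im_pos
      rw [abs_lt] at h1
      have h3 : Complex.measurableEquivRealProd (z : ℂ) = (z.re, z.im) := by
        simp [Complex.measurableEquivRealProd]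
      rw [Set.mem_preimage, h3]
      refine ⟨⟨h1.1, h1.2⟩, ?_⟩
      simp only [Set.mem_Ioi]
      nlinarith
  · rw [volume_eq_lintegral]
    apply ne_of_gt
    rw [setLIntegral_pos_iff]
    · have : (Function.support fun z : ℂ => (((1 / ‖z.im‖₊) ^ 2 : NNReal) : ℝ≥0∞)) ∩ ((↑) '' (𝒟ᵒ : Set ℍ)) = ((↑) '' (𝒟ᵒ : Set ℍ)) := by
        rw [Set.inter_eq_right]
        rintro _ ⟨z, hz, rfl⟩
        have him : z.im ≠ 0 := z.im_pos.ne'
        simp [him]
      rw [this]
      apply IsOpen.measure_pos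
      · exact isOpenEmbedding_coe.isOpenMap _ isOpen_fdo
      · refine ⟨_, ⟨⟨2 * Complex.I, by simp⟩, ⟨?_, ?_⟩, rfl⟩⟩
        · simp [Complex.normSq_apply]; norm_num
        · simp [UpperHalfPlane.re]
    · fun_prop

end Pool.Agent.H369R2
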