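import Mathlib

open UpperHalfPlane MeasureTheory Metric ModularGroup CongruenceSubgroup
open scoped MatrixGroups ENNReal Modular Topology

namespace Pool.Agent.H369R2

private theorem eq_of_row {N : ℕ} (A B C : SL(2, ZMod N)) (hAC : A.1 1 = C.1 1) (hBC : B.1 1 = C.1 1)
    (h : (A * C⁻¹).1 0 1 = (B * C⁻¹).1 0 1) : A = B := by
  have key : ∀ A : SL(2, ZMod N), A.1 1 = C.1 1 →
      (A * C⁻¹).1 1 0 = 0 ∧ (A * C⁻¹).1 1 1 = 1 ∧ (A * C⁻¹).1 0 0 = 1 := by
    intro A hA
    have hrow : (A * C⁻¹).1 1 = (C * C⁻¹).1 1 := by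
      rw [Matrix.SpecialLinearGroup.coe_mul, Matrix.SpecialLinearGroup.coe_mul,
        Matrix.mul_apply_eq_vecMul, Matrix.mul_apply_eq_vecMul, hA]
    rw [mul_inv_cancel] at hrow
    have h10 : (A * C⁻¹).1 1 0 = 0 := by rw [hrow]; simp
    have h11 : (A * C⁻¹).1 1 1 = 1 := by rw [hrow]; simp
    have hdet := (A * C⁻¹).2
    rw [Matrix.det_fin_two, h10, h11] at hdet
    refine ⟨h10, h11, by simpa using hdet⟩
  have h1 := key A hAC
  have h2 := key B hBC
  have : A * C⁻¹ = B * C⁻¹ := by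
    ext i j
    fin_cases i <;> fin_cases j
    · exact h1.2.2.trans h2.2.2.symm
    · exact h
    · exact h1.1.trans h2.1.symm
    · exact h1.2.1.trans h2.2.1.symm
  exact mul_right_cancel this

/-- S6d: index bound -/
theorem index_Gamma_le (N : ℕ) (hN : N ≠ 0) : (Gamma N).index ≤ N ^ 3 := by
  classical
  haveI : NeZero N := ⟨hN⟩
  have h1 : (Gamma N).index = Nat.card (Matrix.SpecialLinearGroup.map (n := Fin 2)
      (Int.castRingHom (ZMod N))).range := by
    unfold Gamma
    exact Subgroup.index_ker _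
  rw [h1]
  refine (Nat.card_le_card_of_injective (Subtype.val) Subtype.val_injective).trans ?_
  let ref : (Fin 2 → ZMod N) → SL(2, ZMod N) := fun r =>
    if h : ∃ A : SL(2, ZMod N), A.1 1 = r then h.choose else 1
  have href : ∀ A : SL(2, ZMod N), (ref (A.1 1)).1 1 = A.1 1 := by
    intro A
    have h : ∃ B : SL(2, ZMod N), B.1 1 = A.1 1 := ⟨A, rfl⟩
    simp only [ref, dif_pos h]
    exact h.choose_spec
  let F : SL(2, ZMod N) → (Fin 2 → ZMod N) × ZMod N := fun A => (A.1 1, (A * (ref (A.1 1))⁻¹).1 0 1)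
  have hF : Function.Injective F := by
    intro A B h
    simp only [F, Prod.mk.injEq] at h
    obtain ⟨h1, h2⟩ := h
    refine eq_of_row A B (ref (A.1 1)) (href A).symm ?_ ?_
    · rw [href, h1]
    · rw [h2, h1]
  refine (Nat.card_le_card_of_injective F hF).trans ?_
  rw [Nat.card_eq_fintype_card, Fintype.card_prod, Fintype.card_fun, ZMod.card, Fintype.card_fin]
  exact le_of_eq (by ring)

end Pool.Agent.H369R2
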