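import Pool.Agent.H369R2.Defs2
import Pool.Agent.H369R2.S3b
import Pool.Agent.H369R2.S6d

/-! # The measure `nu N`, part 1 (helper806) -/

open UpperHalfPlane MeasureTheory Metric ModularGroup CongruenceSubgroup
open scoped MatrixGroups ENNReal Modular Topology NNReal ComplexConjugate

namespace Pool.Agent.H369R2

noncomputable section

instance countable_GN (N : ℕ) : Countable (GN N) := Quotient.countable

/-- local finiteness instance -/
@[reducible]
def fintypeGN (N : ℕ) [NeZero N] : Fintype (GN N) := Subgroup.fintypeQuotientOfFiniteIndex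

attribute [local instance] fintypeGN

lemma Gamma_le_of_dvd {M N : ℕ} (h : M ∣ N) : Gamma N ≤ Gamma M := by
  intro γ hγ
  rw [Gamma_mem] at hγ ⊢
  obtain ⟨h1, h2, h3, h4⟩ := hγ
  have key : ∀ a b : ℤ, (a : ZMod N) = b → (a : ZMod M) = b := fun a b hab => by
    have := congrArg (ZMod.castHom h (ZMod M)) hab
    simpa using this
  exact ⟨by simpa using key _ 1 (by simpa using h1), by simpa using key _ 0 (by simpa using h2),
    by simpa using key _ 0 (by simpa using h3), by simpa using key _ 1 (by simpa using h4)⟩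

/-- the integral over a translate of the open fundamental domain -/
def fdI (F : ℍ → ℝ≥0∞) (σ : SL(2, ℤ)) : ℝ≥0∞ := ∫⁻ z in 𝒟ᵒ, F (σ • z)

lemma nu_lint (N : ℕ) (F : ℍ → ℝ≥0∞) : ∫⁻ z, F z ∂(nu N) = ∑' g : GN N, fdI F g.out := by
  unfold nu
  rw [lintegral_sum_measure]
  congr 1
  ext g
  rw [(me_int g.out).lintegral_map]
  rfl

lemma nu_apply (N : ℕ) (s : Set ℍ) (hs : MeasurableSet s) :
    nu N s = ∑' g : GN N, volume ((fun z => g.out • z) ⁻¹' s ∩ 𝒟ᵒ) := by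
  unfold nu
  rw [Measure.sum_apply _ hs]
  congr 1
  ext g
  rw [Measure.map_apply (cont_smul_int g.out).measurable hs,
    Measure.restrict_apply ((cont_smul_int g.out).measurable hs)]

/-- `𝒟ᵒ` translates: the measure of the whole space. -/
theorem nu_univ (N : ℕ) (hN : N ≠ 0) :
    nu N Set.univ = ((Gamma N).index : ℝ≥0∞) * volume (𝒟ᵒ : Set ℍ) := by
  have : NeZero N := ⟨hN⟩
  rw [nu_apply N _ MeasurableSet.univ]
  simp only [Set.preimage_univ, Set.univ_inter]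
  rw [tsum_fintype, Finset.sum_const, nsmul_eq_mul, Subgroup.index, Finset.card_univ,
    Nat.card_eq_fintype_card]

theorem nu_univ_ne_top (N : ℕ) (hN : N ≠ 0) : nu N Set.univ ≠ ∞ := by
  rw [nu_univ N hN]
  exact ENNReal.mul_ne_top (ENNReal.natCast_ne_top _) volume_fdo.1

theorem nu_univ_ne_zero (N : ℕ) (hN : N ≠ 0) : nu N Set.univ ≠ 0 := by
  have : NeZero N := ⟨hN⟩
  rw [nu_univ N hN]
  refine mul_ne_zero ?_ volume_fdo.2
  have : (Gamma N).index ≠ 0 := Subgroup.FiniteIndex.index_ne_zero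
  exact_mod_cast this

instance finNu (N : ℕ) [NeZero N] : FinNu N :=
  ⟨⟨(nu_univ_ne_top N (NeZero.ne N)).lt_top⟩⟩

/-- `ν_N ≪ volume` -/
theorem nu_abs (N : ℕ) : nu N ≪ volume := by
  unfold nu
  refine Measure.absolutelyContinuous_sum_left fun g => ?_
  have h1 : (volume : Measure ℍ).restrict 𝒟ᵒ ≪ volume := Measure.restrict_le_self.absolutelyContinuous
  have h2 := h1.map (cont_smul_int g.out).measurable
  rwa [(mp_int g.out).map_eq] at h2

/-- `ν_N ≤ [SL₂(ℤ):Γ(N)] • volume` -/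
theorem nu_le (N : ℕ) (hN : N ≠ 0) : nu N ≤ ((Gamma N).index : ℝ≥0∞) • (volume : Measure ℍ) := by
  have : NeZero N := ⟨hN⟩
  refine Measure.le_iff.mpr fun s hs => ?_
  rw [nu_apply N s hs, tsum_fintype, Measure.smul_apply, smul_eq_mul]
  have h1 : ∀ g : GN N, volume ((fun z => g.out • z) ⁻¹' s ∩ 𝒟ᵒ) ≤ (volume : Measure ℍ) s := by
    intro g
    refine (measure_mono Set.inter_subset_left).trans_eq ?_
    exact (mp_int g.out).measure_preimage hs.nullMeasurableSet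
  refine (Finset.sum_le_sum fun g _ => h1 g).trans_eq ?_
  rw [Finset.sum_const, nsmul_eq_mul, Subgroup.index, Finset.card_univ,
    Nat.card_eq_fintype_card]

/-- `ν_N` lives on the translates of the open fundamental domain. -/
theorem nu_ae (N : ℕ) : ∀ᵐ z ∂(nu N), ∃ g : GN N, ∃ z₀ ∈ (𝒟ᵒ : Set ℍ), z = g.out • z₀ := by
  unfold nu
  rw [ae_iff, Measure.sum_apply_eq_zero]
  intro g
  rw [← ae_iff, (me_int g.out).ae_map_iff]
  filter_upwards [ae_restrict_mem isOpen_fdo.measurableSet] with z hz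
  exact ⟨g, z, hz, rfl⟩

lemma fdI_congr {N : ℕ} {F : ℍ → ℝ≥0∞} (hi : ∀ δ ∈ Gamma N, ∀ z, F (δ • z) = F z)
    {σ τ : SL(2, ℤ)} (h : (QuotientGroup.mk σ : GN N) = QuotientGroup.mk τ) :
    fdI F σ = fdI F τ := by
  unfold fdI
  congr 1
  ext z
  rw [QuotientGroup.eq] at h
  have h1 : τ * σ⁻¹ ∈ Gamma N := by
    have := (Gamma_normal N).conj_mem _ h σ
    simpa using this
  rw [← hi _ h1 (σ • z), ← mul_smul, inv_mul_cancel_right]

theorem nu_smul (N : ℕ) (γ : SL(2, ℤ)) {F : ℍ → ℝ≥0∞} (hF : Measurable F)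
    (hi : ∀ δ ∈ Gamma N, ∀ z, F (δ • z) = F z) :
    ∫⁻ z, F (γ • z) ∂(nu N) = ∫⁻ z, F z ∂(nu N) := by
  rw [nu_lint, nu_lint, ← (Equiv.mulLeft (QuotientGroup.mk γ : GN N)).tsum_eq
    (fun g => fdI F (Quotient.out g))]
  congr 1
  ext g
  have h1 : fdI (fun z => F (γ • z)) g.out = fdI F (γ * g.out) := by
    unfold fdI
    simp only [mul_smul]
  rw [h1]
  apply fdI_congr hi
  rw [QuotientGroup.mk_mul, QuotientGroup.out_eq', QuotientGroup.out_eq']
  rfl

theorem nu_level (M N : ℕ) (hN : N ≠ 0) (hMN : M ∣ N) {F : ℍ → ℝ≥0∞} (hF : Measurable F)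
    (hi : ∀ δ ∈ Gamma M, ∀ z, F (δ • z) = F z) :
    ∫⁻ z, F z ∂(nu N) = ((Gamma N).relIndex (Gamma M) : ℝ≥0∞) * ∫⁻ z, F z ∂(nu M) := by
  have : NeZero N := ⟨hN⟩
  have hle : Gamma N ≤ Gamma M := Gamma_le_of_dvd hMN
  rw [nu_lint, nu_lint]
  rw [← (Subgroup.quotientEquivProdOfLE hle).symm.tsum_eq]
  have h1 : ∀ p : (GN M) × (Gamma M ⧸ (Gamma N).subgroupOf (Gamma M)),
      fdI F ((Subgroup.quotientEquivProdOfLE hle).symm p).out = fdI F p.1.out := by
    intro p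
    apply fdI_congr hi
    rw [QuotientGroup.out_eq']
    set g := (Subgroup.quotientEquivProdOfLE hle).symm p with hg
    have h2 : p = Subgroup.quotientEquivProdOfLE hle g := by rw [hg, Equiv.apply_symm_apply]
    rw [h2]
    obtain ⟨σ, hσ⟩ := QuotientGroup.mk_surjective g
    have h3 : (Subgroup.quotientEquivProdOfLE hle g).1 = (QuotientGroup.mk σ : GN M) := by
      rw [← hσ]
      rfl
    rw [h3]
    have h4 : (QuotientGroup.mk g.out : GN N) = QuotientGroup.mk σ := by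
      rw [QuotientGroup.out_eq', hσ]
    rw [QuotientGroup.eq] at h4 ⊢
    exact hle h4
  simp_rw [h1]
  rw [ENNReal.tsum_prod (f := fun (a : SL(2, ℤ) ⧸ Gamma M)
    (_ : (Gamma M ⧸ (Gamma N).subgroupOf (Gamma M))) => fdI F (Quotient.out a))]
  have hfin : Finite (Gamma M ⧸ (Gamma N).subgroupOf (Gamma M)) := by
    have : ((Gamma N).subgroupOf (Gamma M)).FiniteIndex := inferInstance
    exact Subgroup.finite_quotient_of_finiteIndex
  have h5 : ∀ a : GN M, ∑' _ : (Gamma M ⧸ (Gamma N).subgroupOf (Gamma M)), fdI F a.out =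
      ((Gamma N).relIndex (Gamma M) : ℝ≥0∞) * fdI F a.out := by
    intro a
    have := Fintype.ofFinite (Gamma M ⧸ (Gamma N).subgroupOf (Gamma M))
    rw [tsum_fintype, Finset.sum_const, nsmul_eq_mul, Subgroup.relIndex, Subgroup.index,
      Finset.card_univ, Nat.card_eq_fintype_card]
  simp_rw [h5]
  rw [ENNReal.tsum_mul_left]

lemma im_smul_le_of_mem_fdo {z : ℍ} (hz : z ∈ (𝒟ᵒ : Set ℍ)) (γ : SL(2, ℤ)) :
    (γ • z).im ≤ z.im := by
  rw [ModularGroup.im_smul_eq_div_normSq]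
  have h1 : 1 ≤ Complex.normSq (denom γ z) := by
    rw [ModularGroup.denom_apply]
    set c := γ 1 0 with hc
    set d := γ 1 1 with hd
    have hz1 : 1 < z.re ^ 2 + z.im ^ 2 := by
      have := hz.1
      rw [Complex.normSq_apply] at this
      simpa [sq] using this
    have hz2 : |z.re| < 1 / 2 := hz.2
    have hn : Complex.normSq ((c : ℂ) * (z : ℂ) + (d : ℂ)) =
        (c : ℝ) ^ 2 * (z.re ^ 2 + z.im ^ 2) + 2 * c * d * z.re + (d : ℝ) ^ 2 := by
      rw [Complex.normSq_apply]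
      simp
      ring
    rw [hn]
    by_cases hc0 : c = 0
    · have hdet := Matrix.SpecialLinearGroup.det_coe γ
      rw [Matrix.det_fin_two, ← hc, ← hd, hc0, mul_zero, sub_zero] at hdet
      have hd1 : d ^ 2 = 1 := by
        have hu : IsUnit d := IsUnit.of_mul_eq_one _ (by rw [mul_comm]; exact hdet)
        rcases Int.isUnit_iff.mp hu with h | h <;> rw [h] <;> norm_num
      have hd2 : (d : ℝ) ^ 2 = 1 := by exact_mod_cast hd1
      rw [hc0, hd2]
      simp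
    · have hcd : (1 : ℤ) ≤ |c| ^ 2 + |d| ^ 2 - |c| * |d| := by
        have hc1 : (1 : ℤ) ≤ |c| := Int.one_le_abs hc0
        have hd1 : (0 : ℤ) ≤ |d| := abs_nonneg d
        rcases hd1.eq_or_lt with h | h
        · rw [← h]; nlinarith
        · have h2 : (1 : ℤ) ≤ |d| := h
          nlinarith [sq_nonneg (|c| - |d|)]
      have hcd' : (1 : ℝ) ≤ |(c : ℝ)| ^ 2 + |(d : ℝ)| ^ 2 - |(c : ℝ)| * |(d : ℝ)| := by
        exact_mod_cast hcd
      have h3 : -(|(c : ℝ)| * |(d : ℝ)|) ≤ 2 * c * d * z.re := by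
        have h4 := neg_abs_le (2 * c * d * z.re)
        rw [abs_mul, abs_mul, abs_mul, abs_two] at h4
        have h5 : 2 * |(c : ℝ)| * |(d : ℝ)| * |z.re| ≤ |(c : ℝ)| * |(d : ℝ)| := by
          have : 0 ≤ |(c : ℝ)| * |(d : ℝ)| := by positivity
          nlinarith
        linarith
      have h6 : |(c : ℝ)| ^ 2 ≤ (c : ℝ) ^ 2 * (z.re ^ 2 + z.im ^ 2) := by
        rw [sq_abs]
        nlinarith [sq_nonneg (c : ℝ)]
      have h7 : |(d : ℝ)| ^ 2 = (d : ℝ) ^ 2 := sq_abs _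
      linarith
  exact div_le_self z.im_pos.le h1

lemma vol_strip (Y : ℝ) (hY : 0 < Y) :
    (volume : Measure ℍ) {z : ℍ | |z.re| < 1 / 2 ∧ Y < z.im} = ENNReal.ofReal Y⁻¹ := by
  set Q : Set (ℝ × ℝ) := Set.Ioo (-(1 / 2)) (1 / 2) ×ˢ Set.Ioi Y with hQ
  have hQm : MeasurableSet Q := measurableSet_Ioo.prod measurableSet_Ioi
  have h1 := lint_H (Q.indicator 1) (measurable_one.indicator hQm)
  have h2 : ∫⁻ z : ℍ, Q.indicator 1 (z.re, z.im) = volume {z : ℍ | |z.re| < 1 / 2 ∧ Y < z.im} := by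
    have hm : MeasurableSet {z : ℍ | |z.re| < 1 / 2 ∧ Y < z.im} :=
      ((isOpen_lt (continuous_abs.comp continuous_re) continuous_const).inter
        (isOpen_lt continuous_const continuous_im)).measurableSet
    rw [← lintegral_indicator_one hm]
    congr 1
    ext z
    by_cases hz : z ∈ {z : ℍ | |z.re| < 1 / 2 ∧ Y < z.im}
    · rw [Set.indicator_of_mem hz, Set.indicator_of_mem]
      · rfl
      · exact ⟨abs_lt.mp hz.1, hz.2⟩
    · rw [Set.indicator_of_notMem hz, Set.indicator_of_notMem]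
      intro h
      exact hz ⟨abs_lt.mpr h.1, h.2⟩
  rw [← h2, h1]
  have h3 : ∫⁻ p : ℝ × ℝ in {p | 0 < p.2}, ENNReal.ofReal (1 / p.2 ^ 2) * Q.indicator 1 p =
      ∫⁻ p : ℝ × ℝ in Q, ENNReal.ofReal (1 / p.2 ^ 2) := by
    rw [← lintegral_indicator (measurableSet_lt measurable_const measurable_snd),
      ← lintegral_indicator hQm]
    congr 1
    ext p
    by_cases hp : p ∈ Q
    · have hp2 : p ∈ {p : ℝ × ℝ | 0 < p.2} := hY.trans hp.2
      rw [Set.indicator_of_mem hp2, Set.indicator_of_mem hp, Set.indicator_of_mem hp]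
      simp
    · rw [Set.indicator_of_notMem hp, Set.indicator_apply]
      split_ifs
      · rw [Set.indicator_of_notMem hp, mul_zero]
      · rfl
  rw [h3, hQ, Measure.volume_eq_prod, ← Measure.prod_restrict]
  have h4 := lintegral_prod_mul (μ := volume.restrict (Set.Ioo (-(1 / 2) : ℝ) (1 / 2)))
    (ν := volume.restrict (Set.Ioi Y)) (f := fun _ => 1)
    (g := fun y : ℝ => ENNReal.ofReal (1 / y ^ 2)) (by fun_prop) (by fun_prop)
  simp only [one_mul] at h4
  rw [h4]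
  have h5 : ∫⁻ _ : ℝ in Set.Ioo (-(1 / 2) : ℝ) (1 / 2), (1 : ℝ≥0∞) = 1 := by
    simp
    norm_num
  rw [h5, one_mul]
  have h6 : ∫ y in Set.Ioi Y, y ^ (-2 : ℝ) = Y⁻¹ := by
    rw [integral_Ioi_rpow_of_lt (by norm_num) hY]
    norm_num
    rw [Real.rpow_neg_one]
  have h7 : ∫⁻ y in Set.Ioi Y, ENNReal.ofReal (1 / y ^ 2) =
      ∫⁻ y in Set.Ioi Y, ENNReal.ofReal (y ^ (-2 : ℝ)) := by
    refine setLIntegral_congr_fun measurableSet_Ioi fun y hy => ?_
    have hy0 : 0 < y := hY.trans hy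
    congr 1
    rw [Real.rpow_neg hy0.le, Real.rpow_two, one_div]
  rw [h7, ← ofReal_integral_eq_lintegral_ofReal, h6]
  · exact integrableOn_Ioi_rpow_of_lt (by norm_num) hY
  · refine (ae_restrict_mem measurableSet_Ioi).mono fun y hy => ?_
    exact Real.rpow_nonneg (hY.trans hy).le _

/-- the cusps are small: `vol (𝒟ᵒ ∩ {Im > Y}) ≤ 1 / Y`, `vol 𝒟ᵒ ≥ vol {|Re| < 1/2, Im > 1} = 1`. -/
theorem nu_cusp_le (N : ℕ) (hN : N ≠ 0) {Y : ℝ} (hY : 1 ≤ Y) :
    nu N (cuspRegion Y) ≤ ENNReal.ofReal Y⁻¹ * nu N Set.univ := by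
  have : NeZero N := ⟨hN⟩
  have hY0 : 0 < Y := by linarith
  have h1 : nu N (cuspRegion Y) = ∑' _ : GN N, volume (cuspRegion Y ∩ 𝒟ᵒ) := by
    rw [nu_apply N _ (measurableSet_cuspRegion Y)]
    congr 1
    ext g
    congr 2
    ext z
    exact cuspRegion_smul Y _ z
  have h2 : volume (cuspRegion Y ∩ 𝒟ᵒ) ≤ ENNReal.ofReal Y⁻¹ := by
    rw [← vol_strip Y hY0]
    apply measure_mono
    rintro z ⟨⟨γ, hγ⟩, hz⟩
    exact ⟨hz.2, hγ.trans_le (im_smul_le_of_mem_fdo hz γ)⟩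
  have h3 : 1 ≤ volume (𝒟ᵒ : Set ℍ) := by
    have := vol_strip 1 one_pos
    rw [inv_one, ENNReal.ofReal_one] at this
    rw [← this]
    apply measure_mono
    rintro z ⟨hz1, hz2⟩
    refine ⟨?_, hz1⟩
    rw [Complex.normSq_apply]
    have : (z : ℂ).im = z.im := rfl
    have h4 : (z : ℂ).re = z.re := rfl
    rw [this, h4]
    nlinarith [mul_self_nonneg z.re]
  rw [h1, nu_univ N hN, tsum_fintype, Finset.sum_const, nsmul_eq_mul, Subgroup.index,
    Finset.card_univ, Nat.card_eq_fintype_card]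
  calc (Fintype.card (GN N) : ℝ≥0∞) * volume (cuspRegion Y ∩ 𝒟ᵒ)
      ≤ (Fintype.card (GN N) : ℝ≥0∞) * (ENNReal.ofReal Y⁻¹ * 1) := by
        rw [mul_one]; gcongr
    _ ≤ (Fintype.card (GN N) : ℝ≥0∞) * (ENNReal.ofReal Y⁻¹ * volume (𝒟ᵒ : Set ℍ)) := by gcongr
    _ = ENNReal.ofReal Y⁻¹ * ((Fintype.card (GN N) : ℝ≥0∞) * volume (𝒟ᵒ : Set ℍ)) := by ring

end

end Pool.Agent.H369R2
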