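import Mathlib

open UpperHalfPlane MeasureTheory Metric ModularGroup CongruenceSubgroup
open scoped MatrixGroups ENNReal Modular Topology

namespace Pool.Agent.H369R2

namespace S3a

theorem measurePreserving_sl (g : SL(2, ℤ)) : MeasurePreserving (fun z : ℍ => g • z) volume volume := by
  exact measurePreserving_smul (Matrix.SpecialLinearGroup.toGL (Matrix.SpecialLinearGroup.map (algebraMap ℤ ℝ) g)) (volume : Measure ℍ)

theorem null_of_image (s : Set ℍ) (h : volume ((↑) '' s : Set ℂ) = 0) : volume s = 0 := by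
  rw [volume_eq_lintegral]
  exact setLIntegral_measure_zero _ _ h

theorem null_re (c : ℝ) : volume {z : ℂ | z.re = c} = 0 := by
  have h : {z : ℂ | z.re = c} = Complex.measurableEquivRealProd ⁻¹' ({c} ×ˢ Set.univ) := by
    ext z
    simp [Complex.measurableEquivRealProd]
  rw [h, Complex.volume_preserving_equiv_real_prod.measure_preimage_equiv]
  rw [Measure.volume_eq_prod, Measure.prod_prod]
  simp

theorem null_bdry : volume (𝒟 \ 𝒟ᵒ) = 0 := by
  apply null_of_image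
  refine measure_mono_null (t := Metric.sphere (0 : ℂ) 1 ∪ ({z : ℂ | z.re = 1 / 2} ∪ {z : ℂ | z.re = -(1 / 2)})) ?_ ?_
  · rintro _ ⟨z, ⟨hz1, hz2⟩, rfl⟩
    by_cases h : 1 < Complex.normSq (z : ℂ)
    · right
      have h3 : |z.re| = 1 / 2 := by
        by_contra hne
        exact hz2 ⟨h, lt_of_le_of_ne hz1.2 hne⟩
      rcases (abs_eq (by norm_num)).mp h3 with h4 | h4
      · left; exact h4
      · right; exact h4
    · left
      have : Complex.normSq (z : ℂ) = 1 := le_antisymm (not_lt.mp h) hz1.1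
      rw [mem_sphere_zero_iff_norm]
      rw [Complex.normSq_eq_norm_sq] at this
      have h0 : 0 ≤ ‖(z : ℂ)‖ := norm_nonneg _
      nlinarith
  · refine measure_union_null ?_ (measure_union_null (null_re _) (null_re _))
    exact Measure.addHaar_sphere _ _ _

instance countable_SL : Countable SL(2, ℤ) :=
  inferInstanceAs (Countable {A : Fin 2 → Fin 2 → ℤ // Matrix.det A = 1})

theorem ae_exists : ∀ᵐ z : ℍ, ∃ γ : SL(2, ℤ), γ • z ∈ 𝒟ᵒ := by
  have h : ∀ g : SL(2, ℤ), ∀ᵐ z : ℍ, g • z ∉ (𝒟 \ 𝒟ᵒ : Set ℍ) := by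
    intro g
    rw [ae_iff]
    have h1 : {a : ℍ | ¬ g • a ∉ (𝒟 \ 𝒟ᵒ : Set ℍ)} = (fun z : ℍ => g • z) ⁻¹' (𝒟 \ 𝒟ᵒ : Set ℍ) := by
      ext a
      simp only [Set.mem_ofPred_eq, not_not, Set.mem_preimage]
    rw [h1, (measurePreserving_sl g).measure_preimage, null_bdry]
    exact (isClosed_fd.measurableSet.diff isOpen_fdo.measurableSet).nullMeasurableSet
  filter_upwards [ae_all_iff.mpr h] with z hz
  obtain ⟨g, hg⟩ := exists_smul_mem_fd z
  refine ⟨g, ?_⟩
  by_contra hne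
  exact hz g ⟨hg, hne⟩

theorem measurableSet_fdo : MeasurableSet (𝒟ᵒ : Set ℍ) := isOpen_fdo.measurableSet

theorem neg_one_smul' (z : ℍ) : (-1 : SL(2, ℤ)) • z = z := by
  simp

theorem count (z : ℍ) (h : ∃ γ : SL(2, ℤ), γ • z ∈ 𝒟ᵒ) (c : ℝ≥0∞) :
    ∑' γ : SL(2, ℤ), Set.indicator 𝒟ᵒ (fun _ => c) (γ⁻¹ • z) = 2 * c := by
  obtain ⟨g, hg⟩ := h
  have hne : g⁻¹ ≠ -g⁻¹ := by
    intro h
    have h0 := congrArg (fun A : SL(2, ℤ) => (A : Matrix (Fin 2) (Fin 2) ℤ)) h
    have h1 : ∀ i j, (g⁻¹ : SL(2, ℤ)) i j = 0 := by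
      intro i j
      have := congrFun (congrFun h0 i) j
      simp only [Matrix.SpecialLinearGroup.coe_neg, Matrix.neg_apply] at this
      omega
    have h2 := (g⁻¹).det_coe
    rw [Matrix.det_fin_two, h1 0 0, h1 0 1] at h2
    norm_num at h2
  have hs : ∀ γ : SL(2, ℤ), γ ∉ ({g⁻¹, -g⁻¹} : Finset SL(2, ℤ)) → Set.indicator 𝒟ᵒ (fun _ => c) (γ⁻¹ • z) = 0 := by
    intro γ hγ
    rw [Set.indicator_of_notMem]
    intro hmem
    apply hγ
    have h1 : (γ⁻¹ * g⁻¹) • (g • z) ∈ 𝒟ᵒ := by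
      rwa [mul_smul, inv_smul_smul]
    rcases eq_one_or_neg_one_of_mem_fdo_mem_fdo hg h1 with h2 | h2
    · rw [Finset.mem_insert]; left
      rw [inv_mul_eq_one] at h2
      exact h2
    · rw [Finset.mem_insert, Finset.mem_singleton]; right
      have : γ = γ * (γ⁻¹ * g⁻¹) * (-1) := by rw [h2]; simp
      rw [this]; simp
  rw [tsum_eq_sum hs, Finset.sum_pair hne]
  have e1 : Set.indicator 𝒟ᵒ (fun _ => c) ((g⁻¹)⁻¹ • z) = c := by
    rw [Set.indicator_of_mem]; rwa [inv_inv]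
  have e2 : Set.indicator 𝒟ᵒ (fun _ => c) ((-g⁻¹)⁻¹ • z) = c := by
    rw [Set.indicator_of_mem]
    have : (-g⁻¹)⁻¹ = -g := by
      rw [inv_eq_iff_mul_eq_one]; simp
    rw [this]
    simpa using hg
  rw [e1, e2, two_mul]

end S3a

open S3a

/-- S3a: every function is unfolded twice (`±1`). -/
theorem unfold_fd (F : ℍ → ℝ≥0∞) (hF : Measurable F) :
    ∑' γ : SL(2, ℤ), ∫⁻ z in 𝒟ᵒ, F (γ • z) = 2 * ∫⁻ z, F z := by
  have h1 : ∀ γ : SL(2, ℤ), ∫⁻ z in 𝒟ᵒ, F (γ • z) = ∫⁻ z, Set.indicator 𝒟ᵒ (fun _ => F z) (γ⁻¹ • z) := by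
    intro γ
    rw [← lintegral_indicator measurableSet_fdo]
    rw [← (measurePreserving_sl γ⁻¹).lintegral_comp]
    · apply lintegral_congr
      intro z
      by_cases hz : γ⁻¹ • z ∈ 𝒟ᵒ
      · rw [Set.indicator_of_mem hz, Set.indicator_of_mem hz, smul_inv_smul]
      · rw [Set.indicator_of_notMem hz, Set.indicator_of_notMem hz]
    · exact (hF.comp (measurePreserving_sl γ).measurable).indicator measurableSet_fdo
  simp_rw [h1]
  rw [← lintegral_tsum]
  · rw [← lintegral_const_mul _ hF]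
    apply lintegral_congr_ae
    filter_upwards [ae_exists] with z hz
    exact count z hz (F z)
  · intro γ
    have : (fun z => Set.indicator 𝒟ᵒ (fun _ => F z) (γ⁻¹ • z)) = Set.indicator ((fun z => γ⁻¹ • z) ⁻¹' 𝒟ᵒ) F := by
      ext z
      rfl
    rw [this]
    exact (hF.indicator ((measurePreserving_sl γ⁻¹).measurable measurableSet_fdo)).aemeasurable

end Pool.Agent.H369R2
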