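import Pool.Agent.H369R2.NU1
import Pool.Agent.H369R2.S3a

/-! # The measure `nu N`, part 2: unfolding, symmetry, averaging -/

open UpperHalfPlane MeasureTheory Metric ModularGroup CongruenceSubgroup
open scoped MatrixGroups ENNReal Modular Topology NNReal ComplexConjugate

namespace Pool.Agent.H369R2

noncomputable section

namespace NU2

lemma lint_nu (N : ℕ) (G : ℍ → ℝ≥0∞) :
    ∫⁻ z, G z ∂(nu N) = ∑' g : SL(2, ℤ) ⧸ Gamma N, ∫⁻ z in 𝒟ᵒ, G (g.out • z) := by
  rw [nu, lintegral_sum_measure]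
  congr 1
  ext g
  rw [(me_int g.out).lintegral_map]

lemma sfin (N : ℕ) : SFinite (nu N) := by
  have : Countable (SL(2, ℤ) ⧸ Gamma N) := Quotient.countable
  unfold nu
  infer_instance

/-- decomposition of `SL(2, ℤ)` along the cosets of the normal subgroup `Γ(N)` -/
def decomp (N : ℕ) : (SL(2, ℤ) ⧸ Gamma N) × Gamma N ≃ SL(2, ℤ) :=
  Equiv.ofBijective (fun x => (x.2 : SL(2, ℤ)) * x.1.out) (by
    have hmk : ∀ x : (SL(2, ℤ) ⧸ Gamma N) × Gamma N,
        (((x.2 : SL(2, ℤ)) * x.1.out : SL(2, ℤ)) : SL(2, ℤ) ⧸ Gamma N) = x.1 := by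
      intro x
      conv_rhs => rw [← x.1.out_eq']
      rw [Quotient.mk''_eq_mk, QuotientGroup.eq]
      have h := (Gamma_normal N).conj_mem _ (inv_mem x.2.2) (x.1.out)⁻¹
      simpa [mul_assoc] using h
    constructor
    · intro x y hxy
      have hxy' : (x.2 : SL(2, ℤ)) * x.1.out = (y.2 : SL(2, ℤ)) * y.1.out := hxy
      have h1 : x.1 = y.1 := by
        rw [← hmk x, ← hmk y, hxy']
      rw [h1] at hxy'
      have h2 := mul_right_cancel hxy'
      exact Prod.ext h1 (Subtype.ext h2)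
    · intro γ
      have h1 : ((γ : SL(2, ℤ) ⧸ Gamma N).out)⁻¹ * γ ∈ Gamma N := by
        rw [← QuotientGroup.eq]
        exact Quotient.out_eq' _
      have h2 := (Gamma_normal N).conj_mem _ h1 (γ : SL(2, ℤ) ⧸ Gamma N).out
      refine ⟨((γ : SL(2, ℤ) ⧸ Gamma N), ⟨_, h2⟩), ?_⟩
      simp)

end NU2

open NU2

/-- unfolding -/
theorem nu_unfold (N : ℕ) {F : ℍ → ℝ≥0∞} (hF : Measurable F) :
    ∫⁻ z, ∑' δ : Gamma N, F ((δ : SL(2, ℤ)) • z) ∂(nu N) = 2 * ∫⁻ z, F z := by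
  rw [lint_nu, ← unfold_fd F hF, ← (decomp N).tsum_eq, ENNReal.tsum_prod']
  congr 1
  ext g
  rw [lintegral_tsum]
  · congr 1
    ext δ
    apply lintegral_congr
    intro z
    rw [← mul_smul]
    rfl
  · intro δ
    exact (hF.comp ((cont_smul_int δ).comp (cont_smul_int g.out)).measurable).aemeasurable

/-- symmetry for diagonally invariant kernels -/
theorem nu_swap (N : ℕ) {Ψ : ℍ → ℍ → ℝ≥0∞} (hΨ : Measurable (Function.uncurry Ψ))
    (hi : ∀ δ ∈ Gamma N, ∀ z w, Ψ (δ • z) (δ • w) = Ψ z w) :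
    ∫⁻ z, (∫⁻ w, Ψ z w) ∂(nu N) = ∫⁻ z, (∫⁻ w, Ψ w z) ∂(nu N) := by
  have := sfin N
  have hm1 : ∀ z, Measurable (Ψ z) := fun z => hΨ.comp measurable_prodMk_left
  have hm2 : ∀ w, Measurable (fun z => Ψ z w) := fun w => hΨ.comp measurable_prodMk_right
  set K : ℍ → ℍ → ℝ≥0∞ := fun z w => ∑' δ : Gamma N, Ψ z ((δ : SL(2, ℤ)) • w) with hK
  have hKm : Measurable (Function.uncurry K) := by
    apply Measurable.tsum
    intro δ
    exact hΨ.comp (measurable_fst.prodMk ((cont_smul_int δ).measurable.comp measurable_snd))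
  have hKs : ∀ z w, ∑' δ : Gamma N, Ψ ((δ : SL(2, ℤ)) • w) z = K w z := by
    intro z w
    rw [hK, ← (Equiv.inv (Gamma N)).tsum_eq]
    simp only
    congr 1
    ext δ
    rw [← hi δ δ.2]
    simp
  have h1 : ∀ z, 2 * ∫⁻ w, Ψ z w = ∫⁻ w, K z w ∂(nu N) := fun z => (nu_unfold N (hm1 z)).symm
  have h2 : ∀ z, 2 * ∫⁻ w, Ψ w z = ∫⁻ w, K w z ∂(nu N) := by
    intro z
    rw [← nu_unfold N (hm2 z)]
    apply lintegral_congr
    intro w
    exact hKs z w
  have h3 : 2 * ∫⁻ z, (∫⁻ w, Ψ z w) ∂(nu N) = 2 * ∫⁻ z, (∫⁻ w, Ψ w z) ∂(nu N) := by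
    rw [← lintegral_const_mul, ← lintegral_const_mul]
    · simp only [h1, h2]
      rw [lintegral_lintegral_swap hKm.aemeasurable]
    · exact Measurable.lintegral_prod_left' (f := fun p : ℍ × ℍ => Ψ p.1 p.2) hΨ
    · exact hΨ.lintegral_prod_right'
  exact (ENNReal.mul_right_inj (by norm_num) (by norm_num)).mp h3

/-- averaging preserves the integral of an invariant function -/
theorem lint_Ap_nu {R : ℝ} (hR : 0 < R) (N : ℕ) {F : ℍ → ℝ≥0∞} (hF : Measurable F)
    (hi : ∀ δ ∈ Gamma N, ∀ z, F (δ • z) = F z) :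
    ∫⁻ z, Ap R F z ∂(nu N) = ∫⁻ z, F z ∂(nu N) := by
  have hm : Measurable (Function.uncurry fun z w => bz R z w * F w) := by
    have : (Function.uncurry fun z w => bz R z w * F w) =
        fun p : ℍ × ℍ => bz R p.1 p.2 * F p.2 := rfl
    rw [this]
    exact (measurable_bz2 R).mul (hF.comp measurable_snd)
  have hinv : ∀ δ ∈ Gamma N, ∀ z w, bz R (δ • z) (δ • w) * F (δ • w) = bz R z w * F w := by
    intro δ hδ z w
    rw [bz_smul, hi δ hδ]
  have h := nu_swap N hm hinv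
  simp only [Ap_eq hR]
  rw [h]
  apply lintegral_congr
  intro z
  rw [lintegral_mul_const]
  · have h1 : ∫⁻ w, bz R w z = 1 := by
      have h2 : ∀ w, bz R w z = bz R z w * (fun _ => (1 : ℝ≥0∞)) w := fun w => by
        rw [bz_symm R w z]; simp
      rw [lintegral_congr h2, ← Ap_eq hR, Ap, setLIntegral_one, vol_eq]
      exact ENNReal.inv_mul_cancel (by simp [bv_pos hR]) ENNReal.ofReal_ne_top
    rw [h1, one_mul]
  · have h3 : (fun w => bz R w z) = bz R z := funext fun w => bz_symm R w z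
    rw [h3]
    exact measurable_bz R z

end

end Pool.Agent.H369R2
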