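import Mathlib
import Pool.Agent.H369R2.S6a

open UpperHalfPlane MeasureTheory Metric ModularGroup CongruenceSubgroup
open scoped MatrixGroups ENNReal Modular Topology

namespace Pool.Agent.H369R2

namespace S6c

theorem dvd_facts (N : ℕ) (hN : 0 < N) (x : ℤ) (hx : (N : ℤ) ∣ x ^ 2 - 1) :
    ((Int.gcd (x - 1) N : ℕ) : ℤ) ∣ x - 1 ∧ ((N / Int.gcd (x - 1) N : ℕ) : ℤ) ∣ x + 1 := by
  set g := Int.gcd (x - 1) N with hg
  have hg0 : 0 < g := Int.gcd_pos_of_ne_zero_right _ (by exact_mod_cast hN.ne')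
  have hg1 : (g : ℤ) ∣ x - 1 := Int.gcd_dvd_left _ _
  have hg2 : g ∣ N := by
    have : (g : ℤ) ∣ (N : ℤ) := Int.gcd_dvd_right _ _
    exact_mod_cast this
  refine ⟨hg1, ?_⟩
  obtain ⟨a, ha⟩ := hg1
  obtain ⟨m, hm⟩ := hg2
  have hmN : N / g = m := by rw [hm]; exact Nat.mul_div_cancel_left m hg0
  rw [hmN]
  have hcop : IsCoprime a (m : ℤ) := by
    rw [Int.isCoprime_iff_gcd_eq_one]
    have h1 : Int.gcd ((g : ℤ) * a) ((g : ℤ) * m) = g * Int.gcd a m := by
      rw [Int.gcd_mul_left]; simp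
    have h2 : ((g : ℤ) * m) = (N : ℤ) := by rw [hm]; push_cast; ring
    rw [h2, ← ha, ← hg] at h1
    have : g * 1 = g * Int.gcd a m := by linarith
    exact (Nat.eq_of_mul_eq_mul_left hg0 this).symm
  have h3 : (g : ℤ) * m ∣ (g : ℤ) * (a * (x + 1)) := by
    have : x ^ 2 - 1 = (g : ℤ) * (a * (x + 1)) := by
      have : x ^ 2 - 1 = (x - 1) * (x + 1) := by ring
      rw [this, ha]; ring
    rw [← this]
    have h2 : ((g : ℤ) * m) = (N : ℤ) := by rw [hm]; push_cast; ring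
    rw [h2]; exact hx
  have h4 : (m : ℤ) ∣ a * (x + 1) := by
    exact (mul_dvd_mul_iff_left (by exact_mod_cast hg0.ne')).mp h3
  exact hcop.symm.dvd_of_dvd_mul_left h4

theorem card_ker_le (N : ℕ) [NeZero N] :
    Nat.card (powMonoidHom 2 : (ZMod N)ˣ →* (ZMod N)ˣ).ker ≤ 2 * N.divisors.card := by
  classical
  have hN : 0 < N := Nat.pos_of_ne_zero (NeZero.ne N)
  let F : (powMonoidHom 2 : (ZMod N)ˣ →* (ZMod N)ˣ).ker → ↥((Finset.univ : Finset Bool) ×ˢ N.divisors) :=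
    fun u => ⟨(decide (((u : (ZMod N)ˣ) : ZMod N).val <
        Nat.lcm (Int.gcd ((((u : (ZMod N)ˣ) : ZMod N).val : ℤ) - 1) N)
          (N / (Int.gcd ((((u : (ZMod N)ˣ) : ZMod N).val : ℤ) - 1) N))),
      Int.gcd ((((u : (ZMod N)ˣ) : ZMod N).val : ℤ) - 1) N), by
        rw [Finset.mem_product]
        refine ⟨Finset.mem_univ _, ?_⟩
        rw [Nat.mem_divisors]
        refine ⟨?_, hN.ne'⟩
        have : ((Int.gcd ((((u : (ZMod N)ˣ) : ZMod N).val : ℤ) - 1) N : ℕ) : ℤ) ∣ (N : ℤ) := Int.gcd_dvd_right _ _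
        exact_mod_cast this⟩
  have hsq : ∀ u : (powMonoidHom 2 : (ZMod N)ˣ →* (ZMod N)ˣ).ker,
      (N : ℤ) ∣ (((u : (ZMod N)ˣ) : ZMod N).val : ℤ) ^ 2 - 1 := by
    intro u
    have h1 : (u : (ZMod N)ˣ) ^ 2 = 1 := u.2
    have h2 : (((u : (ZMod N)ˣ)) : ZMod N) ^ 2 = 1 := by
      have := congrArg (Units.val) h1
      simpa using this
    rw [← ZMod.intCast_zmod_eq_zero_iff_dvd]
    push_cast
    rw [ZMod.natCast_zmod_val, h2, sub_self]
  have hF : Function.Injective F := by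
    intro u v huv
    simp only [F, Subtype.mk.injEq, Prod.mk.injEq] at huv
    obtain ⟨h1, h2⟩ := huv
    set x := ((u : (ZMod N)ˣ) : ZMod N).val with hx
    set y := ((v : (ZMod N)ˣ) : ZMod N).val with hy
    rw [← h2] at h1
    set g := Int.gcd ((x : ℤ) - 1) N with hg
    have hxN : x < N := ZMod.val_lt _
    have hyN : y < N := ZMod.val_lt _
    obtain ⟨a1, a2⟩ := dvd_facts N hN x (hsq u)
    obtain ⟨b1, b2⟩ := dvd_facts N hN y (hsq v)
    rw [← hg] at a1 a2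
    rw [← h2] at b1 b2
    have hg0 : 0 < g := Int.gcd_pos_of_ne_zero_right _ (by exact_mod_cast hN.ne')
    have hgN : g ∣ N := by
      have : ((g : ℕ) : ℤ) ∣ (N : ℤ) := Int.gcd_dvd_right _ _
      exact_mod_cast this
    set L := Nat.lcm g (N / g) with hL
    have hgcd : Nat.gcd g (N / g) * L = N := by
      rw [hL, Nat.gcd_mul_lcm]; exact Nat.mul_div_cancel' hgN
    have hgcd2 : Nat.gcd g (N / g) ∣ 2 := by
      have e1 : ((Nat.gcd g (N / g) : ℕ) : ℤ) ∣ (x : ℤ) - 1 :=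
        (Int.natCast_dvd_natCast.mpr (Nat.gcd_dvd_left _ _)).trans a1
      have e2 : ((Nat.gcd g (N / g) : ℕ) : ℤ) ∣ (x : ℤ) + 1 :=
        (Int.natCast_dvd_natCast.mpr (Nat.gcd_dvd_right _ _)).trans a2
      have e3 : ((Nat.gcd g (N / g) : ℕ) : ℤ) ∣ 2 := by
        have := dvd_sub e2 e1
        have e4 : (x : ℤ) + 1 - ((x : ℤ) - 1) = 2 := by ring
        rwa [e4] at this
      exact_mod_cast e3
    have hL2 : N ≤ 2 * L := by
      have := Nat.le_of_dvd (by norm_num) hgcd2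
      nlinarith
    have hLd : (L : ℤ) ∣ (x : ℤ) - y := by
      have e1 : (g : ℤ) ∣ (x : ℤ) - y := by
        have := dvd_sub a1 b1
        have e4 : (x : ℤ) - 1 - ((y : ℤ) - 1) = x - y := by ring
        rwa [e4] at this
      have e2 : ((N / g : ℕ) : ℤ) ∣ (x : ℤ) - y := by
        have := dvd_sub a2 b2
        have e4 : (x : ℤ) + 1 - ((y : ℤ) + 1) = x - y := by ring
        rwa [e4] at this
      rw [hL]
      exact Int.coe_lcm_dvd e1 e2 
    have hxy : x = y := by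
      obtain ⟨k, hk⟩ := hLd
      have h1' : (x < L) ↔ (y < L) := by simpa using h1
      have hk0 : k = 0 := by
        by_contra hk0
        have hLpos : 0 < L := by omega
        rcases lt_or_gt_of_ne hk0 with h | h
        · have : (L : ℤ) * k ≤ -(L : ℤ) := by nlinarith
          by_cases hxl : x < L
          · have hyl := h1'.mp hxl; omega
          · have hyl : ¬ y < L := fun h => hxl (h1'.mpr h)
            omega
        · have : (L : ℤ) ≤ (L : ℤ) * k := by nlinarith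
          by_cases hxl : x < L
          · have hyl := h1'.mp hxl; omega
          · have hyl : ¬ y < L := fun h => hxl (h1'.mpr h)
            omega
      rw [hk0, mul_zero] at hk
      omega
    apply Subtype.ext
    apply Units.ext
    exact ZMod.val_injective N hxy
  have := Nat.card_le_card_of_injective F hF
  refine this.trans (le_of_eq ?_)
  rw [Nat.card_eq_fintype_card, Fintype.card_coe, Finset.card_product]
  simp

theorem le_totient_mul (N : ℕ) (hN : 0 < N) : N ≤ N.divisors.card * N.totient := by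
  conv_lhs => rw [← Nat.sum_totient N]
  rw [← smul_eq_mul]
  apply Finset.sum_le_card_nsmul
  intro d hd
  exact Nat.le_of_dvd (Nat.totient_pos.mpr hN) (Nat.totient_dvd_of_dvd (Nat.dvd_of_mem_divisors hd))

end S6c

open S6c

/-- S6c: many squares of units modulo `N` -/
theorem many_squares (ε : ℝ) (hε : 0 < ε) :
    ∃ c : ℝ, 0 < c ∧ ∀ N : ℕ, ∀ _ : NeZero N,
      c * (N : ℝ) ^ (1 - ε) ≤ ((Set.range fun u : (ZMod N)ˣ => ((u ^ 2 : (ZMod N)ˣ) : ZMod N)).ncard : ℝ) := by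
  classical
  obtain ⟨C, hC, hdiv⟩ := divisor_bound (ε / 2) (by positivity)
  refine ⟨1 / (2 * C ^ 2), by positivity, ?_⟩
  intro N hNZ
  have hN : 0 < N := Nat.pos_of_ne_zero (NeZero.ne N)
  have hNR : (0 : ℝ) < N := by exact_mod_cast hN
  set φ := (powMonoidHom 2 : (ZMod N)ˣ →* (ZMod N)ˣ) with hφ
  have h1 : (Set.range fun u : (ZMod N)ˣ => ((u ^ 2 : (ZMod N)ˣ) : ZMod N)).ncard = Nat.card φ.range := by
    have : (Set.range fun u : (ZMod N)ˣ => ((u ^ 2 : (ZMod N)ˣ) : ZMod N)) =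
        Units.val '' (φ.range : Set (ZMod N)ˣ) := by
      ext x
      simp only [Set.mem_range, Set.mem_image, SetLike.mem_coe, MonoidHom.mem_range, hφ, powMonoidHom_apply]
      constructor
      · rintro ⟨u, rfl⟩; exact ⟨u ^ 2, ⟨u, rfl⟩, rfl⟩
      · rintro ⟨_, ⟨u, rfl⟩, rfl⟩; exact ⟨u, rfl⟩
    rw [this, Set.ncard_image_of_injective _ Units.val_injective]
    rfl
  have h2 : Nat.card φ.range * Nat.card φ.ker = N.totient := by
    have e1 := Subgroup.index_ker φ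
    have e2 := Subgroup.card_mul_index φ.ker
    rw [← e1, mul_comm, e2, Nat.card_eq_fintype_card, ZMod.card_units_eq_totient]
  have h3 := card_ker_le N
  have h4 := le_totient_mul N hN
  rw [h1]
  set r := Nat.card φ.range
  set k := Nat.card φ.ker
  set τ := N.divisors.card with hτ
  have h5 : N ≤ 2 * τ ^ 2 * r := by
    calc N ≤ τ * N.totient := h4
      _ = τ * (r * k) := by rw [h2]
      _ ≤ τ * (r * (2 * τ)) := by gcongr
      _ = 2 * τ ^ 2 * r := by ring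
  have h5' : (N : ℝ) ≤ 2 * (τ : ℝ) ^ 2 * r := by exact_mod_cast h5
  have h6 : (τ : ℝ) ^ 2 ≤ C ^ 2 * (N : ℝ) ^ ε := by
    have h := hdiv N hN
    calc (τ : ℝ) ^ 2 ≤ (C * (N : ℝ) ^ (ε / 2)) ^ 2 := by gcongr
      _ = C ^ 2 * (N : ℝ) ^ ε := by
        rw [mul_pow, ← Real.rpow_natCast ((N : ℝ) ^ (ε / 2)), ← Real.rpow_mul hNR.le]
        congr 2
        push_cast; ring
  have h7 : (N : ℝ) ≤ 2 * (C ^ 2 * (N : ℝ) ^ ε) * r := by
    refine h5'.trans ?_
    gcongr
  have h8 : (N : ℝ) ^ (1 - ε) = N / (N : ℝ) ^ ε := by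
    rw [Real.rpow_sub hNR, Real.rpow_one]
  have h9 : (0 : ℝ) < (N : ℝ) ^ ε := Real.rpow_pos_of_pos hNR _
  rw [h8, div_mul_div_comm, one_mul, div_le_iff₀ (by positivity)]
  calc (N : ℝ) ≤ 2 * (C ^ 2 * (N : ℝ) ^ ε) * r := h7
    _ = r * (2 * C ^ 2 * (N : ℝ) ^ ε) := by ring

end Pool.Agent.H369R2
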