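import Mathlib
import Pool.Agent.H369R2.S6a

open UpperHalfPlane MeasureTheory Metric ModularGroup CongruenceSubgroup
open scoped MatrixGroups ENNReal Modular Topology

namespace Pool.Agent.H369R2

/-- euclidean norm of an integral matrix -/
noncomputable def mnorm (γ : SL(2, ℤ)) : ℝ :=
  √((γ 0 0 : ℝ) ^ 2 + (γ 0 1 : ℝ) ^ 2 + (γ 1 0 : ℝ) ^ 2 + (γ 1 1 : ℝ) ^ 2)

namespace S6b

theorem det_eq (γ : SL(2, ℤ)) : γ 0 0 * γ 1 1 - γ 0 1 * γ 1 0 = 1 := by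
  have := γ.2
  rwa [Matrix.det_fin_two] at this

theorem one_le_mnorm (γ : SL(2, ℤ)) : 1 ≤ mnorm γ := by
  unfold mnorm
  rw [Real.one_le_sqrt]
  have h := det_eq γ
  have h1 : (1 : ℤ) ≤ (γ 0 0) ^ 2 + (γ 0 1) ^ 2 + (γ 1 0) ^ 2 + (γ 1 1) ^ 2 := by
    nlinarith [sq_nonneg (γ 0 0 - γ 1 1), sq_nonneg (γ 0 1 + γ 1 0), sq_nonneg (γ 0 0), sq_nonneg (γ 0 1)]
  exact_mod_cast h1

theorem abs_le_mnorm (γ : SL(2, ℤ)) : |(γ 0 0 : ℝ)| ≤ mnorm γ ∧ |(γ 0 1 : ℝ)| ≤ mnorm γ ∧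
    |(γ 1 0 : ℝ)| ≤ mnorm γ ∧ |(γ 1 1 : ℝ)| ≤ mnorm γ := by
  unfold mnorm
  refine ⟨?_, ?_, ?_, ?_⟩ <;> refine Real.abs_le_sqrt ?_ <;> nlinarith [sq_nonneg (γ 0 0 : ℝ),
    sq_nonneg (γ 0 1 : ℝ), sq_nonneg (γ 1 0 : ℝ), sq_nonneg (γ 1 1 : ℝ)]

theorem mem_Icc_floor {x : ℤ} {Y : ℝ} (h : |(x : ℝ)| ≤ Y) : x ∈ Finset.Icc (-(⌊Y⌋₊ : ℤ)) ⌊Y⌋₊ := by
  have hY : 0 ≤ Y := (abs_nonneg _).trans h
  have h1 : x.natAbs ≤ ⌊Y⌋₊ := by
    apply Nat.le_floor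
    rw [Nat.cast_natAbs]; push_cast; exact h
  rw [Finset.mem_Icc]; omega

theorem count_mod (A : ℕ) (r : ℕ) (hr : 0 < r) (v : ℤ) :
    (((Finset.Icc (-(A : ℤ)) A).filter (fun x => x ≡ v [ZMOD r])).card : ℝ) ≤ 2 * ((A : ℝ) / r + 1) := by
  have h1 : Finset.Icc (-(A : ℤ)) A = Finset.Ioc (-(A : ℤ) - 1) A := by
    ext x; simp only [Finset.mem_Icc, Finset.mem_Ioc]; omega
  rw [h1]
  have hr' : (0 : ℤ) < (r : ℤ) := by exact_mod_cast hr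
  have h2 := Int.Ioc_filter_modEq_card (-(A : ℤ) - 1) A hr' v
  have h3 : (((Finset.Ioc (-(A : ℤ) - 1) A).filter (fun x => x ≡ v [ZMOD r])).card : ℝ) =
      (((Finset.Ioc (-(A : ℤ) - 1) A).filter (fun x => x ≡ v [ZMOD r])).card : ℤ) := by push_cast; rfl
  rw [h3, h2]
  have hrR : (0 : ℝ) < r := by exact_mod_cast hr
  have hr1 : (1 : ℝ) ≤ r := by exact_mod_cast hr
  push_cast
  apply max_le
  · have e1 : ((⌊(((A : ℤ) : ℚ) - v) / ((r : ℤ) : ℚ)⌋ : ℤ) : ℝ) ≤ ((A : ℝ) - v) / r := by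
      have := Int.floor_le ((((A : ℤ) : ℚ) - v) / ((r : ℤ) : ℚ))
      have h : (((⌊(((A : ℤ) : ℚ) - v) / ((r : ℤ) : ℚ)⌋ : ℤ) : ℚ) : ℝ) ≤
        (((((A : ℤ) : ℚ) - v) / ((r : ℤ) : ℚ) : ℚ) : ℝ) := by exact_mod_cast this
      push_cast at h; push_cast; exact h
    have e2 : ((((-(A : ℤ) - 1 : ℤ) : ℝ)) - v) / r - 1 ≤
        ((⌊(((-(A : ℤ) - 1 : ℤ) : ℚ) - v) / ((r : ℤ) : ℚ)⌋ : ℤ) : ℝ) := by
      have := (Int.sub_one_lt_floor ((((-(A : ℤ) - 1 : ℤ) : ℚ) - v) / ((r : ℤ) : ℚ))).le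
      have h : (((((-(A : ℤ) - 1 : ℤ) : ℚ) - v) / ((r : ℤ) : ℚ) - 1 : ℚ) : ℝ) ≤
        (((⌊(((-(A : ℤ) - 1 : ℤ) : ℚ) - v) / ((r : ℤ) : ℚ)⌋ : ℤ) : ℚ) : ℝ) := by exact_mod_cast this
      push_cast at h; push_cast; exact h
    push_cast at e1 e2 ⊢
    have e3 : ((A : ℝ) - v) / r - ((-(A : ℝ) - 1 - v) / r - 1) = 2 * (A : ℝ) / r + 1 / r + 1 := by
      field_simp; ring
    have e4 : 1 / (r : ℝ) ≤ 1 := by rw [div_le_one hrR]; exact hr1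
    have e5 : 2 * (A : ℝ) / r = 2 * ((A : ℝ) / r) := by ring
    linarith
  · positivity

theorem mod_facts {N : ℕ} {γ : SL(2, ℤ)} (h : γ ∈ Gamma N) :
    γ 0 0 ≡ 1 [ZMOD N] ∧ γ 1 1 ≡ 1 [ZMOD N] ∧ γ 0 1 ≡ 0 [ZMOD N] ∧ γ 1 0 ≡ 0 [ZMOD N] ∧
      γ 0 0 + γ 1 1 ≡ 2 [ZMOD (N ^ 2 : ℕ)] := by
  rw [Gamma_mem] at h
  obtain ⟨h1, h2, h3, h4⟩ := h
  have a1 : γ 0 0 ≡ 1 [ZMOD N] := by
    rw [← ZMod.intCast_eq_intCast_iff]; push_cast; exact h1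
  have a2 : γ 1 1 ≡ 1 [ZMOD N] := by
    rw [← ZMod.intCast_eq_intCast_iff]; push_cast; exact h4
  have a3 : γ 0 1 ≡ 0 [ZMOD N] := by
    rw [← ZMod.intCast_eq_intCast_iff]; push_cast; exact h2
  have a4 : γ 1 0 ≡ 0 [ZMOD N] := by
    rw [← ZMod.intCast_eq_intCast_iff]; push_cast; exact h3
  refine ⟨a1, a2, a3, a4, ?_⟩
  obtain ⟨x, hx⟩ := a1.symm.dvd
  obtain ⟨y, hy⟩ := a2.symm.dvd
  obtain ⟨z, hz⟩ := a3.symm.dvd
  obtain ⟨w, hw⟩ := a4.symm.dvd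
  have hd := det_eq γ
  rw [Int.modEq_iff_dvd]
  refine ⟨x * y - z * w, ?_⟩
  push_cast
  have hx' : γ 0 0 = 1 + N * x := by linarith
  have hy' : γ 1 1 = 1 + N * y := by linarith
  have hz' : γ 0 1 = N * z := by linarith
  have hw' : γ 1 0 = N * w := by linarith
  rw [hx', hy', hz', hw'] at hd
  rw [hx', hy']
  linear_combination -hd

/-- fibre with `ad ≠ 1` -/
theorem fibre_ne (s : Finset SL(2, ℤ)) (a d : ℤ) (had : a * d ≠ 1) :
    (s.filter (fun γ : SL(2, ℤ) => (γ 0 0, γ 1 1) = (a, d))).card ≤ 2 * (a * d - 1).natAbs.divisors.card := by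
  classical
  have hne : a * d - 1 ≠ 0 := sub_ne_zero.mpr had
  have h1 : (s.filter (fun γ : SL(2, ℤ) => (γ 0 0, γ 1 1) = (a, d))).card ≤
      ((Finset.univ : Finset Bool) ×ˢ (a * d - 1).natAbs.divisors).card := by
    apply Finset.card_le_card_of_injOn (fun γ => (decide (0 ≤ γ 0 1), (γ 0 1).natAbs))
    · intro γ hγ
      simp only [Finset.coe_filter, Set.mem_setOf_eq, Prod.mk.injEq] at hγ
      obtain ⟨-, ha, hd⟩ := hγ
      have hdet := det_eq γ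
      rw [ha, hd] at hdet
      simp only [Finset.coe_product, Finset.coe_univ, Set.mem_prod, Set.mem_univ, Finset.mem_coe,
        Nat.mem_divisors, true_and]
      refine ⟨?_, by simpa using hne⟩
      rw [Int.natAbs_dvd_natAbs]
      exact ⟨γ 1 0, by linarith⟩
    · intro γ hγ γ' hγ' h
      simp only [Finset.coe_filter, Set.mem_setOf_eq, Prod.mk.injEq] at hγ hγ' h
      obtain ⟨-, ha, hd⟩ := hγ
      obtain ⟨-, ha', hd'⟩ := hγ'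
      obtain ⟨h1, h2⟩ := h
      have hb : γ 0 1 = γ' 0 1 := by
        have h1' : (0 ≤ γ 0 1) ↔ (0 ≤ γ' 0 1) := by simpa using h1
        omega
      have hdet := det_eq γ
      have hdet' := det_eq γ'
      rw [ha, hd] at hdet
      rw [ha', hd'] at hdet'
      have hb0 : γ 0 1 ≠ 0 := by
        intro h0; rw [h0] at hdet; apply had; linarith
      have hc : γ 1 0 = γ' 1 0 := by
        rw [← hb] at hdet'
        have : γ 0 1 * γ 1 0 = γ 0 1 * γ' 1 0 := by linarith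
        exact mul_left_cancel₀ hb0 this
      ext i j
      fin_cases i <;> fin_cases j
      · exact ha.trans ha'.symm
      · exact hb
      · exact hc
      · exact hd.trans hd'.symm
  rw [Finset.card_product] at h1
  simpa using h1

/-- fibre with `ad = 1` -/
theorem fibre_eq (N : ℕ) (hN : 0 < N) (Y : ℝ) (s : Finset SL(2, ℤ))
    (hs : ∀ γ ∈ s, γ ∈ Gamma N ∧ mnorm γ ≤ Y) (a d : ℤ) (had : a * d = 1) :
    ((s.filter (fun γ : SL(2, ℤ) => (γ 0 0, γ 1 1) = (a, d))).card : ℝ) ≤ 4 * ((⌊Y⌋₊ : ℝ) / N + 1) := by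
  classical
  set B := (Finset.Icc (-(⌊Y⌋₊ : ℤ)) ⌊Y⌋₊).filter (fun x => x ≡ 0 [ZMOD N]) with hB
  have hBc := count_mod ⌊Y⌋₊ N hN 0
  have h1 : (s.filter (fun γ : SL(2, ℤ) => (γ 0 0, γ 1 1) = (a, d))).card ≤
      ((Finset.univ : Finset Bool) ×ˢ B).card := by
    apply Finset.card_le_card_of_injOn
      (fun γ => (decide (γ 1 0 = 0), if γ 1 0 = 0 then γ 0 1 else γ 1 0))
    · intro γ hγ
      simp only [Finset.coe_filter, Set.mem_setOf_eq, Prod.mk.injEq] at hγ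
      obtain ⟨hγs, ha, hd⟩ := hγ
      obtain ⟨hG, hY⟩ := hs γ hγs
      obtain ⟨-, -, hb0, hc0, -⟩ := mod_facts hG
      obtain ⟨-, hb1, hc1, -⟩ := abs_le_mnorm γ
      simp only [Finset.coe_product, Finset.coe_univ, Set.mem_prod, Set.mem_univ, Finset.mem_coe,
        true_and, hB, Finset.mem_filter]
      split_ifs
      · exact ⟨mem_Icc_floor (hb1.trans hY), hb0⟩
      · exact ⟨mem_Icc_floor (hc1.trans hY), hc0⟩
    · intro γ hγ γ' hγ' h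
      simp only [Finset.coe_filter, Set.mem_setOf_eq, Prod.mk.injEq] at hγ hγ' h
      obtain ⟨-, ha, hd⟩ := hγ
      obtain ⟨-, ha', hd'⟩ := hγ'
      obtain ⟨h1, h2⟩ := h
      have hdet := det_eq γ
      have hdet' := det_eq γ'
      rw [ha, hd, had] at hdet
      rw [ha', hd', had] at hdet'
      have e1 : γ 0 1 * γ 1 0 = 0 := by linarith
      have e1' : γ' 0 1 * γ' 1 0 = 0 := by linarith
      have h1' : (γ 1 0 = 0) ↔ (γ' 1 0 = 0) := by simpa using h1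
      have key : γ 0 1 = γ' 0 1 ∧ γ 1 0 = γ' 1 0 := by
        by_cases hc : γ 1 0 = 0
        · have hc' := h1'.mp hc
          rw [if_pos hc, if_pos hc'] at h2
          exact ⟨h2, by rw [hc, hc']⟩
        · have hc' : ¬ γ' 1 0 = 0 := fun h => hc (h1'.mpr h)
          rw [if_neg hc, if_neg hc'] at h2
          have hb : γ 0 1 = 0 := by
            rcases mul_eq_zero.mp e1 with h | h
            · exact h
            · exact absurd h hc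
          have hb' : γ' 0 1 = 0 := by
            rcases mul_eq_zero.mp e1' with h | h
            · exact h
            · exact absurd h hc'
          exact ⟨by rw [hb, hb'], h2⟩
      ext i j
      fin_cases i <;> fin_cases j
      · exact ha.trans ha'.symm
      · exact key.1
      · exact key.2
      · exact hd.trans hd'.symm
  rw [Finset.card_product] at h1
  have h2 : ((s.filter (fun γ : SL(2, ℤ) => (γ 0 0, γ 1 1) = (a, d))).card : ℝ) ≤ 2 * (B.card : ℝ) := by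
    have : ((s.filter (fun γ : SL(2, ℤ) => (γ 0 0, γ 1 1) = (a, d))).card) ≤ 2 * B.card := by
      simpa using h1
    exact_mod_cast this
  have : (B.card : ℝ) ≤ 2 * ((⌊Y⌋₊ : ℝ) / N + 1) := hBc
  linarith

theorem card_pairs (N A : ℕ) (hN : 0 < N) (P : Finset (ℤ × ℤ))
    (hP : ∀ p ∈ P, p.1 ∈ Finset.Icc (-(A : ℤ)) A ∧ p.2 ∈ Finset.Icc (-(A : ℤ)) A ∧
      p.1 ≡ 1 [ZMOD N] ∧ p.1 + p.2 ≡ 2 [ZMOD (N ^ 2 : ℕ)]) :
    (P.card : ℝ) ≤ 12 * ((A : ℝ) ^ 2 / (N : ℝ) ^ 3 + (A : ℝ) / N + 1) := by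
  classical
  set B₁ := (Finset.Icc (-((2 * A : ℕ) : ℤ)) (2 * A : ℕ)).filter (fun x => x ≡ 2 [ZMOD (N ^ 2 : ℕ)]) with hB₁
  set B₂ := (Finset.Icc (-(A : ℤ)) A).filter (fun x => x ≡ 1 [ZMOD N]) with hB₂
  have h1 : P.card ≤ (B₁ ×ˢ B₂).card := by
    apply Finset.card_le_card_of_injOn (fun p => (p.1 + p.2, p.1))
    · intro p hp
      obtain ⟨ha, hb, hc, hd⟩ := hP p hp
      simp only [Finset.coe_product, Set.mem_prod, Finset.mem_coe, hB₁, hB₂, Finset.mem_filter]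
      refine ⟨⟨?_, hd⟩, ha, hc⟩
      rw [Finset.mem_Icc] at ha hb ⊢
      push_cast
      constructor <;> omega
    · intro p _ p' _ h
      simp only [Prod.mk.injEq] at h
      obtain ⟨h1, h2⟩ := h
      ext
      · exact h2
      · linarith
  have c1 := count_mod (2 * A) (N ^ 2) (by positivity) 2
  have c2 := count_mod A N hN 1
  rw [Finset.card_product] at h1
  have h2 : (P.card : ℝ) ≤ (B₁.card : ℝ) * (B₂.card : ℝ) := by exact_mod_cast h1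
  have hNR : (1 : ℝ) ≤ N := by exact_mod_cast hN
  have hA : (0 : ℝ) ≤ A := Nat.cast_nonneg A
  refine h2.trans ((mul_le_mul c1 c2 (by positivity) (by positivity)).trans ?_)
  push_cast
  have e1 : (A : ℝ) / (N : ℝ) ^ 2 ≤ A / N := by
    apply div_le_div_of_nonneg_left hA (by positivity)
    nlinarith
  have e2 : 2 * (2 * (A : ℝ) / (N : ℝ) ^ 2 + 1) * (2 * ((A : ℝ) / N + 1)) =
      8 * ((A : ℝ) ^ 2 / (N : ℝ) ^ 3) + 8 * (A / (N : ℝ) ^ 2) + 4 * (A / N) + 4 := by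
    field_simp; ring
  rw [e2]
  have e3 : 0 ≤ (A : ℝ) ^ 2 / (N : ℝ) ^ 3 := by positivity
  linarith

theorem count_bound (δ : ℝ) (hδ : 0 < δ) : ∃ K : ℝ, 0 < K ∧ ∀ N : ℕ, 0 < N → ∀ Y : ℝ, 1 ≤ Y →
    ∀ s : Finset SL(2, ℤ), (∀ γ ∈ s, γ ∈ Gamma N ∧ mnorm γ ≤ Y) →
      (s.card : ℝ) ≤ K * Y ^ δ * (Y ^ 2 / (N : ℝ) ^ 3 + Y / N + 1) := by
  classical
  obtain ⟨C, hC, hdiv⟩ := divisor_bound (δ / 2) (by positivity)
  refine ⟨24 * C * 2 ^ (δ / 2) + 8, by positivity, ?_⟩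
  intro N hN Y hY s hs
  set A := ⌊Y⌋₊ with hA
  have hAY : (A : ℝ) ≤ Y := Nat.floor_le (by linarith)
  have hNR : (1 : ℝ) ≤ N := by exact_mod_cast hN
  set P := s.image (fun γ : SL(2, ℤ) => (γ 0 0, γ 1 1)) with hP
  have hPc := card_pairs N A hN P (by
    intro p hp
    rw [hP, Finset.mem_image] at hp
    obtain ⟨γ, hγ, rfl⟩ := hp
    obtain ⟨hG, hle⟩ := hs γ hγ
    obtain ⟨m1, m2, m3, m4, m5⟩ := mod_facts hG
    obtain ⟨b1, b2, b3, b4⟩ := abs_le_mnorm γ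
    exact ⟨mem_Icc_floor (b1.trans hle), mem_Icc_floor (b4.trans hle), m1, m5⟩)
  have hPb : ∀ p ∈ P, |(p.1 : ℝ)| ≤ Y ∧ |(p.2 : ℝ)| ≤ Y := by
    intro p hp
    rw [hP, Finset.mem_image] at hp
    obtain ⟨γ, hγ, rfl⟩ := hp
    obtain ⟨hG, hle⟩ := hs γ hγ
    obtain ⟨b1, b2, b3, b4⟩ := abs_le_mnorm γ
    exact ⟨b1.trans hle, b4.trans hle⟩
  have hcard : s.card = ∑ p ∈ P, (s.filter (fun γ : SL(2, ℤ) => (γ 0 0, γ 1 1) = p)).card :=
    Finset.card_eq_sum_card_image _ _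
  have hfib : ∀ p ∈ P, ((s.filter (fun γ : SL(2, ℤ) => (γ 0 0, γ 1 1) = p)).card : ℝ) ≤
      2 * C * 2 ^ (δ / 2) * Y ^ δ + (if p.1 * p.2 = 1 then 4 * ((A : ℝ) / N + 1) else 0) := by
    intro p hp
    obtain ⟨hp1, hp2⟩ := hPb p hp
    by_cases had : p.1 * p.2 = 1
    · rw [if_pos had]
      have := fibre_eq N hN Y s hs p.1 p.2 had
      have h0 : (0 : ℝ) ≤ 2 * C * 2 ^ (δ / 2) * Y ^ δ := by positivity
      have e : (s.filter (fun γ : SL(2, ℤ) => (γ 0 0, γ 1 1) = p)) =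
        (s.filter (fun γ : SL(2, ℤ) => (γ 0 0, γ 1 1) = (p.1, p.2))) := rfl
      rw [e]; linarith
    · rw [if_neg had, add_zero]
      have h1 := fibre_ne s p.1 p.2 had
      have hne : (p.1 * p.2 - 1).natAbs ≠ 0 := by simpa using sub_ne_zero.mpr had
      have h2 := hdiv (p.1 * p.2 - 1).natAbs (Nat.one_le_iff_ne_zero.mpr hne)
      have h3 : (((p.1 * p.2 - 1).natAbs : ℕ) : ℝ) ≤ 2 * Y ^ 2 := by
        rw [Nat.cast_natAbs]; push_cast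
        calc |(p.1 : ℝ) * p.2 - 1| ≤ |(p.1 : ℝ) * p.2| + |(1 : ℝ)| := abs_sub _ _
          _ ≤ Y * Y + 1 := by
            rw [abs_mul, abs_one]
            gcongr
          _ ≤ 2 * Y ^ 2 := by nlinarith
      have h4 : (((p.1 * p.2 - 1).natAbs : ℕ) : ℝ) ^ (δ / 2) ≤ 2 ^ (δ / 2) * Y ^ δ := by
        calc (((p.1 * p.2 - 1).natAbs : ℕ) : ℝ) ^ (δ / 2) ≤ (2 * Y ^ 2) ^ (δ / 2) :=
              Real.rpow_le_rpow (by positivity) h3 (by positivity)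
          _ = 2 ^ (δ / 2) * Y ^ δ := by
              rw [Real.mul_rpow (by norm_num) (by positivity), ← Real.rpow_natCast Y 2,
                ← Real.rpow_mul (by linarith)]
              congr 2
              push_cast; ring
      have h5 : ((s.filter (fun γ : SL(2, ℤ) => (γ 0 0, γ 1 1) = p)).card : ℝ) ≤
          2 * ((p.1 * p.2 - 1).natAbs.divisors.card : ℝ) := by exact_mod_cast h1
      calc ((s.filter (fun γ : SL(2, ℤ) => (γ 0 0, γ 1 1) = p)).card : ℝ) ≤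
          2 * ((p.1 * p.2 - 1).natAbs.divisors.card : ℝ) := h5
        _ ≤ 2 * (C * (2 ^ (δ / 2) * Y ^ δ)) := by
          have := h2.trans (mul_le_mul_of_nonneg_left h4 hC.le)
          linarith
        _ = 2 * C * 2 ^ (δ / 2) * Y ^ δ := by ring
  have hsum : (s.card : ℝ) ≤ (P.card : ℝ) * (2 * C * 2 ^ (δ / 2) * Y ^ δ) + 8 * ((A : ℝ) / N + 1) := by
    rw [hcard]
    push_cast
    refine (Finset.sum_le_sum hfib).trans ?_
    rw [Finset.sum_add_distrib, Finset.sum_const, nsmul_eq_mul]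
    have h1 : ∑ p ∈ P, (if p.1 * p.2 = 1 then 4 * ((A : ℝ) / N + 1) else 0) ≤ 8 * ((A : ℝ) / N + 1) := by
      rw [← Finset.sum_filter, Finset.sum_const, nsmul_eq_mul]
      have h2 : (P.filter (fun p => p.1 * p.2 = 1)).card ≤ 2 := by
        have h3 : P.filter (fun p => p.1 * p.2 = 1) ⊆ {((1 : ℤ), (1 : ℤ)), (-1, -1)} := by
          intro p hp
          rw [Finset.mem_filter] at hp
          have := Int.mul_eq_one_iff_eq_one_or_neg_one.mp hp.2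
          rw [Finset.mem_insert, Finset.mem_singleton]
          rcases this with ⟨a, b⟩ | ⟨a, b⟩
          · left; exact Prod.ext a b
          · right; exact Prod.ext a b
        exact (Finset.card_le_card h3).trans (Finset.card_le_two)
      have h2' : ((P.filter (fun p => p.1 * p.2 = 1)).card : ℝ) ≤ 2 := by exact_mod_cast h2
      have h0 : (0 : ℝ) ≤ 4 * ((A : ℝ) / N + 1) := by positivity
      nlinarith
    linarith
  have hA0 : (0 : ℝ) ≤ A := Nat.cast_nonneg A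
  have hPc' : (P.card : ℝ) ≤ 12 * (Y ^ 2 / (N : ℝ) ^ 3 + Y / N + 1) := by
    refine hPc.trans ?_
    gcongr
  have hYd : 1 ≤ Y ^ δ := Real.one_le_rpow hY hδ.le
  have hq : 0 ≤ Y ^ 2 / (N : ℝ) ^ 3 := by positivity
  have hq2 : (A : ℝ) / N ≤ Y / N := by gcongr
  calc (s.card : ℝ) ≤ (P.card : ℝ) * (2 * C * 2 ^ (δ / 2) * Y ^ δ) + 8 * ((A : ℝ) / N + 1) := hsum
    _ ≤ (12 * (Y ^ 2 / (N : ℝ) ^ 3 + Y / N + 1)) * (2 * C * 2 ^ (δ / 2) * Y ^ δ) +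
        8 * (Y ^ δ * (Y ^ 2 / (N : ℝ) ^ 3 + Y / N + 1)) := by
      have h1 : (A : ℝ) / N + 1 ≤ Y ^ δ * (Y ^ 2 / (N : ℝ) ^ 3 + Y / N + 1) := by
        have : (A : ℝ) / N + 1 ≤ Y ^ 2 / (N : ℝ) ^ 3 + Y / N + 1 := by linarith
        refine this.trans ?_
        have h0 : 0 ≤ Y ^ 2 / (N : ℝ) ^ 3 + Y / N + 1 := by positivity
        nlinarith
      have h2 : (0 : ℝ) ≤ 2 * C * 2 ^ (δ / 2) * Y ^ δ := by positivity
      have := mul_le_mul_of_nonneg_right hPc' h2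
      linarith
    _ = (24 * C * 2 ^ (δ / 2) + 8) * Y ^ δ * (Y ^ 2 / (N : ℝ) ^ 3 + Y / N + 1) := by ring

end S6b

open S6b

/-- S6b: weighted counting of elements of `Γ(N)` -/
theorem weighted_count (ε : ℝ) (hε : 0 < ε) :
    ∃ C : ℝ, 0 < C ∧ ∀ N : ℕ, 1 ≤ N → ∀ X : ℝ, 1 ≤ X → ∀ s : Finset SL(2, ℤ),
      (∀ γ ∈ s, γ ∈ Gamma N ∧ mnorm γ ≤ X) →
      ∑ γ ∈ s, (mnorm γ)⁻¹ ≤ C * X ^ ε * (X / (N : ℝ) ^ 3 + 1) := by
  classical
  obtain ⟨K, hK, hcount⟩ := count_bound (ε / 2) (by positivity)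
  -- bound for the number of dyadic scales
  set c₁ : ℝ := 1 + 2 / ε / Real.log 2 with hc₁
  have hl2 : 0 < Real.log 2 := Real.log_pos (by norm_num)
  have hc₁pos : 0 < c₁ := by positivity
  refine ⟨16 * K * 2 ^ (ε / 2) * c₁, by positivity, ?_⟩
  intro N hN X hX s hs
  have hNR : (1 : ℝ) ≤ N := by exact_mod_cast hN
  set J := Nat.log 2 ⌊X⌋₊ with hJ
  have hfl1 : 1 ≤ ⌊X⌋₊ := Nat.le_floor (by simpa using hX)
  have hJX : (2 : ℝ) ^ J ≤ X := by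
    have h1 : 2 ^ J ≤ ⌊X⌋₊ := Nat.pow_log_le_self 2 (by omega)
    have h2 : ((2 ^ J : ℕ) : ℝ) ≤ ⌊X⌋₊ := by exact_mod_cast h1
    push_cast at h2
    exact h2.trans (Nat.floor_le (by linarith))
  let jj : SL(2, ℤ) → ℕ := fun γ => Nat.log 2 ⌊mnorm γ⌋₊
  have hjj : ∀ γ, (2 : ℝ) ^ (jj γ) ≤ mnorm γ ∧ mnorm γ < 2 ^ (jj γ + 1) := by
    intro γ
    have h1 := one_le_mnorm γ
    have hf : 1 ≤ ⌊mnorm γ⌋₊ := Nat.le_floor (by simpa using h1)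
    constructor
    · have h2 : 2 ^ (jj γ) ≤ ⌊mnorm γ⌋₊ := Nat.pow_log_le_self 2 (by omega)
      have h3 : ((2 ^ (jj γ) : ℕ) : ℝ) ≤ ⌊mnorm γ⌋₊ := by exact_mod_cast h2
      push_cast at h3
      exact h3.trans (Nat.floor_le (by linarith))
    · have h2 : ⌊mnorm γ⌋₊ < 2 ^ (jj γ + 1) := Nat.lt_pow_succ_log_self (by norm_num) _
      have h3 := (Nat.floor_lt (by linarith : 0 ≤ mnorm γ)).mp h2
      push_cast at h3
      exact h3
  have hmap : ∀ γ ∈ s, jj γ ∈ Finset.range (J + 1) := by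
    intro γ hγ
    rw [Finset.mem_range, Nat.lt_succ_iff]
    exact Nat.log_mono_right (Nat.floor_le_floor (hs γ hγ).2)
  rw [← Finset.sum_fiberwise_of_maps_to hmap]
  have hterm : ∀ j ∈ Finset.range (J + 1), ∑ γ ∈ s with jj γ = j, (mnorm γ)⁻¹ ≤
      8 * K * (2 ^ (ε / 2) * X ^ (ε / 2)) * ((2 : ℝ) ^ j / (N : ℝ) ^ 3 + 1) := by
    intro j hj
    rw [Finset.mem_range, Nat.lt_succ_iff] at hj
    have h1 : ∑ γ ∈ s with jj γ = j, (mnorm γ)⁻¹ ≤ ((s.filter (fun γ => jj γ = j)).card : ℝ) * ((2 : ℝ) ^ j)⁻¹ := by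
      rw [← nsmul_eq_mul]
      apply Finset.sum_le_card_nsmul
      intro γ hγ
      rw [Finset.mem_filter] at hγ
      have := (hjj γ).1
      rw [hγ.2] at this
      exact inv_anti₀ (by positivity) this
    have h2 := hcount N (by omega) (2 ^ (j + 1)) (one_le_pow₀ (by norm_num)) (s.filter (fun γ => jj γ = j)) (by
      intro γ hγ
      rw [Finset.mem_filter] at hγ
      have := (hjj γ).2
      rw [hγ.2] at this
      exact ⟨(hs γ hγ.1).1, this.le⟩)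
    have h3 : ((2 : ℝ) ^ (j + 1)) ^ (ε / 2) ≤ 2 ^ (ε / 2) * X ^ (ε / 2) := by
      rw [← Real.mul_rpow (by norm_num) (by linarith)]
      apply Real.rpow_le_rpow (by positivity) _ (by positivity)
      rw [pow_succ, mul_comm]
      have : (2 : ℝ) ^ j ≤ 2 ^ J := pow_le_pow_right₀ (by norm_num) hj
      linarith
    have h4 : (((2 : ℝ) ^ (j + 1)) ^ 2 / (N : ℝ) ^ 3 + (2 : ℝ) ^ (j + 1) / N + 1) * ((2 : ℝ) ^ j)⁻¹ ≤
        8 * ((2 : ℝ) ^ j / (N : ℝ) ^ 3 + 1) := by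
      have hj0 : (1 : ℝ) ≤ 2 ^ j := one_le_pow₀ (by norm_num)
      have e1 : (((2 : ℝ) ^ (j + 1)) ^ 2 / (N : ℝ) ^ 3 + (2 : ℝ) ^ (j + 1) / N + 1) * ((2 : ℝ) ^ j)⁻¹ =
          4 * ((2 : ℝ) ^ j / (N : ℝ) ^ 3) + 2 / N + ((2 : ℝ) ^ j)⁻¹ := by
        rw [pow_succ]; field_simp; ring
      rw [e1]
      have e2 : ((2 : ℝ) ^ j)⁻¹ ≤ 1 := inv_le_one_of_one_le₀ hj0
      have e3 : 2 / (N : ℝ) ≤ 2 := by
        rw [div_le_iff₀ (by linarith)]; linarith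
      have e4 : 0 ≤ (2 : ℝ) ^ j / (N : ℝ) ^ 3 := by positivity
      linarith
    have hq : 0 ≤ ((2 : ℝ) ^ (j + 1)) ^ 2 / (N : ℝ) ^ 3 + (2 : ℝ) ^ (j + 1) / N + 1 := by positivity
    calc ∑ γ ∈ s with jj γ = j, (mnorm γ)⁻¹
        ≤ ((s.filter (fun γ => jj γ = j)).card : ℝ) * ((2 : ℝ) ^ j)⁻¹ := h1
      _ ≤ (K * (2 ^ (ε / 2) * X ^ (ε / 2)) * (((2 : ℝ) ^ (j + 1)) ^ 2 / (N : ℝ) ^ 3 + (2 : ℝ) ^ (j + 1) / N + 1)) *
          ((2 : ℝ) ^ j)⁻¹ := by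
          apply mul_le_mul_of_nonneg_right _ (by positivity)
          refine h2.trans ?_
          apply mul_le_mul_of_nonneg_right _ hq
          exact mul_le_mul_of_nonneg_left h3 hK.le
      _ = K * (2 ^ (ε / 2) * X ^ (ε / 2)) * ((((2 : ℝ) ^ (j + 1)) ^ 2 / (N : ℝ) ^ 3 + (2 : ℝ) ^ (j + 1) / N + 1) *
          ((2 : ℝ) ^ j)⁻¹) := by ring
      _ ≤ K * (2 ^ (ε / 2) * X ^ (ε / 2)) * (8 * ((2 : ℝ) ^ j / (N : ℝ) ^ 3 + 1)) := by
          apply mul_le_mul_of_nonneg_left h4 (by positivity)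
      _ = 8 * K * (2 ^ (ε / 2) * X ^ (ε / 2)) * ((2 : ℝ) ^ j / (N : ℝ) ^ 3 + 1) := by ring
  refine (Finset.sum_le_sum hterm).trans ?_
  rw [← Finset.mul_sum, Finset.sum_add_distrib, ← Finset.sum_div, Finset.sum_const, Finset.card_range,
    nsmul_eq_mul, mul_one]
  have hgeom : ∑ j ∈ Finset.range (J + 1), (2 : ℝ) ^ j ≤ 2 * X := by
    rw [geom_sum_eq (by norm_num)]
    have : (2 : ℝ) ^ (J + 1) = 2 * 2 ^ J := by ring
    rw [this]
    have : (2 * (2 : ℝ) ^ J - 1) / (2 - 1) = 2 * 2 ^ J - 1 := by norm_num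
    rw [this]; linarith
  have hJc : ((J + 1 : ℕ) : ℝ) ≤ c₁ * X ^ (ε / 2) := by
    have h1 : (J : ℝ) * Real.log 2 ≤ Real.log X := by
      rw [← Real.log_pow]
      exact Real.log_le_log (by positivity) hJX
    have h2 : Real.log X ≤ X ^ (ε / 2) / (ε / 2) := Real.log_le_rpow_div (by linarith) (by positivity)
    have h3 : (J : ℝ) ≤ (2 / ε / Real.log 2) * X ^ (ε / 2) := by
      have h4 : (J : ℝ) ≤ (X ^ (ε / 2) / (ε / 2)) / Real.log 2 := by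
        rw [le_div_iff₀ hl2]; linarith
      have h5 : (X ^ (ε / 2) / (ε / 2)) / Real.log 2 = (2 / ε / Real.log 2) * X ^ (ε / 2) := by
        field_simp
      linarith
    have h6 : 1 ≤ X ^ (ε / 2) := Real.one_le_rpow hX (by positivity)
    push_cast
    rw [hc₁, add_mul, one_mul]
    linarith
  have hXε : X ^ ε = X ^ (ε / 2) * X ^ (ε / 2) := by
    rw [← Real.rpow_add (by linarith)]; congr 1; ring
  have h1 : 1 ≤ X ^ (ε / 2) := Real.one_le_rpow hX (by positivity)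
  have hc1 : 1 ≤ c₁ := by rw [hc₁]; have : 0 ≤ 2 / ε / Real.log 2 := by positivity
                          linarith
  have hfin : (∑ j ∈ Finset.range (J + 1), (2 : ℝ) ^ j) / (N : ℝ) ^ 3 + ((J + 1 : ℕ) : ℝ) ≤
      2 * c₁ * X ^ (ε / 2) * (X / (N : ℝ) ^ 3 + 1) := by
    have e1 : (∑ j ∈ Finset.range (J + 1), (2 : ℝ) ^ j) / (N : ℝ) ^ 3 ≤ 2 * (X / (N : ℝ) ^ 3) := by
      rw [← mul_div_assoc]
      gcongr
    have e2 : 0 ≤ X / (N : ℝ) ^ 3 := by positivity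
    have e3 : 1 ≤ c₁ * X ^ (ε / 2) := by nlinarith
    have e4 : X / (N : ℝ) ^ 3 ≤ (c₁ * X ^ (ε / 2)) * (X / (N : ℝ) ^ 3) := by nlinarith
    have e5 : 0 ≤ c₁ * X ^ (ε / 2) := by positivity
    calc _ ≤ 2 * (X / (N : ℝ) ^ 3) + c₁ * X ^ (ε / 2) := add_le_add e1 hJc
      _ ≤ 2 * ((c₁ * X ^ (ε / 2)) * (X / (N : ℝ) ^ 3)) + 2 * (c₁ * X ^ (ε / 2)) := by linarith
      _ = 2 * c₁ * X ^ (ε / 2) * (X / (N : ℝ) ^ 3 + 1) := by ring
  calc 8 * K * (2 ^ (ε / 2) * X ^ (ε / 2)) *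
        ((∑ j ∈ Finset.range (J + 1), (2 : ℝ) ^ j) / (N : ℝ) ^ 3 + ((J + 1 : ℕ) : ℝ))
      ≤ 8 * K * (2 ^ (ε / 2) * X ^ (ε / 2)) * (2 * c₁ * X ^ (ε / 2) * (X / (N : ℝ) ^ 3 + 1)) :=
        mul_le_mul_of_nonneg_left hfin (by positivity)
    _ = 16 * K * 2 ^ (ε / 2) * c₁ * X ^ ε * (X / (N : ℝ) ^ 3 + 1) := by rw [hXε]; ring

end Pool.Agent.H369R2
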