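import Pool.Agent.H369R2.PB
import Pool.Agent.H369R2.S6b

/-! # Bound for the trace kernel (helper806) -/

open UpperHalfPlane MeasureTheory Metric ModularGroup CongruenceSubgroup
open scoped MatrixGroups ENNReal Modular Topology NNReal ComplexConjugate

namespace Pool.Agent.H369R2

noncomputable section

namespace Trace

lemma TK_conj (N : ℕ) (R : ℝ) (m : ℕ) (γ : SL(2, ℤ)) (z : ℍ) :
    TK N R m (γ • z) = TK N R m z := by
  unfold TK
  rw [← (MulAut.conjNormal γ : MulAut (Gamma N)).toEquiv.tsum_eq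
    (fun δ : Gamma N => kk R m ((δ : SL(2, ℤ)) • γ • z) (γ • z))]
  congr 1
  ext δ
  have h : ((((MulAut.conjNormal γ : MulAut (Gamma N)).toEquiv δ : Gamma N) : SL(2, ℤ))) =
      γ * (δ : SL(2, ℤ)) * γ⁻¹ := MulAut.conjNormal_apply γ δ
  simp only [h]
  rw [← mul_smul, inv_mul_cancel_right, mul_smul, kk_smul]

lemma self_le_cosh {x : ℝ} (hx : 0 ≤ x) : x ≤ Real.cosh x := by
  have h1 := Real.quadratic_le_exp_of_nonneg hx
  have h2 := Real.exp_pos (-x)
  rw [Real.cosh_eq]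
  nlinarith [sq_nonneg (x - 1)]

lemma dist_I_le {Y : ℝ} {z : ℍ} (hz : z ∈ (𝒟 : Set ℍ)) (hY : z.im ≤ Y) :
    dist z I ≤ 2 + (|Y| + 1) ^ 2 := by
  have h1 := three_le_four_mul_im_sq_of_mem_fd hz
  have h2 : |z.re| ≤ 1 / 2 := hz.2
  have him := z.im_pos
  have h3 : 1 / 2 ≤ z.im := by nlinarith
  refine (self_le_cosh dist_nonneg).trans ?_
  rw [cosh_dist]
  have h4 : dist (z : ℂ) ((I : ℍ) : ℂ) ^ 2 = z.re ^ 2 + (z.im - 1) ^ 2 := by
    rw [Complex.dist_eq, Complex.sq_norm, Complex.normSq_apply]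
    simp
    ring
  rw [h4, I_im, mul_one]
  have h5 : z.re ^ 2 ≤ 1 / 4 := by
    rw [← sq_abs]
    nlinarith [abs_nonneg z.re]
  have h6 : (z.im - 1) ^ 2 ≤ (|Y| + 1) ^ 2 := by
    have h7 : |z.im - 1| ≤ |Y| + 1 := by
      rw [abs_le]
      constructor
      · linarith [abs_nonneg Y]
      · linarith [le_abs_self Y]
    rw [← sq_abs (z.im - 1)]
    exact pow_le_pow_left₀ (abs_nonneg _) h7 2
  have h8 : (z.re ^ 2 + (z.im - 1) ^ 2) / (2 * z.im) ≤ z.re ^ 2 + (z.im - 1) ^ 2 := by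
    apply div_le_self (by positivity)
    linarith
  linarith

lemma two_cosh (δ : SL(2, ℤ)) : 2 * Real.cosh (dist (δ • (I : ℍ)) I) = mnorm δ ^ 2 := by
  have hdet := Matrix.SpecialLinearGroup.det_coe δ
  rw [Matrix.det_fin_two] at hdet
  set a : ℤ := δ 0 0
  set b : ℤ := δ 0 1
  set c : ℤ := δ 1 0
  set d : ℤ := δ 1 1
  have hdet' : (a : ℝ) * d - b * c = 1 := by exact_mod_cast hdet
  have hmn : mnorm δ ^ 2 = (a : ℝ) ^ 2 + (b : ℝ) ^ 2 + (c : ℝ) ^ 2 + (d : ℝ) ^ 2 := by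
    unfold mnorm
    rw [Real.sq_sqrt (by positivity)]
  rw [hmn, cosh_dist]
  have hcd : 0 < (c : ℝ) ^ 2 + (d : ℝ) ^ 2 := by
    by_contra hc
    push Not at hc
    have h1 : (c : ℝ) = 0 := by nlinarith [sq_nonneg (c : ℝ), sq_nonneg (d : ℝ)]
    have h2 : (d : ℝ) = 0 := by nlinarith [sq_nonneg (c : ℝ), sq_nonneg (d : ℝ)]
    rw [h1, h2] at hdet'
    norm_num at hdet'
  have hden : Complex.normSq ((c : ℂ) * Complex.I + (d : ℂ)) = (c : ℝ) ^ 2 + (d : ℝ) ^ 2 := by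
    rw [Complex.normSq_apply]
    simp
    ring
  have hne : (c : ℂ) * Complex.I + (d : ℂ) ≠ 0 := by
    intro h
    rw [h, map_zero] at hden
    linarith
  have him : (δ • (I : ℍ)).im = 1 / ((c : ℝ) ^ 2 + (d : ℝ) ^ 2) := by
    rw [ModularGroup.im_smul_eq_div_normSq, ModularGroup.denom_apply, I_im]
    congr 1
  have hcoe : ((δ • (I : ℍ) : ℍ) : ℂ) = ((a : ℂ) * Complex.I + b) / ((c : ℂ) * Complex.I + d) := by
    have := coe_specialLinearGroup_apply (δ : SL(2, ℤ)) (I : ℍ)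
    simpa using this
  have hdist : dist ((δ • (I : ℍ) : ℍ) : ℂ) ((I : ℍ) : ℂ) ^ 2 =
      (((b : ℝ) + c) ^ 2 + ((a : ℝ) - d) ^ 2) / ((c : ℝ) ^ 2 + (d : ℝ) ^ 2) := by
    have e1 : ((δ • (I : ℍ) : ℍ) : ℂ) - ((I : ℍ) : ℂ) =
        (((b : ℝ) + c : ℝ) + (((a : ℝ) - d : ℝ)) * Complex.I) / ((c : ℂ) * Complex.I + d) := by
      rw [hcoe, coe_I, div_sub' hne]
      congr 1
      push_cast
      linear_combination (-(c : ℂ)) * Complex.I_mul_I
    rw [Complex.dist_eq, e1, Complex.sq_norm, map_div₀, hden, Complex.normSq_add_mul_I]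
  rw [hdist, him, I_im]
  field_simp
  nlinarith

lemma mnorm_pos' (δ : SL(2, ℤ)) : 0 < mnorm δ := lt_of_lt_of_le one_pos (S6b.one_le_mnorm δ)

/-- `mnorm² ≤ 2 e^D` and `e^{D} ≤ mnorm²`. -/
lemma exp_half_le (δ : SL(2, ℤ)) :
    Real.exp (-(dist (δ • (I : ℍ)) I / 2)) ≤ √2 / mnorm δ := by
  have h1 := two_cosh δ
  set D := dist (δ • (I : ℍ)) I with hD
  have hD0 : 0 ≤ D := dist_nonneg
  have h2 : mnorm δ ^ 2 ≤ 2 * Real.exp D := by
    rw [← h1, Real.cosh_eq]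
    have : Real.exp (-D) ≤ Real.exp D := Real.exp_le_exp.2 (by linarith)
    linarith
  have hm := mnorm_pos' δ
  rw [le_div_iff₀ hm]
  have h3 : (Real.exp (-(D / 2)) * mnorm δ) ^ 2 ≤ 2 := by
    rw [mul_pow, ← Real.exp_nat_mul]
    calc Real.exp (((2 : ℕ) : ℝ) * -(D / 2)) * mnorm δ ^ 2
        ≤ Real.exp (((2 : ℕ) : ℝ) * -(D / 2)) * (2 * Real.exp D) := by gcongr
      _ = 2 * (Real.exp (((2 : ℕ) : ℝ) * -(D / 2)) * Real.exp D) := by ring
      _ = 2 := by
        rw [← Real.exp_add]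
        have : ((2 : ℕ) : ℝ) * -(D / 2) + D = 0 := by push_cast; ring
        rw [this, Real.exp_zero, mul_one]
  exact Real.le_sqrt_of_sq_le h3

lemma mnorm_le (δ : SL(2, ℤ)) : mnorm δ ≤ √2 * Real.exp (dist (δ • (I : ℍ)) I / 2) := by
  have h := exp_half_le δ
  have hm := mnorm_pos' δ
  rw [le_div_iff₀ hm, Real.exp_neg, inv_mul_le_iff₀ (Real.exp_pos _)] at h
  linarith

end Trace

open Trace in
/-- for `z` in the compact part -/
theorem TK_le (ε : ℝ) (hε : 0 < ε) {R : ℝ} (hR : 0 < R) (Y : ℝ) :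
    ∃ C : ℝ, 1 ≤ C ∧ ∀ N : ℕ, 1 ≤ N → ∀ m : ℕ, ∀ z : ℍ, z ∉ cuspRegion Y → ∀ X : ℝ,
      X = C * Real.exp ((m + 2) * (R / 2)) →
      TK N R (m + 1) z ≤ ENNReal.ofReal (C * X ^ ε * (X / (N : ℝ) ^ 3 + 1)) * rhoE R ^ (m + 1) := by
  classical
  obtain ⟨Cw, hCw, hcount⟩ := weighted_count ε hε
  set r₀ : ℝ := 2 + (|Y| + 1) ^ 2 with hr₀
  have hr0 : 0 ≤ r₀ := by positivity
  set K : ℝ := (bv R)⁻¹ * Real.exp (R / 2) * (Real.exp r₀ * √2) with hK
  have hbv := bv_pos hR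
  have hK0 : 0 < K := by positivity
  refine ⟨max 1 (max (√2 * Real.exp r₀) (K * Cw)), le_max_left _ _, ?_⟩
  set C : ℝ := max 1 (max (√2 * Real.exp r₀) (K * Cw)) with hC
  have hC1 : 1 ≤ C := le_max_left _ _
  have hC2 : √2 * Real.exp r₀ ≤ C := (le_max_left _ _).trans (le_max_right _ _)
  have hC3 : K * Cw ≤ C := (le_max_right _ _).trans (le_max_right _ _)
  intro N hN m z hz X hX
  have hX1 : 1 ≤ X := by
    rw [hX]
    have : 1 ≤ Real.exp ((m + 2) * (R / 2)) := Real.one_le_exp (by positivity)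
    nlinarith
  -- reduction to the fundamental domain
  obtain ⟨γ, hγ⟩ := exists_smul_mem_fd z
  rw [← TK_conj N R (m + 1) γ z]
  have hY : (γ • z).im ≤ Y := by
    by_contra hc
    push Not at hc
    exact hz ⟨γ, hc⟩
  set z' := γ • z with hz'
  have hdI : dist z' I ≤ r₀ := dist_I_le hγ hY
  -- comparison of distances
  have hd1 : ∀ δ : SL(2, ℤ), dist (δ • (I : ℍ)) I ≤ dist z' (δ • z') + 2 * r₀ := by
    intro δ
    have t1 := dist_triangle (δ • (I : ℍ)) (δ • z') I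
    have t2 := dist_triangle (δ • z') z' I
    rw [dist_smul_int, dist_comm (I : ℍ) z'] at t1
    rw [dist_comm (δ • z') z'] at t2
    linarith
  have hterm : ∀ δ : SL(2, ℤ), kk R (m + 1) (δ • z') z' ≤
      (if mnorm δ ≤ X then ENNReal.ofReal (K * (mnorm δ)⁻¹) else 0) * rhoE R ^ (m + 1) := by
    intro δ
    have hm := mnorm_pos' δ
    split_ifs with hδ
    · refine (kk_le hR m (δ • z') z').trans ?_
      have e1 : Real.exp (-(dist z' (δ • z') / 2)) ≤ Real.exp r₀ * (√2 / mnorm δ) := by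
        calc Real.exp (-(dist z' (δ • z') / 2))
            ≤ Real.exp (r₀ + -(dist (δ • (I : ℍ)) I / 2)) := by
              apply Real.exp_le_exp.2
              linarith [hd1 δ]
          _ = Real.exp r₀ * Real.exp (-(dist (δ • (I : ℍ)) I / 2)) := Real.exp_add _ _
          _ ≤ Real.exp r₀ * (√2 / mnorm δ) := by
              gcongr
              exact exp_half_le δ
      calc (ENNReal.ofReal (bv R))⁻¹ * ENNReal.ofReal (Real.exp (R / 2)) * rhoE R ^ (m + 1) *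
            ENNReal.ofReal (Real.exp (-(dist z' (δ • z') / 2)))
          ≤ (ENNReal.ofReal (bv R))⁻¹ * ENNReal.ofReal (Real.exp (R / 2)) * rhoE R ^ (m + 1) *
            ENNReal.ofReal (Real.exp r₀ * (√2 / mnorm δ)) := by
              gcongr
        _ = ENNReal.ofReal (K * (mnorm δ)⁻¹) * rhoE R ^ (m + 1) := by
              have : K * (mnorm δ)⁻¹ = (bv R)⁻¹ * Real.exp (R / 2) * (Real.exp r₀ * (√2 / mnorm δ)) := by
                rw [hK]; ring
              rw [this, ENNReal.ofReal_mul (p := (bv R)⁻¹ * Real.exp (R / 2)) (by positivity),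
                ENNReal.ofReal_mul (p := (bv R)⁻¹) (by positivity),
                ENNReal.ofReal_inv_of_pos hbv]
              ring
    · rw [kk_eq_zero hR (m + 1) (δ • z') z', zero_mul]
      by_contra hc
      push Not at hc
      apply hδ
      refine (mnorm_le δ).trans ?_
      have e2 : dist (δ • (I : ℍ)) I / 2 ≤ r₀ + (m + 2) * (R / 2) := by
        have := hd1 δ
        push_cast at hc
        linarith
      calc √2 * Real.exp (dist (δ • (I : ℍ)) I / 2)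
          ≤ √2 * Real.exp (r₀ + (m + 2) * (R / 2)) := by gcongr
        _ = √2 * Real.exp r₀ * Real.exp ((m + 2) * (R / 2)) := by rw [Real.exp_add]; ring
        _ ≤ C * Real.exp ((m + 2) * (R / 2)) := by gcongr
        _ = X := hX.symm
  unfold TK
  rw [ENNReal.tsum_eq_iSup_sum]
  refine iSup_le fun s => ?_
  calc ∑ δ ∈ s, kk R (m + 1) ((δ : SL(2, ℤ)) • z') z'
      ≤ ∑ δ ∈ s, (if mnorm (δ : SL(2, ℤ)) ≤ X then
          ENNReal.ofReal (K * (mnorm (δ : SL(2, ℤ)))⁻¹) else 0) * rhoE R ^ (m + 1) :=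
        Finset.sum_le_sum fun δ _ => hterm δ
    _ = (∑ δ ∈ s, (if mnorm (δ : SL(2, ℤ)) ≤ X then
          ENNReal.ofReal (K * (mnorm (δ : SL(2, ℤ)))⁻¹) else 0)) * rhoE R ^ (m + 1) := by
        rw [Finset.sum_mul]
    _ ≤ ENNReal.ofReal (C * X ^ ε * (X / (N : ℝ) ^ 3 + 1)) * rhoE R ^ (m + 1) := by
        gcongr
        rw [← Finset.sum_filter]
        set t : Finset SL(2, ℤ) := (s.filter fun δ : Gamma N => mnorm (δ : SL(2, ℤ)) ≤ X).map
          (Function.Embedding.subtype _) with ht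
        have e3 : ∑ δ ∈ s.filter (fun δ : Gamma N => mnorm (δ : SL(2, ℤ)) ≤ X),
            ENNReal.ofReal (K * (mnorm (δ : SL(2, ℤ)))⁻¹) =
            ∑ δ ∈ t, ENNReal.ofReal (K * (mnorm δ)⁻¹) := by
          rw [ht, Finset.sum_map]
          rfl
        rw [e3, ← ENNReal.ofReal_sum_of_nonneg (fun δ _ => by
          have := mnorm_pos' δ
          positivity)]
        apply ENNReal.ofReal_le_ofReal
        rw [← Finset.mul_sum]
        have h5 := hcount N hN X hX1 t (by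
          intro δ hδ
          rw [ht, Finset.mem_map] at hδ
          obtain ⟨δ', hδ', rfl⟩ := hδ
          rw [Finset.mem_filter] at hδ'
          exact ⟨δ'.2, hδ'.2⟩)
        calc K * ∑ δ ∈ t, (mnorm δ)⁻¹ ≤ K * (Cw * X ^ ε * (X / (N : ℝ) ^ 3 + 1)) := by gcongr
          _ = (K * Cw) * X ^ ε * (X / (N : ℝ) ^ 3 + 1) := by ring
          _ ≤ C * X ^ ε * (X / (N : ℝ) ^ 3 + 1) := by
            gcongr

end

end Pool.Agent.H369R2
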