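import Pool.Agent.H369R2.NewGapA
import Pool.Agent.H369R2.Trace
import Pool.Agent.H369R2.Abs1
import Pool.Agent.H369R2.Abs3
import Pool.Agent.H369R2.S6c
import Pool.Agent.H369R2.S6d

/-! # The gap on new functions of large level -/

open UpperHalfPlane MeasureTheory Metric ModularGroup CongruenceSubgroup
open scoped MatrixGroups ENNReal Modular Topology NNReal ComplexConjugate

namespace Pool.Agent.H369R2

noncomputable section

lemma new_gap_numeric {C V s : ℝ} (hC : 1 ≤ C) (hV : 0 ≤ V) {n : ℕ}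
    (hn1 : 3 * s ≤ 250 * (n + 1)) (hn2 : 250 * ((n : ℝ) + 1) ≤ 3 * s + 250) {M : ℝ}
    (hM : M = Real.exp s) {X : ℝ} (hX : X = C * Real.exp (250 * (n + 1))) {l : ℝ} (hl : 1 / 2 ≤ l)
    {d : ℝ} (hd0 : 0 ≤ d)
    (h : d * (l ^ (2 * n + 2) / 4) ≤ M ^ 3 * V * ((C * X ^ (1 / 10 : ℝ) * (X / M ^ 3 + 1)) *
      (46 * 250 * Real.exp (-(250 / 2))) ^ (2 * n + 1))) :
    d ≤ (4 * V * C * Real.exp ((Real.log C + 250) / 10) * (C * Real.exp 250 + 1) * Real.exp 40 *
      Real.exp 125) * Real.exp (0.78 * s) := by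
  have hC0 : 0 < C := by linarith
  have hM3 : M ^ 3 = Real.exp (3 * s) := by
    rw [hM, ← Real.exp_nat_mul]; norm_num
  -- the single estimates
  have e1 : X ^ (1 / 10 : ℝ) ≤ Real.exp ((Real.log C + 250) / 10) * Real.exp (0.3 * s) := by
    have hX0 : 0 < X := by rw [hX]; positivity
    rw [Real.rpow_def_of_pos hX0, ← Real.exp_add]
    apply Real.exp_le_exp.2
    rw [hX, Real.log_mul hC0.ne' (Real.exp_pos _).ne', Real.log_exp]
    linarith
  have e2 : X / M ^ 3 + 1 ≤ C * Real.exp 250 + 1 := by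
    have h1 : X / M ^ 3 = C * Real.exp (250 * (n + 1) - 3 * s) := by
      rw [hX, hM3, Real.exp_sub]; ring
    rw [h1]
    have h2 : Real.exp (250 * (n + 1) - 3 * s) ≤ Real.exp 250 := Real.exp_le_exp.2 (by linarith)
    nlinarith
  have e3 : M ^ 3 * (46 * 250 * Real.exp (-(250 / 2))) ^ (2 * n + 1) * 4 ^ (n + 1) ≤
      Real.exp 125 * (Real.exp 40 * Real.exp (0.48 * s)) := by
    have h1 : (46 * 250 * Real.exp (-(250 / 2)) : ℝ) ^ (2 * n + 1) =
        11500 ^ (2 * n + 1) * Real.exp (-(250 * (n + 1)) + 125) := by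
      rw [mul_pow, ← Real.exp_nat_mul]
      congr 1
      · norm_num
      · congr 1; push_cast; ring
    have h2 : (11500 : ℝ) ^ (2 * n + 1) * 4 ^ (n + 1) ≤ Real.exp 40 * Real.exp (0.48 * s) := by
      calc (11500 : ℝ) ^ (2 * n + 1) * 4 ^ (n + 1) ≤ 11500 ^ (2 * (n + 1)) * 4 ^ (n + 1) := by
            gcongr
            · norm_num
            · omega
        _ = (11500 ^ 2 * 4) ^ (n + 1) := by rw [pow_mul, mul_pow]
        _ ≤ (Real.exp 40) ^ (n + 1) := by
            gcongr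
            have h3 : (2 : ℝ) ≤ Real.exp 1 := by
              have := Real.add_one_le_exp (1 : ℝ); linarith
            calc (11500 ^ 2 * 4 : ℝ) ≤ 2 ^ 40 := by norm_num
              _ ≤ (Real.exp 1) ^ 40 := by gcongr
              _ = Real.exp 40 := by rw [← Real.exp_nat_mul]; norm_num
        _ = Real.exp (40 * (n + 1)) := by
            rw [← Real.exp_nat_mul]; congr 1; push_cast; ring
        _ ≤ Real.exp (40 + 0.48 * s) := Real.exp_le_exp.2 (by linarith)
        _ = _ := Real.exp_add _ _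
    have h4 : M ^ 3 * Real.exp (-(250 * (n + 1)) + 125) ≤ Real.exp 125 := by
      rw [hM3, ← Real.exp_add]
      exact Real.exp_le_exp.2 (by linarith)
    calc M ^ 3 * (46 * 250 * Real.exp (-(250 / 2))) ^ (2 * n + 1) * 4 ^ (n + 1)
        = (M ^ 3 * Real.exp (-(250 * (n + 1)) + 125)) * (11500 ^ (2 * n + 1) * 4 ^ (n + 1)) := by
          rw [h1]; ring
      _ ≤ Real.exp 125 * (Real.exp 40 * Real.exp (0.48 * s)) := by gcongr
  have e4 : d ≤ d * (l ^ (2 * n + 2) / 4) * (4 * 4 ^ (n + 1)) := by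
    have h1 : (1 : ℝ) ≤ (l ^ (2 * n + 2) / 4) * (4 * 4 ^ (n + 1)) := by
      have h2 : (1 / 4 : ℝ) ^ (n + 1) ≤ l ^ (2 * n + 2) := by
        calc (1 / 4 : ℝ) ^ (n + 1) = (1 / 2) ^ (2 * n + 2) := by
              rw [show 2 * n + 2 = 2 * (n + 1) by ring, pow_mul]; norm_num
          _ ≤ _ := by gcongr
      have h3 : (1 / 4 : ℝ) ^ (n + 1) * 4 ^ (n + 1) = 1 := by rw [← mul_pow]; norm_num
      calc (1 : ℝ) = (1 / 4 : ℝ) ^ (n + 1) * 4 ^ (n + 1) := h3.symm
        _ ≤ l ^ (2 * n + 2) * 4 ^ (n + 1) := by gcongr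
        _ = _ := by ring
    calc d = d * 1 := (mul_one d).symm
      _ ≤ d * ((l ^ (2 * n + 2) / 4) * (4 * 4 ^ (n + 1))) := by gcongr
      _ = _ := by ring
  have hX1 : 0 ≤ X ^ (1 / 10 : ℝ) := Real.rpow_nonneg (by rw [hX]; positivity) _
  have hM0 : 0 ≤ M := by rw [hM]; positivity
  have hX2 : 0 ≤ X / M ^ 3 + 1 := by
    have : 0 ≤ X := by rw [hX]; positivity
    positivity
  calc d ≤ d * (l ^ (2 * n + 2) / 4) * (4 * 4 ^ (n + 1)) := e4
    _ ≤ (M ^ 3 * V * ((C * X ^ (1 / 10 : ℝ) * (X / M ^ 3 + 1)) *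
      (46 * 250 * Real.exp (-(250 / 2))) ^ (2 * n + 1))) * (4 * 4 ^ (n + 1)) := by gcongr
    _ = 4 * V * C * (X ^ (1 / 10 : ℝ)) * (X / M ^ 3 + 1) *
      (M ^ 3 * (46 * 250 * Real.exp (-(250 / 2))) ^ (2 * n + 1) * 4 ^ (n + 1)) := by ring
    _ ≤ 4 * V * C * (Real.exp ((Real.log C + 250) / 10) * Real.exp (0.3 * s)) *
      (C * Real.exp 250 + 1) * (Real.exp 125 * (Real.exp 40 * Real.exp (0.48 * s))) := by
        gcongr
    _ = (4 * V * C * Real.exp ((Real.log C + 250) / 10) * (C * Real.exp 250 + 1) * Real.exp 40 *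
      Real.exp 125) * (Real.exp (0.3 * s) * Real.exp (0.48 * s)) := by ring
    _ = _ := by
        rw [← Real.exp_add]
        congr 2
        ring

/-- the space of new functions -/
def newSpace (N : ℕ) : Submodule ℂ (BN N) where
  carrier := {u | ∀ p, p.Prime → p ∣ N → avg (act N) (HN (N / p) N) u = 0}
  add_mem' := by
    intro u v hu hv p hp hpN
    rw [map_add, hu p hp hpN, hv p hp hpN, add_zero]
  zero_mem' := by
    intro p _ _
    rw [map_zero]
  smul_mem' := by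
    intro c u hu p hp hpN
    rw [map_smul, hu p hp hpN, smul_zero]

theorem new_gap : ∃ N₀ : ℕ, ∀ N : ℕ, N₀ ≤ N → ∀ _ : NeZero N, ∀ u : BN N,
    (∀ p, p.Prime → p ∣ N → avg (act N) (HN (N / p) N) u = 0) →
    (inner ℂ (AL N 250 u) u).re ≤ (1 / 2) * ‖u‖ ^ 2 := by
  obtain ⟨c₁, hc₁, hsq⟩ := many_squares (1 / 10) (by norm_num)
  obtain ⟨C, hC, hTK⟩ := TK_le (1 / 10) (by norm_num) (R := 250) (by norm_num) (Real.exp 250)
  set V : ℝ := (volume (𝒟ᵒ : Set ℍ)).toReal with hV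
  have hV0 : 0 ≤ V := ENNReal.toReal_nonneg
  set K : ℝ := 4 * V * C * Real.exp ((Real.log C + 250) / 10) * (C * Real.exp 250 + 1) *
    Real.exp 40 * Real.exp 125 with hK
  have hK0 : 0 ≤ K := by rw [hK]; positivity
  refine ⟨⌈Real.exp (Real.log (K / c₁ + 1) / 0.12)⌉₊ + 2, fun N hN hNZ u hu => ?_⟩
  by_contra hcon
  rw [not_le] at hcon
  have hN0 : N ≠ 0 := NeZero.ne N
  have hN2 : 2 ≤ N := by omega
  have hNR : (0 : ℝ) < N := by exact_mod_cast Nat.pos_of_ne_zero hN0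
  have hfin : Finite (GN N) := by
    have : (Gamma N).FiniteIndex := by infer_instance
    infer_instance
  -- approximate eigenvectors
  obtain ⟨l, hl, hl1, w, hw, hlim⟩ := approx_eig (AL N 250) (AL_symm (by norm_num))
    (AL_norm_le (by norm_num)) (newSpace N) (by
      intro v hv p hp hpN
      rw [avg_comm_of_comm _ _ _ (act_AL N 250), hv p hp hpN, map_zero]) (1 / 2) (by norm_num)
    ⟨u, hu, hcon⟩
  have hmult := multiplicity N (act N) act_norm (AL N 250) (act_AL N 250) l w (fun n => (hw n).2)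
    (fun p hp hpN n => (hw n).1 p hp hpN) hlim
  set d : ℕ := (Set.range fun u : (ZMod N)ˣ => ((u ^ 2 : (ZMod N)ˣ) : ZMod N)).ncard with hd
  -- the parameters
  set s : ℝ := Real.log N with hs
  have hs0 : 0 < s := Real.log_pos (by exact_mod_cast hN2)
  obtain ⟨n, hn1, hn2⟩ : ∃ n : ℕ, 3 * s ≤ 250 * ((n : ℝ) + 1) ∧ 250 * ((n : ℝ) + 1) ≤ 3 * s + 250 := by
    refine ⟨⌊3 * s / 250⌋₊, ?_, ?_⟩
    · have := Nat.lt_floor_add_one (3 * s / 250)
      linarith
    · have := Nat.floor_le (a := 3 * s / 250) (by positivity)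
      linarith
  have hMs : (N : ℝ) = Real.exp s := (Real.exp_log hNR).symm
  -- the trace inequality
  set X : ℝ := C * Real.exp (250 * (n + 1)) with hX
  have hXX : X = C * Real.exp ((((2 * n : ℕ) : ℝ) + 2) * (250 / 2)) := by
    rw [hX]; congr 2; push_cast; ring
  have htr := trace_ineq (N := N) (R := 250) le_rfl n l hl.le hl1
    (ENNReal.ofReal (C * X ^ (1 / 10 : ℝ) * (X / (N : ℝ) ^ 3 + 1)) * rhoE 250 ^ (2 * n + 1))
    (fun z hz => hTK N (by omega) (2 * n) z hz X hXX) d hmult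
  have hX0 : 0 < X := by rw [hX]; positivity
  have hX1 : 0 ≤ X ^ (1 / 10 : ℝ) := Real.rpow_nonneg hX0.le _
  have hmain : (d : ℝ) * (l ^ (2 * n + 2) / 4) ≤ (N : ℝ) ^ 3 * V *
      ((C * X ^ (1 / 10 : ℝ) * (X / (N : ℝ) ^ 3 + 1)) *
      (46 * 250 * Real.exp (-(250 / 2))) ^ (2 * n + 1)) := by
    have h1 : nu N Set.univ ≤ ENNReal.ofReal ((N : ℝ) ^ 3 * V) := by
      rw [nu_univ N hN0, ENNReal.ofReal_mul (by positivity), hV,
        ENNReal.ofReal_toReal volume_fdo.1]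
      gcongr
      rw [ENNReal.ofReal_pow (by positivity), ENNReal.ofReal_natCast]
      exact_mod_cast index_Gamma_le N hN0
    have h2 : rhoE 250 ^ (2 * n + 1) ≤
        ENNReal.ofReal ((46 * 250 * Real.exp (-(250 / 2))) ^ (2 * n + 1)) := by
      rw [ENNReal.ofReal_pow (by positivity)]
      gcongr
      exact rhoE_le (by norm_num)
    have h3 : (d : ℝ≥0∞) * ENNReal.ofReal (l ^ (2 * n + 2) / 4) =
        ENNReal.ofReal ((d : ℝ) * (l ^ (2 * n + 2) / 4)) := by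
      rw [ENNReal.ofReal_mul (by positivity), ENNReal.ofReal_natCast]
    rw [h3] at htr
    have h4 : nu N Set.univ * (ENNReal.ofReal (C * X ^ (1 / 10 : ℝ) * (X / (N : ℝ) ^ 3 + 1)) *
        rhoE 250 ^ (2 * n + 1)) ≤ ENNReal.ofReal ((N : ℝ) ^ 3 * V *
      ((C * X ^ (1 / 10 : ℝ) * (X / (N : ℝ) ^ 3 + 1)) *
      (46 * 250 * Real.exp (-(250 / 2))) ^ (2 * n + 1))) := by
      have h5 : ∀ p q r : ℝ, 0 ≤ p → 0 ≤ q → ENNReal.ofReal (p * (q * r)) =
          ENNReal.ofReal p * (ENNReal.ofReal q * ENNReal.ofReal r) := by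
        intro p q r hp hq
        rw [ENNReal.ofReal_mul hp, ENNReal.ofReal_mul hq]
      rw [h5 _ _ _ (by positivity) (by positivity)]
      gcongr
    exact (ENNReal.ofReal_le_ofReal_iff (by positivity)).1 (htr.trans h4)
  have hfinal := new_gap_numeric hC hV0 hn1 hn2 hMs hX hl.le (Nat.cast_nonneg d) hmain
  rw [← hK] at hfinal
  have hlow := hsq N hNZ
  rw [← hd] at hlow
  have h5 : (N : ℝ) ^ (1 - 1 / 10 : ℝ) = Real.exp (0.12 * s) * Real.exp (0.78 * s) := by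
    rw [Real.rpow_def_of_pos hNR, ← Real.exp_add]
    congr 1
    rw [← hs]; ring
  rw [h5] at hlow
  have h6 : c₁ * Real.exp (0.12 * s) ≤ K := by
    have h7 : c₁ * Real.exp (0.12 * s) * Real.exp (0.78 * s) ≤ K * Real.exp (0.78 * s) := by
      linarith
    exact le_of_mul_le_mul_right h7 (Real.exp_pos _)
  have h7 : K / c₁ + 1 ≤ Real.exp (0.12 * s) := by
    have h8 : Real.exp (Real.log (K / c₁ + 1) / 0.12) ≤ N := by
      refine (Nat.le_ceil _).trans ?_
      exact_mod_cast (by omega : ⌈Real.exp (Real.log (K / c₁ + 1) / 0.12)⌉₊ ≤ N)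
    have h9 : Real.log (K / c₁ + 1) / 0.12 ≤ s := by
      rw [hs, Real.le_log_iff_exp_le hNR]; exact h8
    rw [div_le_iff₀ (by norm_num)] at h9
    rw [← Real.exp_log (show 0 < K / c₁ + 1 by positivity)]
    exact Real.exp_le_exp.2 (by linarith)
  have h8 : c₁ * (K / c₁ + 1) ≤ K := (by gcongr : c₁ * (K / c₁ + 1) ≤ c₁ * Real.exp (0.12 * s)).trans h6
  have h9 : c₁ * (K / c₁ + 1) = K + c₁ := by field_simp
  linarith

end

end Pool.Agent.H369R2
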