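import Pool.Agent.H369R2.PB
import Pool.Agent.H369R2.Cusp

/-! # The trace inequality -/

open UpperHalfPlane MeasureTheory Metric ModularGroup CongruenceSubgroup
open scoped MatrixGroups ENNReal Modular Topology NNReal ComplexConjugate

namespace Pool.Agent.H369R2

noncomputable section

lemma pow_approx {V : Type*} [SeminormedAddCommGroup V] [InnerProductSpace ℂ V]
    (A : Module.End ℂ V) (hA : ∀ u, ‖A u‖ ≤ ‖u‖) {l ε : ℝ} (hl0 : 0 ≤ l) (hl1 : l ≤ 1) {v : V}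
    (hv : ‖A v - (l : ℂ) • v‖ ≤ ε) (k : ℕ) : ‖(A ^ k) v - ((l ^ k : ℝ) : ℂ) • v‖ ≤ k * ε := by
  induction k with
  | zero => simp
  | succ k ih =>
    have h1 : (A ^ (k + 1)) v - ((l ^ (k + 1) : ℝ) : ℂ) • v =
        A ((A ^ k) v - ((l ^ k : ℝ) : ℂ) • v) + ((l ^ k : ℝ) : ℂ) • (A v - (l : ℂ) • v) := by
      rw [pow_succ', Module.End.mul_apply, map_sub, map_smul, smul_sub, smul_smul]
      push_cast
      rw [pow_succ]
      abel
    rw [h1]
    refine (norm_add_le _ _).trans ?_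
    have h2 : ‖((l ^ k : ℝ) : ℂ) • (A v - (l : ℂ) • v)‖ ≤ ε := by
      rw [norm_smul, Complex.norm_real, Real.norm_of_nonneg (by positivity)]
      have h3 : l ^ k ≤ 1 := pow_le_one₀ hl0 hl1
      calc l ^ k * ‖A v - (l : ℂ) • v‖ ≤ 1 * ε := by
            gcongr
        _ = ε := one_mul _
    have h4 := (hA ((A ^ k) v - ((l ^ k : ℝ) : ℂ) • v)).trans ih
    have h5 : ((k + 1 : ℕ) : ℝ) * ε = k * ε + ε := by push_cast; ring
    rw [h5]
    exact add_le_add h4 h2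

/-- `d` approximate eigenvectors for `l` give a lower bound for the trace. -/
theorem trace_ineq {N : ℕ} [NeZero N] {R : ℝ} (hR : 250 ≤ R) (n : ℕ) (l : ℝ) (hl : 1 / 2 ≤ l)
    (hl1 : l ≤ 1) (S : ℝ≥0∞) (hS : ∀ z, z ∉ cuspRegion (Real.exp R) → TK N R (2 * n + 1) z ≤ S) (d : ℕ)
    (hd : ∀ ε : ℝ, 0 < ε → ∃ v : Fin d → BN N, Orthonormal ℂ v ∧
      ∀ i, ‖AL N R (v i) - (l : ℂ) • v i‖ ≤ ε) :
    (d : ℝ≥0∞) * ENNReal.ofReal (l ^ (2 * n + 2) / 4) ≤ nu N Set.univ * S := by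
  have hR0 : 0 < R := by linarith
  have hl0 : 0 < l := by linarith
  set L : ℝ := l ^ (n + 1) with hL
  have hLpos : 0 < L := by positivity
  obtain ⟨v, hv, happ⟩ := hd (L / (16 * (n + 1))) (by positivity)
  set K := cuspRegion (Real.exp R) with hK
  have hKm : MeasurableSet K := measurableSet_cuspRegion _
  have hi2 : ∀ v : BN N, Integrable (fun w => ‖(v : ℍ → ℂ) w‖ ^ 2) (nu N) := by
    intro v
    obtain ⟨C, hC⟩ := BN.bdd v
    refine Integrable.of_bound (C := C ^ 2) ((BN.meas v).norm.pow_const 2).aestronglyMeasurable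
      (.of_forall fun w => ?_)
    rw [Real.norm_of_nonneg (by positivity)]
    exact pow_le_pow_left₀ (norm_nonneg _) (hC w) 2
  -- the single vectors
  have hsingle : ∀ i, L ^ 2 / 2 ≤ ∫ z in Kᶜ, ‖((((AL N R) ^ (n + 1)) (v i) : BN N) : ℍ → ℂ) z‖ ^ 2
      ∂(nu N) := by
    intro i
    have h1 := cusp_lemma_AL hR (((AL N R) ^ n) (v i))
    rw [← hK] at h1
    have h2 : AL N R (((AL N R) ^ n) (v i)) = ((AL N R) ^ (n + 1)) (v i) := by
      rw [pow_succ', Module.End.mul_apply]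
    rw [h2] at h1
    have h3 : (∫ z in K, ‖((((AL N R) ^ (n + 1)) (v i) : BN N) : ℍ → ℂ) z‖ ^ 2 ∂(nu N)) +
        ∫ z in Kᶜ, ‖((((AL N R) ^ (n + 1)) (v i) : BN N) : ℍ → ℂ) z‖ ^ 2 ∂(nu N) =
        ‖((AL N R) ^ (n + 1)) (v i)‖ ^ 2 := by
      rw [BN.norm_sq]
      exact integral_add_compl hKm (hi2 _)
    have hnv : ‖v i‖ = 1 := hv.1 i
    have h4 := pow_approx (AL N R) (AL_norm_le hR0) hl0.le hl1 (happ i) (n + 1)
    have h5 := pow_approx (AL N R) (AL_norm_le hR0) hl0.le hl1 (happ i) n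
    have h6 : ‖((l ^ (n + 1) : ℝ) : ℂ) • v i‖ = L := by
      rw [norm_smul, Complex.norm_real, Real.norm_of_nonneg (by positivity), hnv, mul_one]
    have h7 : ‖((l ^ n : ℝ) : ℂ) • v i‖ = l ^ n := by
      rw [norm_smul, Complex.norm_real, Real.norm_of_nonneg (by positivity), hnv, mul_one]
    have h8 : ((n + 1 : ℕ) : ℝ) * (L / (16 * (n + 1))) = L / 16 := by
      push_cast; field_simp
    have h9 : (n : ℝ) * (L / (16 * (n + 1))) ≤ L / 16 := by
      rw [← h8]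
      gcongr
      linarith
    have h10 : L - L / 16 ≤ ‖((AL N R) ^ (n + 1)) (v i)‖ := by
      have h11 := norm_sub_norm_le (((l ^ (n + 1) : ℝ) : ℂ) • v i) (((AL N R) ^ (n + 1)) (v i))
      rw [norm_sub_rev, h6] at h11
      rw [h8] at h4
      linarith
    have h11 : ‖((AL N R) ^ n) (v i)‖ ≤ 2 * L + L / 16 := by
      have h12 := norm_sub_norm_le (((AL N R) ^ n) (v i)) (((l ^ n : ℝ) : ℂ) • v i)
      rw [h7] at h12
      have h13 : l ^ n ≤ 2 * L := by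
        rw [hL, pow_succ]
        have : 0 ≤ l ^ n := by positivity
        nlinarith
      linarith
    have h12 : (L - L / 16) ^ 2 ≤ ‖((AL N R) ^ (n + 1)) (v i)‖ ^ 2 :=
      pow_le_pow_left₀ (by linarith) h10 2
    have h13 : ‖((AL N R) ^ n) (v i)‖ ^ 2 ≤ (2 * L + L / 16) ^ 2 :=
      pow_le_pow_left₀ (norm_nonneg _) h11 2
    nlinarith [sq_nonneg L]
  have hsum : (d : ℝ≥0∞) * ENNReal.ofReal (L ^ 2 / 2) ≤ 2⁻¹ * S * nu N Set.univ := by
    calc (d : ℝ≥0∞) * ENNReal.ofReal (L ^ 2 / 2)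
        = ∑ _i : Fin d, ENNReal.ofReal (L ^ 2 / 2) := by simp
      _ ≤ ∑ i : Fin d, ∫⁻ z in Kᶜ,
          ENNReal.ofReal (‖((((AL N R) ^ (n + 1)) (v i) : BN N) : ℍ → ℂ) z‖ ^ 2) ∂(nu N) := by
          apply Finset.sum_le_sum
          intro i _
          rw [← ofReal_integral_eq_lintegral_ofReal (hi2 _).integrableOn
            (.of_forall fun z => by positivity)]
          exact ENNReal.ofReal_le_ofReal (hsingle i)
      _ = ∫⁻ z in Kᶜ, ∑ i : Fin d,
          ENNReal.ofReal (‖((((AL N R) ^ (n + 1)) (v i) : BN N) : ℍ → ℂ) z‖ ^ 2) ∂(nu N) := by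
          rw [lintegral_finsetSum]
          intro i _
          exact ((BN.meas _).norm.pow_const 2).ennreal_ofReal
      _ ≤ ∫⁻ _z in Kᶜ, 2⁻¹ * S ∂(nu N) := by
          refine setLIntegral_mono' hKm.compl fun z hz => ?_
          refine (bessel_bound hR0 n v hv z).trans ?_
          gcongr
          exact hS z hz
      _ ≤ ∫⁻ _z, 2⁻¹ * S ∂(nu N) := setLIntegral_le_lintegral _ _
      _ = 2⁻¹ * S * nu N Set.univ := by rw [lintegral_const]
  have hpow : l ^ (2 * n + 2) = L ^ 2 := by rw [hL]; ring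
  rw [hpow]
  calc (d : ℝ≥0∞) * ENNReal.ofReal (L ^ 2 / 4) ≤ (d : ℝ≥0∞) * ENNReal.ofReal (L ^ 2 / 2) := by
        gcongr
        norm_num
    _ ≤ 2⁻¹ * S * nu N Set.univ := hsum
    _ ≤ 1 * S * nu N Set.univ := by
        gcongr
        norm_num
    _ = nu N Set.univ * S := by rw [one_mul, mul_comm]

end

end Pool.Agent.H369R2
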