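import Pool.Agent.H369R2.G4

/-! # The pre-Hilbert space of bounded measurable `Γ(N)`-invariant functions -/

open UpperHalfPlane MeasureTheory Metric ModularGroup CongruenceSubgroup
open scoped MatrixGroups ENNReal Modular Topology NNReal ComplexConjugate

set_option linter.unusedSimpArgs false

namespace Pool.Agent.H369R2

noncomputable section

/-- bounded measurable `Γ(N)`-invariant functions -/
def BN (N : ℕ) : Submodule ℂ (ℍ → ℂ) where
  carrier := {u | Measurable u ∧ (∃ C : ℝ, ∀ z, ‖u z‖ ≤ C) ∧ Inv N u}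
  add_mem' := by
    rintro u v ⟨hu1, ⟨C, hC⟩, hu3⟩ ⟨hv1, ⟨D, hD⟩, hv3⟩
    refine ⟨hu1.add hv1, ⟨C + D, fun z => (norm_add_le _ _).trans (add_le_add (hC z) (hD z))⟩, ?_⟩
    intro γ hγ z
    simp only [Pi.add_apply, hu3 γ hγ z, hv3 γ hγ z]
  zero_mem' := ⟨measurable_const, ⟨0, fun z => by simp⟩, fun γ hγ z => rfl⟩
  smul_mem' := by
    rintro c u ⟨hu1, ⟨C, hC⟩, hu3⟩
    refine ⟨hu1.const_smul c, ⟨‖c‖ * C, fun z => ?_⟩, ?_⟩
    · rw [Pi.smul_apply, norm_smul]; gcongr; exact hC z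
    · intro γ hγ z
      simp only [Pi.smul_apply, hu3 γ hγ z]

/-- finiteness of the measure `nu N` (proved in `Nu.lean`; here an instance argument) -/
class FinNu (N : ℕ) : Prop where
  fin : IsFiniteMeasure (nu N)

instance (N : ℕ) [h : FinNu N] : IsFiniteMeasure (nu N) := h.fin

variable {N : ℕ}

lemma BN.meas (u : BN N) : Measurable (u : ℍ → ℂ) := u.2.1
lemma BN.bdd (u : BN N) : ∃ C : ℝ, ∀ z, ‖(u : ℍ → ℂ) z‖ ≤ C := u.2.2.1
lemma BN.inv (u : BN N) : Inv N (u : ℍ → ℂ) := u.2.2.2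

lemma BN.integrable [FinNu N] (u : BN N) : Integrable (u : ℍ → ℂ) (nu N) := by
  obtain ⟨C, hC⟩ := BN.bdd u
  exact Integrable.of_bound (C := C) (BN.meas u).aestronglyMeasurable (.of_forall hC)

lemma BN.integrable_mul [FinNu N] (u v : BN N) :
    Integrable (fun z => conj ((u : ℍ → ℂ) z) * (v : ℍ → ℂ) z) (nu N) := by
  obtain ⟨C, hC⟩ := BN.bdd u
  obtain ⟨D, hD⟩ := BN.bdd v
  refine Integrable.of_bound (C := C * D) ?_ ?_
  · exact ((Complex.continuous_conj.measurable.comp (BN.meas u)).mul (BN.meas v)).aestronglyMeasurable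
  · refine .of_forall fun z => ?_
    rw [norm_mul, RCLike.norm_conj]
    exact mul_le_mul (hC z) (hD z) (norm_nonneg _) ((norm_nonneg _).trans (hC z))

lemma BN.self_inner_aux (u : ℍ → ℂ) (M : Measure ℍ) :
    (∫ z, conj (u z) * u z ∂M) = ((∫ z, ‖u z‖ ^ 2 ∂M : ℝ) : ℂ) := by
  rw [← integral_complex_ofReal]
  congr 1
  ext z
  rw [← Complex.normSq_eq_conj_mul_self, Complex.normSq_eq_norm_sq]

/-- the inner product -/
@[reducible]
def preCore (N : ℕ) [FinNu N] : PreInnerProductSpace.Core ℂ (BN N) where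
  inner u v := ∫ z, conj ((u : ℍ → ℂ) z) * (v : ℍ → ℂ) z ∂(nu N)
  conj_inner_symm u v := by
    rw [← integral_conj]
    congr 1
    ext z
    simp [mul_comm]
  re_inner_nonneg u := by
    rw [BN.self_inner_aux]
    simp only [RCLike.re_to_complex, Complex.ofReal_re]
    exact integral_nonneg fun z => by positivity
  add_left u v w := by
    rw [← integral_add (BN.integrable_mul u w) (BN.integrable_mul v w)]
    congr 1
    ext z
    simp [add_mul]
  smul_left u v c := by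
    rw [← integral_const_mul]
    congr 1
    ext z
    simp [mul_assoc]

instance instSemi [FinNu N] : SeminormedAddCommGroup (BN N) :=
  @InnerProductSpace.Core.toSeminormedAddCommGroup ℂ (BN N) _ _ _ (preCore N)

instance instIP [FinNu N] : InnerProductSpace ℂ (BN N) :=
  InnerProductSpace.ofCore (preCore N)

lemma BN.inner_def [FinNu N] (u v : BN N) :
    inner ℂ u v = ∫ z, conj ((u : ℍ → ℂ) z) * (v : ℍ → ℂ) z ∂(nu N) := rfl

lemma BN.norm_sq [FinNu N] (u : BN N) : ‖u‖ ^ 2 = ∫ z, ‖(u : ℍ → ℂ) z‖ ^ 2 ∂(nu N) := by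
  have h : ((‖u‖ ^ 2 : ℝ) : ℂ) = inner ℂ u u := by
    rw [inner_self_eq_norm_sq_to_K]; push_cast; rfl
  rw [BN.inner_def, BN.self_inner_aux] at h
  exact_mod_cast h

end

end Pool.Agent.H369R2
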