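import Pool.Agent.H369R2.NU2

/-! # Properties of the averaging operator and the action -/

open UpperHalfPlane MeasureTheory Metric ModularGroup CongruenceSubgroup
open scoped MatrixGroups ENNReal Modular Topology NNReal ComplexConjugate

namespace Pool.Agent.H369R2

noncomputable section

namespace OpAux

variable {N : ℕ}

lemma int4 {μ : Measure ℍ} {f1 f2 f3 f4 : ℍ → ℝ} (h1 : Integrable f1 μ) (h2 : Integrable f2 μ)
    (h3 : Integrable f3 μ) (h4 : Integrable f4 μ) :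
    ∫ z, (f1 z + (f2 z + (f3 z + f4 z))) ∂μ =
      ∫ z, f1 z ∂μ + (∫ z, f2 z ∂μ + (∫ z, f3 z ∂μ + ∫ z, f4 z ∂μ)) := by
  have i34 : Integrable (fun z => f3 z + f4 z) μ := h3.add h4
  have i234 : Integrable (fun z => f2 z + (f3 z + f4 z)) μ := h2.add i34
  rw [integral_add h1 i234, integral_add h2 i34, integral_add h3 h4]

/-- bounded measurable invariant real functions -/
structure BR (N : ℕ) (F : ℍ → ℝ) : Prop where
  meas : Measurable F
  bdd : ∃ C, ∀ z, |F z| ≤ C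
  inv : Inv N F

lemma measurable_Av_real' {R : ℝ} {f : ℍ → ℝ} (hf : Measurable f) : Measurable (Av R f) := by
  unfold Av
  simp only [smul_eq_mul]
  refine Measurable.const_mul ?_ _
  have h1 : (fun z : ℍ => ∫ w in closedBall z R, f w) =
      fun z : ℍ => ∫ w, Set.indicator {p : ℍ × ℍ | dist p.2 p.1 ≤ R} (fun p => f p.2) (z, w) := by
    ext z
    rw [← integral_indicator isClosed_closedBall.measurableSet]
    congr 1
  rw [h1]
  have h2 : Measurable (Set.indicator {p : ℍ × ℍ | dist p.2 p.1 ≤ R} (fun p => f p.2)) := by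
    refine (hf.comp measurable_snd).indicator ?_
    exact (isClosed_le (continuous_snd.dist continuous_fst) continuous_const).measurableSet
  exact (h2.stronglyMeasurable.integral_prod_right' (ν := (volume : Measure ℍ))).measurable

lemma intOn_ball {R : ℝ} {f : ℍ → ℝ} (hf : Measurable f) {C : ℝ} (hC : ∀ z, |f z| ≤ C)
    (z : ℍ) : IntegrableOn f (closedBall z R) :=
  Measure.integrableOn_of_bounded (M := C) (vol_ball_ne_top R z) hf.aestronglyMeasurable
    (.of_forall hC)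

lemma BR.Av {R : ℝ} {F : ℍ → ℝ} (h : BR N F) : BR N (Av R F) :=
  ⟨measurable_Av_real' h.meas, by
    obtain ⟨C, hC⟩ := h.bdd
    exact ⟨C, fun z => norm_Av_le (f := F) hC z⟩, Av_inv h.inv⟩

lemma BR.add_const {F : ℍ → ℝ} (h : BR N F) (c : ℝ) : BR N (fun z => F z + c) := by
  obtain ⟨C, hC⟩ := h.bdd
  exact ⟨h.meas.add_const c, ⟨C + |c|, fun z => (abs_add_le _ _).trans (add_le_add (hC z) le_rfl)⟩,
    fun γ hγ z => by simp only [h.inv γ hγ z]⟩

lemma BR.mul {F G : ℍ → ℝ} (h : BR N F) (h' : BR N G) : BR N (fun z => F z * G z) := by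
  obtain ⟨C, hC⟩ := h.bdd
  obtain ⟨D, hD⟩ := h'.bdd
  exact ⟨h.meas.mul h'.meas, ⟨C * D, fun z => by
    rw [abs_mul]; exact mul_le_mul (hC z) (hD z) (abs_nonneg _) ((abs_nonneg _).trans (hC z))⟩,
    fun γ hγ z => by simp only [h.inv γ hγ z, h'.inv γ hγ z]⟩

lemma BR.integrable [FinNu N] {F : ℍ → ℝ} (h : BR N F) : Integrable F (nu N) := by
  obtain ⟨C, hC⟩ := h.bdd
  exact Integrable.of_bound (C := C) h.meas.aestronglyMeasurable (.of_forall hC)

lemma Av_add_const {R : ℝ} (hR : 0 < R) {F : ℍ → ℝ} (h : BR N F) (c : ℝ) (z : ℍ) :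
    Pool.Agent.H369R2.Av R (fun z => F z + c) z = Pool.Agent.H369R2.Av R F z + c := by
  obtain ⟨C, hC⟩ := h.bdd
  unfold Pool.Agent.H369R2.Av
  have hb := bv_pos hR
  have hc : IntegrableOn (fun _ : ℍ => c) (closedBall z R) :=
    integrableOn_const (vol_ball_ne_top R z)
  rw [integral_add (intOn_ball h.meas hC z) hc, setIntegral_const, Measure.real, vol_eq,
    ENNReal.toReal_ofReal hb.le]
  simp only [smul_eq_mul]
  field_simp

lemma ofReal_Av {R : ℝ} (hR : 0 < R) {F : ℍ → ℝ} (h : BR N F) (h0 : ∀ z, 0 ≤ F z) (z : ℍ) :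
    ENNReal.ofReal (Pool.Agent.H369R2.Av R F z) = Ap R (fun z => ENNReal.ofReal (F z)) z := by
  obtain ⟨C, hC⟩ := h.bdd
  unfold Pool.Agent.H369R2.Av Ap
  rw [smul_eq_mul, ENNReal.ofReal_mul (inv_nonneg.2 (bv_nonneg R)),
    ENNReal.ofReal_inv_of_pos (bv_pos hR),
    ofReal_integral_eq_lintegral_ofReal (intOn_ball h.meas hC z) (.of_forall h0)]

lemma Av_nonneg {R : ℝ} {F : ℍ → ℝ} (h0 : ∀ z, 0 ≤ F z) (z : ℍ) :
    0 ≤ Pool.Agent.H369R2.Av R F z := by
  unfold Pool.Agent.H369R2.Av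
  exact smul_nonneg (inv_nonneg.2 (bv_nonneg R)) (integral_nonneg h0)

lemma integral_Av_nonneg [FinNu N] {R : ℝ} (hR : 0 < R) {F : ℍ → ℝ} (h : BR N F)
    (h0 : ∀ z, 0 ≤ F z) : ∫ z, Pool.Agent.H369R2.Av R F z ∂(nu N) = ∫ z, F z ∂(nu N) := by
  rw [integral_eq_lintegral_of_nonneg_ae (.of_forall (Av_nonneg h0))
    h.Av.meas.aestronglyMeasurable, integral_eq_lintegral_of_nonneg_ae (.of_forall h0)
    h.meas.aestronglyMeasurable]
  simp only [ofReal_Av hR h h0]
  rw [lint_Ap_nu hR N h.meas.ennreal_ofReal]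
  intro δ hδ z
  rw [h.inv δ hδ z]

lemma integral_Av_BR [FinNu N] {R : ℝ} (hR : 0 < R) {F : ℍ → ℝ} (h : BR N F) :
    ∫ z, Pool.Agent.H369R2.Av R F z ∂(nu N) = ∫ z, F z ∂(nu N) := by
  obtain ⟨C, hC⟩ := h.bdd
  have h1 := integral_Av_nonneg hR (h.add_const C) (fun z => by
    have := (abs_le.1 (hC z)).1; linarith)
  simp only [Av_add_const hR h C] at h1
  rw [integral_add h.Av.integrable (integrable_const _),
    integral_add h.integrable (integrable_const _)] at h1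
  exact add_right_cancel h1

lemma symm_nonneg [FinNu N] {R : ℝ} (hR : 0 < R) {F G : ℍ → ℝ} (hF : BR N F) (hG : BR N G)
    (hF0 : ∀ z, 0 ≤ F z) (hG0 : ∀ z, 0 ≤ G z) :
    ∫ z, Pool.Agent.H369R2.Av R F z * G z ∂(nu N) =
      ∫ z, F z * Pool.Agent.H369R2.Av R G z ∂(nu N) := by
  rw [integral_eq_lintegral_of_nonneg_ae
      (.of_forall fun z => mul_nonneg (Av_nonneg hF0 z) (hG0 z))
      (hF.Av.meas.mul hG.meas).aestronglyMeasurable,
    integral_eq_lintegral_of_nonneg_ae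
      (.of_forall fun z => mul_nonneg (hF0 z) (Av_nonneg hG0 z))
      (hF.meas.mul hG.Av.meas).aestronglyMeasurable]
  congr 1
  have h1 : ∀ z, ENNReal.ofReal (Pool.Agent.H369R2.Av R F z * G z) =
      ∫⁻ w, bz R z w * ENNReal.ofReal (F w) * ENNReal.ofReal (G z) := by
    intro z
    have hm : Measurable fun w => bz R z w * ENNReal.ofReal (F w) :=
      (measurable_bz R z).mul hF.meas.ennreal_ofReal
    rw [ENNReal.ofReal_mul (Av_nonneg hF0 z), ofReal_Av hR hF hF0, Ap_eq hR,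
      lintegral_mul_const _ hm]
  have h2 : ∀ z, ENNReal.ofReal (F z * Pool.Agent.H369R2.Av R G z) =
      ∫⁻ w, bz R w z * ENNReal.ofReal (F z) * ENNReal.ofReal (G w) := by
    intro z
    have hm : Measurable fun w => bz R z w * ENNReal.ofReal (G w) :=
      (measurable_bz R z).mul hG.meas.ennreal_ofReal
    rw [ENNReal.ofReal_mul (hF0 z), ofReal_Av hR hG hG0, Ap_eq hR,
      ← lintegral_const_mul _ hm]
    congr 1
    ext w
    rw [bz_symm R w z]
    ring
  simp only [h1, h2]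
  refine nu_swap N (Ψ := fun z w => bz R z w * ENNReal.ofReal (F w) * ENNReal.ofReal (G z)) ?_ ?_
  · exact ((measurable_bz2 R).mul (hF.meas.ennreal_ofReal.comp measurable_snd)).mul
      (hG.meas.ennreal_ofReal.comp measurable_fst)
  · intro δ hδ z w
    simp only [bz_smul, hF.inv δ hδ w, hG.inv δ hδ z]

lemma symm_real [FinNu N] {R : ℝ} (hR : 0 < R) {F G : ℍ → ℝ} (hF : BR N F) (hG : BR N G) :
    ∫ z, Pool.Agent.H369R2.Av R F z * G z ∂(nu N) =
      ∫ z, F z * Pool.Agent.H369R2.Av R G z ∂(nu N) := by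
  obtain ⟨C, hC⟩ := hF.bdd
  obtain ⟨D, hD⟩ := hG.bdd
  have h1 := symm_nonneg hR (hF.add_const C) (hG.add_const D)
    (fun z => by have := (abs_le.1 (hC z)).1; linarith)
    (fun z => by have := (abs_le.1 (hD z)).1; linarith)
  simp only [Av_add_const hR hF C, Av_add_const hR hG D] at h1
  have e1 : ∀ z, (Pool.Agent.H369R2.Av R F z + C) * (G z + D) =
      Pool.Agent.H369R2.Av R F z * G z + (D * Pool.Agent.H369R2.Av R F z + (C * G z + C * D)) :=
    fun z => by ring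
  have e2 : ∀ z, (F z + C) * (Pool.Agent.H369R2.Av R G z + D) =
      F z * Pool.Agent.H369R2.Av R G z + (D * F z + (C * Pool.Agent.H369R2.Av R G z + C * D)) :=
    fun z => by ring
  simp only [e1, e2] at h1
  have i1 := (hF.Av (R := R)).integrable
  have i2 := (hG.Av (R := R)).integrable
  have i3 := hF.integrable
  have i4 := hG.integrable
  rw [int4 ((hF.Av.mul hG).integrable) (i1.const_mul D) (i4.const_mul C) (integrable_const _),
    int4 ((hF.mul hG.Av).integrable) (i3.const_mul D) (i2.const_mul C) (integrable_const _)] at h1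
  simp only [integral_const_mul, integral_Av_BR hR hF, integral_Av_BR hR hG] at h1
  linarith

lemma integral_smul_real [FinNu N] (γ : SL(2, ℤ)) {F : ℍ → ℝ} (h : BR N F) :
    ∫ z, F (γ • z) ∂(nu N) = ∫ z, F z ∂(nu N) := by
  have key : ∀ G : ℍ → ℝ, BR N G → (∀ z, 0 ≤ G z) →
      ∫ z, G (γ • z) ∂(nu N) = ∫ z, G z ∂(nu N) := by
    intro G hG hG0
    rw [integral_eq_lintegral_of_nonneg_ae (.of_forall fun z => hG0 _)
      (hG.meas.comp (cont_smul_int γ).measurable).aestronglyMeasurable,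
      integral_eq_lintegral_of_nonneg_ae (.of_forall hG0) hG.meas.aestronglyMeasurable]
    rw [nu_smul N γ (F := fun z => ENNReal.ofReal (G z)) hG.meas.ennreal_ofReal]
    intro δ hδ z
    rw [hG.inv δ hδ z]
  obtain ⟨C, hC⟩ := h.bdd
  have h1 := key _ (h.add_const C) (fun z => by have := (abs_le.1 (hC z)).1; linarith)
  have i1 : Integrable (fun z => F (γ • z)) (nu N) :=
    Integrable.of_bound (C := C) (h.meas.comp (cont_smul_int γ).measurable).aestronglyMeasurable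
      (.of_forall fun z => hC _)
  rw [integral_add i1 (integrable_const _),
    integral_add h.integrable (integrable_const _)] at h1
  exact add_right_cancel h1

lemma BR_re (u : BN N) : BR N (fun z => ((u : ℍ → ℂ) z).re) := by
  obtain ⟨C, hC⟩ := BN.bdd u
  exact ⟨Complex.measurable_re.comp (BN.meas u),
    ⟨C, fun z => (Complex.abs_re_le_norm _).trans (hC z)⟩,
    fun γ hγ z => by rw [BN.inv u γ hγ z]⟩

lemma BR_im (u : BN N) : BR N (fun z => ((u : ℍ → ℂ) z).im) := by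
  obtain ⟨C, hC⟩ := BN.bdd u
  exact ⟨Complex.measurable_im.comp (BN.meas u),
    ⟨C, fun z => (Complex.abs_im_le_norm _).trans (hC z)⟩,
    fun γ hγ z => by rw [BN.inv u γ hγ z]⟩

lemma BR_norm_sq (u : BN N) : BR N (fun z => ‖(u : ℍ → ℂ) z‖ ^ 2) := by
  obtain ⟨C, hC⟩ := BN.bdd u
  exact ⟨(BN.meas u).norm.pow_const 2,
    ⟨C ^ 2, fun z => by rw [abs_of_nonneg (by positivity)]; gcongr; exact hC z⟩,
    fun γ hγ z => by simp only [BN.inv u γ hγ z]⟩

lemma re_Av {R : ℝ} (u : BN N) (z : ℍ) :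
    (Pool.Agent.H369R2.Av R (u : ℍ → ℂ) z).re =
      Pool.Agent.H369R2.Av R (fun z => ((u : ℍ → ℂ) z).re) z := by
  obtain ⟨C, hC⟩ := BN.bdd u
  unfold Pool.Agent.H369R2.Av
  rw [Complex.smul_re]
  congr 1
  have := Complex.reCLM.integral_comp_comm (integrableOn_ball (R := R) (BN.meas u) hC z)
  exact this.symm

lemma im_Av {R : ℝ} (u : BN N) (z : ℍ) :
    (Pool.Agent.H369R2.Av R (u : ℍ → ℂ) z).im =
      Pool.Agent.H369R2.Av R (fun z => ((u : ℍ → ℂ) z).im) z := by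
  obtain ⟨C, hC⟩ := BN.bdd u
  unfold Pool.Agent.H369R2.Av
  rw [Complex.smul_im]
  congr 1
  have := Complex.imCLM.integral_comp_comm (integrableOn_ball (R := R) (BN.meas u) hC z)
  exact this.symm

lemma re_integral [FinNu N] (u : BN N) :
    (∫ z, (u : ℍ → ℂ) z ∂(nu N)).re = ∫ z, ((u : ℍ → ℂ) z).re ∂(nu N) :=
  (Complex.reCLM.integral_comp_comm (BN.integrable u)).symm

lemma im_integral [FinNu N] (u : BN N) :
    (∫ z, (u : ℍ → ℂ) z ∂(nu N)).im = ∫ z, ((u : ℍ → ℂ) z).im ∂(nu N) :=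
  (Complex.imCLM.integral_comp_comm (BN.integrable u)).symm

/-- the second moment around `c` -/
lemma moment {R : ℝ} (hR : 0 < R) (u : BN N) (c : ℂ) (z : ℍ) :
    Pool.Agent.H369R2.Av R (fun w => ‖c - (u : ℍ → ℂ) w‖ ^ 2) z =
      ‖c‖ ^ 2 - 2 * (conj (Pool.Agent.H369R2.Av R (u : ℍ → ℂ) z) * c).re +
        Pool.Agent.H369R2.Av R (fun w => ‖(u : ℍ → ℂ) w‖ ^ 2) z := by
  have hre := BR_re u
  have him := BR_im u
  have hsq := BR_norm_sq u
  obtain ⟨C1, hC1⟩ := hre.bdd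
  obtain ⟨C2, hC2⟩ := him.bdd
  obtain ⟨C3, hC3⟩ := hsq.bdd
  have hb := bv_pos hR
  have e1 : ∀ w, ‖c - (u : ℍ → ℂ) w‖ ^ 2 = ‖c‖ ^ 2 + ((-2 * c.re) * ((u : ℍ → ℂ) w).re +
      ((-2 * c.im) * ((u : ℍ → ℂ) w).im + ‖(u : ℍ → ℂ) w‖ ^ 2)) := by
    intro w
    rw [← Complex.normSq_eq_norm_sq, ← Complex.normSq_eq_norm_sq, ← Complex.normSq_eq_norm_sq,
      Complex.normSq_apply, Complex.normSq_apply, Complex.normSq_apply, Complex.sub_re,
      Complex.sub_im]
    ring
  have e2 : (conj (Pool.Agent.H369R2.Av R (u : ℍ → ℂ) z) * c).re =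
      Pool.Agent.H369R2.Av R (fun z => ((u : ℍ → ℂ) z).re) z * c.re +
      Pool.Agent.H369R2.Av R (fun z => ((u : ℍ → ℂ) z).im) z * c.im := by
    rw [← re_Av, ← im_Av, Complex.mul_re, Complex.conj_re, Complex.conj_im]
    ring
  rw [e2]
  simp only [e1]
  unfold Pool.Agent.H369R2.Av
  have i1 := intOn_ball (R := R) hre.meas hC1 z
  have i2 := intOn_ball (R := R) him.meas hC2 z
  have i3 := intOn_ball (R := R) hsq.meas hC3 z
  have i0 : IntegrableOn (fun _ : ℍ => ‖c‖ ^ 2) (closedBall z R) :=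
    integrableOn_const (vol_ball_ne_top R z)
  beta_reduce
  rw [int4 i0 (i1.const_mul _) (i2.const_mul _) i3, integral_const_mul, integral_const_mul,
    setIntegral_const, Measure.real, vol_eq, ENNReal.toReal_ofReal hb.le]
  simp only [smul_eq_mul]
  field_simp
  ring

lemma jensen {R : ℝ} (hR : 0 < R) (u : BN N) (z : ℍ) :
    ‖Pool.Agent.H369R2.Av R (u : ℍ → ℂ) z‖ ^ 2 ≤
      Pool.Agent.H369R2.Av R (fun w => ‖(u : ℍ → ℂ) w‖ ^ 2) z := by
  have h1 := moment hR u (Pool.Agent.H369R2.Av R (u : ℍ → ℂ) z) z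
  have h2 := Av_nonneg (R := R)
    (F := fun w => ‖Pool.Agent.H369R2.Av R (u : ℍ → ℂ) z - (u : ℍ → ℂ) w‖ ^ 2)
    (fun w => by positivity) z
  rw [h1, ← Complex.normSq_eq_conj_mul_self, Complex.ofReal_re, Complex.normSq_eq_norm_sq] at h2
  linarith

lemma jensen2 {R : ℝ} (hR : 0 < R) (u : BN N) (c : ℂ) (z : ℍ) :
    ‖Pool.Agent.H369R2.Av R (u : ℍ → ℂ) z - c‖ ^ 2 ≤
      Pool.Agent.H369R2.Av R (fun w => ‖c - (u : ℍ → ℂ) w‖ ^ 2) z := by
  rw [moment hR u c z]
  have h1 := jensen hR u z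
  have h2 : ‖Pool.Agent.H369R2.Av R (u : ℍ → ℂ) z - c‖ ^ 2 =
      ‖c‖ ^ 2 - 2 * (conj (Pool.Agent.H369R2.Av R (u : ℍ → ℂ) z) * c).re +
        ‖Pool.Agent.H369R2.Av R (u : ℍ → ℂ) z‖ ^ 2 := by
    rw [← Complex.normSq_eq_norm_sq, ← Complex.normSq_eq_norm_sq, ← Complex.normSq_eq_norm_sq,
      Complex.normSq_apply, Complex.normSq_apply, Complex.normSq_apply, Complex.sub_re,
      Complex.sub_im, Complex.mul_re, Complex.conj_re, Complex.conj_im]
    ring
  rw [h2]
  linarith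

end OpAux

open OpAux

variable {N : ℕ} [NeZero N]

theorem AL_symm {R : ℝ} (hR : 0 < R) (u v : BN N) :
    inner ℂ (AL N R u) v = inner ℂ u (AL N R v) := by
  rw [BN.inner_def, BN.inner_def]
  have i1 := BN.integrable_mul (AL N R u) v
  have i2 := BN.integrable_mul u (AL N R v)
  have s1 := symm_real hR (BR_re u) (BR_re v)
  have s2 := symm_real hR (BR_re u) (BR_im v)
  have s3 := symm_real hR (BR_im u) (BR_re v)
  have s4 := symm_real hR (BR_im u) (BR_im v)
  apply Complex.ext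
  · have h1 := Complex.reCLM.integral_comp_comm i1
    have h2 := Complex.reCLM.integral_comp_comm i2
    simp only [Complex.reCLM_apply] at h1 h2
    rw [← h1, ← h2]
    have e1 : ∀ z, (conj ((AL N R u : ℍ → ℂ) z) * (v : ℍ → ℂ) z).re =
        Av R (fun z => ((u : ℍ → ℂ) z).re) z * ((v : ℍ → ℂ) z).re +
        Av R (fun z => ((u : ℍ → ℂ) z).im) z * ((v : ℍ → ℂ) z).im := by
      intro z
      rw [AL_apply, ← re_Av, ← im_Av, Complex.mul_re, Complex.conj_re, Complex.conj_im]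
      ring
    have e2 : ∀ z, (conj ((u : ℍ → ℂ) z) * (AL N R v : ℍ → ℂ) z).re =
        ((u : ℍ → ℂ) z).re * Av R (fun z => ((v : ℍ → ℂ) z).re) z +
        ((u : ℍ → ℂ) z).im * Av R (fun z => ((v : ℍ → ℂ) z).im) z := by
      intro z
      rw [AL_apply, ← re_Av, ← im_Av, Complex.mul_re, Complex.conj_re, Complex.conj_im]
      ring
    simp only [e1, e2]
    rw [integral_add ((BR_re u).Av.mul (BR_re v)).integrable
        ((BR_im u).Av.mul (BR_im v)).integrable,
      integral_add ((BR_re u).mul (BR_re v).Av).integrable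
        ((BR_im u).mul (BR_im v).Av).integrable, s1, s4]
  · have h1 := Complex.imCLM.integral_comp_comm i1
    have h2 := Complex.imCLM.integral_comp_comm i2
    simp only [Complex.imCLM_apply] at h1 h2
    rw [← h1, ← h2]
    have e1 : ∀ z, (conj ((AL N R u : ℍ → ℂ) z) * (v : ℍ → ℂ) z).im =
        Av R (fun z => ((u : ℍ → ℂ) z).re) z * ((v : ℍ → ℂ) z).im -
        Av R (fun z => ((u : ℍ → ℂ) z).im) z * ((v : ℍ → ℂ) z).re := by
      intro z
      rw [AL_apply, ← re_Av, ← im_Av, Complex.mul_im, Complex.conj_re, Complex.conj_im]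
      ring
    have e2 : ∀ z, (conj ((u : ℍ → ℂ) z) * (AL N R v : ℍ → ℂ) z).im =
        ((u : ℍ → ℂ) z).re * Av R (fun z => ((v : ℍ → ℂ) z).im) z -
        ((u : ℍ → ℂ) z).im * Av R (fun z => ((v : ℍ → ℂ) z).re) z := by
      intro z
      rw [AL_apply, ← re_Av, ← im_Av, Complex.mul_im, Complex.conj_re, Complex.conj_im]
      ring
    simp only [e1, e2]
    rw [integral_sub ((BR_re u).Av.mul (BR_im v)).integrable
        ((BR_im u).Av.mul (BR_re v)).integrable,
      integral_sub ((BR_re u).mul (BR_im v).Av).integrable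
        ((BR_im u).mul (BR_re v).Av).integrable, s2, s3]

theorem AL_norm_le {R : ℝ} (hR : 0 < R) (u : BN N) : ‖AL N R u‖ ≤ ‖u‖ := by
  refine le_of_sq_le_sq ?_ (norm_nonneg _)
  rw [BN.norm_sq, BN.norm_sq, ← integral_Av_BR hR (BR_norm_sq u)]
  exact integral_mono (BR_norm_sq (AL N R u)).integrable (BR_norm_sq u).Av.integrable
    (fun z => jensen hR u z)

theorem AL_mean {R : ℝ} (hR : 0 < R) (u : BN N) :
    ∫ z, (AL N R u : ℍ → ℂ) z ∂(nu N) = ∫ z, (u : ℍ → ℂ) z ∂(nu N) := by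
  apply Complex.ext
  · rw [re_integral, re_integral]
    simp only [AL_apply, re_Av]
    exact integral_Av_BR hR (BR_re u)
  · rw [im_integral, im_integral]
    simp only [AL_apply, im_Av]
    exact integral_Av_BR hR (BR_im u)

theorem AL_energy {R : ℝ} (hR : 0 < R) (u : BN N) :
    ∫ z, Av R (fun w => ‖(u : ℍ → ℂ) z - (u : ℍ → ℂ) w‖ ^ 2) z ∂(nu N) =
      2 * ‖u‖ ^ 2 - 2 * (inner ℂ (AL N R u) u).re := by
  simp only [moment hR u]
  have i1 := BN.integrable_mul (AL N R u) u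
  have h1 := Complex.reCLM.integral_comp_comm i1
  simp only [Complex.reCLM_apply, AL_apply] at h1
  have i2 : Integrable (fun z => (conj (Av R (u : ℍ → ℂ) z) * (u : ℍ → ℂ) z).re) (nu N) :=
    Complex.reCLM.integrable_comp i1
  have i3 : Integrable (fun z => ‖(u : ℍ → ℂ) z‖ ^ 2 -
      2 * (conj (Av R (u : ℍ → ℂ) z) * (u : ℍ → ℂ) z).re) (nu N) :=
    (BR_norm_sq u).integrable.sub (i2.const_mul 2)
  rw [integral_add i3 (BR_norm_sq u).Av.integrable,
    integral_sub (BR_norm_sq u).integrable (i2.const_mul 2), integral_const_mul, h1,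
    integral_Av_BR hR (BR_norm_sq u), ← BN.norm_sq, BN.inner_def]
  simp only [AL_apply]
  ring

theorem AL_sub_sq {R : ℝ} (hR : 0 < R) (u : BN N) :
    ‖AL N R u - u‖ ^ 2 ≤ ∫ z, Av R (fun w => ‖(u : ℍ → ℂ) z - (u : ℍ → ℂ) w‖ ^ 2) z ∂(nu N) := by
  rw [BN.norm_sq]
  have i1 := BN.integrable_mul (AL N R u) u
  have i2 : Integrable (fun z => (conj (Av R (u : ℍ → ℂ) z) * (u : ℍ → ℂ) z).re) (nu N) :=
    Complex.reCLM.integrable_comp i1
  refine integral_mono (BR_norm_sq _).integrable ?_ (fun z => jensen2 hR u _ z)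
  simp only [moment hR u]
  exact ((BR_norm_sq u).integrable.sub (i2.const_mul 2)).add (BR_norm_sq u).Av.integrable

theorem act_norm (g : GN N) (u : BN N) : ‖act N g u‖ = ‖u‖ := by
  obtain ⟨γ, rfl⟩ := QuotientGroup.mk'_surjective (Gamma N) g
  have h : ‖act N (QuotientGroup.mk' (Gamma N) γ) u‖ ^ 2 = ‖u‖ ^ 2 := by
    rw [BN.norm_sq, BN.norm_sq]
    exact integral_smul_real γ⁻¹ (BR_norm_sq u)
  exact (sq_eq_sq₀ (norm_nonneg _) (norm_nonneg _)).1 h

theorem act_mean (g : GN N) (u : BN N) :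
    ∫ z, (act N g u : ℍ → ℂ) z ∂(nu N) = ∫ z, (u : ℍ → ℂ) z ∂(nu N) := by
  obtain ⟨γ, rfl⟩ := QuotientGroup.mk'_surjective (Gamma N) g
  apply Complex.ext
  · rw [re_integral, re_integral]
    exact integral_smul_real γ⁻¹ (BR_re u)
  · rw [im_integral, im_integral]
    exact integral_smul_real γ⁻¹ (BR_im u)

/-- real version of `lint_Ap_nu` -/
theorem integral_Av_real {R : ℝ} (hR : 0 < R) {F : ℍ → ℝ} (hF : Measurable F)
    (hb : ∃ C, ∀ z, |F z| ≤ C) (hi : Inv N F) :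
    ∫ z, Av R F z ∂(nu N) = ∫ z, F z ∂(nu N) := integral_Av_BR hR ⟨hF, hb, hi⟩

end

end Pool.Agent.H369R2
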