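import Pool.Agent.H369R2.OpA

/-! # Pointwise bound -/

open UpperHalfPlane MeasureTheory Metric ModularGroup CongruenceSubgroup
open scoped MatrixGroups ENNReal Modular Topology NNReal ComplexConjugate

namespace Pool.Agent.H369R2

noncomputable section

variable {N : ℕ} [NeZero N]

/-- the trace kernel on the diagonal -/
def TK (N : ℕ) (R : ℝ) (m : ℕ) (z : ℍ) : ℝ≥0∞ := ∑' δ : Gamma N, kk R m ((δ : SL(2, ℤ)) • z) z

namespace PB

set_option linter.unusedSectionVars false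

/-- Cauchy-Schwarz for the Lebesgue integral -/
lemma cs {α : Type*} [MeasurableSpace α] (μ : Measure α) {f g : α → ℝ≥0∞} (hf : Measurable f)
    (hg : Measurable g) : (∫⁻ x, f x * g x ∂μ) ^ 2 ≤ (∫⁻ x, f x ^ 2 ∂μ) * ∫⁻ x, g x ^ 2 ∂μ := by
  have h := ENNReal.lintegral_mul_le_Lp_mul_Lq μ Real.HolderConjugate.two_two hf.aemeasurable
    hg.aemeasurable
  have h2 : ∀ a : ℝ≥0∞, (a ^ (1 / 2 : ℝ)) ^ 2 = a := by
    intro a
    rw [← ENNReal.rpow_two, ← ENNReal.rpow_mul]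
    norm_num
  simp only [ENNReal.rpow_two, Pi.mul_apply] at h
  calc (∫⁻ x, f x * g x ∂μ) ^ 2 ≤
      ((∫⁻ x, f x ^ 2 ∂μ) ^ (1 / 2 : ℝ) * (∫⁻ x, g x ^ 2 ∂μ) ^ (1 / 2 : ℝ)) ^ 2 := by
        gcongr
    _ = _ := by rw [mul_pow, h2, h2]

lemma enorm_Av_le {R : ℝ} (hR : 0 < R) (f : ℍ → ℂ) (z : ℍ) :
    ‖Av R f z‖ₑ ≤ Ap R (fun w => ‖f w‖ₑ) z := by
  unfold Av Ap
  rw [enorm_smul]
  gcongr
  · rw [enorm_inv (bv_pos hR).ne', Real.enorm_of_nonneg (bv_nonneg R)]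
  · exact enorm_integral_le_lintegral_enorm _

lemma enorm_iter_le {R : ℝ} (hR : 0 < R) (n : ℕ) (u : BN N) (z : ℍ) :
    ‖((((AL N R) ^ n) u : BN N) : ℍ → ℂ) z‖ₑ ≤ (Ap R)^[n] (fun w => ‖(u : ℍ → ℂ) w‖ₑ) z := by
  induction n generalizing z with
  | zero => simp
  | succ n ih =>
    rw [pow_succ', Module.End.mul_apply, AL_apply, Function.iterate_succ_apply']
    exact (enorm_Av_le hR _ z).trans (Ap_mono R ih z)

lemma kk_iter {R : ℝ} (m n : ℕ) (w : ℍ) : (Ap R)^[m] (kk R n w) = kk R (m + n) w := by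
  unfold kk
  rw [Function.iterate_add_apply]

/-- the periodised kernel -/
def KK (N : ℕ) (R : ℝ) (n : ℕ) (z w : ℍ) : ℝ≥0∞ := ∑' δ : Gamma N, kk R n z ((δ : SL(2, ℤ)) • w)

lemma measurable_KK {R : ℝ} (hR : 0 < R) (n : ℕ) (z : ℍ) : Measurable (KK N R n z) := by
  apply Measurable.tsum
  intro δ
  exact (measurable_kk hR n z).comp (cont_smul_int δ).measurable

lemma KK_inv (R : ℝ) (n : ℕ) (z : ℍ) (γ : Gamma N) (w : ℍ) :
    KK N R n z ((γ : SL(2, ℤ)) • w) = KK N R n z w := by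
  unfold KK
  rw [← (Equiv.mulRight γ).tsum_eq (fun δ : Gamma N => kk R n z ((δ : SL(2, ℤ)) • w))]
  congr 1
  ext δ
  simp [mul_smul]

lemma lint_KK_sq {R : ℝ} (hR : 0 < R) (n : ℕ) (z : ℍ) :
    ∫⁻ w, KK N R n z w ^ 2 ∂(nu N) = 2 * TK N R (2 * n + 1) z := by
  have hm := measurable_KK (N := N) hR n z
  have h1 : ∀ w, KK N R n z w ^ 2 =
      ∑' δ : Gamma N, (fun w => kk R n z w * KK N R n z w) ((δ : SL(2, ℤ)) • w) := by
    intro w
    simp only [KK_inv]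
    rw [ENNReal.tsum_mul_right, sq]
    rfl
  rw [lintegral_congr h1,
    nu_unfold N (F := fun w => kk R n z w * KK N R n z w) ((measurable_kk hR n z).mul hm)]
  congr 1
  have h2 : ∀ w, kk R n z w * KK N R n z w =
      ∑' δ : Gamma N, kk R n z w * kk R n ((δ : SL(2, ℤ)) • z) w := by
    intro w
    unfold KK
    rw [← ENNReal.tsum_mul_left, ← (Equiv.inv (Gamma N)).tsum_eq]
    congr 1
    ext δ
    congr 1
    rw [← kk_smul R (δ : SL(2, ℤ)) n z]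
    simp
  rw [lintegral_congr h2, lintegral_tsum]
  · unfold TK
    congr 1
    ext δ
    rw [lint_kk_mul hR n z (measurable_kk hR n _), kk_iter]
    congr 1
    ring
  · intro δ
    exact ((measurable_kk hR n z).mul (measurable_kk hR n _)).aemeasurable

lemma lint_norm_sq (u : BN N) :
    ∫⁻ w, ‖(u : ℍ → ℂ) w‖ₑ ^ 2 ∂(nu N) = ENNReal.ofReal (‖u‖ ^ 2) := by
  rw [BN.norm_sq, ofReal_integral_eq_lintegral_ofReal]
  · apply lintegral_congr
    intro w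
    rw [ENNReal.ofReal_pow (norm_nonneg _), ofReal_norm]
  · have := BN.integrable_mul u u
    refine this.norm.congr (.of_forall fun z => ?_)
    simp only [norm_mul, RCLike.norm_conj]
    ring
  · exact .of_forall fun z => by positivity

end PB

open PB

/-- `(A^{n+1} u)(z) = ∫ kk R n z w u(w) dw`, unfold and use Cauchy-Schwarz. -/
theorem pointwise_bound {R : ℝ} (hR : 0 < R) (n : ℕ) (u : BN N) (z : ℍ) :
    ENNReal.ofReal (‖((((AL N R) ^ (n + 1)) u : BN N) : ℍ → ℂ) z‖ ^ 2) ≤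
      2⁻¹ * TK N R (2 * n + 1) z * ENNReal.ofReal (‖u‖ ^ 2) := by
  set g : ℍ → ℝ≥0∞ := fun w => ‖(u : ℍ → ℂ) w‖ₑ with hg
  have hgm : Measurable g := (BN.meas u).enorm
  have hginv : ∀ (δ : Gamma N) (w : ℍ), g ((δ : SL(2, ℤ)) • w) = g w := by
    intro δ w
    simp only [hg]
    rw [BN.inv u δ δ.2]
  have h1 : 2 * (Ap R)^[n + 1] g z = ∫⁻ w, KK N R n z w * g w ∂(nu N) := by
    rw [← lint_kk_mul hR n z hgm,
      ← nu_unfold N (F := fun w => kk R n z w * g w) ((measurable_kk hR n z).mul hgm)]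
    apply lintegral_congr
    intro w
    simp only [hginv]
    rw [ENNReal.tsum_mul_right]
    rfl
  have h2 := cs (nu N) (measurable_KK (N := N) hR n z) hgm
  rw [← h1, lint_KK_sq hR, lint_norm_sq] at h2
  have h3 := enorm_iter_le hR (n + 1) u z
  rw [ENNReal.ofReal_pow (norm_nonneg _), ofReal_norm]
  have h4 : 4 * ‖((((AL N R) ^ (n + 1)) u : BN N) : ℍ → ℂ) z‖ₑ ^ 2 ≤
      2 * TK N R (2 * n + 1) z * ENNReal.ofReal (‖u‖ ^ 2) := by
    calc 4 * ‖((((AL N R) ^ (n + 1)) u : BN N) : ℍ → ℂ) z‖ₑ ^ 2 ≤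
        4 * ((Ap R)^[n + 1] g z) ^ 2 := by gcongr
      _ = (2 * (Ap R)^[n + 1] g z) ^ 2 := by rw [mul_pow]; norm_num
      _ ≤ _ := h2
  have h5 : ∀ a : ℝ≥0∞, (4 : ℝ≥0∞)⁻¹ * (4 * a) = a := by
    intro a
    rw [← mul_assoc, ENNReal.inv_mul_cancel (by norm_num) (by norm_num), one_mul]
  calc ‖((((AL N R) ^ (n + 1)) u : BN N) : ℍ → ℂ) z‖ₑ ^ 2 =
      (4 : ℝ≥0∞)⁻¹ * (4 * ‖((((AL N R) ^ (n + 1)) u : BN N) : ℍ → ℂ) z‖ₑ ^ 2) := (h5 _).symm
    _ ≤ (4 : ℝ≥0∞)⁻¹ * (2 * TK N R (2 * n + 1) z * ENNReal.ofReal (‖u‖ ^ 2)) := by gcongr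
    _ = 2⁻¹ * TK N R (2 * n + 1) z * ENNReal.ofReal (‖u‖ ^ 2) := by
      have h6 : (4 : ℝ≥0∞)⁻¹ * 2 = 2⁻¹ := by
        have : (4 : ℝ≥0∞) = 2 * 2 := by norm_num
        rw [this, ENNReal.mul_inv (by norm_num) (by norm_num), mul_assoc,
          ENNReal.inv_mul_cancel (by norm_num) (by norm_num), mul_one]
      rw [← mul_assoc, ← mul_assoc, h6]

/-- the same for orthonormal families -/
theorem bessel_bound {R : ℝ} (hR : 0 < R) (n : ℕ) {d : ℕ} (v : Fin d → BN N) (hv : Orthonormal ℂ v)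
    (z : ℍ) :
    ∑ i, ENNReal.ofReal (‖((((AL N R) ^ (n + 1)) (v i) : BN N) : ℍ → ℂ) z‖ ^ 2) ≤
      2⁻¹ * TK N R (2 * n + 1) z := by
  set c : Fin d → ℂ := fun i => ((((AL N R) ^ (n + 1)) (v i) : BN N) : ℍ → ℂ) z with hc
  set u : BN N := ∑ i, conj (c i) • v i with hu
  have hS : ∑ i, ENNReal.ofReal (‖c i‖ ^ 2) = ENNReal.ofReal (∑ i, ‖c i‖ ^ 2) :=
    (ENNReal.ofReal_sum_of_nonneg fun i _ => by positivity).symm
  set S : ℝ := ∑ i, ‖c i‖ ^ 2 with hSdef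
  have hS0 : 0 ≤ S := Finset.sum_nonneg fun i _ => by positivity
  have hnorm : ‖u‖ ^ 2 = S := by
    have h1 : ((‖u‖ ^ 2 : ℝ) : ℂ) = inner ℂ u u := by
      rw [inner_self_eq_norm_sq_to_K]; push_cast; rfl
    rw [hu, hv.inner_sum] at h1
    have h2 : ∀ i, conj (conj (c i)) * conj (c i) = ((‖c i‖ ^ 2 : ℝ) : ℂ) := by
      intro i
      rw [Complex.conj_conj, Complex.mul_conj, Complex.normSq_eq_norm_sq]
    rw [Finset.sum_congr rfl fun i _ => h2 i, ← Complex.ofReal_sum] at h1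
    exact_mod_cast h1
  have hval : ((((AL N R) ^ (n + 1)) u : BN N) : ℍ → ℂ) z = (S : ℂ) := by
    rw [hu, map_sum]
    have h1 : ∀ s : Finset (Fin d), (((∑ i ∈ s, ((AL N R) ^ (n + 1)) (conj (c i) • v i) : BN N)) :
        ℍ → ℂ) z = ∑ i ∈ s, ((‖c i‖ ^ 2 : ℝ) : ℂ) := by
      intro s
      induction s using Finset.induction_on with
      | empty => simp
      | insert i s hi ih =>
        rw [Finset.sum_insert hi, Finset.sum_insert hi, Submodule.coe_add, Pi.add_apply, ih,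
          map_smul, Submodule.coe_smul, Pi.smul_apply, smul_eq_mul]
        congr 1
        have : ((((AL N R) ^ (n + 1)) (v i) : BN N) : ℍ → ℂ) z = c i := rfl
        rw [this, mul_comm, Complex.mul_conj, Complex.normSq_eq_norm_sq]
    rw [h1, ← Complex.ofReal_sum]
  have key := pointwise_bound hR n u z
  rw [hval, hnorm, Complex.norm_real, Real.norm_of_nonneg hS0, sq, ENNReal.ofReal_mul hS0] at key
  rw [hS]
  by_cases h0 : ENNReal.ofReal S = 0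
  · rw [h0]; exact bot_le
  · exact (ENNReal.mul_le_mul_iff_left h0 ENNReal.ofReal_ne_top).mp key

end

end Pool.Agent.H369R2
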