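import Pool.Agent.H369R2.Main

/-!
# MP_db315d_nt: the definitions used in the statement of the final theorem
-/

open UpperHalfPlane
open scoped MatrixGroups Manifold

namespace Pool.Agent.H369R2

/-- `F` is the function field of a smooth projective geometrically irreducible curve over `K`:
a finitely generated extension field of transcendence degree one in which `K` is algebraically
closed. -/
def IsFunctionField (K F : Type) [Field K] [Field F] [Algebra K F] : Prop :=
  (∃ s : Finset F, IntermediateField.adjoin K (s : Set F) = ⊤) ∧ Algebra.trdeg K F = 1 ∧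
    ∀ y : F, IsAlgebraic K y → ∃ a : K, algebraMap K F a = y

/-- the constant function `c` as a holomorphic function -/
def holConst (c : ℂ) : Hol := ⟨fun _ => c, mdifferentiable_const⟩

/-- Modular forms of weight `k` for a subgroup `Γ` of `SL(2,ℤ)` (Mathlib's `ModularForm`). -/
abbrev MF (Γ : Subgroup SL(2, ℤ)) (k : ℤ) : Type := ModularForm (Γ : Subgroup (GL (Fin 2) ℝ)) k

/-- A modular form as holomorphic function. -/
def MFhol {Γ : Subgroup SL(2, ℤ)} {k : ℤ} (a : MF Γ k) : Hol :=
  ofForm (Γ := (Γ : Subgroup (GL (Fin 2) ℝ))) (k := k) a

section
variable (L : Type) [Field L] [Algebra Hol L]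

/-- a holomorphic function as element of the field `L` of meromorphic functions -/
def incl (f : Hol) : L := algebraMap Hol L f

/-- `φ` is a modular function for `Γ`, i.e. an element of the function field of the compact Riemann
surface `X_Γ`: the quotient of two modular forms of the same weight. -/
def IsModFun (Γ : Subgroup SL(2, ℤ)) (φ : L) : Prop :=
  ∃ (k : ℤ) (a b : MF Γ k), MFhol b ≠ 0 ∧ φ = incl L (MFhol a) / incl L (MFhol b)

end

/-- There is a surjective morphism from `X_Γ` to (some complex conjugate of) the curve with function
field `F`: there is a ring homomorphism from `F` to the field `L` of meromorphic functions on the upper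
half plane (the field of fractions of the ring of holomorphic functions), all of whose values are
modular functions for `Γ` and not all of whose values are constant. -/
def DominatedBy (Γ : Subgroup SL(2, ℤ)) (F : Type) [Field F] : Prop :=
  ∃ (L : Type) (_ : Field L) (_ : Algebra Hol L) (_ : IsFractionRing Hol L) (φ : F →+* L),
    (∀ y, IsModFun L Γ (φ y)) ∧ ∃ y, ∀ c : ℂ, φ y ≠ incl L (holConst c)

open scoped IntermediateField.algebraAdjoinAdjoin in
theorem isFunctionField_of_isCurveField {K F : Type} [Field K] [Field F] [Algebra K F]
    (h : IsCurveField K F) : IsFunctionField K F := by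
  obtain ⟨⟨x, hx, hfin⟩, halg⟩ := h
  refine ⟨?_, ?_, halg⟩
  · obtain ⟨s, hs⟩ := Module.finite_def.1 hfin
    classical
    refine ⟨insert x s, ?_⟩
    set L := IntermediateField.adjoin K ((insert x s : Finset F) : Set F) with hL
    have h1 : IntermediateField.adjoin K {x} ≤ L := by
      refine IntermediateField.adjoin.mono _ _ _ ?_
      simp
    rw [eq_top_iff]
    intro y _
    have hy : y ∈ Submodule.span (IntermediateField.adjoin K {x}) (s : Set F) := by
      rw [hs]; exact Submodule.mem_top
    induction hy using Submodule.span_induction with
    | mem z hz =>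
      exact IntermediateField.subset_adjoin _ _ (by simp [hz])
    | zero => exact L.zero_mem
    | add a b _ _ ha hb => exact L.add_mem (ha trivial) (hb trivial)
    | smul c a _ ha =>
      rw [Algebra.smul_def]
      exact L.mul_mem (h1 c.2) (ha trivial)
  · have h1 : AlgebraicIndependent K (fun _ : Unit => x) := by
      rw [algebraicIndependent_unique_type_iff]
      exact hx
    have h2 : IsTranscendenceBasis K (fun _ : Unit => x) := by
      rw [isTranscendenceBasis_iff_algebraicIndependent_isAlgebraic]
      refine ⟨h1, ?_⟩
      have hr : Set.range (fun _ : Unit => x) = {x} := by simp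
      rw [hr]
      have i1 : Algebra.IsAlgebraic (Algebra.adjoin K {x}) (IntermediateField.adjoin K {x}) :=
        inferInstance
      have i2 : Algebra.IsAlgebraic (IntermediateField.adjoin K {x}) F := inferInstance
      exact Algebra.IsAlgebraic.trans (Algebra.adjoin K {x}) (IntermediateField.adjoin K {x}) F
    have := h2.cardinalMk_eq_trdeg
    rw [← this]
    simp

theorem dominates_of_dominatedBy {Γ : Subgroup SL(2, ℤ)} {F : Type} [Field F]
    (h : DominatedBy Γ F) : Dominates Γ F := by
  obtain ⟨L, iL, iA, iF, φ, h1, y, hy⟩ := h
  let e : L ≃ₐ[Hol] Mer := IsLocalization.algEquiv (nonZeroDivisors Hol) L Mer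
  refine ⟨(e : L →+* Mer).comp φ, fun y => ?_, y, fun c hc => hy c ?_⟩
  · obtain ⟨k, a, b, hb, hab⟩ := h1 y
    refine ⟨k, a, b, ?_, ?_⟩
    · rintro rfl
      exact hb rfl
    · have hb' : algebraMap Hol L (MFhol b) ≠ 0 := by
        rw [Ne, FaithfulSMul.algebraMap_eq_zero_iff Hol L]
        exact hb
      have h2 : φ y * algebraMap Hol L (MFhol b) = algebraMap Hol L (MFhol a) := by
        rw [hab]
        exact div_mul_cancel₀ _ hb'
      have h3 := congrArg e h2
      rw [map_mul, e.commutes, e.commutes] at h3
      exact h3
  · have h2 : e (φ y) = e (algebraMap Hol L (holConst c)) := by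
      rw [e.commutes]
      exact hc
    exact e.injective h2

end Pool.Agent.H369R2
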