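import Pool.Agent.H369R2.Defs
import Pool.Agent.H369R2.FinalDefs
import Pool.Agent.H369R2.S3a
import Pool.Agent.H369R2.S3b
import Pool.Agent.H369R2.S6b
import Pool.Agent.H369R2.S6c
import Pool.Agent.H369R2.S6d
import Pool.Agent.H369R2.S8a
import Pool.Agent.H369R2.S8b
import Pool.Agent.H369R2.S10
import Pool.Agent.H369R2.S11
import Pool.Agent.H369R2.S12a
import Pool.Agent.H369R2.S12b
import Pool.Agent.H369R2.S13
import Pool.Agent.H369R2.S14a
import Pool.Agent.H369R2.S14b
import Pool.Agent.H369R2.S14c
import Pool.Agent.H369R2.S14d

/-!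
# Stubs (statements only) for the TEAM-G project, MP_db315d_nt

Finished tasks are imported, open ones are stated with `sorry`.
-/

open UpperHalfPlane MeasureTheory Metric ModularGroup CongruenceSubgroup
open scoped MatrixGroups ENNReal Modular Topology

namespace Pool.Agent.H369R2

end Pool.Agent.H369R2
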